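import Pool.Agent.Helper71.FC.GL2
import Pool.Agent.Helper71.FL.MainL

/-! FC-7: the input `CL` of block L from the closure of the forms with good restriction.
* `cone_iff`: if `A' = pb φ A` take `v` in the kernel of `lmap φ`; conversely `i_v θ = 0`, `θ = dA'` closed, so `v` is a symmetry; in
  coordinates with `v = ∂/∂x_0` the form `A' = i_R θ / (d + 2)` does not depend on `x_0`, `dx_0`.
* `not_cone_open`: `v ↦ i_v (dA')` is injective, so some `(N+1) × (N+1)` minor of its coefficient matrix is not zero; it is a polynomial in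
  the coefficients of `A'`.
* `CL_of_ClGood`: let `S` be a component which does not consist of pullbacks, `A0 ∈ S` not a pullback, `F` from `not_cone_open`; let `A1 ∈ S` with
  `G1 A1 ≠ 0` where `G1` vanishes on the other components (they are finitely many, `comp_finite`, and closed, `comp_closed`); `S` is
  irreducible, so some `A2 ∈ S` has `F A2 ≠ 0`, `G1 A2 ≠ 0`; apply the hypothesis to `A2` and `G = F * G1`: the form `A''` lies only on `S`. -/

set_option autoImplicit false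

namespace Pool.Agent.Helper71.FC

open MvPolynomial
open scoped BigOperators
open Pool.Agent.Helper71.FL (w12 pf ct Dec Closed dd res Good CL)
open Pool.Agent.Helper93 (lsub lmap OF RE HomS IntS FolS Cop Comp PreIrr pb)

variable {N d n : ℕ}

/-- `A'` lies in the closure of the foliations with good restriction -/
def ClGood (N d : ℕ) (A' : OF (N + 1)) : Prop :=
  ∀ G ∈ RE (N + 1), G A' ≠ 0 →
    ∃ A'' ∈ FolS (N + 1) d, G A'' ≠ 0 ∧ Cop (res A'') ∧ Good (dd (res A''))

private theorem ct_cv (θ : F2 n) (v : Fin n → ℂ) (j : Fin n) :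
    av θ v j = ∑ i, C (v i) * θ i j := rfl

private theorem av_zero (θ : F2 n) : av θ 0 = fun _ => 0 := by
  funext j
  rw [ct_cv]
  apply Finset.sum_eq_zero
  intro i _
  simp

private theorem pb_zero {n m : ℕ} (φ : Fin n → Fin m → ℂ) : pb φ (fun _ => 0) = fun _ => 0 := by
  funext j
  unfold pb
  apply Finset.sum_eq_zero
  intro i _
  simp

private theorem cone_of_pb {φ : Fin N → Fin (N + 1) → ℂ} {A : OF N} : Cone (dd (pb φ A)) := by
  have hk : LinearMap.ker (lmap φ) ≠ ⊥ := by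
    apply LinearMap.ker_ne_bot_of_finrank_lt
    simp
  obtain ⟨v, hv, hv0⟩ := Submodule.exists_mem_ne_zero_of_ne_bot hk
  rw [LinearMap.mem_ker] at hv
  refine ⟨v, hv0, fun j => ?_⟩
  rw [← pb2_dd, av_pb2, hv, av_zero, pb_zero]

private theorem IntB_iff {A : OF N} : A ∈ Pool.Agent.Helper71.FL.IntB N d ℂ ↔ A ∈ IntS N d := by
  rw [Pool.Agent.Helper71.FL.IntB_eq]

private theorem pb_of_cone {A' : OF (N + 1)} (hA : A' ∈ IntS (N + 1) d) (hc : Cone (dd A')) :
    ∃ φ : Fin N → Fin (N + 1) → ℂ, ∃ A ∈ IntS N d, A' = pb φ A := by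
  obtain ⟨v, hv0, hv⟩ := hc
  obtain ⟨g, g', hg, hg1⟩ := exists_basis (n := N + 1) (r := 1) (by omega) (fun _ => v)
    (by
      rw [linearIndependent_unique_iff]
      exact hv0)
  have h0 := hg1 0
  have hcast : Fin.castLE (show 1 ≤ N + 1 by omega) 0 = (0 : Fin (N + 1)) := by
    ext; simp
  rw [hcast] at h0
  set B : OF (N + 1) := pb g A' with hB
  have hBI : B ∈ IntS (N + 1) d := Pool.Agent.Helper93.pb_IntS g hA
  have hav : av (dd A') v = fun _ => 0 := funext hv
  have h1 : ∀ j, dd B 0 j = 0 := by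
    intro j
    have h2 : av (dd B) (fun j => if j = 0 then 1 else 0) j = 0 := by
      rw [hB, ← pb2_dd, av_pb2, h0, hav, pb_zero]
    rw [ct_cv, Finset.sum_eq_single 0] at h2
    · simpa using h2
    · intro i _ hi
      simp [hi]
    · intro h; exact absurd (Finset.mem_univ _) h
  have h1' : ∀ j, dd B j 0 = 0 := by
    intro j
    have h2 : dd B j 0 = - dd B 0 j := by
      unfold dd; ring
    rw [h2, h1, neg_zero]
  have h3 : ∀ i j, pderiv 0 (dd B i j) = 0 := by
    intro i j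
    have h4 := Pool.Agent.Helper71.FL.dd_closed B 0 i j
    rw [h1', h1, map_zero, map_zero, add_zero, add_zero] at h4
    exact h4
  have hne : ((d : ℂ) + 2) ≠ 0 := by
    have : ((d : ℂ) + 2) = ((d + 2 : ℕ) : ℂ) := by push_cast; ring
    rw [this]
    exact Nat.cast_ne_zero.mpr (by omega)
  have heul : ∀ j, B j = C (1 / ((d : ℂ) + 2)) * ct X (dd B) j := by
    intro j
    have h5 := Pool.Agent.Helper71.FL.euler_dd (IntB_iff.mpr hBI) j
    rw [h5, ← mul_assoc, ← C_mul]
    simp [hne]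
  have hB0 : B 0 = 0 := by
    rw [heul 0]
    unfold ct
    rw [Finset.sum_eq_zero, mul_zero]
    intro i _
    rw [h1', mul_zero]
  have hBd : ∀ j, pderiv 0 (B j) = 0 := by
    intro j
    rw [heul j, pderiv_C_mul]
    unfold ct
    rw [map_sum, Finset.sum_eq_zero, mul_zero]
    intro i _
    by_cases hi : i = 0
    · rw [hi, h1, mul_zero, map_zero]
    · rw [pderiv_mul, h3, mul_zero, add_zero, pderiv_X_of_ne hi, zero_mul]
  have hcone : B = Pool.Agent.Helper71.FL.cone (res B) := by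
    funext k
    refine Fin.cases ?_ ?_ k
    · rw [hB0]
      rfl
    · intro j
      have h6 := Pool.Agent.Helper71.FL.int0_pderiv (B j.succ)
      rw [hBd, map_zero] at h6
      exact sub_eq_zero.mp h6.symm
  have hres : res B ∈ IntS N d := IntB_iff.mp (Pool.Agent.Helper71.FL.res_IntB (IntB_iff.mpr hBI))
  refine ⟨mm (fun (l : Fin N) (k : Fin (N + 1)) => if k = l.succ then (1 : ℂ) else 0) g', res B,
    hres, ?_⟩
  rw [← pb_mm, ← Pool.Agent.Helper71.FL.cone_eq_pb, ← hcone, hB, pb_mm, hg.1, pb_idm]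

private theorem exists_minor {K : Type} (n : ℕ) (c : K → Fin n → ℂ)
    (h : ∀ v : Fin n → ℂ, (∀ k, ∑ a, v a * c k a = 0) → v = 0) :
    ∃ s : Fin n → K, (Matrix.of fun a b => c (s b) a).det ≠ 0 := by
  classical
  have hspan : Submodule.span ℂ (Set.range c) = ⊤ := by
    by_contra hne
    obtain ⟨f, hf0, hf⟩ := Submodule.exists_le_ker_of_lt_top _ (lt_top_iff_ne_top.mpr hne)
    apply hf0
    have h1 : (fun a => f (Pi.single a 1)) = (0 : Fin n → ℂ) := by
      apply h
      intro k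
      have h2 : f (c k) = 0 := hf (Submodule.subset_span ⟨k, rfl⟩)
      rw [← h2]
      conv_rhs => rw [← Finset.univ_sum_single (c k)]
      rw [map_sum]
      apply Finset.sum_congr rfl
      intro a _
      have h3 : (Pi.single a (c k a) : Fin n → ℂ) = c k a • Pi.single a 1 := by
        rw [← Pi.single_smul]; simp
      rw [h3, map_smul, smul_eq_mul, mul_comm]
    apply LinearMap.pi_ext'
    intro a
    ext
    have := congrFun h1 a
    simpa using this
  obtain ⟨f, hf1, hf2, hf3⟩ := Submodule.exists_fun_fin_finrank_span_eq ℂ (Set.range c)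
  have hfr : Module.finrank ℂ (Submodule.span ℂ (Set.range c)) = n := by
    rw [hspan, finrank_top]
    simp
  have hf4 : LinearIndependent ℂ (fun b : Fin n => f (Fin.cast hfr.symm b)) :=
    hf3.comp _ (Fin.cast_injective _)
  choose s hs using hf1
  refine ⟨fun b => s (Fin.cast hfr.symm b), ?_⟩
  have h5 : (Matrix.of fun a b => c (s (Fin.cast hfr.symm b)) a) =
      (Matrix.of (fun b : Fin n => f (Fin.cast hfr.symm b))).transpose := by
    ext a b
    simp [hs]
  rw [h5, Matrix.det_transpose]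
  have h6 := (Matrix.linearIndependent_rows_iff_isUnit (A := Matrix.of (fun b : Fin n => f (Fin.cast hfr.symm b)))).mp hf4
  exact ((Matrix.isUnit_iff_isUnit_det _).mp h6).ne_zero

private theorem coeff_av (θ : F2 n) (v : Fin n → ℂ) (j : Fin n) (μ : Fin n →₀ ℕ) :
    coeff μ (av θ v j) = ∑ a, v a * coeff μ (θ a j) := by
  rw [ct_cv, coeff_sum]
  apply Finset.sum_congr rfl
  intro a _
  rw [coeff_C_mul]

private theorem coeff_dd_RE (a j : Fin n) (μ : Fin n →₀ ℕ) :
    (fun B : OF n => coeff μ (dd B a j)) ∈ RE n := by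
  have h1 : ∀ (i : Fin n) (ν : Fin n →₀ ℕ), (fun B : OF n => coeff ν (B i)) ∈ RE n :=
    fun i ν => Algebra.subset_adjoin ⟨i, ν, rfl⟩
  have h2 : (fun B : OF n => coeff μ (dd B a j)) =
      (((μ a : ℂ) + 1) • (fun B : OF n => coeff (μ + Finsupp.single a 1) (B j))) -
      (((μ j : ℂ) + 1) • (fun B : OF n => coeff (μ + Finsupp.single j 1) (B a))) := by
    funext B
    unfold dd
    rw [coeff_sub, coeff_pderiv, coeff_pderiv]
    simp only [Pi.sub_apply, Pi.smul_apply, smul_eq_mul]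
    ring
  rw [h2]
  exact (RE n).sub_mem ((RE n).smul_mem (h1 _ _) _) ((RE n).smul_mem (h1 _ _) _)

theorem cone_iff {A' : OF (N + 1)} (hA : A' ∈ IntS (N + 1) d) :
    Cone (dd A') ↔ ∃ φ : Fin N → Fin (N + 1) → ℂ, ∃ A ∈ IntS N d, A' = pb φ A := by
  constructor
  · exact pb_of_cone hA
  · rintro ⟨φ, A, _, rfl⟩
    exact cone_of_pb

theorem not_cone_open {A' : OF (N + 1)} (h : ¬ Cone (dd A')) :
    ∃ F ∈ RE (N + 1), F A' ≠ 0 ∧ ∀ B, F B ≠ 0 → ¬ Cone (dd B) := by
  classical
  obtain ⟨s, hs⟩ := exists_minor (K := Fin (N + 1) × (Fin (N + 1) →₀ ℕ)) (N + 1)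
    (fun k a => coeff k.2 (dd A' a k.1)) (by
      intro v hv
      by_contra hv0
      apply h
      refine ⟨v, hv0, fun j => ?_⟩
      ext μ
      rw [coeff_av, coeff_zero]
      exact hv (j, μ))
  refine ⟨fun B => (Matrix.of fun a b => coeff (s b).2 (dd B a (s b).1)).det, ?_, hs, ?_⟩
  · have h1 : (fun B : OF (N + 1) => (Matrix.of fun a b => coeff (s b).2 (dd B a (s b).1)).det) =
        ∑ σ : Equiv.Perm (Fin (N + 1)), ((Equiv.Perm.sign σ : ℤ) : ℂ) •
          ∏ b, (fun B : OF (N + 1) => coeff (s b).2 (dd B (σ b) (s b).1)) := by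
      funext B
      rw [Matrix.det_apply', Finset.sum_apply]
      apply Finset.sum_congr rfl
      intro σ _
      rw [Pi.smul_apply, Finset.prod_apply, smul_eq_mul]
      rfl
    rw [h1]
    apply (RE (N + 1)).sum_mem
    intro σ _
    apply (RE (N + 1)).smul_mem
    apply (RE (N + 1)).prod_mem
    intro b _
    exact coeff_dd_RE _ _ _
  · rintro B hB ⟨v, hv0, hv⟩
    apply hB
    rw [← Matrix.exists_vecMul_eq_zero_iff]
    refine ⟨v, hv0, ?_⟩
    funext b
    have h2 := congrArg (coeff (s b).2) (hv (s b).1)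
    rw [coeff_av, coeff_zero] at h2
    exact h2

theorem Fol_dd {A : OF N} (hA : A ∈ FolS N 3) : Fol (dd A) := by
  obtain ⟨hI, hc⟩ := hA
  have hB := IntB_iff.mpr hI
  refine ⟨Pool.Agent.Helper71.FL.dd_hom hB.1, Pool.Agent.Helper71.FL.dd_dec hB.2.2,
    Pool.Agent.Helper71.FL.dd_closed A, ?_⟩
  intro p hp
  apply hc
  intro j
  have h1 := Pool.Agent.Helper71.FL.euler_dd hB j
  have h2 : p ∣ ct X (dd A) j := by
    unfold ct
    exact Finset.dvd_sum (fun i _ => (hp i j).mul_left _)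
  rw [h1] at h2
  have h3 : A j = C (1 / (((3 : ℕ) : ℂ) + 2)) * (C ((algebraMap ℂ ℂ) (((3 : ℕ) : ℂ) + 2)) * A j) := by
    rw [← mul_assoc, ← C_mul]
    have : (1 / (((3 : ℕ) : ℂ) + 2)) * ((algebraMap ℂ ℂ) (((3 : ℕ) : ℂ) + 2)) = 1 := by
      norm_num
    rw [this, C_1, one_mul]
  rw [h3]
  exact h2.mul_left _

theorem CL_of_ClGood (hN : 0 < N)
    (h : ∀ A' ∈ FolS (N + 1) d, ¬ Cone (dd A') → ClGood N d A') : CL N d := by
  classical
  intro S hS
  by_cases hall : ∀ A' ∈ S, ∃ φ : Fin N → Fin (N + 1) → ℂ, ∃ A ∈ IntS N d, A' = pb φ A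
  · exact Or.inl hall
  right
  push Not at hall
  obtain ⟨A0, hA0, hA0n⟩ := hall
  have hN1 : 0 < N + 1 := by omega
  have hc0 : ¬ Cone (dd A0) := by
    intro hc
    obtain ⟨φ, A, hA, he⟩ := (cone_iff (hS.1.1 hA0).1).mp hc
    exact hA0n φ A hA he
  obtain ⟨F, hF, hF0, hF1⟩ := not_cone_open hc0
  have hfin := Pool.Agent.Helper93.comp_finite (d := d) hN1
  have hsep : ∀ S2 : Set (OF (N + 1)), ∃ f ∈ RE (N + 1),
      (S2 ∈ Comp (RE (N + 1)) (FolS (N + 1) d) → S2 ≠ S →
        (∀ q ∈ S2, f q = 0) ∧ ∃ p ∈ S, f p ≠ 0) := by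
    intro S2
    by_cases hS2 : S2 ∈ Comp (RE (N + 1)) (FolS (N + 1) d) ∧ S2 ≠ S
    · have hnot : ¬ S ⊆ S2 := by
        intro hsub
        apply hS2.2
        exact (hS.2 hS2.1.1 hsub).antisymm hsub
      obtain ⟨p, hpS, hpS2⟩ := Set.not_subset.mp hnot
      by_contra hcon
      push Not at hcon
      apply hpS2
      apply Pool.Agent.Helper71.FL.comp_closed hS2.1 (hS.1.1 hpS)
      intro f hf hfz
      obtain ⟨_, _, h3⟩ := hcon f hf
      exact h3 hfz p hpS
    · refine ⟨0, (RE (N + 1)).zero_mem, ?_⟩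
      intro h1 h2
      exact absurd ⟨h1, h2⟩ hS2
  choose f hf hf2 using hsep
  let T : Finset (Set (OF (N + 1))) := hfin.toFinset.erase S
  have hprod : ∃ A2 ∈ S, F A2 ≠ 0 ∧ ∏ i ∈ T, f i A2 ≠ 0 := by
    by_contra hcon
    push Not at hcon
    have hP : (fun p => ∏ i ∈ T, f i p) ∈ RE (N + 1) := by
      have h1 : (∏ i ∈ T, f i) ∈ RE (N + 1) := (RE (N + 1)).prod_mem (fun i _ => hf i)
      convert h1 using 1
      funext p
      rw [Finset.prod_apply]
    rcases hS.1.2.2 F hF _ hP (by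
      intro p hp
      by_cases hFp : F p = 0
      · rw [hFp, zero_mul]
      · rw [hcon p hp hFp, mul_zero]) with h1 | h1
    · exact hF0 (h1 A0 hA0)
    · obtain ⟨i, hi, hi2⟩ := Pool.Agent.Helper93.PreIrr_prod_zero (RE (N + 1)) hS.1.2 T f
        (fun i _ => hf i) h1
      have hi' := Finset.mem_erase.mp hi
      obtain ⟨_, p, hp, hp2⟩ := hf2 i (hfin.mem_toFinset.mp hi'.2) hi'.1
      exact hp2 (hi2 p hp)
  obtain ⟨A2, hA2, hFA2, hPA2⟩ := hprod
  have hG : (∏ i ∈ T, f i) ∈ RE (N + 1) := (RE (N + 1)).prod_mem (fun i _ => hf i)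
  obtain ⟨A3, hA3, hG3, hc3, hg3⟩ := h A2 (hS.1.1 hA2) (hF1 A2 hFA2) (∏ i ∈ T, f i) hG
    (by rw [Finset.prod_apply]; exact hPA2)
  rw [Finset.prod_apply, Finset.prod_ne_zero_iff] at hG3
  have huniq : ∀ S2 ∈ Comp (RE (N + 1)) (FolS (N + 1) d), A3 ∈ S2 → S2 = S := by
    intro S2 hS2 hA3S
    by_contra hne
    have h1 := (hf2 S2 hS2 hne).1 A3 hA3S
    exact hG3 S2 (Finset.mem_erase.mpr ⟨hne, hfin.mem_toFinset.mpr hS2⟩) h1
  obtain ⟨J, hJ⟩ := Pool.Agent.Helper93.fol_bound d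
  obtain ⟨Z, hZ1, hZ2⟩ := hJ (N + 1) hN1
  obtain ⟨S3, hS3, hsub⟩ := Pool.Agent.Helper93.exists_Comp (RE (N + 1)) hZ2 hZ1
    (t := {A3}) ⟨Set.singleton_nonempty _, by
      intro f1 _ g1 _ hfg
      rcases mul_eq_zero.mp (hfg A3 rfl) with h1 | h1
      · left; rintro p rfl; exact h1
      · right; rintro p rfl; exact h1⟩ (Set.singleton_subset_iff.mpr hA3)
  have hS3S := huniq S3 hS3 (hsub rfl)
  refine ⟨A3, ?_, huniq, hc3, hg3⟩
  rw [← hS3S]
  exact hsub rfl

end Pool.Agent.Helper71.FC
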