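import Pool.Agent.Helper71.FL.MainL

/-! The frozen statement S00166 from the input `CL N 3` (`N ≥ 4`) of block L. -/

set_option autoImplicit false

namespace Pool.Agent.Helper71.FC

open scoped BigOperators
open Pool.Agent.Helper71.FL (CL ncard_const)

theorem comp_eq (n : ℕ) :
    {S : Set (Fin (n+1) → MvPolynomial (Fin (n+1)) ℂ) |
          Maximal (fun t : Set (Fin (n+1) → MvPolynomial (Fin (n+1)) ℂ) =>
            t ⊆ {A : Fin (n+1) → MvPolynomial (Fin (n+1)) ℂ |
              (∀ i, (A i).IsHomogeneous 4) ∧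
              (∑ i, (MvPolynomial.X i : MvPolynomial (Fin (n+1)) ℂ) * A i) = 0 ∧
              (∀ i j k : Fin (n+1),
                A i * (MvPolynomial.pderiv j (A k) - MvPolynomial.pderiv k (A j)) +
                A j * (MvPolynomial.pderiv k (A i) - MvPolynomial.pderiv i (A k)) +
                A k * (MvPolynomial.pderiv i (A j) - MvPolynomial.pderiv j (A i)) = 0) ∧
              (∀ p : MvPolynomial (Fin (n+1)) ℂ, (∀ i, p ∣ A i) → IsUnit p)} ∧
            @IsIrreducible (Fin (n+1) → MvPolynomial (Fin (n+1)) ℂ)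
              (TopologicalSpace.generateFrom
                {U : Set (Fin (n+1) → MvPolynomial (Fin (n+1)) ℂ) |
                  ∃ f : MvPolynomial (Fin (n+1) × (Fin (n+1) →₀ ℕ)) ℂ,
                    U = {A : Fin (n+1) → MvPolynomial (Fin (n+1)) ℂ |
                      MvPolynomial.eval (fun q : Fin (n+1) × (Fin (n+1) →₀ ℕ) =>
                        (A q.1).coeff q.2) f ≠ 0}}) t) S} =
    Helper93.Comp (Helper93.RE (n + 1)) (Helper93.FolS (n + 1) 3) := by
  have hFol : {A : Fin (n+1) → MvPolynomial (Fin (n+1)) ℂ |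
              (∀ i, (A i).IsHomogeneous 4) ∧
              (∑ i, (MvPolynomial.X i : MvPolynomial (Fin (n+1)) ℂ) * A i) = 0 ∧
              (∀ i j k : Fin (n+1),
                A i * (MvPolynomial.pderiv j (A k) - MvPolynomial.pderiv k (A j)) +
                A j * (MvPolynomial.pderiv k (A i) - MvPolynomial.pderiv i (A k)) +
                A k * (MvPolynomial.pderiv i (A j) - MvPolynomial.pderiv j (A i)) = 0) ∧
              (∀ p : MvPolynomial (Fin (n+1)) ℂ, (∀ i, p ∣ A i) → IsUnit p)} =
      Helper93.FolS (n + 1) 3 := by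
    ext A
    unfold Helper93.FolS Helper93.IntS Helper93.Cop Helper93.GG
    simp only [Set.mem_ofPred_eq, and_assoc]
  have h1 := (Helper93.zar_eq (n + 1)).symm
  rw [hFol, h1]
  unfold Helper93.Comp
  congr 1
  funext S
  congr 1
  funext t
  apply propext
  exact and_congr Iff.rfl (Helper93.isIrreducible_iff (Helper93.RE (n + 1)) t)

theorem not_main_of (h : ∀ N, 4 ≤ N → CL N 3) :
    ¬ (∃ c : ℕ → ℕ,
      (∀ n : ℕ, 3 ≤ n →
        c n = Set.ncard {S : Set (Fin (n+1) → MvPolynomial (Fin (n+1)) ℂ) |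
          Maximal (fun t : Set (Fin (n+1) → MvPolynomial (Fin (n+1)) ℂ) =>
            t ⊆ {A : Fin (n+1) → MvPolynomial (Fin (n+1)) ℂ |
              (∀ i, (A i).IsHomogeneous 4) ∧
              (∑ i, (MvPolynomial.X i : MvPolynomial (Fin (n+1)) ℂ) * A i) = 0 ∧
              (∀ i j k : Fin (n+1),
                A i * (MvPolynomial.pderiv j (A k) - MvPolynomial.pderiv k (A j)) +
                A j * (MvPolynomial.pderiv k (A i) - MvPolynomial.pderiv i (A k)) +
                A k * (MvPolynomial.pderiv i (A j) - MvPolynomial.pderiv j (A i)) = 0) ∧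
              (∀ p : MvPolynomial (Fin (n+1)) ℂ, (∀ i, p ∣ A i) → IsUnit p)} ∧
            @IsIrreducible (Fin (n+1) → MvPolynomial (Fin (n+1)) ℂ)
              (TopologicalSpace.generateFrom
                {U : Set (Fin (n+1) → MvPolynomial (Fin (n+1)) ℂ) |
                  ∃ f : MvPolynomial (Fin (n+1) × (Fin (n+1) →₀ ℕ)) ℂ,
                    U = {A : Fin (n+1) → MvPolynomial (Fin (n+1)) ℂ |
                      MvPolynomial.eval (fun q : Fin (n+1) × (Fin (n+1) →₀ ℕ) =>
                        (A q.1).coeff q.2) f ≠ 0}}) t) S}) ∧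
      ∃ n m : ℕ, 3 ≤ n ∧ 3 ≤ m ∧ c n ≠ c m) := by
  rintro ⟨c, hc, n, m, hn, hm, hne⟩
  apply hne
  rw [hc n hn, hc m hm, comp_eq, comp_eq]
  have h1 := ncard_const (d := 3) (by norm_num) 4 (by norm_num) h (n + 1) (by omega)
  have h2 := ncard_const (d := 3) (by norm_num) 4 (by norm_num) h (m + 1) (by omega)
  rw [h1, h2]

end Pool.Agent.Helper71.FC
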