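import Pool.Agent.Helper71.FC.OK
import Pool.Agent.Helper71.FC.CLof
import Pool.Agent.Helper71.FC.Frozen

/-! The classification: interface statements `IC0`, `IW2`, `IC2`, `IY` of its four parts, and the assembly.
`θ` is a closed decomposable primitive 2-form with cubic coefficients in `n ≥ 5` variables which is not a cone. -/

set_option autoImplicit false

namespace Pool.Agent.Helper71.FC

open MvPolynomial
open scoped BigOperators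
open Pool.Agent.Helper71.FL (w12 pf ct Dec Closed dd CL)
open Pool.Agent.Helper93 (lsub lmap OF pb IntS FolS)
open Pool.Agent.Helper1.FG (OKForm IsPull CL_of_class)

/-- part (C0): `E_0 ≠ 0` or `E_1 ≠ 0` -/
def IC0 : Prop := ∀ (n : ℕ), 5 ≤ n → ∀ θ : F2 n, Fol θ → ¬ Cone θ →
  (EE θ 0 ≠ ⊥ ∨ EE θ 1 ≠ ⊥) → OKF θ

/-- `σ` vanishes on a space of constant vectors of codimension at most three -/
def Van3 {n : ℕ} (σ : F1 n) : Prop :=
  ∃ D : Submodule ℂ (Fin n → ℂ), n ≤ Module.finrank ℂ D + 3 ∧ ∀ v ∈ D, pair (cv v) σ = 0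

/-- part (C1): some `σ ∈ E_2` vanishes on a space of constant vectors of codimension at most three -/
def IW2 : Prop := ∀ (n : ℕ), 5 ≤ n → ∀ θ : F2 n, Fol θ → ¬ Cone θ → EE θ 0 = ⊥ → EE θ 1 = ⊥ →
  ∀ σ ∈ EE θ 2, σ ≠ 0 → Van3 σ → OKF θ

/-- part (C2): `E_2 ≠ 0` -/
def IC2 : Prop := ∀ (n : ℕ), 5 ≤ n → ∀ θ : F2 n, Fol θ → ¬ Cone θ → EE θ 0 = ⊥ → EE θ 1 = ⊥ →
  EE θ 2 ≠ ⊥ → OKF θ ∨ ∃ σ ∈ EE θ 2, σ ≠ 0 ∧ Van3 σ

/-- case Y: `E_0 = E_1 = E_2 = 0` -/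
def IY : Prop := ∀ (n : ℕ), 5 ≤ n → ∀ θ : F2 n, Fol θ → ¬ Cone θ → EE θ 0 = ⊥ → EE θ 1 = ⊥ →
  EE θ 2 = ⊥ → OKF θ

theorem classification (h0 : IC0) (h1 : IW2) (h2 : IC2) (h3 : IY) (n : ℕ) (hn : 5 ≤ n) (θ : F2 n)
    (h : Fol θ) (hc : ¬ Cone θ) : OKF θ := by
  by_cases e0 : EE θ 0 = ⊥
  · by_cases e1 : EE θ 1 = ⊥
    · by_cases e2 : EE θ 2 = ⊥
      · exact h3 n hn θ h hc e0 e1 e2
      · rcases h2 n hn θ h hc e0 e1 e2 with h4 | ⟨σ, hσ, hσ0, hv⟩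
        · exact h4
        · exact h1 n hn θ h hc e0 e1 σ hσ hσ0 hv
    · exact h0 n hn θ h hc (Or.inr e1)
  · exact h0 n hn θ h hc (Or.inl e0)

theorem CL_all (h0 : IC0) (h1 : IW2) (h2 : IC2) (h3 : IY) (N : ℕ) (hN : 4 ≤ N) : CL N 3 := by
  apply CL_of_class hN
  intro A' hA'
  by_cases hc : Cone (dd A')
  · exact Or.inl ((cone_iff hA'.1).mp hc)
  · exact Or.inr (OKForm_of_OKF hA'.1
      (classification h0 h1 h2 h3 (N + 1) (by omega) (dd A') (Fol_dd hA') hc))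

end Pool.Agent.Helper71.FC
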