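import Pool.Agent.Helper71.FC.GenP

/-! FC-8: restrictions to general subspaces have no common factor.
KEY TRICK.  Restrict to the hyperplane `x_0 = Σ_{i ≥ 1} a_i x_i`, `a` indeterminate: `ℂ[a, x_1, ..]` localised at `x_1` is
`ℂ[x_0, x_1^±, x_2, .., a_2, ..]` (`a_1 = (x_0 - Σ_{i ≥ 2} a_i x_i) / x_1`): the variables `x_0, .., x_n, a_2, .., a_n` are independent.
(1) `cop_res`: a common factor of the `f_i(Σ a_i x_i, x)` in `ℂ[a, x]` is, in the localisation, a common factor of the `f_i(x_0, .., x_n)`, so it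
is a unit there, i.e. a power of `x_1`; the same with `x_2` in place of `x_1` (`2 ≤ n`): it is a constant.
(2) From indeterminate to special `a`: if for all `a ∈ ℂ^n` the restrictions `B_i^a` (degree `d`) have a common factor then the linear system
`B_i C_j = B_j C_i` (`C_i` homogeneous of degree `d - 1`) has a non zero solution for all `a`, so (minors) over `ℂ(a)`, so in `ℂ[a, x]`; in this UFD
`B_i / C_i = p / q` in lowest terms, `p` is a common factor of the `B_i` of positive degree in `x`.  (Compare `LL`, `LL_inj_of_cop`,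
`cop_of_LL_inj`, `cop_open` in `Helper93/CopL.lean`.)  The existence of one `φ` and openness (`cop_open`) give `GenM`.
(3) 2-forms, `3 ≤ n` (the hyperplane has dimension `n`): `Θ_ij = θ_ij + a_i θ_0j - a_j θ_0i`.  `Θ_23` is linear in `a_2, a_3` with coefficients
`θ_23, θ_03, -θ_02`; an irreducible common factor `P` either divides these coefficients or is `Θ_23 / content`; in the second case, with
`x_1 Θ_12 = (x_1 θ_12 + x_0 θ_02 - ..) - a_2 (x_2 θ_02 + x_1 θ_01) - ..` one finds `A_0 = A_2 = .. = 0` for `A = i_R θ`, so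
`θ = dA / 5 = 0`; in the first case `P ∈ ℂ[x]` divides `x_1 θ_ij` for all `i, j`, so `P = x_1` up to a constant; use `x_2` as well. -/

set_option autoImplicit false

namespace Pool.Agent.Helper71.FC

open MvPolynomial
open scoped BigOperators
open Pool.Agent.Helper71.FL (w12 pf ct Dec Closed dd)
open Pool.Agent.Helper93 (lsub lmap OF pb)

variable {n m : ℕ}

/-- no common factor -/
def CopF {ι : Type} (f : ι → Pn n) : Prop := ∀ p, (∀ i, p ∣ f i) → IsUnit p

private theorem gen_notMem {N : ℕ} (T : Submodule ℂ (Fin N → ℂ)) (hT : T ≠ ⊤) :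
    Gen (fun u : Fin N → ℂ => u ∉ T) := by
  classical
  obtain ⟨f, hf, hle⟩ := Submodule.exists_le_ker_of_lt_top T (lt_top_iff_ne_top.mpr hT)
  have hev : ∀ u : Fin N → ℂ, eval u (∑ i, C (f (Pi.single i 1)) * X i : MvPolynomial (Fin N) ℂ) = f u := by
    intro u
    rw [map_sum]
    have h1 : u = ∑ i, u i • (Pi.single i 1 : Fin N → ℂ) := by
      funext b
      rw [Finset.sum_apply, Finset.sum_eq_single b]
      · simp
      · intro b' _ hb'
        simp [Ne.symm hb']
      · intro h; exact absurd (Finset.mem_univ _) h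
    conv_rhs => rw [h1]
    rw [map_sum]
    apply Finset.sum_congr rfl
    intro i _
    rw [map_smul, map_mul, eval_C, eval_X, smul_eq_mul, mul_comm]
  refine ⟨∑ i, C (f (Pi.single i 1)) * X i, ?_, ?_⟩
  · intro h0
    apply hf
    ext i
    have := hev (Pi.single i 1)
    rw [h0, map_zero] at this
    simpa using this.symm
  · intro u hu hmem
    apply hu
    rw [hev]
    exact hle hmem

private theorem irr_factors {R : Type} [CommRing R] [IsDomain R] [UniqueFactorizationMonoid R]
    {a : R} (ha : a ≠ 0) : ∃ s : Finset R, (∀ p ∈ s, Irreducible p) ∧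
      ∀ p, Irreducible p → p ∣ a → ∃ q ∈ s, Associated p q := by
  classical
  refine ⟨(UniqueFactorizationMonoid.factors a).toFinset, ?_, ?_⟩
  · intro p hp
    exact UniqueFactorizationMonoid.irreducible_of_factor p (Multiset.mem_toFinset.mp hp)
  · intro p hp hd
    obtain ⟨q, hq, hpq⟩ := UniqueFactorizationMonoid.exists_mem_factors_of_dvd ha hp hd
    exact ⟨q, Multiset.mem_toFinset.mpr hq, hpq⟩

/-- contraction with the Euler field commutes with pullback -/
private theorem eul_pb2 (φ : Fin n → Fin m → ℂ) (θ : F2 n) (j : Fin m) :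
    ct (eul m) (pb2 φ θ) j = ∑ l, C (φ l j) * lsub φ (ct (eul n) θ l) := by
  have hX : ∀ k, lsub φ (X k) = ∑ i, C (φ k i) * X i := by
    intro k
    unfold lsub
    rw [aeval_X]
  have h1 : ∀ l, lsub φ (ct (eul n) θ l) = ∑ k, (∑ i, C (φ k i) * X i) * lsub φ (θ k l) := by
    intro l
    unfold ct eul
    rw [map_sum]
    apply Finset.sum_congr rfl
    intro k _
    rw [map_mul, hX]
  simp only [h1]
  unfold ct eul pb2
  simp only [Finset.mul_sum, Finset.sum_mul]
  rw [Finset.sum_comm]
  conv_rhs => rw [Finset.sum_comm]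
  apply Finset.sum_congr rfl
  intro k _
  rw [Finset.sum_comm]
  apply Finset.sum_congr rfl
  intro l _
  apply Finset.sum_congr rfl
  intro i _
  rw [C_mul]
  ring

/-- `i_R θ` determines `θ` -/
theorem eq_zero_of_eul {θ : F2 n} (hθ : ∀ i j, (θ i j).IsHomogeneous 3) (hdec : Dec θ)
    (hc : Closed θ) (h : ∀ j, ct (eul n) θ j = 0) (i j : Fin n) : θ i j = 0 := by
  classical
  have h1 : ∑ k, X k * pderiv k (θ i j) = (3 : ℕ) • θ i j := (hθ i j).sum_X_mul_pderiv
  have h2 : ∀ a b, θ a b + ∑ k, X k * pderiv a (θ k b) = 0 := by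
    intro a b
    have h3 := congrArg (pderiv a) (h b)
    unfold ct eul at h3
    rw [map_sum, map_zero] at h3
    have h4 : ∀ k, pderiv a (X k * θ k b : Pn n) = (Pi.single a 1 : Fin n → Pn n) k * θ k b + X k * pderiv a (θ k b) := by
      intro k
      rw [Derivation.leibniz, pderiv_X, smul_eq_mul, smul_eq_mul]
      rw [add_comm, mul_comm (θ k b)]
    simp only [h4] at h3
    rw [Finset.sum_add_distrib, Finset.sum_eq_single a] at h3
    · simpa using h3
    · intro b' _ hb'
      simp [hb']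
    · intro h; exact absurd (Finset.mem_univ _) h
  have h5 : ∑ k, X k * pderiv k (θ i j) = - ∑ k, X k * pderiv i (θ j k) - ∑ k, X k * pderiv j (θ k i) := by
    rw [← Finset.sum_neg_distrib, ← Finset.sum_sub_distrib]
    apply Finset.sum_congr rfl
    intro k _
    have := hc k i j
    linear_combination X k * this
  have h6 : ∑ k, X k * pderiv i (θ j k) = θ i j := by
    have h7 := h2 i j
    have h8 : ∑ k, X k * pderiv i (θ j k) = - ∑ k, X k * pderiv i (θ k j) := by
      rw [← Finset.sum_neg_distrib]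
      apply Finset.sum_congr rfl
      intro k _
      rw [hdec.2.1 j k, map_neg]
      ring
    rw [h8]
    linear_combination -h7
  have h9 : ∑ k, X k * pderiv j (θ k i) = θ i j := by
    have h7 := h2 j i
    rw [hdec.2.1 i j]
    linear_combination h7
  rw [h1, h6, h9] at h5
  have h10 : (5 : Pn n) * θ i j = 0 := by
    rw [nsmul_eq_mul] at h5
    push_cast at h5
    linear_combination h5
  rcases mul_eq_zero.mp h10 with h11 | h11
  · exfalso
    have : (5 : Pn n) ≠ 0 := by norm_num
    exact this h11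
  · exact h11

private theorem lmap_mm {k : ℕ} (φ : Fin n → Fin m → ℂ) (ψ : Fin m → Fin k → ℂ) (x : Fin k → ℂ) :
    lmap (mm φ ψ) x = lmap φ (lmap ψ x) := by
  funext i
  show ∑ l, (∑ j, φ i j * ψ j l) * x l = ∑ j, φ i j * ∑ l, ψ j l * x l
  simp only [Finset.sum_mul, Finset.mul_sum]
  rw [Finset.sum_comm]
  apply Finset.sum_congr rfl
  intro j _
  apply Finset.sum_congr rfl
  intro l _
  ring

private theorem lmap_idm (x : Fin n → ℂ) : lmap (idm n) x = x := by
  funext i
  show ∑ l, (if i = l then (1 : ℂ) else 0) * x l = x i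
  simp

private theorem Inv.inj {g g' : Fin n → Fin n → ℂ} (h : Inv g g') : Function.Injective (lmap g) := by
  intro x y hxy
  have h1 := congrArg (lmap g') hxy
  rw [← lmap_mm, ← lmap_mm, h.2, lmap_idm, lmap_idm] at h1
  exact h1

/-- the matrix `1 ⊕ ψ` -/
private noncomputable def bl {k l : ℕ} (ψ : Fin k → Fin l → ℂ) : Fin (k + 1) → Fin (l + 1) → ℂ :=
  Fin.cons (Fin.cons 1 (fun _ => 0)) (fun i => Fin.cons 0 (ψ i))

private theorem bl_00 {k l : ℕ} (ψ : Fin k → Fin l → ℂ) : bl ψ 0 0 = 1 := rfl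
private theorem bl_0s {k l : ℕ} (ψ : Fin k → Fin l → ℂ) (j : Fin l) : bl ψ 0 j.succ = 0 := rfl
private theorem bl_s0 {k l : ℕ} (ψ : Fin k → Fin l → ℂ) (i : Fin k) : bl ψ i.succ 0 = 0 := rfl
private theorem bl_ss {k l : ℕ} (ψ : Fin k → Fin l → ℂ) (i : Fin k) (j : Fin l) :
    bl ψ i.succ j.succ = ψ i j := rfl

private theorem lmap_bl {k l : ℕ} (ψ : Fin k → Fin l → ℂ) (t : ℂ) (x : Fin l → ℂ) :
    lmap (bl ψ) (Fin.cons t x) = Fin.cons t (lmap ψ x) := by
  funext i
  show ∑ j, bl ψ i j * (Fin.cons t x : Fin (l + 1) → ℂ) j = _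
  rw [Fin.sum_univ_succ]
  refine Fin.cases ?_ (fun i => ?_) i
  · simp only [bl_00, bl_0s, Fin.cons_zero, one_mul, zero_mul, Finset.sum_const_zero, add_zero]
  · simp only [bl_s0, bl_ss, Fin.cons_succ, zero_mul, zero_add]
    rfl

private theorem bl_inj {k l : ℕ} {ψ : Fin k → Fin l → ℂ} (h : Function.Injective (lmap ψ)) :
    Function.Injective (lmap (bl ψ)) := by
  intro x y hxy
  rw [← Fin.cons_self_tail x, ← Fin.cons_self_tail y, lmap_bl, lmap_bl] at hxy
  have h1 := Fin.cons_injective2 hxy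
  rw [← Fin.cons_self_tail x, ← Fin.cons_self_tail y, h1.1, h h1.2]

private theorem fse_bl {k l : ℕ} (ψ : Fin k → Fin l → ℂ) (f : Pn (k + 1)) :
    finSuccEquiv ℂ l (lsub (bl ψ) f) =
      (finSuccEquiv ℂ k f).map (lsub ψ : Pn k →+* Pn l) := by
  have h : ((finSuccEquiv ℂ l).toAlgHom).comp (lsub (bl ψ)) =
      (Polynomial.mapAlgHom (lsub ψ)).comp (finSuccEquiv ℂ k).toAlgHom := by
    apply MvPolynomial.algHom_ext
    intro i
    show finSuccEquiv ℂ l (lsub (bl ψ) (X i)) =
      (finSuccEquiv ℂ k (X i)).map (lsub ψ : Pn k →+* Pn l)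
    unfold lsub
    rw [aeval_X, Fin.sum_univ_succ]
    refine Fin.cases ?_ (fun i => ?_) i
    · simp only [bl_00, bl_0s, map_one, one_mul, map_zero, zero_mul, Finset.sum_const_zero, add_zero]
      rw [finSuccEquiv_X_zero, finSuccEquiv_X_zero, Polynomial.map_X]
    · simp only [bl_s0, bl_ss, map_zero, zero_mul, zero_add]
      rw [finSuccEquiv_X_succ, Polynomial.map_C]
      show _ = Polynomial.C ((aeval fun k => ∑ l, C (ψ k l) * X l) (X i))
      rw [aeval_X, map_sum, map_sum]
      apply Finset.sum_congr rfl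
      intro j _
      rw [map_mul, finSuccEquiv_X_succ, map_mul]
      congr 1
      exact (finSuccEquiv ℂ l).commutes (ψ i j)
  exact DFunLike.congr_fun h f

private theorem fse_coeff {k d : ℕ} {f : Pn (k + 1)} (hf : f.IsHomogeneous d) :
    (finSuccEquiv ℂ k f).coeff d = C (eval (Fin.cons 1 0 : Fin (k + 1) → ℂ) f) := by
  classical
  ext m
  rw [finSuccEquiv_coeff_coeff, coeff_C]
  have hdeg : ∀ (m : Fin k →₀ ℕ) (i : ℕ), (m.cons i).degree = i + m.degree := by
    intro m i
    rw [Finsupp.degree_eq_sum, Fin.sum_univ_succ, Finsupp.cons_zero, Finsupp.degree_eq_sum]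
    simp only [Finsupp.cons_succ]
  split_ifs with h0
  · subst h0
    rw [eval_eq', Finset.sum_eq_single ((0 : Fin k →₀ ℕ).cons d)]
    · rw [Fin.prod_univ_succ]
      simp
    · intro μ hμ hne
      have h1 : μ.degree = d := by
        by_contra hcon
        exact (mem_support_iff.mp hμ) (hf.coeff_eq_zero hcon)
      rw [← Finsupp.cons_tail μ] at h1 hne ⊢
      rw [hdeg] at h1
      have h2 : μ.tail ≠ 0 := by
        intro h3
        apply hne
        rw [h3] at h1 ⊢
        simp at h1
        rw [h1]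
      obtain ⟨j, hj⟩ : ∃ j, μ.tail j ≠ 0 := by
        by_contra hcon
        push Not at hcon
        exact h2 (Finsupp.ext hcon)
      rw [Finset.prod_eq_zero (Finset.mem_univ j.succ), mul_zero]
      rw [Fin.cons_succ, Finsupp.cons_succ, Pi.zero_apply, zero_pow hj]
    · intro hn
      rw [notMem_support_iff.mp hn, zero_mul]
  · apply hf.coeff_eq_zero
    rw [hdeg]
    intro h1
    apply h0
    have : m.degree = 0 := by omega
    exact ((Finsupp.degree_eq_zero_iff m).mp this).symm

private theorem clear_den {A : Type} [CommRing A] [IsDomain A] (p : Polynomial (FractionRing A)) :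
    ∃ (b : A) (q : Polynomial A), b ≠ 0 ∧
      q.map (algebraMap A (FractionRing A)) = Polynomial.C (algebraMap A (FractionRing A) b) * p := by
  obtain ⟨b, hb0, hb⟩ := IsLocalization.integerNormalization_spec (nonZeroDivisors A) p
  refine ⟨b, IsLocalization.integerNormalization (nonZeroDivisors A) p,
    nonZeroDivisors.ne_zero hb0, ?_⟩
  rw [hb]
  rw [← Polynomial.smul_eq_C_mul, algebraMap_smul]

private theorem bez0 {A : Type} [CommRing A] [IsDomain A] [UniqueFactorizationMonoid A]
    {ι : Type} [Fintype ι] (F : ι → Polynomial A) (i0 : ι) (hF0 : F i0 ≠ 0)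
    (h : ∀ p : Polynomial A, (∀ i, p ∣ F i) → p.natDegree = 0) :
    ∃ (R : A) (U : ι → Polynomial A), R ≠ 0 ∧ ∑ i, U i * F i = Polynomial.C R := by
  classical
  let _ : NormalizationMonoid A :=
    (UniqueFactorizationMonoid.strongNormalizationMonoid).toNormalizationMonoid
  let _ : NormalizedGCDMonoid A := UniqueFactorizationMonoid.toNormalizedGCDMonoid _
  have hinj : Function.Injective (algebraMap A (FractionRing A)) := IsFractionRing.injective A _
  have hinjP := Polynomial.map_injective _ hinj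
  let G : ι → Polynomial (FractionRing A) := fun i => (F i).map (algebraMap A (FractionRing A))
  let I : Ideal (Polynomial (FractionRing A)) := Ideal.span (Set.range G)
  obtain ⟨g, hg⟩ := (IsPrincipalIdealRing.principal I).principal
  have hgd : ∀ i, g ∣ G i := by
    intro i
    have h1 : G i ∈ I := Ideal.subset_span ⟨i, rfl⟩
    rw [hg] at h1
    exact Ideal.mem_span_singleton.mp h1
  have hG0 : G i0 ≠ 0 := by
    intro h0
    apply hF0
    apply hinjP
    rw [Polynomial.map_zero]
    exact h0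
  have hg0 : g ≠ 0 := by
    rintro rfl
    exact hG0 (zero_dvd_iff.mp (hgd i0))
  have hdeg : g.natDegree = 0 := by
    by_contra hne
    obtain ⟨b, g', hb, hg'⟩ := clear_den g
    have hb' : algebraMap A (FractionRing A) b ≠ 0 := by
      rw [Ne, ← map_zero (algebraMap A (FractionRing A))]
      exact fun h => hb (hinj h)
    have hg'0 : g' ≠ 0 := by
      rintro rfl
      rw [Polynomial.map_zero] at hg'
      exact (mul_ne_zero (Polynomial.C_ne_zero.mpr hb') hg0) hg'.symm
    have hdg' : g'.natDegree = g.natDegree := by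
      have h1 := congrArg Polynomial.natDegree hg'
      rw [Polynomial.natDegree_map_eq_of_injective hinj, Polynomial.natDegree_C_mul hb'] at h1
      exact h1
    have hPne : ¬ IsUnit g'.primPart := by
      intro hu
      have := Polynomial.natDegree_eq_zero_of_isUnit hu
      rw [Polynomial.natDegree_primPart, hdg'] at this
      exact hne this
    obtain ⟨π, hπ, hπd⟩ := WfDvdMonoid.exists_irreducible_factor hPne g'.isPrimitive_primPart.ne_zero
    have hπ0 : π.natDegree ≠ 0 := by
      intro h0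
      rw [Polynomial.natDegree_eq_zero] at h0
      obtain ⟨s, hs⟩ := h0
      have h1 := g'.isPrimitive_primPart s (by rw [hs]; exact hπd)
      apply hπ.not_isUnit
      rw [← hs]
      exact h1.map _
    apply hπ0
    apply h
    intro i
    obtain ⟨q, hq⟩ := hgd i
    obtain ⟨c, q', hc, hq'⟩ := clear_den q
    have h2 : Polynomial.C (b * c) * F i = g' * q' := by
      apply hinjP
      rw [Polynomial.map_mul, Polynomial.map_mul, hg', hq', Polynomial.map_C, map_mul, map_mul]
      have : Polynomial.map (algebraMap A (FractionRing A)) (F i) = g * q := hq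
      rw [this]
      ring
    have h3 : π ∣ Polynomial.C (b * c) * F i := by
      rw [h2]
      exact (hπd.trans (Polynomial.primPart_dvd g')).trans (Dvd.intro _ rfl)
    rcases hπ.prime.dvd_or_dvd h3 with h4 | h4
    · exfalso
      apply hπ0
      have h5 := Polynomial.natDegree_le_of_dvd h4 (Polynomial.C_ne_zero.mpr (mul_ne_zero hb hc))
      rw [Polynomial.natDegree_C] at h5
      omega
    · exact h4
  have hunit : IsUnit g := by
    rw [Polynomial.natDegree_eq_zero] at hdeg
    obtain ⟨s, hs⟩ := hdeg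
    rw [← hs]
    apply IsUnit.map
    rw [isUnit_iff_ne_zero]
    rintro rfl
    rw [Polynomial.C_0] at hs
    exact hg0 hs.symm
  have htop : (1 : Polynomial (FractionRing A)) ∈ I := by
    rw [hg]
    show (1 : Polynomial (FractionRing A)) ∈ Ideal.span {g}
    rw [Ideal.mem_span_singleton]
    exact hunit.dvd
  rw [Ideal.mem_span_range_iff_exists_fun] at htop
  obtain ⟨c, hc⟩ := htop
  choose b q hb hq using fun i => clear_den (c i)
  refine ⟨∏ i, b i, fun i => Polynomial.C (∏ j ∈ Finset.univ.erase i, b j) * q i,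
    Finset.prod_ne_zero_iff.mpr (fun i _ => hb i), ?_⟩
  apply hinjP
  rw [Polynomial.map_sum, Polynomial.map_C]
  have h6 : ∀ i, Polynomial.map (algebraMap A (FractionRing A))
      (Polynomial.C (∏ j ∈ Finset.univ.erase i, b j) * q i * F i) =
      Polynomial.C (algebraMap A (FractionRing A) (∏ i, b i)) * (c i * G i) := by
    intro i
    rw [Polynomial.map_mul, Polynomial.map_mul, hq, Polynomial.map_C,
      ← Finset.mul_prod_erase Finset.univ b (Finset.mem_univ i), map_mul, map_mul]
    show _ = _ * (c i * Polynomial.map (algebraMap A (FractionRing A)) (F i))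
    ring
  simp only [h6]
  rw [← Finset.mul_sum, hc, mul_one]

private theorem bez {k d : ℕ} {ι : Type} [Finite ι] {f : ι → Pn (k + 1)} (h : CopF f) {i0 : ι}
    (h0 : (f i0).IsHomogeneous d) (h1 : eval (Fin.cons 1 0 : Fin (k + 1) → ℂ) (f i0) ≠ 0) :
    ∃ R : Pn k, R ≠ 0 ∧ ∀ (l : ℕ) (ψ : Fin k → Fin l → ℂ), lsub ψ R ≠ 0 →
      CopF (fun i => lsub (bl ψ) (f i)) := by
  classical
  let _ : Fintype ι := Fintype.ofFinite ι
  obtain ⟨R, U, hR, hU⟩ := bez0 (fun i => finSuccEquiv ℂ k (f i)) i0 (by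
    intro h2
    rw [map_eq_zero_iff _ (finSuccEquiv ℂ k).injective] at h2
    rw [h2, map_zero] at h1
    exact h1 rfl) (by
    intro p hp
    have h2 := h ((finSuccEquiv ℂ k).symm p) (by
      intro i
      have := map_dvd (finSuccEquiv ℂ k).symm (hp i)
      rwa [AlgEquiv.symm_apply_apply] at this)
    have h3 := h2.map (finSuccEquiv ℂ k)
    rw [AlgEquiv.apply_symm_apply] at h3
    exact Polynomial.natDegree_eq_zero_of_isUnit h3)
  refine ⟨R, hR, ?_⟩
  intro l ψ hψ p hp
  have hp' : ∀ i, finSuccEquiv ℂ l p ∣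
      (finSuccEquiv ℂ k (f i)).map (lsub ψ : Pn k →+* Pn l) := by
    intro i
    rw [← fse_bl]
    exact map_dvd (finSuccEquiv ℂ l) (hp i)
  have h4 : finSuccEquiv ℂ l p ∣ Polynomial.C (lsub ψ R) := by
    have h5 := congrArg (Polynomial.map (lsub ψ : Pn k →+* Pn l)) hU
    rw [Polynomial.map_sum, Polynomial.map_C] at h5
    have h6 : Polynomial.C (lsub ψ R) = ∑ i, Polynomial.map (lsub ψ : Pn k →+* Pn l)
      (U i * finSuccEquiv ℂ k (f i)) := h5.symm
    rw [h6]
    apply Finset.dvd_sum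
    intro i _
    rw [Polynomial.map_mul]
    exact (hp' i).mul_left _
  have h7 := Polynomial.natDegree_le_of_dvd h4 (Polynomial.C_ne_zero.mpr hψ)
  rw [Polynomial.natDegree_C] at h7
  have h8 : (finSuccEquiv ℂ l p).natDegree = 0 := by omega
  rw [Polynomial.natDegree_eq_zero] at h8
  obtain ⟨s, hs⟩ := h8
  have h9 := hp' i0
  rw [← hs, Polynomial.C_dvd_iff_dvd_coeff] at h9
  have h10 := h9 d
  rw [Polynomial.coeff_map, fse_coeff h0] at h10
  have h11 : (lsub ψ : Pn k →+* Pn l) (C (eval (Fin.cons 1 0 : Fin (k + 1) → ℂ) (f i0))) =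
      C (eval (Fin.cons 1 0 : Fin (k + 1) → ℂ) (f i0)) := (lsub ψ).commutes _
  rw [h11] at h10
  have h12 : IsUnit s := isUnit_of_dvd_unit h10 ((isUnit_iff_ne_zero.mpr h1).map C)
  have h13 : IsUnit (finSuccEquiv ℂ l p) := by
    rw [← hs]
    exact h12.map Polynomial.C
  have h14 := h13.map (finSuccEquiv ℂ l).symm
  rwa [AlgEquiv.symm_apply_apply] at h14

private theorem CopF_inv {ι : Type} {f : ι → Pn n} (h : CopF f) {g g' : Fin n → Fin n → ℂ}
    (hg : Inv g g') : CopF (fun i => lsub g (f i)) := by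
  intro p hp
  have h1 := h (lsub g' p) (by
    intro i
    have := map_dvd (lsub g') (hp i)
    rwa [lsub_mm, hg.1, lsub_idm] at this)
  have h2 := h1.map (lsub g)
  rwa [lsub_mm, hg.2, lsub_idm] at h2

private theorem exists_emb {a : ℕ} (ha : 1 ≤ a) (c : Fin (a + 1) → ℂ) :
    ∃ ψ : Fin (a + 1) → Fin a → ℂ, Function.Injective (lmap ψ) ∧ ∃ y, lmap ψ y = c := by
  classical
  have key : ∃ g g' : Fin (a + 1) → Fin (a + 1) → ℂ, Inv g g' ∧
      (c = 0 ∨ ∀ i, g i 0 = c i) := by
    by_cases hc : c = 0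
    · refine ⟨idm (a + 1), idm (a + 1), ⟨?_, ?_⟩, Or.inl hc⟩ <;>
      · funext i j
        unfold mm idm
        simp
    · obtain ⟨g, g', hg, hv⟩ := exists_basis (n := a + 1) (r := 1) (by omega) (fun _ => c)
        (by rw [linearIndependent_unique_iff]; exact hc)
      refine ⟨g, g', hg, Or.inr ?_⟩
      intro i
      have h1 := congrFun (hv 0) i
      rw [← h1]
      show g i 0 = ∑ l, g i l * (if l = Fin.castLE _ 0 then (1 : ℂ) else 0)
      rw [Finset.sum_eq_single 0]
      · rw [if_pos (by rfl), mul_one]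
      · intro b _ hb
        rw [if_neg, mul_zero]
        intro h2
        exact hb h2
      · intro h; exact absurd (Finset.mem_univ _) h
  obtain ⟨g, g', hg, hc⟩ := key
  have hl : ∀ y : Fin a → ℂ, lmap (fun (i : Fin (a + 1)) (j : Fin a) => g i j.castSucc) y =
      lmap g (Fin.snoc y 0 : Fin (a + 1) → ℂ) := by
    intro y
    funext i
    show ∑ l, g i l.castSucc * y l = ∑ l, g i l * (Fin.snoc y 0 : Fin (a + 1) → ℂ) l
    rw [Fin.sum_univ_castSucc]
    simp
  refine ⟨fun i j => g i j.castSucc, ?_, ?_⟩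
  · intro x y hxy
    rw [hl, hl] at hxy
    have h1 := hg.inj hxy
    exact (Fin.snoc_injective2 h1).1
  · rcases hc with h0 | h0
    · exact ⟨0, by rw [map_zero, h0]⟩
    · refine ⟨fun j => if j = ⟨0, ha⟩ then 1 else 0, ?_⟩
      funext i
      show ∑ l : Fin a, g i l.castSucc * (if l = ⟨0, ha⟩ then (1 : ℂ) else 0) = c i
      rw [Finset.sum_eq_single ⟨0, ha⟩]
      · rw [if_pos rfl, mul_one]
        exact h0 i
      · intro b _ hb
        rw [if_neg hb, mul_zero]
      · intro h; exact absurd (Finset.mem_univ _) h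

private theorem exists_eval_ne {k : ℕ} {R : Pn k} (hR : R ≠ 0) : ∃ c, eval c R ≠ 0 := by
  by_contra hcon
  push Not at hcon
  apply hR
  apply MvPolynomial.funext
  intro x
  rw [hcon x, map_zero]

/-- a non zero polynomial stays non zero on a hyperplane (also of the form `1 ⊕ ψ`) -/
private theorem exists_emb_ne {a : ℕ} (ha : 1 ≤ a) {R : Pn (a + 1)} (hR : R ≠ 0) :
    ∃ ψ : Fin (a + 1) → Fin a → ℂ, Function.Injective (lmap ψ) ∧ lsub ψ R ≠ 0 := by
  obtain ⟨c, hc⟩ := exists_eval_ne hR
  obtain ⟨ψ, h1, y, hy⟩ := exists_emb ha c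
  refine ⟨ψ, h1, ?_⟩
  intro h2
  apply hc
  rw [← hy, ← Pool.Agent.Helper93.eval_lsub, h2, map_zero]

private theorem exists_emb_ne' {a : ℕ} (ha : 1 ≤ a) {R : Pn (a + 2)} (hR : R ≠ 0) :
    ∃ ψ : Fin (a + 1) → Fin a → ℂ, Function.Injective (lmap ψ) ∧ lsub (bl ψ) R ≠ 0 := by
  obtain ⟨c, hc⟩ := exists_eval_ne hR
  obtain ⟨ψ, h1, y, hy⟩ := exists_emb ha (Fin.tail c)
  refine ⟨ψ, h1, ?_⟩
  intro h2
  apply hc
  rw [← Fin.cons_self_tail c, ← hy, ← lmap_bl, ← Pool.Agent.Helper93.eval_lsub, h2, map_zero]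

theorem cop_res {ι : Type} [Finite ι] (hn : 2 ≤ n) {d : ℕ} {f : ι → Pn (n + 1)}
    (hf : ∀ i, (f i).IsHomogeneous d) (h : CopF f) :
    ∃ φ : Fin (n + 1) → Fin n → ℂ, Function.Injective (lmap φ) ∧ CopF (fun i => lsub φ (f i)) := by
  classical
  obtain ⟨b, rfl⟩ : ∃ b, n = b + 1 := ⟨n - 1, by omega⟩
  obtain ⟨i0, hi0⟩ : ∃ i, f i ≠ 0 := by
    by_contra hcon
    push Not at hcon
    have h1 := h (X 0) (fun i => by rw [hcon i]; exact dvd_zero _)
    have h2 := h1.map (eval (0 : Fin (b + 1 + 1) → ℂ))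
    simp at h2
  -- a point where `f i0` does not vanish, different from the origin
  obtain ⟨y, hy0, hy⟩ : ∃ y : Fin (b + 1 + 1) → ℂ, y ≠ 0 ∧ eval y (f i0) ≠ 0 := by
    have h1 : (X 0 * f i0 : Pn (b + 1 + 1)) ≠ 0 := mul_ne_zero (X_ne_zero 0) hi0
    obtain ⟨c, hc⟩ := exists_eval_ne h1
    rw [map_mul, eval_X] at hc
    refine ⟨c, ?_, right_ne_zero_of_mul hc⟩
    rintro rfl
    exact (left_ne_zero_of_mul hc) rfl
  obtain ⟨g, g', hg, hv⟩ := exists_basis (n := b + 1 + 1) (r := 1) (by omega) (fun _ => y)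
    (by rw [linearIndependent_unique_iff]; exact hy0)
  have hv0 : lmap g (Fin.cons 1 0 : Fin (b + 1 + 1) → ℂ) = y := by
    rw [← hv 0]
    congr 1
    funext j
    refine Fin.cases ?_ (fun j => ?_) j
    · rfl
    · simp only [Fin.cons_succ, Pi.zero_apply]
      rw [if_neg]
      exact Fin.succ_ne_zero j
  obtain ⟨R, hR, hRψ⟩ := bez (CopF_inv h hg) (i0 := i0) (d := d) (lsub_hom (hf i0)) (by
    rw [Pool.Agent.Helper93.eval_lsub, hv0]
    exact hy)
  obtain ⟨ψ, hψ1, hψ2⟩ := exists_emb_ne (by omega : 1 ≤ b) hR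
  refine ⟨mm g (bl ψ), ?_, ?_⟩
  · intro x z hxz
    rw [lmap_mm, lmap_mm] at hxz
    exact bl_inj hψ1 (hg.inj hxz)
  · have h3 := hRψ b ψ hψ2
    have h4 : (fun i => lsub (mm g (bl ψ)) (f i)) = fun i => lsub (bl ψ) (lsub g (f i)) := by
      funext i
      rw [lsub_mm]
    rw [h4]
    exact h3

private theorem dvd_of_copF {ι : Type} [Finite ι] {A : ι → Pn m} (hc : CopF A) {a b : Pn m}
    (h : ∀ j, a ∣ A j * b) : a ∣ b := by
  classical
  let _ : Fintype ι := Fintype.ofFinite ι
  let _ : NormalizationMonoid (Pn m) :=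
    (UniqueFactorizationMonoid.strongNormalizationMonoid).toNormalizationMonoid
  let _ : NormalizedGCDMonoid (Pn m) :=
    UniqueFactorizationMonoid.toNormalizedGCDMonoid _
  have h1 : a ∣ Finset.univ.gcd (fun j => A j * b) := Finset.dvd_gcd (fun j _ => h j)
  have h2 := Finset.gcd_mul_right' (Finset.univ : Finset ι) A b
  have h3 : IsUnit (Finset.univ.gcd A) := hc _ (fun i => Finset.gcd_dvd (Finset.mem_univ i))
  have h4 : a ∣ Finset.univ.gcd A * b := h1.trans h2.dvd
  exact (h3.dvd_mul_left).mp h4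

private theorem copF_rel {ι : Type} [Finite ι] {d : ℕ} (hm : 0 < m) {A C' : ι → Pn m}
    (hA : ∀ i, (A i).IsHomogeneous (d + 1)) (hC : ∀ i, (C' i).IsHomogeneous d) (hc : CopF A)
    (hrel : ∀ i j, A i * C' j = A j * C' i) (i : ι) : C' i = 0 := by
  classical
  have hex : ∃ j, A j ≠ 0 := by
    by_contra hcon
    push Not at hcon
    have h1 := hc (X ⟨0, hm⟩) (fun i => by rw [hcon i]; exact dvd_zero _)
    have h2 := h1.map (eval (0 : Fin m → ℂ))
    simp at h2
  obtain ⟨j0, hj0⟩ := hex
  have hB1 : ∀ i, A i ≠ 0 → C' i = 0 := by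
    intro i hi
    have hdvd : A i ∣ C' i := by
      apply dvd_of_copF hc
      intro j
      exact ⟨C' j, by rw [hrel i j]⟩
    by_contra hne
    obtain ⟨q, hq⟩ := hdvd
    have hq0 : q ≠ 0 := by
      rintro rfl
      rw [mul_zero] at hq
      exact hne hq
    have h1 := totalDegree_mul_of_isDomain hi hq0
    rw [← hq, (hC i).totalDegree hne, (hA i).totalDegree hi] at h1
    omega
  by_cases hi : A i = 0
  · have h1 := hrel i j0
    rw [hi, zero_mul] at h1
    rcases mul_eq_zero.mp h1.symm with h2 | h2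
    · exact absurd h2 hj0
    · exact h2
  · exact hB1 i hi

private theorem copF_of_rel {ι : Type} {d : ℕ} (hm : 0 < m) {A : ι → Pn m}
    (hA : ∀ i, (A i).IsHomogeneous (d + 1)) (hne : Nonempty ι)
    (key : ∀ B : ι → Pn m, (∀ i, (B i).IsHomogeneous d) → (∀ i j, A i * B j = A j * B i) →
      ∀ i, B i = 0) : CopF A := by
  classical
  intro p hp
  by_contra hpu
  choose q hq using hp
  have hrel : ∀ i j, A i * q j = A j * q i := by
    intro i j
    rw [hq i, hq j]; ring
  let x0 : Fin m := ⟨0, hm⟩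
  by_cases hall : ∀ i, A i = 0
  · obtain ⟨i0⟩ := hne
    have h1 := key (fun _ => X x0 ^ d) (fun _ => isHomogeneous_X_pow x0 d) (by
      intro i j; rw [hall i, hall j]) i0
    exact (pow_ne_zero d (X_ne_zero x0)) h1
  push Not at hall
  obtain ⟨i0, hi0⟩ := hall
  have hq0 : q i0 ≠ 0 := by
    intro h; apply hi0; rw [hq i0, h, mul_zero]
  have hp0 : p ≠ 0 := by
    rintro rfl; apply hi0; rw [hq i0, zero_mul]
  have hdp : 0 < p.totalDegree := by
    rw [Nat.pos_iff_ne_zero]
    intro h
    apply hpu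
    rw [totalDegree_eq_zero_iff_eq_C] at h
    rw [h]
    apply IsUnit.map
    rw [isUnit_iff_ne_zero]
    intro h1
    rw [h1, map_zero] at h
    exact hp0 h
  have hdeg : (q i0).totalDegree ≤ d := by
    have h1 := totalDegree_mul_of_isDomain hp0 hq0
    rw [← hq i0, (hA i0).totalDegree hi0] at h1
    omega
  obtain ⟨t, ht⟩ : ∃ t, homogeneousComponent t (q i0) ≠ 0 := by
    by_contra hcon
    push Not at hcon
    apply hq0
    rw [← sum_homogeneousComponent (q i0)]
    exact Finset.sum_eq_zero (fun i _ => hcon i)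
  have htd : t ≤ d := by
    by_contra hcon
    apply ht
    apply homogeneousComponent_eq_zero
    omega
  have h2 := key (fun j => X x0 ^ (d - t) * homogeneousComponent t (q j)) (by
    intro j
    have := (isHomogeneous_X_pow (R := ℂ) x0 (d - t)).mul (homogeneousComponent_isHomogeneous t (q j))
    rwa [Nat.sub_add_cancel htd] at this) (by
    intro i j
    have h3 := congrArg (homogeneousComponent (d + 1 + t)) (hrel i j)
    rw [Pool.Agent.Helper93.homComp_mul (hA i), Pool.Agent.Helper93.homComp_mul (hA j)] at h3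
    calc A i * (X x0 ^ (d - t) * homogeneousComponent t (q j))
        = X x0 ^ (d - t) * (A i * homogeneousComponent t (q j)) := by ring
      _ = X x0 ^ (d - t) * (A j * homogeneousComponent t (q i)) := by rw [h3]
      _ = _ := by ring) i0
  exact (mul_ne_zero (pow_ne_zero _ (X_ne_zero x0)) ht) h2

/-- coefficients of tuples of forms of degree `d` -/
private abbrev TI (ι : Type) (m d : ℕ) : Type :=
  ι × {μ : Fin m →₀ ℕ // μ ∈ Finset.finsuppAntidiag (Finset.univ : Finset (Fin m)) d}

private noncomputable def mk {ι : Type} {d : ℕ} (c : TI ι m d → ℂ) : ι → Pn m := fun i =>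
  ∑ μ : {μ : Fin m →₀ ℕ // μ ∈ Finset.finsuppAntidiag (Finset.univ : Finset (Fin m)) d},
    c (i, μ) • monomial μ.1 1

private theorem coeff_mk {ι : Type} {d : ℕ} (c : TI ι m d → ℂ) (i : ι)
    (μ : {μ : Fin m →₀ ℕ // μ ∈ Finset.finsuppAntidiag (Finset.univ : Finset (Fin m)) d}) :
    coeff μ.1 (mk c i) = c (i, μ) := by
  classical
  unfold mk
  rw [coeff_sum, Finset.sum_eq_single μ]
  · simp [coeff_smul]
  · intro ν _ hν
    rw [coeff_smul, coeff_monomial, if_neg, smul_zero]
    intro h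
    exact hν (Subtype.ext h)
  · intro h; exact absurd (Finset.mem_univ _) h

private theorem mk_hom {ι : Type} {d : ℕ} (c : TI ι m d → ℂ) (i : ι) : (mk c i).IsHomogeneous d := by
  unfold mk
  apply IsHomogeneous.sum
  intro μ _
  rw [smul_eq_C_mul]
  apply IsHomogeneous.C_mul
  apply isHomogeneous_monomial
  have := (Finset.mem_finsuppAntidiag.mp μ.2).1
  rw [Finsupp.degree_eq_sum]
  exact this

private theorem mk_coeff {ι : Type} {d : ℕ} {B : ι → Pn m} (hB : ∀ i, (B i).IsHomogeneous d) :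
    mk (fun t : TI ι m d => coeff t.2.1 (B t.1)) = B := by
  classical
  funext i
  unfold mk
  conv_rhs => rw [Pool.Agent.Helper93.hom_sum (hB i)]
  simp only
  exact Finset.sum_attach (Finset.finsuppAntidiag (Finset.univ : Finset (Fin m)) d)
    (fun μ => coeff μ (B i) • (monomial μ 1 : Pn m))

private noncomputable def LI {ι : Type} (d : ℕ) (A : ι → Pn m) :
    (TI ι m d → ℂ) →ₗ[ℂ] (ι × ι → Pn m) where
  toFun c := fun z => A z.1 * mk c z.2 - A z.2 * mk c z.1
  map_add' := by
    intro c c'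
    funext z
    have h : ∀ i, mk (c + c') i = mk c i + mk c' i := by
      intro i
      unfold mk
      simp only [Pi.add_apply, add_smul, Finset.sum_add_distrib]
    simp only [h, Pi.add_apply]
    ring
  map_smul' := by
    intro r c
    funext z
    have h : ∀ i, mk (r • c) i = C r * mk c i := by
      intro i
      unfold mk
      rw [Finset.mul_sum]
      apply Finset.sum_congr rfl
      intro μ _
      rw [Pi.smul_apply, smul_eq_mul, ← smul_eq_C_mul, mul_smul]
    simp only [h, Pi.smul_apply, RingHom.id_apply, smul_eq_C_mul]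
    ring

private theorem LI_apply {ι : Type} (d : ℕ) (A : ι → Pn m) (c : TI ι m d → ℂ) (z : ι × ι) :
    LI d A c z = A z.1 * mk c z.2 - A z.2 * mk c z.1 := rfl

private theorem LI_inj {ι : Type} [Finite ι] {d : ℕ} (hm : 0 < m) {A : ι → Pn m}
    (hA : ∀ i, (A i).IsHomogeneous (d + 1)) (hc : CopF A) : Function.Injective (LI d A) := by
  rw [injective_iff_map_eq_zero]
  intro c hc0
  have hB := copF_rel hm hA (mk_hom c) hc (by
    intro i j
    have := congrFun hc0 (i, j)
    rw [LI_apply] at this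
    exact sub_eq_zero.mp this)
  funext t
  have h1 := coeff_mk c t.1 t.2
  rw [hB t.1, coeff_zero] at h1
  exact h1.symm

private theorem cop_of_LI {ι : Type} {d : ℕ} (hm : 0 < m) {A : ι → Pn m}
    (hne : Nonempty ι) (hA : ∀ i, (A i).IsHomogeneous (d + 1))
    (hinj : Function.Injective (LI d A)) : CopF A := by
  rw [injective_iff_map_eq_zero] at hinj
  apply copF_of_rel hm hA hne
  intro B hB hrel i
  have h1 := hinj (fun t : TI ι m d => coeff t.2.1 (B t.1)) (by
    funext z
    rw [LI_apply, mk_coeff hB, hrel, sub_self]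
    rfl)
  have h2 := mk_coeff hB
  rw [h1] at h2
  rw [← h2]
  unfold mk
  simp

/-- linear functionals of polynomials depending on parameters -/
private theorem lin_poly {κ : Type} (ℓ : Pn m →ₗ[ℂ] ℂ) (H : MvPolynomial (Fin m) (MvPolynomial κ ℂ)) :
    ∃ P : MvPolynomial κ ℂ, ∀ x, eval x P = ℓ (map (eval x) H) := by
  classical
  induction H using MvPolynomial.induction_on' with
  | monomial μ a =>
    refine ⟨a * C (ℓ (monomial μ 1)), ?_⟩
    intro x
    rw [map_mul, eval_C, map_monomial]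
    have : (monomial μ (eval x a) : Pn m) = (eval x a) • monomial μ 1 := by
      rw [smul_monomial, smul_eq_mul, mul_one]
    rw [this, map_smul, smul_eq_mul]
  | add p q hp hq =>
    obtain ⟨P, hP⟩ := hp
    obtain ⟨Q, hQ⟩ := hq
    refine ⟨P + Q, ?_⟩
    intro x
    rw [map_add, hP, hQ, map_add, map_add]

private theorem lin_poly' {κ Z : Type} [Finite Z] (ℓ : (Z → Pn m) →ₗ[ℂ] ℂ)
    (H : Z → MvPolynomial (Fin m) (MvPolynomial κ ℂ)) :
    ∃ P : MvPolynomial κ ℂ, ∀ x, eval x P = ℓ (fun z => map (eval x) (H z)) := by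
  classical
  let _ : Fintype Z := Fintype.ofFinite Z
  choose P hP using fun z => lin_poly (ℓ.comp (LinearMap.single ℂ (fun _ : Z => Pn m) z)) (H z)
  refine ⟨∑ z, P z, ?_⟩
  intro x
  rw [map_sum]
  simp only [hP]
  have hv : (fun z => map (eval x) (H z)) =
      ∑ z, LinearMap.single ℂ (fun _ : Z => Pn m) z (map (eval x) (H z)) := by
    funext z
    rw [Finset.sum_apply, Finset.sum_eq_single z]
    · simp
    · intro b _ hb
      simp [Ne.symm hb]
    · intro h; exact absurd (Finset.mem_univ _) h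
  rw [hv, map_sum]
  rfl

/-- absence of common factors is an open condition -/
private theorem copF_open {κ ι : Type} [Finite ι] {d : ℕ} (hm : 0 < m)
    (G : ι → MvPolynomial (Fin m) (MvPolynomial κ ℂ))
    (hG : ∀ i (x : κ → ℂ), (map (eval x) (G i)).IsHomogeneous d) (x0 : κ → ℂ)
    (h : CopF (fun i => map (eval x0) (G i))) :
    Gen (fun x : κ → ℂ => CopF (fun i => map (eval x) (G i))) := by
  classical
  have hex : ∃ j, map (eval x0) (G j) ≠ 0 := by
    by_contra hcon
    push Not at hcon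
    have h1 := h (X ⟨0, hm⟩) (fun i => by simp only [hcon i]; exact dvd_zero _)
    have h2 := h1.map (eval (0 : Fin m → ℂ))
    simp at h2
  obtain ⟨j0, hj0⟩ := hex
  rcases Nat.eq_zero_or_pos d with hd | hd
  · subst hd
    have hCx : ∀ x : κ → ℂ, map (eval x) (G j0) = C (eval x (coeff 0 (G j0))) := by
      intro x
      have h1 := (hG j0 x).totalDegree_le
      have h2 : (map (eval x) (G j0)).totalDegree = 0 := by omega
      rw [totalDegree_eq_zero_iff_eq_C] at h2
      rw [h2, coeff_map]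
    refine ⟨coeff 0 (G j0), ?_, ?_⟩
    · intro h0
      apply hj0
      rw [hCx, h0, map_zero, map_zero]
    · intro x hx p hp
      have h3 := hp j0
      simp only at h3
      rw [hCx] at h3
      exact isUnit_of_dvd_unit h3 ((isUnit_iff_ne_zero.mpr hx).map C)
  obtain ⟨d, rfl⟩ : ∃ e, d = e + 1 := ⟨d - 1, by omega⟩
  let Ax : (κ → ℂ) → ι → Pn m := fun x i => map (eval x) (G i)
  have hinj : Function.Injective (LI d (Ax x0)) := LI_inj hm (fun i => hG i x0) h
  obtain ⟨g, hg⟩ := (LI d (Ax x0)).exists_leftInverse_of_injective (LinearMap.ker_eq_bot.mpr hinj)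
  have : Fintype ι := Fintype.ofFinite ι
  have hP : ∀ a b : TI ι m d, ∃ P : MvPolynomial κ ℂ, ∀ x,
      eval x P = g (LI d (Ax x) (Pi.single b 1)) a := by
    intro a b
    let H : ι × ι → MvPolynomial (Fin m) (MvPolynomial κ ℂ) := fun z =>
      G z.1 * map C (mk (Pi.single b 1 : TI ι m d → ℂ) z.2) -
      G z.2 * map C (mk (Pi.single b 1 : TI ι m d → ℂ) z.1)
    obtain ⟨P, hP⟩ := lin_poly' ((LinearMap.proj a).comp g) H
    refine ⟨P, ?_⟩
    intro x
    rw [hP x]
    have hmc : ∀ q : Pn m, map (eval x) (map (C : ℂ →+* MvPolynomial κ ℂ) q) = q := by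
      intro q
      rw [map_map]
      have : (eval x).comp (C : ℂ →+* MvPolynomial κ ℂ) = RingHom.id ℂ := by
        ext z; simp
      rw [this, map_id]
    have h4 : (fun z => map (eval x) (H z)) = LI d (Ax x) (Pi.single b 1) := by
      funext z
      rw [LI_apply]
      show map (eval x) (_ - _) = _
      rw [map_sub, map_mul, map_mul, hmc, hmc]
    rw [h4]
    rfl
  choose P hP using hP
  let M : (κ → ℂ) → Matrix (TI ι m d) (TI ι m d) ℂ := fun x a b => g (LI d (Ax x) (Pi.single b 1)) a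
  have hMP : ∀ x, M x = (Matrix.of P).map (eval x) := by
    intro x
    ext a b
    exact (hP a b x).symm
  have hmul : ∀ x (c : TI ι m d → ℂ), (M x).mulVec c = g (LI d (Ax x) c) := by
    intro x c
    funext a
    have h1 : c = ∑ b, c b • (Pi.single b 1 : TI ι m d → ℂ) := by
      funext b
      rw [Finset.sum_apply, Finset.sum_eq_single b]
      · simp
      · intro b' _ hb'
        simp [Ne.symm hb']
      · intro h; exact absurd (Finset.mem_univ _) h
    conv_rhs => rw [h1]
    rw [map_sum, map_sum, Finset.sum_apply]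
    unfold Matrix.mulVec dotProduct
    apply Finset.sum_congr rfl
    intro b _
    rw [map_smul, map_smul, Pi.smul_apply, smul_eq_mul, mul_comm]
  have hdet : ∀ x, eval x (Matrix.of P).det = (M x).det := by
    intro x
    rw [hMP, RingHom.map_det]
    rfl
  refine ⟨(Matrix.of P).det, ?_, ?_⟩
  · intro h0
    have h1 : M x0 = 1 := by
      ext a b
      have h2 := hmul x0 (Pi.single b 1)
      have h3 : g (LI d (Ax x0) (Pi.single b 1)) = Pi.single b 1 :=
        LinearMap.congr_fun hg (Pi.single b (1 : ℂ))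
      rw [h3] at h2
      have h4 := congrFun h2 a
      rw [Matrix.mulVec_single_one] at h4
      rw [Matrix.one_apply]
      rw [Matrix.col_apply] at h4
      rw [h4, Pi.single_apply]
    have h5 := hdet x0
    rw [h0, map_zero, h1, Matrix.det_one] at h5
    exact zero_ne_one h5
  · intro x hx
    apply cop_of_LI hm ⟨j0⟩ (fun i => hG i x)
    rw [hdet] at hx
    rw [injective_iff_map_eq_zero]
    intro c hc0
    have h1 := hmul x c
    rw [show LI d (Ax x) c = 0 from hc0, map_zero] at h1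
    exact Matrix.eq_zero_of_mulVec_eq_zero hx h1

/-- the universal substitution -/
private noncomputable def usub (n m : ℕ) :
    Pn n →ₐ[ℂ] MvPolynomial (Fin m) (MvPolynomial (Fin n × Fin m) ℂ) :=
  aeval (fun k => ∑ l, C (X (k, l)) * X l)

private theorem map_usub (x : Fin n × Fin m → ℂ) (f : Pn n) :
    map (eval x) (usub n m f) = lsub (fun k l => x (k, l)) f := by
  unfold usub lsub
  induction f using MvPolynomial.induction_on with
  | C c =>
    rw [aeval_C, aeval_C]
    show map (eval x) (C (C c)) = C c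
    rw [map_C, eval_C]
  | add p q hp hq => rw [map_add, map_add, hp, hq, map_add]
  | mul_X p i hp =>
    rw [map_mul, map_mul, hp, map_mul, aeval_X, aeval_X]
    congr 1
    rw [map_sum]
    apply Finset.sum_congr rfl
    intro l _
    rw [map_mul, map_C, map_X, eval_X]

private theorem GenM_of_Gen {p : (Fin n → Fin m → ℂ) → Prop}
    (h : Gen (fun x : Fin n × Fin m → ℂ => p (fun k l => x (k, l)))) : GenM p := by
  obtain ⟨F, hF, hp⟩ := h
  exact ⟨F, hF, fun φ hφ => hp _ hφ⟩

private theorem cop_ex {ι : Type} [Finite ι] (hm : 2 ≤ m) {d : ℕ} : ∀ (n : ℕ), m ≤ n →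
    ∀ f : ι → Pn n, (∀ i, (f i).IsHomogeneous d) → CopF f →
    ∃ φ : Fin n → Fin m → ℂ, CopF (fun i => lsub φ (f i)) := by
  intro n hmn
  induction n, hmn using Nat.le_induction with
  | base =>
    intro f _ h
    refine ⟨idm m, ?_⟩
    simp only [lsub_idm]
    exact h
  | succ n hmn ih =>
    intro f hf h
    obtain ⟨φ, _, h1⟩ := cop_res (by omega) hf h
    obtain ⟨φ', h2⟩ := ih (fun i => lsub φ (f i)) (fun i => lsub_hom (hf i)) h1
    refine ⟨mm φ φ', ?_⟩
    simp only [lsub_mm] at h2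
    exact h2

theorem cop_gen {ι : Type} [Finite ι] (hm : 2 ≤ m) (hmn : m ≤ n) {d : ℕ} {f : ι → Pn n}
    (hf : ∀ i, (f i).IsHomogeneous d) (h : CopF f) :
    GenM (fun φ : Fin n → Fin m → ℂ => CopF (fun i => lsub φ (f i))) := by
  obtain ⟨φ0, hφ0⟩ := cop_ex hm n hmn f hf h
  apply GenM_of_Gen
  have h1 := copF_open (κ := Fin n × Fin m) (d := d) (by omega : 0 < m) (fun i => usub n m (f i)) (by
    intro i x
    rw [map_usub]
    exact lsub_hom (hf i)) (fun q => φ0 q.1 q.2) (by
    simp only [map_usub]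
    exact hφ0)
  simp only [map_usub] at h1
  exact h1

private theorem alt_sum {N : ℕ} {θ : F2 N} (h : Dec θ) (u : Fin N → ℂ) :
    ∑ j, C (u j) * ∑ i, C (u i) * θ i j = 0 := by
  have h1 : ∑ j, C (u j) * ∑ i, C (u i) * θ i j = - ∑ j, C (u j) * ∑ i, C (u i) * θ i j := by
    conv_lhs => simp only [Finset.mul_sum]
    rw [Finset.sum_comm, ← Finset.sum_neg_distrib]
    apply Finset.sum_congr rfl
    intro j _
    rw [Finset.mul_sum, ← Finset.sum_neg_distrib]
    apply Finset.sum_congr rfl
    intro i _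
    rw [h.2.1 j i]
    ring
  have h2 : (2 : Pn N) * ∑ j, C (u j) * ∑ i, C (u i) * θ i j = 0 := by
    linear_combination h1
  rcases mul_eq_zero.mp h2 with h3 | h3
  · exfalso
    have : (2 : Pn N) ≠ 0 := by norm_num
    exact this h3
  · exact h3

/-- vectors `u` with `q ∣ Σ u_i F_i` -/
private noncomputable def dvdS {N k : ℕ} (q : Pn k) (F : Fin N → Pn k) :
    Submodule ℂ (Fin N → ℂ) where
  carrier := {u | q ∣ ∑ i, C (u i) * F i}
  add_mem' := by
    intro a b ha hb
    have h1 := dvd_add ha hb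
    rw [← Finset.sum_add_distrib] at h1
    show q ∣ ∑ i, C ((a + b) i) * F i
    convert h1 using 2 with i
    rw [Pi.add_apply, C_add]
    ring
  zero_mem' := by
    show q ∣ ∑ i, C ((0 : Fin N → ℂ) i) * F i
    simp
  smul_mem' := by
    intro c a ha
    have h1 := Dvd.dvd.mul_left ha (C c)
    rw [Finset.mul_sum] at h1
    show q ∣ ∑ i, C ((c • a) i) * F i
    convert h1 using 2 with i
    rw [Pi.smul_apply, smul_eq_mul, C_mul]
    ring

private theorem mem_dvdS {N k : ℕ} {q : Pn k} {F : Fin N → Pn k} {u : Fin N → ℂ} :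
    u ∈ dvdS q F ↔ q ∣ ∑ i, C (u i) * F i := Iff.rfl

private theorem single_sum {N k : ℕ} (F : Fin N → Pn k) (i : Fin N) :
    ∑ j, C ((Pi.single i 1 : Fin N → ℂ) j) * F j = F i := by
  classical
  rw [Finset.sum_eq_single i]
  · simp
  · intro b _ hb
    rw [Pi.single_eq_of_ne hb, C_0, zero_mul]
  · intro h; exact absurd (Finset.mem_univ _) h

private theorem exists_uv {N : ℕ} (hN : 0 < N) {θ : F2 N} (h : Fol θ) :
    ∃ u v : Fin N → ℂ, u ≠ 0 ∧
      eval u (∑ j, C (v j) * ∑ i, C (u i) * θ i j) ≠ 0 ∧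
      ∀ p : Pn N, p ∣ (∑ j, C (v j) * ∑ i, C (u i) * θ i j) →
        p ∣ (∑ j, C (u j) * ct (eul N) θ j) → p ∣ (∑ j, C (v j) * ct (eul N) θ j) → IsUnit p := by
  classical
  obtain ⟨j0, hj0⟩ : ∃ j0, ct (eul N) θ j0 ≠ 0 := by
    by_contra hcon
    push Not at hcon
    have h1 := eq_zero_of_eul h.hom h.dec h.closed hcon
    have h2 := h.prim (X ⟨0, hN⟩) (fun i j => by rw [h1 i j]; exact dvd_zero _)
    have h3 := h2.map (eval (0 : Fin N → ℂ))
    simp at h3
  obtain ⟨s, hs1, hs2⟩ := irr_factors hj0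
  have g1 : Gen (fun u : Fin N → ℂ => eval u (ct (eul N) θ j0) ≠ 0) := ⟨_, hj0, fun x hx => hx⟩
  have g2 : ∀ q : {q // q ∈ s}, Gen (fun u : Fin N → ℂ => u ∉ ⨅ j, dvdS q.1 (fun i => θ i j)) := by
    intro q
    apply gen_notMem
    intro htop
    apply (hs1 q.1 q.2).not_isUnit
    apply h.prim
    intro i j
    have h1 : (Pi.single i 1 : Fin N → ℂ) ∈ ⨅ j, dvdS q.1 (fun i => θ i j) := by
      rw [htop]; trivial
    rw [Submodule.mem_iInf] at h1
    have h2 := mem_dvdS.mp (h1 j)
    rwa [single_sum (fun i => θ i j) i] at h2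
  have g3 : Gen (fun u : Fin N → ℂ => u ∉ dvdS 0 (ct (eul N) θ)) := by
    apply gen_notMem
    intro htop
    apply hj0
    have h1 : (Pi.single j0 1 : Fin N → ℂ) ∈ dvdS 0 (ct (eul N) θ) := by
      rw [htop]; trivial
    have h2 := mem_dvdS.mp h1
    rw [single_sum (ct (eul N) θ) j0] at h2
    exact zero_dvd_iff.mp h2
  obtain ⟨u, hu1, hu2, hu3⟩ := (g1.and ((Gen.all g2).and g3)).exists
  have hAu : (∑ j, C (u j) * ct (eul N) θ j) ≠ 0 := by
    intro h0
    apply hu3
    rw [mem_dvdS, h0]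
  obtain ⟨s', hs1', hs2'⟩ := irr_factors hAu
  have g4 : ∀ q : {q // q ∈ s'}, Gen (fun v : Fin N → ℂ =>
      v ∉ dvdS q.1 (ct (eul N) θ) ⊓ dvdS q.1 (fun j => ∑ i, C (u i) * θ i j)) := by
    intro q
    apply gen_notMem
    intro htop
    have h1 : ∀ j, (Pi.single j 1 : Fin N → ℂ) ∈
        dvdS q.1 (ct (eul N) θ) ⊓ dvdS q.1 (fun j => ∑ i, C (u i) * θ i j) := by
      intro j
      rw [htop]; trivial
    have h2 := mem_dvdS.mp (h1 j0).1
    rw [single_sum (ct (eul N) θ) j0] at h2
    obtain ⟨q0, hq0, hass⟩ := hs2 q.1 (hs1' q.1 q.2) h2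
    apply hu2 ⟨q0, hq0⟩
    rw [Submodule.mem_iInf]
    intro j
    rw [mem_dvdS]
    have h3 := mem_dvdS.mp (h1 j).2
    rw [single_sum (fun j => ∑ i, C (u i) * θ i j) j] at h3
    exact hass.symm.dvd.trans h3
  have hlin : ∀ v : Fin N → ℂ, eval u (∑ j, C (v j) * ∑ i, C (u i) * θ i j) =
      ∑ j, v j * eval u (ct (eul N) θ j) := by
    intro v
    rw [map_sum]
    apply Finset.sum_congr rfl
    intro j _
    have h1 : eval u (∑ i, C (u i) * θ i j) = eval u (ct (eul N) θ j) := by
      unfold ct eul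
      rw [map_sum, map_sum]
      apply Finset.sum_congr rfl
      intro i _
      rw [map_mul, map_mul, eval_C, eval_X]
    rw [map_mul, eval_C, h1]
  have g5 : Gen (fun v : Fin N → ℂ => eval u (∑ j, C (v j) * ∑ i, C (u i) * θ i j) ≠ 0) := by
    refine ⟨∑ j, C (eval u (ct (eul N) θ j)) * X j, ?_, ?_⟩
    · intro h0
      have h1 := congrArg (eval (Pi.single j0 1 : Fin N → ℂ)) h0
      rw [map_sum, map_zero, Finset.sum_eq_single j0] at h1
      · rw [map_mul, eval_C, eval_X, Pi.single_eq_same, mul_one] at h1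
        exact hu1 h1
      · intro b _ hb
        rw [map_mul, eval_X, Pi.single_eq_of_ne hb, mul_zero]
      · intro h; exact absurd (Finset.mem_univ _) h
    · intro v hv
      rw [hlin]
      rw [map_sum] at hv
      simp only [map_mul, eval_C, eval_X] at hv
      simp only [mul_comm (v _)]
      exact hv
  obtain ⟨v, hv1, hv2⟩ := ((Gen.all g4).and g5).exists
  refine ⟨u, v, ?_, hv2, ?_⟩
  · rintro rfl
    apply hAu
    simp
  · intro p hp1 hp2 hp3
    by_contra hpu
    have hp0 : p ≠ 0 := by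
      rintro rfl
      exact hAu (zero_dvd_iff.mp hp2)
    obtain ⟨π, hπ, hπd⟩ := WfDvdMonoid.exists_irreducible_factor hpu hp0
    obtain ⟨q, hq, hass⟩ := hs2' π hπ (hπd.trans hp2)
    apply hv1 ⟨q, hq⟩
    exact ⟨mem_dvdS.mpr (hass.symm.dvd.trans (hπd.trans hp3)),
      mem_dvdS.mpr (hass.symm.dvd.trans (hπd.trans hp1))⟩

theorem prim_res (hn : 3 ≤ n) {θ : F2 (n + 1)} (h : Fol θ) :
    ∃ φ : Fin (n + 1) → Fin n → ℂ, Function.Injective (lmap φ) ∧ Fol (pb2 φ θ) := by
  classical
  obtain ⟨b, rfl⟩ : ∃ b, n = b + 2 := ⟨n - 2, by omega⟩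
  obtain ⟨u, v, hu0, huv, hcop⟩ := exists_uv (by omega) h
  have hind : LinearIndependent ℂ ![u, v] := by
    rw [LinearIndependent.pair_iff]
    intro s t hst
    have ht : t = 0 := by
      by_contra ht
      apply huv
      have hv : v = (-(s / t)) • u := by
        have h1 : t • v = - (s • u) := eq_neg_of_add_eq_zero_right hst
        calc v = t⁻¹ • (t • v) := by rw [smul_smul, inv_mul_cancel₀ ht, one_smul]
          _ = _ := by rw [h1, smul_neg, smul_smul, neg_smul, div_eq_inv_mul]
      have h2 : ∑ j, C (v j) * ∑ i, C (u i) * θ i j =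
          C (-(s / t)) * ∑ j, C (u j) * ∑ i, C (u i) * θ i j := by
        rw [Finset.mul_sum]
        apply Finset.sum_congr rfl
        intro j _
        rw [hv, Pi.smul_apply, smul_eq_mul, C_mul]
        ring
      rw [h2, alt_sum h.dec, mul_zero, map_zero]
    refine ⟨?_, ht⟩
    rw [ht, zero_smul, add_zero] at hst
    rcases smul_eq_zero.mp hst with h1 | h1
    · exact h1
    · exact absurd h1 hu0
  obtain ⟨g, g', hg, hv⟩ := exists_basis (n := b + 2 + 1) (r := 2) (by omega) ![u, v] hind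
  have he0 : (Fin.cons 1 0 : Fin (b + 2 + 1) → ℂ) =
      fun j => if j = Fin.castLE (by omega : 2 ≤ b + 2 + 1) 0 then 1 else 0 := by
    funext j
    refine Fin.cases ?_ (fun j => ?_) j
    · rfl
    · simp only [Fin.cons_succ, Pi.zero_apply]
      rw [if_neg]
      exact Fin.succ_ne_zero j
  have hv0 : lmap g (Fin.cons 1 0 : Fin (b + 2 + 1) → ℂ) = u := by
    rw [he0]
    exact hv 0
  let f : Fin 3 → Pn (b + 2 + 1) := ![∑ j, C (v j) * ∑ i, C (u i) * θ i j,
    ∑ j, C (u j) * ct (eul (b + 2 + 1)) θ j, ∑ j, C (v j) * ct (eul (b + 2 + 1)) θ j]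
  have hf : CopF f := by
    intro p hp
    exact hcop p (hp 0) (hp 1) (hp 2)
  have hf0 : (f 0).IsHomogeneous 3 := by
    show (∑ j, C (v j) * ∑ i, C (u i) * θ i j).IsHomogeneous 3
    apply IsHomogeneous.sum
    intro j _
    apply IsHomogeneous.C_mul
    apply IsHomogeneous.sum
    intro i _
    apply IsHomogeneous.C_mul
    exact h.hom i j
  obtain ⟨R, hR, hRψ⟩ := bez (CopF_inv hf hg) (i0 := 0) (d := 3) (lsub_hom hf0) (by
    rw [Pool.Agent.Helper93.eval_lsub, hv0]
    exact huv)
  obtain ⟨ψ, hψ1, hψ2⟩ := exists_emb_ne' (by omega : 1 ≤ b) hR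
  have hcf := hRψ (b + 1) (bl ψ) hψ2
  let φ0 : Fin (b + 2 + 1) → Fin (b + 2) → ℂ := bl (bl ψ)
  have hc0 : ∀ k, mm g φ0 k 0 = u k := by
    intro k
    have h1 : (fun l => φ0 l 0) = (Fin.cons 1 0 : Fin (b + 2 + 1) → ℂ) := by
      funext l
      refine Fin.cases rfl (fun l => rfl) l
    have h2 : mm g φ0 k 0 = lmap g (fun l => φ0 l 0) k := rfl
    rw [h2, h1, hv0]
  have hc1 : ∀ k, mm g φ0 k 1 = v k := by
    intro k
    have h1 : (fun l => φ0 l 1) =
        fun j => if j = Fin.castLE (by omega : 2 ≤ b + 2 + 1) 1 then 1 else 0 := by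
      funext l
      refine Fin.cases rfl (fun l => ?_) l
      refine Fin.cases rfl (fun l => ?_) l
      rw [if_neg]
      · rfl
      · intro h3
        have := congrArg Fin.val h3
        simp at this
    have h2 : mm g φ0 k 1 = lmap g (fun l => φ0 l 1) k := rfl
    rw [h2, h1, hv 1]
    rfl
  have hpb : ∀ i j, pb2 (mm g φ0) θ i j = lsub (mm g φ0)
      (∑ l, C (mm g φ0 l j) * ∑ k, C (mm g φ0 k i) * θ k l) := by
    intro i j
    unfold pb2
    rw [Finset.sum_comm, map_sum]
    apply Finset.sum_congr rfl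
    intro l _
    rw [Finset.mul_sum, map_sum]
    apply Finset.sum_congr rfl
    intro k _
    have hC : ∀ c : ℂ, lsub (mm g φ0) (C c) = C c := fun c => (lsub (mm g φ0)).commutes c
    rw [C_mul, map_mul, map_mul, hC, hC]
    ring
  have heul : ∀ j, ct (eul (b + 2)) (pb2 (mm g φ0) θ) j = lsub (mm g φ0)
      (∑ l, C (mm g φ0 l j) * ct (eul (b + 2 + 1)) θ l) := by
    intro j
    rw [eul_pb2, map_sum]
    apply Finset.sum_congr rfl
    intro l _
    rw [map_mul]
    have hC : ∀ c : ℂ, lsub (mm g φ0) (C c) = C c := fun c => (lsub (mm g φ0)).commutes c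
    rw [hC]
  refine ⟨mm g φ0, ?_, ?_⟩
  · intro x z hxz
    rw [lmap_mm, lmap_mm] at hxz
    exact bl_inj (bl_inj hψ1) (hg.inj hxz)
  · refine ⟨fun i j => pb2_hom h.hom i j, Dec_pb2 h.dec _, Closed_pb2 h.closed _, ?_⟩
    intro p hp
    apply hcf
    have hct : ∀ j, p ∣ ct (eul (b + 2)) (pb2 (mm g φ0) θ) j := by
      intro j
      unfold ct
      apply Finset.dvd_sum
      intro i _
      exact (hp i j).mul_left _
    intro i
    show p ∣ lsub φ0 (lsub g (f i))
    rw [lsub_mm]
    fin_cases i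
    · have h1 := hp 0 1
      rw [hpb] at h1
      simp only [hc0, hc1] at h1
      exact h1
    · have h1 := hct 0
      rw [heul] at h1
      simp only [hc0] at h1
      exact h1
    · have h1 := hct 1
      rw [heul] at h1
      simp only [hc1] at h1
      exact h1

private theorem fol_ex (hm : 3 ≤ m) : ∀ (n : ℕ), m ≤ n → ∀ θ : F2 n, Fol θ →
    ∃ φ : Fin n → Fin m → ℂ, Fol (pb2 φ θ) := by
  intro n hmn
  induction n, hmn using Nat.le_induction with
  | base =>
    intro θ h
    exact ⟨idm m, by rw [pb2_idm]; exact h⟩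
  | succ n hmn ih =>
    intro θ h
    obtain ⟨φ, _, h1⟩ := prim_res (by omega) h
    obtain ⟨φ', h2⟩ := ih (pb2 φ θ) h1
    exact ⟨mm φ φ', by rw [← pb2_mm]; exact h2⟩

theorem Fol_gen (hm : 3 ≤ m) (hmn : m ≤ n) {θ : F2 n} (h : Fol θ) :
    GenM (fun φ : Fin n → Fin m → ℂ => Fol (pb2 φ θ)) := by
  classical
  obtain ⟨φ0, hφ0⟩ := fol_ex hm n hmn θ h
  apply GenM_of_Gen
  let G : Fin m × Fin m → MvPolynomial (Fin m) (MvPolynomial (Fin n × Fin m) ℂ) := fun z =>
    ∑ k, ∑ l, C (X (k, z.1) * X (l, z.2)) * usub n m (θ k l)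
  have hG : ∀ (x : Fin n × Fin m → ℂ) (z : Fin m × Fin m),
      map (eval x) (G z) = pb2 (fun k l => x (k, l)) θ z.1 z.2 := by
    intro x z
    show map (eval x) (∑ k, ∑ l, C (X (k, z.1) * X (l, z.2)) * usub n m (θ k l)) = _
    unfold pb2
    rw [map_sum]
    apply Finset.sum_congr rfl
    intro k _
    rw [map_sum]
    apply Finset.sum_congr rfl
    intro l _
    rw [map_mul, map_usub, map_C, map_mul, eval_X, eval_X]
  obtain ⟨F, hF, hFx⟩ := copF_open (κ := Fin n × Fin m) (d := 3) (by omega : 0 < m) G (by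
    intro z x
    rw [hG]
    exact pb2_hom h.hom _ _) (fun q => φ0 q.1 q.2) (by
    intro p hp
    apply hφ0.prim
    intro i j
    have := hp (i, j)
    simp only at this
    rw [hG] at this
    exact this)
  refine ⟨F, hF, ?_⟩
  intro x hx
  refine ⟨fun i j => pb2_hom h.hom i j, Dec_pb2 h.dec _, Closed_pb2 h.closed _, ?_⟩
  intro p hp
  apply hFx x hx
  intro z
  simp only
  rw [hG]
  exact hp z.1 z.2

end Pool.Agent.Helper71.FC
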