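import Pool.Agent.Helper71.FC.Sat

/-! FC-6: restriction to the hyperplane `x_0 = 0` (`rs1 = res`, `rs2`, `rs3`), `E` and `M = B^sat/B`.
Write `H` for the hyperplane, `θ_H = rs2 θ`, `η_j = at0 (θ 0 j.succ)` (a 1-form on `H` annihilated by `θ_H`, because of
`pf θ 0 j k l = 0`).  For 1-forms `ζ, η` on `H` annihilated by the primitive decomposable `θ_H` one has `ζ ∧ η = f θ_H`
with a polynomial `f` (`wedge_eq_mul`).
* `EE_ker`: `ξ_j` (`j ≥ 1`) is divisible by `x_0`, the components `0 j k` of `ξ ∧ θ = 0` give `at0 ξ_0 * θ_H = 0`.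
* `EE_lift`: lift `ζ` by `emb`, choose `ξ_0 = ± emb f` where `ζ ∧ η = f θ_H`: then all components of `ξ ∧ θ` vanish on `H`.
* `BS_res`: subtract `c ∧ θ`, so `rs3 b = 0`; for `f` homogeneous of large degree `f b = c' ∧ θ`, `res c'` is annihilated by `θ_H`,
  the components `0 j k` on `H` give `f_H β = g_f θ_H`, `β_jk = at0 b_0jk`; with `f = x_1^K`: `β = g' θ_H` as `θ_H` is primitive;
  `b - g' dx_0 ∧ θ` (up to sign) vanishes on `H`, so it is `x_0 b_1`, and `b_1` is in the saturation by `hz`. -/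

set_option autoImplicit false

namespace Pool.Agent.Helper71.FC

open MvPolynomial
open scoped BigOperators
open Pool.Agent.Helper71.FL (w12 pf ct Dec Closed dd at0 emb res)
open Pool.Agent.Helper93 (lsub lmap OF pb)

variable {n : ℕ}

/-! ### auxiliary facts -/

private theorem rq_at0_C' (c : ℂ) : at0 n ℂ (C c) = C c := by
  unfold at0
  rw [aeval_C]
  rfl

private theorem rq_at0_X0' : at0 n ℂ (X 0) = 0 := by
  unfold at0
  rw [aeval_X, Fin.cons_zero]

private theorem rq_at0_Xs' (i : Fin n) : at0 n ℂ (X i.succ) = X i := by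
  unfold at0
  rw [aeval_X, Fin.cons_succ]

private theorem rq_at0_emb' (f : Pn n) : at0 n ℂ (emb n ℂ f) = f := by
  have h : (at0 n ℂ).comp (emb n ℂ) = AlgHom.id ℂ (Pn n) := by
    apply MvPolynomial.algHom_ext
    intro i
    rw [AlgHom.comp_apply, AlgHom.id_apply]
    unfold emb
    rw [rename_X, rq_at0_Xs']
  exact congrArg (fun g : Pn n →ₐ[ℂ] Pn n => g f) h

private theorem rq_emb_hom' {f : Pn n} {d : ℕ} (h : f.IsHomogeneous d) : (emb n ℂ f).IsHomogeneous d :=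
  h.rename_isHomogeneous

private theorem rq_at0_hom' {f : Pn (n + 1)} {d : ℕ} (h : f.IsHomogeneous d) :
    (at0 n ℂ f).IsHomogeneous d := by
  unfold at0
  have h1 := h.aeval (Fin.cons (0 : Pn n) (fun i => (X i : Pn n)) : Fin (n + 1) → Pn n) (n := 1)
    (by
      intro i
      refine Fin.cases ?_ (fun j => ?_) i
      · rw [Fin.cons_zero]; exact isHomogeneous_zero _ _ _
      · rw [Fin.cons_succ]; exact isHomogeneous_X _ _)
  rwa [one_mul] at h1

private theorem rq_split0 (f : Pn (n + 1)) : ∃ g, f = emb n ℂ (at0 n ℂ f) + X 0 * g := by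
  induction f using MvPolynomial.induction_on with
  | C c =>
    refine ⟨0, ?_⟩
    rw [rq_at0_C', mul_zero, add_zero]
    exact (algHom_C (emb n ℂ) c).symm
  | add p q hp hq =>
    obtain ⟨g, hg⟩ := hp
    obtain ⟨g', hg'⟩ := hq
    refine ⟨g + g', ?_⟩
    rw [map_add, map_add]
    linear_combination hg + hg'
  | mul_X p i hp =>
    obtain ⟨g, hg⟩ := hp
    refine Fin.cases ?_ (fun j => ?_) i
    · refine ⟨p, ?_⟩
      rw [map_mul, rq_at0_X0', mul_zero, map_zero, zero_add, mul_comm]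
    · refine ⟨g * X j.succ, ?_⟩
      rw [map_mul, rq_at0_Xs', map_mul]
      have h1 : emb n ℂ (X j) = X j.succ := by unfold emb; rw [rename_X]
      rw [h1]
      linear_combination (X j.succ) * hg

private theorem rq_X0_ne : (X 0 : Pn (n + 1)) ≠ 0 := X_ne_zero 0

private theorem rq_dvd0 {f : Pn (n + 1)} (h : at0 n ℂ f = 0) : ∃ g, f = X 0 * g := by
  obtain ⟨g, hg⟩ := rq_split0 f
  rw [h, map_zero, zero_add] at hg
  exact ⟨g, hg⟩

private theorem rq_hom_of_mul {g : Pn (n + 1)} {d : ℕ} (h : (X 0 * g).IsHomogeneous (d + 1)) :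
    g.IsHomogeneous d := by
  intro m hm
  have h1 : coeff (Finsupp.single 0 1 + m) (X 0 * g) ≠ 0 := by
    rw [coeff_X_mul]; exact hm
  have h2 := h h1
  rw [Finsupp.weight_apply] at h2 ⊢
  rw [Finsupp.sum_add_index' (by simp) (by intro a b c; simp),
    Finsupp.sum_single_index (by simp)] at h2
  simp only [Pi.one_apply, smul_eq_mul, mul_one] at h2 ⊢
  omega

private theorem rq_hc_mul {f g : Pn n} {d : ℕ} (hg : g.IsHomogeneous d) (m : ℕ) :
    homogeneousComponent (m + d) (f * g) = homogeneousComponent m f * g := by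
  have h1 : ∀ i, homogeneousComponent (m + d) (homogeneousComponent i f * g) =
      if i = m then homogeneousComponent m f * g else 0 := by
    intro i
    rw [homogeneousComponent_of_mem (n := i + d) ((homogeneousComponent_isHomogeneous i f).mul hg)]
    by_cases h : i = m
    · rw [if_pos h, if_pos (by omega), h]
    · rw [if_neg h, if_neg (by omega)]
  conv_lhs => rw [← sum_homogeneousComponent f, Finset.sum_mul, map_sum]
  rw [Finset.sum_congr rfl (fun i _ => h1 i), Finset.sum_ite_eq']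
  split_ifs with h
  · rfl
  · rw [homogeneousComponent_eq_zero, zero_mul]
    rw [Finset.mem_range] at h
    omega

private theorem rq_hc_mul_lt {f g : Pn n} {d : ℕ} (hg : g.IsHomogeneous d) {m : ℕ} (hm : m < d) :
    homogeneousComponent m (f * g) = 0 := by
  have h1 : ∀ i, homogeneousComponent m (homogeneousComponent i f * g) = 0 := by
    intro i
    rw [homogeneousComponent_of_mem (n := i + d) ((homogeneousComponent_isHomogeneous i f).mul hg),
      if_neg (by omega)]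
  conv_lhs => rw [← sum_homogeneousComponent f, Finset.sum_mul, map_sum]
  exact Finset.sum_eq_zero fun i _ => h1 i

private theorem rq_w12_cyc (ξ : F1 n) (θ : F2 n) (i j k : Fin n) : w12 ξ θ i j k = w12 ξ θ j k i := by
  unfold w12; ring

private theorem rq_w12_hom {ξ : F1 n} {θ : F2 n} {k d : ℕ} (hξ : ∀ i, (ξ i).IsHomogeneous k)
    (hθ : ∀ i j, (θ i j).IsHomogeneous d) (i j l : Fin n) : (w12 ξ θ i j l).IsHomogeneous (k + d) :=
  (((hξ i).mul (hθ j l)).add ((hξ j).mul (hθ l i))).add ((hξ l).mul (hθ i j))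

private theorem rq_hc_w12 {θ : F2 n} (hθ : ∀ i j, (θ i j).IsHomogeneous 3) (c : F1 n) (m : ℕ) :
    ∃ c' : F1 n, ∀ i j k, homogeneousComponent m (w12 c θ i j k) = w12 c' θ i j k := by
  by_cases hm : m < 3
  · refine ⟨fun _ => 0, fun i j k => ?_⟩
    unfold w12
    rw [map_add, map_add, rq_hc_mul_lt (hθ _ _) hm, rq_hc_mul_lt (hθ _ _) hm, rq_hc_mul_lt (hθ _ _) hm]
    ring
  · obtain ⟨e, rfl⟩ : ∃ e, m = e + 3 := ⟨m - 3, by omega⟩
    refine ⟨fun l => homogeneousComponent e (c l), fun i j k => ?_⟩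
    unfold w12
    rw [map_add, map_add, rq_hc_mul (hθ _ _), rq_hc_mul (hθ _ _), rq_hc_mul (hθ _ _)]

private theorem rq_hc_X0 (g : Pn (n + 1)) (m : ℕ) :
    homogeneousComponent (m + 1) (X 0 * g) = X 0 * homogeneousComponent m g := by
  rw [mul_comm, rq_hc_mul (isHomogeneous_X _ _), mul_comm]

private theorem rq_hc_X0' (g : Pn (n + 1)) : homogeneousComponent 0 (X 0 * g) = 0 := by
  rw [mul_comm]
  exact rq_hc_mul_lt (isHomogeneous_X _ _) (by omega)

private theorem rq_zero_of_mul {g : Pn (n + 1)} (h : (X 0 * g).IsHomogeneous 0) : X 0 * g = 0 := by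
  rw [← homogeneousComponent_eq_self h, rq_hc_X0']

/-- vanishing on the hyperplane of all components of a cyclically symmetric tensor -/
private theorem rq_at0_all {b : F3 (n + 1)} (hc : ∀ i j k, b i j k = b j k i)
    (h0 : ∀ j l, at0 n ℂ (b 0 j l) = 0)
    (h1 : ∀ i j k : Fin n, at0 n ℂ (b i.succ j.succ k.succ) = 0) (i j k : Fin (n + 1)) :
    at0 n ℂ (b i j k) = 0 := by
  refine Fin.cases (h0 j k) (fun i' => ?_) i
  refine Fin.cases ?_ (fun j' => ?_) j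
  · rw [hc]; exact h0 _ _
  · refine Fin.cases ?_ (fun k' => h1 i' j' k') k
    rw [hc, hc]; exact h0 _ _

private theorem rq_at0_w12_0 {θ : F2 (n + 1)} (h : Dec θ) {ξ : F1 (n + 1)}
    (h0 : ∀ j l : Fin n, at0 n ℂ (w12 ξ θ 0 j.succ l.succ) = 0) (j l : Fin (n + 1)) :
    at0 n ℂ (w12 ξ θ 0 j l) = 0 := by
  refine Fin.cases ?_ (fun j' => ?_) j
  · have : w12 ξ θ 0 0 l = 0 := by
      unfold w12
      rw [h.1 0, h.2.1 l 0]
      ring
    rw [this, map_zero]
  · refine Fin.cases ?_ (fun l' => h0 j' l') l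
    have : w12 ξ θ 0 j'.succ 0 = 0 := by
      unfold w12
      rw [h.1 0, h.2.1 j'.succ 0]
      ring
    rw [this, map_zero]

/-- restriction of 2-forms to `x_0 = 0` -/
noncomputable def rs2 (θ : F2 (n + 1)) : F2 n := fun i j => at0 n ℂ (θ i.succ j.succ)

/-- restriction of 3-forms to `x_0 = 0` -/
noncomputable def rs3 (b : F3 (n + 1)) : F3 n := fun i j k => at0 n ℂ (b i.succ j.succ k.succ)

/-- no common factor -/
def Prim2 (θ : F2 n) : Prop := ∀ p, (∀ i j, p ∣ θ i j) → IsUnit p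

theorem at0_eq_lsub (f : Pn (n + 1)) :
    at0 n ℂ f = lsub (fun (k : Fin (n + 1)) (l : Fin n) => if k = l.succ then (1 : ℂ) else 0) f := by
  have h : at0 n ℂ =
      lsub (fun (k : Fin (n + 1)) (l : Fin n) => if k = l.succ then (1 : ℂ) else 0) := by
    apply MvPolynomial.algHom_ext
    intro i
    unfold lsub
    rw [aeval_X]
    refine Fin.cases ?_ (fun j => ?_) i
    · rw [rq_at0_X0']
      symm
      apply Finset.sum_eq_zero
      intro l _
      beta_reduce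
      rw [if_neg (Fin.succ_ne_zero l).symm, C_0, zero_mul]
    · rw [rq_at0_Xs', Finset.sum_eq_single j]
      · beta_reduce
        rw [if_pos rfl, C_1, one_mul]
      · intro l _ hl
        beta_reduce
        rw [if_neg (fun h => hl (Fin.succ_injective _ h).symm), C_0, zero_mul]
      · intro h; exact absurd (Finset.mem_univ _) h
  rw [h]

theorem rs2_eq_pb2 (θ : F2 (n + 1)) :
    rs2 θ = pb2 (fun (k : Fin (n + 1)) (l : Fin n) => if k = l.succ then (1 : ℂ) else 0) θ := by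
  funext i j
  unfold rs2 pb2
  rw [Finset.sum_eq_single i.succ, Finset.sum_eq_single j.succ]
  · beta_reduce
    rw [if_pos rfl, if_pos rfl, one_mul, C_1, one_mul, at0_eq_lsub]
  · intro l _ hl
    beta_reduce
    rw [if_neg hl, mul_zero, C_0, zero_mul]
  · intro h; exact absurd (Finset.mem_univ _) h
  · intro k _ hk
    apply Finset.sum_eq_zero
    intro l _
    beta_reduce
    rw [if_neg hk, zero_mul, C_0, zero_mul]
  · intro h; exact absurd (Finset.mem_univ _) h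

theorem at0_eq_zero_iff (f : Pn (n + 1)) : at0 n ℂ f = 0 ↔ ∃ g, f = X 0 * g := by
  constructor
  · exact rq_dvd0
  · rintro ⟨g, rfl⟩
    rw [map_mul, rq_at0_X0', zero_mul]

theorem rs2_hom {θ : F2 (n + 1)} {d : ℕ} (h : ∀ i j, (θ i j).IsHomogeneous d) (i j : Fin n) :
    (rs2 θ i j).IsHomogeneous d := rq_at0_hom' (h _ _)

theorem Dec_rs2 {θ : F2 (n + 1)} (h : Dec θ) : Dec (rs2 θ) := by
  refine ⟨fun i => ?_, fun i j => ?_, fun i j k l => ?_⟩
  · unfold rs2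
    rw [h.1, map_zero]
  · unfold rs2
    rw [h.2.1, map_neg]
  · have h1 := congrArg (at0 n ℂ) (h.2.2 i.succ j.succ k.succ l.succ)
    unfold pf at h1 ⊢
    unfold rs2
    simpa only [map_add, map_sub, map_mul, map_zero] using h1

theorem Closed_rs2 {θ : F2 (n + 1)} (h : Closed θ) : Closed (rs2 θ) := by
  rw [rs2_eq_pb2]
  exact Closed_pb2 h _

theorem w12_res (ξ : F1 (n + 1)) (θ : F2 (n + 1)) (i j k : Fin n) :
    w12 (res ξ) (rs2 θ) i j k = at0 n ℂ (w12 ξ θ i.succ j.succ k.succ) := by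
  unfold w12 res rs2
  simp only [map_add, map_mul]

theorem res_mem_EE {θ : F2 (n + 1)} {k : ℕ} {ξ : F1 (n + 1)} (h : ξ ∈ EE θ k) :
    res ξ ∈ EE (rs2 θ) k := by
  refine ⟨fun i => rq_at0_hom' (h.1 _), fun i j l => ?_⟩
  rw [w12_res, h.2, map_zero]

/-- the contraction of `θ` with `∂/∂x_0` restricted to the hyperplane -/
theorem eta_ann {θ : F2 (n + 1)} (h : Dec θ) (i j k : Fin n) :
    w12 (fun l : Fin n => at0 n ℂ (θ 0 l.succ)) (rs2 θ) i j k = 0 := by
  have h1 := congrArg (at0 n ℂ) (h.2.2 0 i.succ j.succ k.succ)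
  rw [map_zero] at h1
  rw [← h1]
  unfold w12 rs2 pf
  rw [h.2.1 k.succ i.succ]
  simp only [map_add, map_sub, map_mul, map_neg]
  ring

private theorem rq_wedge_id {θ : F2 n} (h : Dec θ) {ζ η : F1 n}
    (hζ : ∀ i j k, w12 ζ θ i j k = 0) (hη : ∀ i j k, w12 η θ i j k = 0) (i j k l : Fin n) :
    w11 ζ η i j * θ k l = w11 ζ η k l * θ i j := by
  have e1 := hη j k l
  have e2 := hη i k l
  have e3 := hζ i j l
  have e4 := hζ i j k
  unfold w12 at e1 e2 e3 e4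
  rw [h.2.1 l j] at e1
  rw [h.2.1 l i] at e2
  rw [h.2.1 l i] at e3
  rw [h.2.1 k i] at e4
  unfold w11
  linear_combination ζ i * e1 - ζ j * e2 + η k * e3 - η l * e4

private theorem rq_prim_div {θ : F2 n} (hp : Prim2 θ) {A : F2 n}
    (h : ∀ i j k l, A i j * θ k l = A k l * θ i j) : ∃ f : Pn n, ∀ i j, A i j = f * θ i j := by
  classical
  obtain ⟨k, l, hkl⟩ : ∃ k l, θ k l ≠ 0 := by
    by_contra hcon
    push Not at hcon
    have := hp 0 (fun i j => by rw [hcon])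
    exact not_isUnit_zero this
  obtain ⟨inst⟩ : Nonempty (NormalizedGCDMonoid (Pn n)) := inferInstance
  have h1 : θ k l ∣ A k l := by
    have h2 : θ k l ∣ (Finset.univ : Finset (Fin n × Fin n)).gcd (fun q => A k l * θ q.1 q.2) := by
      apply Finset.dvd_gcd
      rintro ⟨i, j⟩ _
      show θ k l ∣ A k l * θ i j
      rw [← h i j k l]
      exact dvd_mul_left _ _
    have h4 := h2.trans (Finset.gcd_mul_left' (Finset.univ : Finset (Fin n × Fin n))
      (fun q : Fin n × Fin n => θ q.1 q.2) (A k l)).dvd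
    have h3 : IsUnit ((Finset.univ : Finset (Fin n × Fin n)).gcd (fun q => θ q.1 q.2)) :=
      hp _ (fun i j => Finset.gcd_dvd (f := fun q : Fin n × Fin n => θ q.1 q.2)
        (Finset.mem_univ (i, j)))
    exact (IsUnit.dvd_mul_right h3).1 h4
  obtain ⟨f, hf⟩ := h1
  refine ⟨f, fun i j => ?_⟩
  apply mul_right_cancel₀ hkl
  rw [h i j k l, hf]
  ring

/-- two 1-forms annihilated by a primitive decomposable 2-form -/
theorem wedge_eq_mul {θ : F2 n} (h : Dec θ) (hp : Prim2 θ) {ζ η : F1 n}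
    (hζ : ∀ i j k, w12 ζ θ i j k = 0) (hη : ∀ i j k, w12 η θ i j k = 0) :
    ∃ f : Pn n, ∀ i j, w11 ζ η i j = f * θ i j :=
  rq_prim_div hp (rq_wedge_id h hζ hη)

private theorem rq_nz_of_prim {θ : F2 n} (hp : Prim2 θ) : ∃ i j, θ i j ≠ 0 := by
  by_contra hcon
  push Not at hcon
  have := hp 0 (fun i j => by rw [hcon])
  exact not_isUnit_zero this

private theorem rq_zero_comp {θ : F2 (n + 1)} (h : ∃ i j, rs2 θ i j ≠ 0) {ξ : F1 (n + 1)}
    (h0 : ∀ i, res ξ i = 0)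
    (hw : ∀ j l : Fin n, at0 n ℂ (w12 ξ θ 0 j.succ l.succ) = 0) (i : Fin (n + 1)) :
    ∃ g, ξ i = X 0 * g := by
  refine Fin.cases ?_ (fun i' => rq_dvd0 (h0 i')) i
  obtain ⟨j, l, hjl⟩ := h
  apply rq_dvd0
  have h1 := hw j l
  unfold w12 at h1
  rw [map_add, map_add, map_mul, map_mul, map_mul] at h1
  have h2 : at0 n ℂ (ξ j.succ) = 0 := h0 j
  have h3 : at0 n ℂ (ξ l.succ) = 0 := h0 l
  rw [h2, h3, zero_mul, zero_mul, add_zero, add_zero] at h1
  exact (mul_eq_zero.1 h1).resolve_right hjl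

private theorem rq_w12_X0 (η : F1 (n + 1)) (θ : F2 (n + 1)) (i j k : Fin (n + 1)) :
    w12 (fun l => X 0 * η l) θ i j k = X 0 * w12 η θ i j k :=
  Pool.Agent.Helper71.FL.w12_smul _ _ _ _ _ _

theorem EE_ker {θ : F2 (n + 1)} (h : ∃ i j, rs2 θ i j ≠ 0) {k : ℕ} {ξ : F1 (n + 1)}
    (hξ : ξ ∈ EE θ (k + 1)) (h0 : ∀ i, res ξ i = 0) : ∃ η ∈ EE θ k, ∀ i, ξ i = X 0 * η i := by
  have h1 := rq_zero_comp h h0 (fun j l => by rw [hξ.2, map_zero])
  choose η hη using h1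
  refine ⟨η, ⟨fun i => ?_, fun i j l => ?_⟩, hη⟩
  · apply rq_hom_of_mul
    rw [← hη]
    exact hξ.1 i
  · have h2 := hξ.2 i j l
    have h3 : ξ = fun l => X 0 * η l := funext hη
    rw [h3, rq_w12_X0] at h2
    exact (mul_eq_zero.1 h2).resolve_left rq_X0_ne

theorem EE_ker0 {θ : F2 (n + 1)} (h : ∃ i j, rs2 θ i j ≠ 0) {ξ : F1 (n + 1)}
    (hξ : ξ ∈ EE θ 0) (h0 : ∀ i, res ξ i = 0) : ξ = 0 := by
  have h1 := rq_zero_comp h h0 (fun j l => by rw [hξ.2, map_zero])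
  funext i
  obtain ⟨g, hg⟩ := h1 i
  rw [Pi.zero_apply, hg]
  apply rq_zero_of_mul
  rw [← hg]
  exact hξ.1 i

/-- a homogeneous quotient of a homogeneous polynomial -/
private theorem rq_hom_quot {f g : Pn n} {k d : ℕ} (hg : g.IsHomogeneous d) (hg0 : g ≠ 0)
    (h : (f * g).IsHomogeneous (k + d)) : f.IsHomogeneous k := by
  have h1 := rq_hc_mul hg k (f := f)
  rw [homogeneousComponent_eq_self h] at h1
  have h2 : f = homogeneousComponent k f := mul_right_cancel₀ hg0 h1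
  rw [h2]
  exact homogeneousComponent_isHomogeneous k f

theorem EE_lift {θ : F2 (n + 1)} (hθ : ∀ i j, (θ i j).IsHomogeneous 3) (hdec : Dec θ)
    (hp : Prim2 (rs2 θ)) {k : ℕ} {ζ : F1 n} (hζ : ζ ∈ EE (rs2 θ) k) :
    ∃ ξ : F1 (n + 1), (∀ i, (ξ i).IsHomogeneous k) ∧ (∀ i, res ξ i = ζ i) ∧
      ∃ b : F3 (n + 1), (∀ i j l, (b i j l).IsHomogeneous (k + 2)) ∧
        ∀ i j l, w12 ξ θ i j l = X 0 * b i j l := by
  obtain ⟨f, hf⟩ := wedge_eq_mul (Dec_rs2 hdec) hp hζ.2 (eta_ann hdec)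
  have hfk : f.IsHomogeneous k := by
    obtain ⟨i, j, hij⟩ := rq_nz_of_prim hp
    apply rq_hom_quot (rs2_hom hθ i j) hij
    rw [← hf]
    exact ((hζ.1 i).mul (rq_at0_hom' (hθ _ _))).sub ((hζ.1 j).mul (rq_at0_hom' (hθ _ _)))
  set ξ : F1 (n + 1) := Fin.cons (emb n ℂ f) (fun i => emb n ℂ (ζ i)) with hξ
  have hξs : ∀ i : Fin n, ξ i.succ = emb n ℂ (ζ i) := fun i => by rw [hξ, Fin.cons_succ]
  have hξ0 : ξ 0 = emb n ℂ f := by rw [hξ, Fin.cons_zero]
  have hres : ∀ i, res ξ i = ζ i := fun i => by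
    unfold res
    rw [hξs, rq_at0_emb']
  have hhom : ∀ i, (ξ i).IsHomogeneous k := by
    intro i
    refine Fin.cases ?_ (fun i' => ?_) i
    · rw [hξ0]; exact rq_emb_hom' hfk
    · rw [hξs]; exact rq_emb_hom' (hζ.1 i')
  have hz : ∀ i j l, at0 n ℂ (w12 ξ θ i j l) = 0 := by
    apply rq_at0_all (rq_w12_cyc ξ θ)
    · apply rq_at0_w12_0 hdec
      intro j l
      unfold w12
      rw [hξ0, hξs, hξs, hdec.2.1 l.succ 0]
      simp only [map_add, map_mul, map_neg, rq_at0_emb']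
      have h1 := hf j l
      unfold w11 rs2 at h1
      linear_combination -h1
    · intro i j l
      rw [← w12_res]
      have h1 : res ξ = ζ := funext hres
      rw [h1]
      exact hζ.2 i j l
  have h2 : ∀ i j l, ∃ g, w12 ξ θ i j l = X 0 * g := fun i j l => rq_dvd0 (hz i j l)
  choose b hb using h2
  refine ⟨ξ, hhom, hres, b, fun i j l => ?_, hb⟩
  apply rq_hom_of_mul
  rw [← hb]
  exact rq_w12_hom hhom hθ i j l

theorem EE_lift_iff {θ : F2 (n + 1)} (hθ : ∀ i j, (θ i j).IsHomogeneous 3) (h : ∃ i j, rs2 θ i j ≠ 0)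
    {k : ℕ} {ξ : F1 (n + 1)} (hξ : ∀ i, (ξ i).IsHomogeneous k) {b : F3 (n + 1)}
    (hb : ∀ i j l, w12 ξ θ i j l = X 0 * b i j l) :
    (∃ ξ' ∈ EE θ k, ∀ i, res ξ' i = res ξ i) ↔ IsB θ b := by
  constructor
  · rintro ⟨ξ', hξ', hr⟩
    have h0 : ∀ i j l, w12 (fun l => ξ l - ξ' l) θ i j l = X 0 * b i j l := by
      intro i j l
      rw [Pool.Agent.Helper71.FL.w12_sub, hξ'.2, sub_zero, hb]
    have h1 := rq_zero_comp (ξ := fun l => ξ l - ξ' l) h (fun i => by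
      unfold res
      rw [map_sub]
      have := hr i
      unfold res at this
      rw [this, sub_self]) (fun j l => by rw [h0, map_mul, rq_at0_X0', zero_mul])
    choose c hc using h1
    refine ⟨c, fun i j l => ?_⟩
    apply mul_left_cancel₀ (rq_X0_ne (n := n))
    rw [← h0, ← rq_w12_X0]
    congr 1
    exact funext hc
  · rintro hB
    have hbh : ∀ i j l, (b i j l).IsHomogeneous (k + 2) := fun i j l => by
      apply rq_hom_of_mul
      rw [← hb]
      exact rq_w12_hom hξ hθ i j l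
    obtain ⟨c, hck, hc⟩ : ∃ c : F1 (n + 1), (∀ i, (X 0 * c i).IsHomogeneous k) ∧
        ∀ i j l, b i j l = w12 c θ i j l := by
      cases k with
      | zero =>
        have h0 : b = 0 := BB_small hθ (d := 0 + 2) (by norm_num) ⟨hbh, hB⟩
        refine ⟨fun _ => 0, fun i => by rw [mul_zero]; exact isHomogeneous_zero _ _ _,
          fun i j l => ?_⟩
        rw [h0]
        unfold w12
        simp
      | succ k =>
        have h0 : b ∈ BB θ (k + 3) := ⟨hbh, hB⟩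
        obtain ⟨c, hc, hc'⟩ := (mem_BB_iff hθ).1 h0
        refine ⟨c, fun i => ?_, hc'⟩
        have h1 := (isHomogeneous_X ℂ (0 : Fin (n + 1))).mul (hc i)
        rwa [add_comm 1 k] at h1
    refine ⟨fun i => ξ i - X 0 * c i, ⟨fun i => (hξ i).sub (hck i), fun i j l => ?_⟩, fun i => ?_⟩
    · have h1 := Pool.Agent.Helper71.FL.w12_sub ξ (fun l => X 0 * c l) θ i j l
      rw [h1, rq_w12_X0, hb, hc, sub_self]
    · unfold res
      rw [map_sub, map_mul, rq_at0_X0', zero_mul, sub_zero]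

/-- multiples of `θ` divisible by `x_0` come from 1-forms whose restriction is annihilated by `rs2 θ` -/
theorem res_of_mul {θ : F2 (n + 1)} {b : F3 (n + 1)} {c : F1 (n + 1)}
    (h : ∀ i j k, X 0 * b i j k = w12 c θ i j k) (i j k : Fin n) :
    w12 (res c) (rs2 θ) i j k = 0 := by
  rw [w12_res, ← h, map_mul, rq_at0_X0', zero_mul]

theorem IsBsat_rs3 {θ : F2 (n + 1)} {b : F3 (n + 1)} (h : IsBsat θ b) : IsBsat (rs2 θ) (rs3 b) := by
  obtain ⟨K, hK⟩ := h
  refine ⟨K, fun f hf => ?_⟩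
  obtain ⟨c, hc⟩ := hK _ (rq_emb_hom' hf)
  refine ⟨res c, fun i j k => ?_⟩
  rw [w12_res, ← hc, map_mul, rq_at0_emb']
  rfl

/-- elements of the saturation are alternating -/
private theorem rq_sat_alt {θ : F2 (n + 1)} (hdec : Dec θ) {b : F3 (n + 1)} (h : IsBsat θ b) :
    (∀ i j k, b i j k = b j k i) ∧ (∀ i k, b i i k = 0) ∧ ∀ i k, b i k i = 0 := by
  obtain ⟨K, hK⟩ := h
  have h1 : (X 0 ^ K : Pn (n + 1)).IsHomogeneous K := by
    have := (isHomogeneous_X ℂ (0 : Fin (n + 1))).pow K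
    rwa [one_mul] at this
  obtain ⟨c, hc'⟩ := hK _ h1
  have hc : ∀ i j k, X 0 ^ K * b i j k = w12 c θ i j k := hc'
  have h2 : (X 0 ^ K : Pn (n + 1)) ≠ 0 := pow_ne_zero _ rq_X0_ne
  refine ⟨fun i j k => ?_, fun i k => ?_, fun i k => ?_⟩
  · apply mul_left_cancel₀ h2
    rw [hc, hc, rq_w12_cyc]
  · apply (mul_eq_zero.1 (?_ : X 0 ^ K * b i i k = 0)).resolve_left h2
    rw [hc]
    unfold w12
    rw [hdec.1 i, hdec.2.1 k i]
    ring
  · apply (mul_eq_zero.1 (?_ : X 0 ^ K * b i k i = 0)).resolve_left h2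
    rw [hc]
    unfold w12
    rw [hdec.1 i, hdec.2.1 k i]
    ring

private theorem rq_IsB.wedge (θ : F2 n) (c : F1 n) : IsB θ (fun i j k => w12 c θ i j k) :=
  ⟨c, fun _ _ _ => rfl⟩

private theorem rq_BS_res_gen {θ : F2 (n + 1)} (hn : 1 ≤ n) (hdec : Dec θ) (hp : Prim2 (rs2 θ))
    {b : F3 (n + 1)} (hb : IsBsat θ b) (hr : IsB (rs2 θ) (rs3 b)) :
    ∃ (b1 : F3 (n + 1)) (c : F1 (n + 1)), ∀ i j k, b i j k = X 0 * b1 i j k + w12 c θ i j k := by
  -- step 1: `rs3 b = 0`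
  obtain ⟨c0, hc0⟩ := hr
  set c1 : F1 (n + 1) := Fin.cons 0 (fun i => emb n ℂ (c0 i)) with hc1
  have hc1s : res c1 = c0 := by
    funext i
    unfold res
    rw [hc1, Fin.cons_succ, rq_at0_emb']
  set b' : F3 (n + 1) := fun i j k => b i j k + (-1) * w12 c1 θ i j k with hb'
  have hsat' : IsBsat θ b' := hb.add ((rq_IsB.wedge θ c1).sat.smul (-1))
  have hrs' : ∀ i j k : Fin n, at0 n ℂ (b' i.succ j.succ k.succ) = 0 := by
    intro i j k
    rw [hb']
    show at0 n ℂ (b i.succ j.succ k.succ + (-1) * w12 c1 θ i.succ j.succ k.succ) = 0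
    rw [map_add, map_mul, ← w12_res, hc1s, ← hc0, map_neg, map_one]
    unfold rs3
    ring
  -- step 2: the components `0 j k`
  set β : F2 n := fun j k => at0 n ℂ (b' 0 j.succ k.succ) with hβ
  obtain ⟨K, hK⟩ := hsat'
  have hx : (X (Fin.succ ⟨0, hn⟩) ^ K : Pn (n + 1)).IsHomogeneous K := by
    have := (isHomogeneous_X ℂ (Fin.succ (⟨0, hn⟩ : Fin n))).pow K
    rwa [one_mul] at this
  obtain ⟨c', hc'⟩ := hK _ hx
  have hζ : ∀ i j k, w12 (res c') (rs2 θ) i j k = 0 := by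
    intro i j k
    rw [w12_res, ← hc', map_mul, hrs', mul_zero]
  obtain ⟨g, hg⟩ := wedge_eq_mul (Dec_rs2 hdec) hp hζ (eta_ann hdec)
  have hfβ : ∀ j k, (X (⟨0, hn⟩ : Fin n) ^ K : Pn n) * β j k = (at0 n ℂ (c' 0) - g) * rs2 θ j k := by
    intro j k
    have h1 := congrArg (at0 n ℂ) (hc' 0 j.succ k.succ)
    rw [map_mul, map_pow, rq_at0_Xs'] at h1
    rw [hβ]
    show _ * at0 n ℂ (b' 0 j.succ k.succ) = _
    rw [h1]
    have h2 := hg j k
    unfold w11 res at h2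
    unfold w12 rs2
    rw [hdec.2.1 k.succ 0]
    simp only [map_add, map_mul, map_neg]
    unfold rs2 at h2
    linear_combination -h2
  have hK0 : (X (⟨0, hn⟩ : Fin n) ^ K : Pn n) ≠ 0 := pow_ne_zero _ (X_ne_zero _)
  obtain ⟨g', hg'⟩ : ∃ g' : Pn n, ∀ j k, β j k = g' * rs2 θ j k := by
    apply rq_prim_div hp
    intro i j k l
    apply mul_left_cancel₀ hK0
    rw [← mul_assoc, ← mul_assoc, hfβ, hfβ]
    ring
  -- step 3: subtract
  set c2 : F1 (n + 1) := Fin.cons (emb n ℂ g') (fun _ => 0) with hc2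
  have hc20 : c2 0 = emb n ℂ g' := by rw [hc2, Fin.cons_zero]
  have hc2s : ∀ i : Fin n, c2 i.succ = 0 := fun i => by rw [hc2, Fin.cons_succ]
  set b'' : F3 (n + 1) := fun i j k => b' i j k + (-1) * w12 c2 θ i j k with hb''
  have hsat'' : IsBsat θ b'' := IsBsat.add ⟨K, hK⟩ ((rq_IsB.wedge θ c2).sat.smul (-1))
  obtain ⟨a1, a2, a3⟩ := rq_sat_alt hdec hsat''
  have hz : ∀ i j k, at0 n ℂ (b'' i j k) = 0 := by
    apply rq_at0_all a1
    · intro j l
      refine Fin.cases ?_ (fun j' => ?_) j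
      · rw [a2, map_zero]
      · refine Fin.cases ?_ (fun l' => ?_) l
        · rw [a3, map_zero]
        · show at0 n ℂ (b' 0 j'.succ l'.succ + (-1) * w12 c2 θ 0 j'.succ l'.succ) = 0
          have h1 := hg' j' l'
          rw [hβ] at h1
          unfold rs2 at h1
          unfold w12
          rw [hc20, hc2s, hc2s]
          simp only [map_add, map_mul, map_neg, map_one, rq_at0_emb', map_zero]
          linear_combination h1
    · intro i j k
      show at0 n ℂ (b' i.succ j.succ k.succ + (-1) * w12 c2 θ i.succ j.succ k.succ) = 0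
      rw [map_add, hrs']
      unfold w12
      rw [hc2s, hc2s, hc2s]
      simp
  have h2 : ∀ i j l, ∃ q, b'' i j l = X 0 * q := fun i j l => rq_dvd0 (hz i j l)
  choose b1 hb1 using h2
  refine ⟨b1, fun l => c1 l + c2 l, fun i j k => ?_⟩
  rw [Pool.Agent.Helper71.FL.w12_add, ← hb1, hb'', hb']
  ring

theorem BS_res {θ : F2 (n + 1)} (hn : 3 ≤ n) (hθ : ∀ i j, (θ i j).IsHomogeneous 3) (hdec : Dec θ)
    (hp : Prim2 (rs2 θ)) (h0 : hz θ) {d : ℕ} {b : F3 (n + 1)} (hb : b ∈ BS θ (d + 1))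
    (hr : IsB (rs2 θ) (rs3 b)) :
    ∃ b1 ∈ BS θ d, ∃ c : F1 (n + 1), ∀ i j k, b i j k = X 0 * b1 i j k + w12 c θ i j k := by
  obtain ⟨b1, c, hbc⟩ := rq_BS_res_gen (by omega) hdec hp hb.2 hr
  have hs : IsBsat θ b1 := by
    apply h0
    have h1 : IsBsat θ (fun i j k => b i j k + (-1) * w12 c θ i j k) :=
      hb.2.add ((rq_IsB.wedge θ c).sat.smul (-1))
    have h2 : (fun i j k => b i j k + (-1) * w12 c θ i j k) = fun i j k => X 0 * b1 i j k := by
      funext i j k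
      rw [hbc]
      ring
    rwa [h2] at h1
  obtain ⟨c', hc'⟩ := rq_hc_w12 hθ c (d + 1)
  refine ⟨fun i j k => homogeneousComponent d (b1 i j k),
    ⟨fun i j k => homogeneousComponent_isHomogeneous _ _, IsBsat_comp hθ hs d⟩, c',
    fun i j k => ?_⟩
  rw [← hc', ← rq_hc_X0, ← map_add, ← hbc]
  exact (homogeneousComponent_eq_self (hb.1 i j k)).symm

theorem BS_res0 {θ : F2 (n + 1)} (hn : 3 ≤ n) (hθ : ∀ i j, (θ i j).IsHomogeneous 3) (hdec : Dec θ)
    (hp : Prim2 (rs2 θ)) {b : F3 (n + 1)} (hb : b ∈ BS θ 0) (hr : IsB (rs2 θ) (rs3 b)) : b = 0 := by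
  obtain ⟨b1, c, hbc⟩ := rq_BS_res_gen (by omega) hdec hp hb.2 hr
  funext i j k
  have h1 := homogeneousComponent_eq_self (hb.1 i j k)
  rw [hbc, map_add, rq_hc_X0', zero_add] at h1
  rw [hbc, ← h1]
  show _ = 0
  unfold w12
  rw [map_add, map_add, rq_hc_mul_lt (hθ _ _) (by norm_num), rq_hc_mul_lt (hθ _ _) (by norm_num),
    rq_hc_mul_lt (hθ _ _) (by norm_num)]
  ring

/-- `M_H = 0` implies `M = 0` -/
theorem sat_of_rs {θ : F2 (n + 1)} (hn : 3 ≤ n) (hθ : ∀ i j, (θ i j).IsHomogeneous 3) (hdec : Dec θ)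
    (hp : Prim2 (rs2 θ)) (h0 : hz θ) (h : ∀ d, ∀ b ∈ BS (rs2 θ) d, IsB (rs2 θ) b) (d : ℕ) :
    ∀ b ∈ BS θ d, IsB θ b := by
  have hrs : ∀ d, ∀ b ∈ BS θ d, rs3 b ∈ BS (rs2 θ) d := fun d b hb =>
    ⟨fun i j k => rq_at0_hom' (hb.1 _ _ _), IsBsat_rs3 hb.2⟩
  induction d with
  | zero =>
    intro b hb
    rw [BS_res0 hn hθ hdec hp hb (h 0 _ (hrs 0 b hb))]
    exact ⟨fun _ => 0, fun i j k => by simp [w12]⟩
  | succ d ih =>
    intro b hb
    obtain ⟨b1, hb1, c, hc⟩ := BS_res hn hθ hdec hp h0 hb (h _ _ (hrs _ b hb))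
    have h1 := ((ih b1 hb1).smul (X 0)).add (rq_IsB.wedge θ c)
    have h2 : b = fun i j k => X 0 * b1 i j k + w12 c θ i j k := by
      funext i j k
      exact hc i j k
    rw [h2]
    exact h1

/-- `M[k+2] = 0` implies that all sections of degree `k` lift -/
theorem lift_of_sat {θ : F2 (n + 1)} (hn : 3 ≤ n) (hθ : ∀ i j, (θ i j).IsHomogeneous 3) (hdec : Dec θ)
    (hp : Prim2 (rs2 θ)) (h0 : hz θ) {k : ℕ} (h : ∀ b ∈ BS θ (k + 2), IsB θ b) {ζ : F1 n}
    (hζ : ζ ∈ EE (rs2 θ) k) : ∃ ξ ∈ EE θ k, ∀ i, res ξ i = ζ i := by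
  obtain ⟨ξ, hξ, hr, b, hbh, hb⟩ := EE_lift hθ hdec hp hζ
  have hs : IsBsat θ b := by
    apply h0
    have h1 := (rq_IsB.wedge θ ξ).sat
    have h2 : (fun i j k => w12 ξ θ i j k) = fun i j k => X 0 * b i j k := by
      funext i j k
      exact hb i j k
    rwa [h2] at h1
  obtain ⟨ξ', hξ', hr'⟩ := (EE_lift_iff hθ (rq_nz_of_prim hp) hξ hb).2 (h b ⟨hbh, hs⟩)
  exact ⟨ξ', hξ', fun i => (hr' i).trans (hr i)⟩

/-- the elements of the saturation moved into the multiples of `θ` by `x_0` -/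
noncomputable def BK (θ : F2 (n + 1)) (d : ℕ) : Submodule ℂ (F3 (n + 1)) where
  carrier := {b | b ∈ BS θ d ∧ IsB θ (fun i j k => X 0 * b i j k)}
  add_mem' := by
    rintro a b ⟨h1, h2⟩ ⟨h3, h4⟩
    refine ⟨(BS θ d).add_mem h1 h3, ?_⟩
    obtain ⟨c, hc⟩ := h2.add h4
    refine ⟨c, fun i j k => ?_⟩
    rw [← hc]
    show X 0 * (a i j k + b i j k) = _
    ring
  zero_mem' := by
    refine ⟨(BS θ d).zero_mem, fun _ => 0, fun i j k => ?_⟩
    simp [w12]
  smul_mem' := by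
    rintro c a ⟨h1, h2⟩
    refine ⟨(BS θ d).smul_mem c h1, ?_⟩
    obtain ⟨e, he⟩ := h2.smul (C c)
    refine ⟨e, fun i j k => ?_⟩
    rw [← he]
    show X 0 * (c • a i j k) = C c * (X 0 * a i j k)
    rw [smul_eq_C_mul]
    ring

/-- `dim ker (x_0 : M[d] → M[d+1])` -/
noncomputable def kM (θ : F2 (n + 1)) (d : ℕ) : ℕ :=
  Module.finrank ℂ (BK θ d) - Module.finrank ℂ (BB θ d)

theorem BB_le_BK (θ : F2 (n + 1)) (d : ℕ) : BB θ d ≤ BK θ d := fun _ hb =>
  ⟨BB_le_BS θ d hb, hb.2.smul (X 0)⟩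

private theorem rq_BK_le_BS (θ : F2 (n + 1)) (d : ℕ) : BK θ d ≤ BS θ d := fun _ hb => hb.1

theorem kM_le (θ : F2 (n + 1)) (d : ℕ) : kM θ d ≤ mM θ d := by
  have := finite_BS θ d
  have h1 := Submodule.finrank_mono (rq_BK_le_BS θ d)
  unfold kM mM
  omega

/-! ### linear maps -/

private noncomputable def rq_wL (θ : F2 n) : F1 n →ₗ[ℂ] F3 n where
  toFun ξ := fun i j k => w12 ξ θ i j k
  map_add' a b := by
    funext i j k
    exact Pool.Agent.Helper71.FL.w12_add a b θ i j k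
  map_smul' c a := by
    funext i j k
    show w12 (fun l => c • a l) θ i j k = c • w12 a θ i j k
    rw [smul_eq_C_mul]
    rw [← Pool.Agent.Helper71.FL.w12_smul]
    unfold w12
    simp only [smul_eq_C_mul]

private noncomputable def rq_resL : F1 (n + 1) →ₗ[ℂ] F1 n where
  toFun ξ := res ξ
  map_add' a b := by
    funext i
    show at0 n ℂ (a i.succ + b i.succ) = at0 n ℂ (a i.succ) + at0 n ℂ (b i.succ)
    rw [map_add]
  map_smul' c a := by
    funext i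
    show at0 n ℂ (c • a i.succ) = c • at0 n ℂ (a i.succ)
    rw [map_smul]

private noncomputable def rq_rs3L : F3 (n + 1) →ₗ[ℂ] F3 n where
  toFun b := rs3 b
  map_add' a b := by
    funext i j k
    show at0 n ℂ (a i.succ j.succ k.succ + b i.succ j.succ k.succ) =
      at0 n ℂ (a i.succ j.succ k.succ) + at0 n ℂ (b i.succ j.succ k.succ)
    rw [map_add]
  map_smul' c a := by
    funext i j k
    show at0 n ℂ (c • a i.succ j.succ k.succ) = c • at0 n ℂ (a i.succ j.succ k.succ)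
    rw [map_smul]

private noncomputable def rq_x1 : F1 (n + 1) →ₗ[ℂ] F1 (n + 1) where
  toFun ξ := fun i => X 0 * ξ i
  map_add' a b := by
    funext i
    show X 0 * (a i + b i) = X 0 * a i + X 0 * b i
    ring
  map_smul' c a := by
    funext i
    show X 0 * (c • a i) = c • (X 0 * a i)
    rw [smul_eq_C_mul, smul_eq_C_mul]
    ring

private noncomputable def rq_x3 : F3 (n + 1) →ₗ[ℂ] F3 (n + 1) where
  toFun b := fun i j k => X 0 * b i j k
  map_add' a b := by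
    funext i j k
    show X 0 * (a i j k + b i j k) = X 0 * a i j k + X 0 * b i j k
    ring
  map_smul' c a := by
    funext i j k
    show X 0 * (c • a i j k) = c • (X 0 * a i j k)
    rw [smul_eq_C_mul, smul_eq_C_mul]
    ring

private theorem rq_at0_X0_mul (g : Pn (n + 1)) : at0 n ℂ (X 0 * g) = 0 := by
  rw [map_mul, rq_at0_X0', zero_mul]

private theorem rq_res_x1 (η : F1 (n + 1)) : rq_resL (rq_x1 η) = 0 := by
  funext i
  exact rq_at0_X0_mul (η i.succ)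

private theorem rq_rs3_x3 (b : F3 (n + 1)) : rq_rs3L (rq_x3 b) = 0 := by
  funext i j k
  exact rq_at0_X0_mul (b i.succ j.succ k.succ)

private theorem rq_x1_inj : Function.Injective (rq_x1 (n := n)) := by
  intro a b h
  funext i
  exact mul_left_cancel₀ rq_X0_ne (congrFun h i)

private theorem rq_x3_inj : Function.Injective (rq_x3 (n := n)) := by
  intro a b h
  funext i j k
  exact mul_left_cancel₀ rq_X0_ne (congrFun (congrFun (congrFun h i) j) k)

private theorem rq_fr_map {V W : Type} [AddCommGroup V] [Module ℂ V] [AddCommGroup W] [Module ℂ W]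
    (f : V →ₗ[ℂ] W) (p : Submodule ℂ V) [FiniteDimensional ℂ p] :
    Module.finrank ℂ (p.map f) + Module.finrank ℂ (p ⊓ LinearMap.ker f : Submodule ℂ V) =
      Module.finrank ℂ p := by
  have h1 := LinearMap.finrank_range_add_finrank_ker (f.domRestrict p)
  rw [LinearMap.range_domRestrict, LinearMap.ker_domRestrict] at h1
  have h2 : Module.finrank ℂ ((LinearMap.ker f).comap p.subtype) =
      Module.finrank ℂ (p ⊓ LinearMap.ker f : Submodule ℂ V) := by
    rw [← Submodule.map_comap_subtype, Submodule.finrank_map_subtype_eq]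
  rw [← h2]
  exact h1

private theorem rq_fr_inj {V W : Type} [AddCommGroup V] [Module ℂ V] [AddCommGroup W] [Module ℂ W]
    {f : V →ₗ[ℂ] W} (hf : Function.Injective f) (p : Submodule ℂ V) :
    Module.finrank ℂ (p.map f) = Module.finrank ℂ p :=
  (Submodule.equivMapOfInjective f hf p).finrank_eq.symm

private theorem rq_mem_EE0 {k : ℕ} {ξ : F1 n} :
    ξ ∈ EE (fun _ _ => 0 : F2 n) k ↔ ∀ i, (ξ i).IsHomogeneous k :=
  ⟨fun h => h.1, fun h => ⟨h, fun i j l => by unfold w12; simp⟩⟩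

/-- the 1-forms of degree `k` whose product with `θ` is divisible by `x_0` -/
private noncomputable def rq_PP (θ : F2 (n + 1)) (k : ℕ) : Submodule ℂ (F1 (n + 1)) where
  carrier := {ξ | (∀ i, (ξ i).IsHomogeneous k) ∧ ∃ b : F3 (n + 1), rq_wL θ ξ = rq_x3 b}
  add_mem' := by
    rintro a b ⟨h1, c, hc⟩ ⟨h2, d, hd⟩
    exact ⟨fun i => (h1 i).add (h2 i), c + d, by rw [map_add, map_add, hc, hd]⟩
  zero_mem' := ⟨fun i => isHomogeneous_zero _ _ _, 0, by rw [map_zero, map_zero]⟩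
  smul_mem' := by
    rintro c a ⟨h1, b, hb⟩
    refine ⟨fun i => ?_, c • b, by rw [map_smul, map_smul, hb]⟩
    rw [Pi.smul_apply, smul_eq_C_mul]
    have := (isHomogeneous_C (Fin (n + 1)) c).mul (h1 i)
    rwa [zero_add] at this

private theorem rq_PP_le (θ : F2 (n + 1)) (k : ℕ) : rq_PP θ k ≤ EE (fun _ _ => 0 : F2 (n + 1)) k :=
  fun _ h => rq_mem_EE0.2 h.1

private theorem rq_fin_PP (θ : F2 (n + 1)) (k : ℕ) : FiniteDimensional ℂ (rq_PP θ k) := by
  have := finite_EE (fun _ _ => 0 : F2 (n + 1)) k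
  exact Submodule.finiteDimensional_of_le (rq_PP_le θ k)

section counts
variable {θ : F2 (n + 1)} (hθ : ∀ i j, (θ i j).IsHomogeneous 3) (hdec : Dec θ)
  (hp : Prim2 (rs2 θ)) (h0 : hz θ)
include hθ hdec hp

private theorem rq_PP_map_res (k : ℕ) : (rq_PP θ k).map rq_resL = EE (rs2 θ) k := by
  apply le_antisymm
  · rintro _ ⟨ξ, ⟨h1, b, hb⟩, rfl⟩
    refine ⟨fun i => rq_at0_hom' (h1 _), fun i j l => ?_⟩
    show w12 (res ξ) (rs2 θ) i j l = 0
    rw [w12_res]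
    have h2 : w12 ξ θ i.succ j.succ l.succ = X 0 * b i.succ j.succ l.succ :=
      congrFun (congrFun (congrFun hb _) _) _
    rw [h2, map_mul, rq_at0_X0', zero_mul]
  · intro ζ hζ
    obtain ⟨ξ, hξ, hr, b, -, hb⟩ := EE_lift hθ hdec hp hζ
    refine ⟨ξ, ⟨hξ, b, ?_⟩, funext hr⟩
    funext i j l
    exact hb i j l

omit hθ hdec in
private theorem rq_PP_ker_res {k : ℕ} {ξ : F1 (n + 1)} (hξ : ξ ∈ rq_PP θ k) (hr : rq_resL ξ = 0)
    (i : Fin (n + 1)) : ∃ g, ξ i = X 0 * g := by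
  obtain ⟨h1, b, hb⟩ := hξ
  refine rq_zero_comp (rq_nz_of_prim hp) (fun i => congrFun hr i) (fun j l => ?_) i
  have h2 : w12 ξ θ 0 j.succ l.succ = X 0 * b 0 j.succ l.succ :=
    congrFun (congrFun (congrFun hb _) _) _
  rw [h2, map_mul, rq_at0_X0', zero_mul]

omit hθ hdec in
private theorem rq_PP_inf_ker_res (k : ℕ) :
    rq_PP θ (k + 1) ⊓ LinearMap.ker rq_resL = (EE (fun _ _ => 0 : F2 (n + 1)) k).map rq_x1 := by
  apply le_antisymm
  · rintro ξ ⟨h1, h2⟩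
    have h3 := rq_PP_ker_res hp h1 (LinearMap.mem_ker.1 h2)
    choose η hη using h3
    refine ⟨η, rq_mem_EE0.2 fun i => ?_, (funext hη).symm⟩
    apply rq_hom_of_mul
    rw [← hη]
    exact h1.1 i
  · rintro _ ⟨η, hη, rfl⟩
    refine ⟨⟨fun i => ?_, rq_wL θ η, ?_⟩, ?_⟩
    · have h1 := (isHomogeneous_X ℂ (0 : Fin (n + 1))).mul ((rq_mem_EE0.1 hη) i)
      rw [add_comm 1 k] at h1
      exact h1
    · funext i j l
      exact rq_w12_X0 η θ i j l
    · rw [SetLike.mem_coe, LinearMap.mem_ker]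
      exact rq_res_x1 η

omit hθ hdec in
private theorem rq_PP_inf_ker_res0 : rq_PP θ 0 ⊓ LinearMap.ker rq_resL = ⊥ := by
  rw [eq_bot_iff]
  rintro ξ ⟨h1, h2⟩
  rw [Submodule.mem_bot]
  funext i
  obtain ⟨g, hg⟩ := rq_PP_ker_res hp h1 (LinearMap.mem_ker.1 h2) i
  rw [Pi.zero_apply, hg]
  apply rq_zero_of_mul
  rw [← hg]
  exact h1.1 i

omit hdec hp in
include h0 in
private theorem rq_PP_map_w (k : ℕ) : (rq_PP θ k).map (rq_wL θ) = (BK θ (k + 2)).map rq_x3 := by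
  apply le_antisymm
  · rintro _ ⟨ξ, ⟨h1, b, hb⟩, rfl⟩
    have h2 : ∀ i j l, w12 ξ θ i j l = X 0 * b i j l := fun i j l =>
      congrFun (congrFun (congrFun hb _) _) _
    have h3 : IsB θ (fun i j k => X 0 * b i j k) := ⟨ξ, fun i j l => (h2 i j l).symm⟩
    refine ⟨b, ⟨⟨fun i j l => ?_, h0 _ h3.sat⟩, h3⟩, hb.symm⟩
    apply rq_hom_of_mul
    rw [← h2]
    exact rq_w12_hom h1 hθ i j l
  · rintro _ ⟨b, ⟨⟨h1, -⟩, h2⟩, rfl⟩
    have h3 : (fun i j l => X 0 * b i j l) ∈ BB θ (k + 3) := by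
      refine ⟨fun i j l => ?_, h2⟩
      have h4 := (isHomogeneous_X ℂ (0 : Fin (n + 1))).mul (h1 i j l)
      rw [show 1 + (k + 2) = k + 3 by ring] at h4
      exact h4
    obtain ⟨c, hc, hc'⟩ := (mem_BB_iff hθ).1 h3
    have h5 : rq_wL θ c = rq_x3 b := by
      funext i j l
      exact (hc' i j l).symm
    exact ⟨c, ⟨hc, b, h5⟩, h5⟩

omit hθ hdec hp in
private theorem rq_PP_inf_ker_w (k : ℕ) : rq_PP θ k ⊓ LinearMap.ker (rq_wL θ) = EE θ k := by
  apply le_antisymm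
  · rintro ξ ⟨h1, h2⟩
    refine ⟨h1.1, fun i j l => ?_⟩
    exact congrFun (congrFun (congrFun (LinearMap.mem_ker.1 h2) i) j) l
  · intro ξ hξ
    have h1 : rq_wL θ ξ = 0 := by
      funext i j l
      exact hξ.2 i j l
    exact ⟨⟨hξ.1, 0, by rw [h1, map_zero]⟩, h1⟩

omit hdec hp in
private theorem rq_all_map_w (k : ℕ) :
    (EE (fun _ _ => 0 : F2 (n + 1)) k).map (rq_wL θ) = BB θ (k + 3) := by
  ext b
  rw [mem_BB_iff hθ]
  constructor
  · rintro ⟨c, hc, rfl⟩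
    exact ⟨c, rq_mem_EE0.1 hc, fun _ _ _ => rfl⟩
  · rintro ⟨c, hc, hb⟩
    refine ⟨c, rq_mem_EE0.2 hc, ?_⟩
    funext i j l
    exact (hb i j l).symm

omit hθ hdec hp in
private theorem rq_all_inf_ker_w (k : ℕ) :
    EE (fun _ _ => 0 : F2 (n + 1)) k ⊓ LinearMap.ker (rq_wL θ) = EE θ k := by
  apply le_antisymm
  · rintro ξ ⟨h1, h2⟩
    refine ⟨rq_mem_EE0.1 h1, fun i j l => ?_⟩
    exact congrFun (congrFun (congrFun (LinearMap.mem_ker.1 h2) i) j) l
  · intro ξ hξ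
    refine ⟨rq_mem_EE0.2 hξ.1, ?_⟩
    rw [SetLike.mem_coe, LinearMap.mem_ker]
    funext i j l
    exact hξ.2 i j l

end counts

private theorem rq_BK_ge (θ : F2 (n + 1)) (d : ℕ) :
    Module.finrank ℂ (BB θ d) ≤ Module.finrank ℂ (BK θ d) := by
  have := finite_BS θ d
  have : FiniteDimensional ℂ (BK θ d) := Submodule.finiteDimensional_of_le (rq_BK_le_BS θ d)
  exact Submodule.finrank_mono (BB_le_BK θ d)

/-- dimension count in `0 → E_k → E_(k+1) → E_(k+1)(H) → M[k+3] → M[k+4]` -/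
theorem count_E {θ : F2 (n + 1)} (hn : 3 ≤ n) (hθ : ∀ i j, (θ i j).IsHomogeneous 3) (hdec : Dec θ)
    (hp : Prim2 (rs2 θ)) (h0 : hz θ) (k : ℕ) :
    Module.finrank ℂ (EE (rs2 θ) (k + 1)) + Module.finrank ℂ (EE θ k) =
      Module.finrank ℂ (EE θ (k + 1)) + kM θ (k + 3) := by
  have := rq_fin_PP θ (k + 1)
  have := finite_EE (fun _ _ => 0 : F2 (n + 1)) k
  have e1 := rq_fr_map rq_resL (rq_PP θ (k + 1))
  have e2 := rq_fr_map (rq_wL θ) (rq_PP θ (k + 1))
  have e3 := rq_fr_map (rq_wL θ) (EE (fun _ _ => 0 : F2 (n + 1)) k)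
  rw [rq_PP_map_res hθ hdec hp, rq_PP_inf_ker_res hp, rq_fr_inj rq_x1_inj] at e1
  rw [rq_PP_map_w hθ h0, rq_PP_inf_ker_w, rq_fr_inj rq_x3_inj] at e2
  rw [rq_all_map_w hθ, rq_all_inf_ker_w] at e3
  have h1 := rq_BK_ge θ (k + 3)
  have h2 : k + 1 + 2 = k + 3 := rfl
  rw [h2] at e2
  unfold kM
  omega

theorem count_E0 {θ : F2 (n + 1)} (hn : 3 ≤ n) (hθ : ∀ i j, (θ i j).IsHomogeneous 3) (hdec : Dec θ)
    (hp : Prim2 (rs2 θ)) (h0 : hz θ) :
    Module.finrank ℂ (EE (rs2 θ) 0) = Module.finrank ℂ (EE θ 0) + kM θ 2 := by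
  have := rq_fin_PP θ 0
  have e1 := rq_fr_map rq_resL (rq_PP θ 0)
  have e2 := rq_fr_map (rq_wL θ) (rq_PP θ 0)
  rw [rq_PP_map_res hθ hdec hp, rq_PP_inf_ker_res0 hp, finrank_bot] at e1
  rw [rq_PP_map_w hθ h0, rq_PP_inf_ker_w, rq_fr_inj rq_x3_inj] at e2
  have h1 : BB θ 2 = ⊥ := by
    rw [eq_bot_iff]
    intro b hb
    exact BB_small hθ (by norm_num) hb
  unfold kM
  rw [h1, finrank_bot]
  have h2 : 0 + 2 = 2 := rfl
  rw [h2] at e2
  omega

private theorem rq_map_inf_comap' {V W : Type} [AddCommGroup V] [Module ℂ V] [AddCommGroup W]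
    [Module ℂ W] (f : V →ₗ[ℂ] W) (p : Submodule ℂ V) (q : Submodule ℂ W) :
    (p ⊓ q.comap f).map f = p.map f ⊓ q := by
  apply le_antisymm
  · rintro _ ⟨x, ⟨hx, hx'⟩, rfl⟩
    exact ⟨⟨x, hx, rfl⟩, hx'⟩
  · rintro _ ⟨⟨x, hx, rfl⟩, hx'⟩
    exact ⟨x, ⟨hx, hx'⟩, rfl⟩

private theorem rq_rs3_map_le (θ : F2 (n + 1)) (d : ℕ) : (BS θ d).map rq_rs3L ≤ BS (rs2 θ) d := by
  rintro _ ⟨b, hb, rfl⟩
  exact ⟨fun i j k => rq_at0_hom' (hb.1 _ _ _), IsBsat_rs3 hb.2⟩

private theorem rq_K_eq {θ : F2 (n + 1)} (hn : 3 ≤ n) (hθ : ∀ i j, (θ i j).IsHomogeneous 3)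
    (hdec : Dec θ) (hp : Prim2 (rs2 θ)) (h0 : hz θ) (d : ℕ) :
    BS θ (d + 1) ⊓ (BB (rs2 θ) (d + 1)).comap rq_rs3L = (BS θ d).map rq_x3 ⊔ BB θ (d + 1) := by
  apply le_antisymm
  · rintro b ⟨hb, hb'⟩
    obtain ⟨b1, hb1, c, hc⟩ := BS_res hn hθ hdec hp h0 hb hb'.2
    rw [Submodule.mem_sup]
    have h4 : b = rq_x3 b1 + rq_wL θ c := by
      funext i j k
      exact hc i j k
    refine ⟨rq_x3 b1, ⟨b1, hb1, rfl⟩, rq_wL θ c, ⟨fun i j k => ?_, c, fun _ _ _ => rfl⟩, h4.symm⟩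
    have h5 : rq_wL θ c i j k = b i j k - X 0 * b1 i j k := by
      rw [hc]
      show w12 c θ i j k = _
      ring
    rw [h5]
    have h6 := (isHomogeneous_X ℂ (0 : Fin (n + 1))).mul (hb1.1 i j k)
    rw [add_comm 1 d] at h6
    exact (hb.1 i j k).sub h6
  · apply sup_le
    · rintro _ ⟨b, hb, rfl⟩
      refine ⟨⟨fun i j k => ?_, hb.2.smul (X 0)⟩, ?_⟩
      · have h6 := (isHomogeneous_X ℂ (0 : Fin (n + 1))).mul (hb.1 i j k)
        rw [add_comm 1 d] at h6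
        exact h6
      · show rq_rs3L (rq_x3 b) ∈ BB (rs2 θ) (d + 1)
        have h4 : rq_rs3L (rq_x3 b) = 0 := rq_rs3_x3 b
        rw [h4]
        exact zero_mem _
    · intro b hb
      refine ⟨BB_le_BS _ _ hb, ?_⟩
      obtain ⟨h4, c, hc⟩ := hb
      refine ⟨fun i j k => rq_at0_hom' (h4 _ _ _), res c, fun i j k => ?_⟩
      show at0 n ℂ (b i.succ j.succ k.succ) = _
      rw [w12_res, hc]

private theorem rq_x3_inf (θ : F2 (n + 1)) (d : ℕ) :
    (BS θ d).map rq_x3 ⊓ BB θ (d + 1) = (BK θ d).map rq_x3 := by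
  apply le_antisymm
  · rintro _ ⟨⟨b, hb, rfl⟩, hb'⟩
    exact ⟨b, ⟨hb, hb'.2⟩, rfl⟩
  · rintro _ ⟨b, ⟨hb, hb'⟩, rfl⟩
    refine ⟨⟨b, hb, rfl⟩, fun i j k => ?_, hb'⟩
    have h6 := (isHomogeneous_X ℂ (0 : Fin (n + 1))).mul (hb.1 i j k)
    rw [add_comm 1 d] at h6
    exact h6

/-- dimension count in `M[d] → M[d+1] → M_H[d+1]` -/
theorem count_M {θ : F2 (n + 1)} (hn : 3 ≤ n) (hθ : ∀ i j, (θ i j).IsHomogeneous 3) (hdec : Dec θ)
    (hp : Prim2 (rs2 θ)) (h0 : hz θ) (d : ℕ) :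
    mM θ (d + 1) + kM θ d ≤ mM θ d + mM (rs2 θ) (d + 1) := by
  have i1 := finite_BS θ (d + 1)
  have i2 := finite_BS θ d
  have i3 := finite_BS (rs2 θ) (d + 1)
  have i4 := finite_BB (rs2 θ) (d + 1)
  have i5 := finite_BB θ (d + 1)
  have i6 : FiniteDimensional ℂ (BK θ d) := Submodule.finiteDimensional_of_le (rq_BK_le_BS θ d)
  set K : Submodule ℂ (F3 (n + 1)) := BS θ (d + 1) ⊓ (BB (rs2 θ) (d + 1)).comap rq_rs3L with hK
  have i7 : FiniteDimensional ℂ K := Submodule.finiteDimensional_of_le inf_le_left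
  have i8 : FiniteDimensional ℂ ((BS θ (d + 1)).map rq_rs3L) :=
    Submodule.finiteDimensional_of_le (rq_rs3_map_le θ (d + 1))
  have i9 : FiniteDimensional ℂ ((BS θ d).map (rq_x3 (n := n))) := inferInstance
  -- step 1
  have e1 := rq_fr_map rq_rs3L (BS θ (d + 1))
  have e2 := rq_fr_map rq_rs3L K
  have h1 : K.map rq_rs3L = (BS θ (d + 1)).map rq_rs3L ⊓ BB (rs2 θ) (d + 1) := by
    rw [hK, rq_map_inf_comap']
  have h2 : K ⊓ LinearMap.ker rq_rs3L = BS θ (d + 1) ⊓ LinearMap.ker rq_rs3L := by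
    apply le_antisymm
    · exact inf_le_inf_right _ inf_le_left
    · rintro b ⟨hb, hb'⟩
      refine ⟨⟨hb, ?_⟩, hb'⟩
      show rq_rs3L b ∈ BB (rs2 θ) (d + 1)
      rw [LinearMap.mem_ker.1 hb']
      exact zero_mem _
  rw [h1, h2] at e2
  have e3 := Submodule.finrank_sup_add_finrank_inf_eq ((BS θ (d + 1)).map rq_rs3L)
    (BB (rs2 θ) (d + 1))
  have e4 : Module.finrank ℂ
      ((BS θ (d + 1)).map rq_rs3L ⊔ BB (rs2 θ) (d + 1) : Submodule ℂ (F3 n)) ≤
        Module.finrank ℂ (BS (rs2 θ) (d + 1)) :=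
    Submodule.finrank_mono (sup_le (rq_rs3_map_le θ (d + 1)) (BB_le_BS _ _))
  -- step 2
  have h3 : K = (BS θ d).map rq_x3 ⊔ BB θ (d + 1) := rq_K_eq hn hθ hdec hp h0 d
  have e5 := Submodule.finrank_sup_add_finrank_inf_eq ((BS θ d).map (rq_x3 (n := n))) (BB θ (d + 1))
  have h7 : (BS θ d).map rq_x3 ⊓ BB θ (d + 1) = (BK θ d).map rq_x3 := rq_x3_inf θ d
  rw [← h3, h7, rq_fr_inj rq_x3_inj, rq_fr_inj rq_x3_inj] at e5
  have f1 := Submodule.finrank_mono (BB_le_BS θ (d + 1))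
  have f2 := Submodule.finrank_mono (BB_le_BS (rs2 θ) (d + 1))
  have f3 := rq_BK_ge θ d
  have f4 := Submodule.finrank_mono (rq_BK_le_BS θ d)
  unfold mM kM
  omega

theorem count_M0 {θ : F2 (n + 1)} (hn : 3 ≤ n) (hθ : ∀ i j, (θ i j).IsHomogeneous 3) (hdec : Dec θ)
    (hp : Prim2 (rs2 θ)) (h0 : hz θ) : mM θ 0 ≤ mM (rs2 θ) 0 := by
  have i1 := finite_BS θ 0
  have i3 := finite_BS (rs2 θ) 0
  have e1 := rq_fr_map rq_rs3L (BS θ 0)
  have h2 : BS θ 0 ⊓ LinearMap.ker rq_rs3L = ⊥ := by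
    rw [eq_bot_iff]
    rintro b ⟨hb, hb'⟩
    rw [Submodule.mem_bot]
    refine BS_res0 hn hθ hdec hp hb ⟨fun _ => 0, fun i j k => ?_⟩
    have h3 : rs3 b = 0 := LinearMap.mem_ker.1 hb'
    rw [h3]
    simp [w12]
  rw [h2, finrank_bot] at e1
  have e4 := Submodule.finrank_mono (rq_rs3_map_le θ 0)
  have h1 : BB (rs2 θ) 0 = ⊥ := by
    rw [eq_bot_iff]
    intro b hb
    exact BB_small (rs2_hom hθ) (by norm_num) hb
  unfold mM
  rw [h1, finrank_bot]
  omega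

end Pool.Agent.Helper71.FC
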