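import Pool.Agent.Helper71.FC.SatH
import Pool.Agent.Helper71.FC.Rest
import Pool.Agent.Helper71.FC.Bert

/-! FC-9: general flags `V ⊃ H ⊃ P` given by general coordinates (`H : x_0 = 0`, `P : x_0 = x_1 = 0`).
`rs2 (pb2 g θ) = pb2 (columns 1, 2, .. of g) θ`.  `exists_flag2`: all conditions except `hz (rs2 ..)` are algebraic conditions on `g`
(`GenM.cols`, `Fol_gen`, `hz_genM`, `GenM.inv`), `F(g) ≠ 0`; fix `g0` with `F(g0) ≠ 0` and take `g = g0 * (1 ⊕ κ)`, `κ` a general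
`(n+1) × (n+1)` matrix: `F(g0 (1 ⊕ κ)) ≠ 0` is an algebraic condition on `κ` (non zero at `κ = 1`) and
`rs2 (pb2 g θ) = pb2 κ (rs2 (pb2 g0 θ))`, so `hz_genM` applies. -/

set_option autoImplicit false

namespace Pool.Agent.Helper71.FC

open MvPolynomial
open scoped BigOperators
open Pool.Agent.Helper71.FL (w12 pf ct Dec Closed dd at0 emb res)
open Pool.Agent.Helper93 (lsub lmap OF pb)

variable {n : ℕ}

private theorem mm_sig (g : Fin (n + 1) → Fin (n + 1) → ℂ) :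
    mm g (fun (k : Fin (n + 1)) (l : Fin n) => if k = l.succ then (1 : ℂ) else 0) =
      fun i (j : Fin n) => g i j.succ := by
  funext i j
  show ∑ l, g i l * (if l = j.succ then (1 : ℂ) else 0) = g i j.succ
  simp

theorem rs2_pb2 (g : Fin (n + 1) → Fin (n + 1) → ℂ) (θ : F2 (n + 1)) :
    rs2 (pb2 g θ) = pb2 (fun i (j : Fin n) => g i j.succ) θ := by
  rw [rs2_eq_pb2, pb2_mm, mm_sig]

private theorem res_eq_pb (ξ : F1 (n + 1)) :
    res ξ = pb (fun (k : Fin (n + 1)) (l : Fin n) => if k = l.succ then (1 : ℂ) else 0) ξ := by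
  funext i
  show at0 n ℂ (ξ i.succ) = ∑ j, C (if j = i.succ then (1 : ℂ) else 0) * lsub _ (ξ j)
  rw [Finset.sum_eq_single i.succ]
  · rw [if_pos rfl, C_1, one_mul, at0_eq_lsub]
  · intro j _ hj
    rw [if_neg hj, C_0, zero_mul]
  · intro h; exact absurd (Finset.mem_univ _) h

theorem res_pb (g : Fin (n + 1) → Fin (n + 1) → ℂ) (ξ : F1 (n + 1)) :
    res (pb g ξ) = pb (fun i (j : Fin n) => g i j.succ) ξ := by
  rw [res_eq_pb, pb_mm, mm_sig]

/-- block matrix `1 ⊕ κ` -/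
def dg (κ : Fin n → Fin n → ℂ) : Fin (n + 1) → Fin (n + 1) → ℂ :=
  fun i j => Fin.cases (Fin.cases 1 (fun _ => 0) j) (fun i' => Fin.cases 0 (fun j' => κ i' j') j) i

theorem rs2_pb2_dg (κ : Fin n → Fin n → ℂ) (θ : F2 (n + 1)) : rs2 (pb2 (dg κ) θ) = pb2 κ (rs2 θ) := by
  rw [rs2_pb2, rs2_eq_pb2, pb2_mm]
  congr 1
  funext i j
  refine Fin.cases ?_ (fun i' => ?_) i
  · show (0 : ℂ) = ∑ l : Fin n, (if (0 : Fin (n + 1)) = l.succ then (1 : ℂ) else 0) * κ l j
    symm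
    refine Finset.sum_eq_zero fun l _ => ?_
    rw [if_neg (Fin.succ_ne_zero l).symm, zero_mul]
  · show κ i' j = ∑ l : Fin n, (if i'.succ = l.succ then (1 : ℂ) else 0) * κ l j
    rw [Finset.sum_eq_single i']
    · rw [if_pos rfl, one_mul]
    · intro l _ hl
      rw [if_neg (fun h => hl (Fin.succ_injective _ h).symm), zero_mul]
    · intro h; exact absurd (Finset.mem_univ _) h

theorem Fol.prim2 {θ : F2 n} (h : Fol θ) : Prim2 θ := h.prim

/-- one step: `V ⊃ H` -/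
theorem exists_flag1 (hn : 3 ≤ n) {θ : F2 (n + 1)} (h : Fol θ)
    {p : (Fin (n + 1) → Fin (n + 1) → ℂ) → Prop} (hp : GenM p)
    {q : (Fin (n + 1) → Fin n → ℂ) → Prop} (hq : GenM q) :
    ∃ g g' : Fin (n + 1) → Fin (n + 1) → ℂ, Inv g g' ∧ p g ∧ q (fun i j => g i j.succ) ∧
      Fol (pb2 g θ) ∧ hz (pb2 g θ) ∧ Fol (rs2 (pb2 g θ)) := by
  have h1 := GenM.inv (n + 1)
  have h2 := hq.cols (k := n + 1) Fin.succ (Fin.succ_injective n)
  have h3 := hz_genM θ
  have h4 := (Fol_gen hn (Nat.le_succ n) h).cols (k := n + 1) Fin.succ (Fin.succ_injective n)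
  obtain ⟨g, ⟨⟨⟨⟨g', hg⟩, hpg⟩, hqg⟩, hzg⟩, hfg⟩ := ((((h1.and hp).and h2).and h3).and h4).exists
  refine ⟨g, g', hg, hpg, hqg, Fol_pb2 h hg, hzg, ?_⟩
  rw [rs2_pb2]
  exact hfg

private theorem eval_bind'' {ι κ : Type} (t : ι → MvPolynomial κ ℂ) (x : κ → ℂ)
    (F : MvPolynomial ι ℂ) : eval x (bind₁ t F) = eval (fun i => eval x (t i)) F := by
  induction F using MvPolynomial.induction_on with
  | C c => simp
  | add p q hp hq => rw [map_add, map_add, map_add, hp, hq]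
  | mul_X p i hp => rw [map_mul, map_mul, map_mul, hp, bind₁_X_right, eval_X]

/-- generic block matrix -/
private noncomputable def dgX (n : ℕ) :
    Fin (n + 1) → Fin (n + 1) → MvPolynomial (Fin n × Fin n) ℂ :=
  fun i j => Fin.cases (Fin.cases 1 (fun _ => 0) j)
    (fun i' => Fin.cases 0 (fun j' => X (i', j')) j) i

private theorem eval_dgX (κ : Fin n → Fin n → ℂ) (i j : Fin (n + 1)) :
    eval (fun q : Fin n × Fin n => κ q.1 q.2) (dgX n i j) = dg κ i j := by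
  refine Fin.cases ?_ (fun i' => ?_) i
  · refine Fin.cases ?_ (fun j' => ?_) j
    · exact map_one _
    · exact map_zero _
  · refine Fin.cases ?_ (fun j' => ?_) j
    · exact map_zero _
    · exact eval_X _

private theorem dg_idm : dg (idm n) = idm (n + 1) := by
  funext i j
  refine Fin.cases ?_ (fun i' => ?_) i
  · refine Fin.cases ?_ (fun j' => ?_) j
    · show (1 : ℂ) = if (0 : Fin (n + 1)) = 0 then 1 else 0
      rw [if_pos rfl]
    · show (0 : ℂ) = if (0 : Fin (n + 1)) = j'.succ then 1 else 0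
      rw [if_neg (Fin.succ_ne_zero j').symm]
  · refine Fin.cases ?_ (fun j' => ?_) j
    · show (0 : ℂ) = if i'.succ = 0 then 1 else 0
      rw [if_neg (Fin.succ_ne_zero i')]
    · show (if i' = j' then (1 : ℂ) else 0) = if i'.succ = j'.succ then 1 else 0
      simp only [Fin.succ_inj]

private theorem mm_idm (g : Fin n → Fin n → ℂ) : mm g (idm n) = g := by
  funext i j
  show ∑ l, g i l * (if l = j then (1 : ℂ) else 0) = g i j
  simp

private theorem gen_dg {P : (Fin (n + 1) → Fin (n + 1) → ℂ) → Prop}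
    {F : MvPolynomial (Fin (n + 1) × Fin (n + 1)) ℂ} (g0 : Fin (n + 1) → Fin (n + 1) → ℂ)
    (h0 : eval (fun q : Fin (n + 1) × Fin (n + 1) => g0 q.1 q.2) F ≠ 0)
    (h : ∀ g : Fin (n + 1) → Fin (n + 1) → ℂ,
      eval (fun q : Fin (n + 1) × Fin (n + 1) => g q.1 q.2) F ≠ 0 → P g) :
    GenM (fun κ : Fin n → Fin n → ℂ => P (mm g0 (dg κ))) := by
  have key : ∀ κ : Fin n → Fin n → ℂ, eval (fun q : Fin n × Fin n => κ q.1 q.2)
      (bind₁ (fun q : Fin (n + 1) × Fin (n + 1) => ∑ l, C (g0 q.1 l) * dgX n l q.2) F) =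
      eval (fun q : Fin (n + 1) × Fin (n + 1) => mm g0 (dg κ) q.1 q.2) F := by
    intro κ
    rw [eval_bind'']
    congr 2
    funext q
    rw [map_sum]
    unfold mm
    refine Finset.sum_congr rfl fun l _ => ?_
    rw [map_mul, eval_C, eval_dgX]
  refine ⟨bind₁ (fun q : Fin (n + 1) × Fin (n + 1) => ∑ l, C (g0 q.1 l) * dgX n l q.2) F, ?_,
    fun κ hκ => h _ ?_⟩
  · intro hz0
    have h1 := key (idm n)
    rw [hz0, map_zero, dg_idm, mm_idm] at h1
    exact h0 h1.symm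
  · rw [key] at hκ
    exact hκ

/-- two steps: `V ⊃ H ⊃ P` -/
theorem exists_flag2 (hn : 3 ≤ n) {θ : F2 (n + 2)} (h : Fol θ)
    {p : (Fin (n + 2) → Fin (n + 2) → ℂ) → Prop} (hp : GenM p)
    {q : (Fin (n + 2) → Fin (n + 1) → ℂ) → Prop} (hq : GenM q)
    {r : (Fin (n + 2) → Fin n → ℂ) → Prop} (hr : GenM r) :
    ∃ g g' : Fin (n + 2) → Fin (n + 2) → ℂ, Inv g g' ∧ p g ∧ q (fun i j => g i j.succ) ∧
      r (fun i j => g i j.succ.succ) ∧ Fol (pb2 g θ) ∧ hz (pb2 g θ) ∧ Fol (rs2 (pb2 g θ)) ∧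
      hz (rs2 (pb2 g θ)) ∧ Fol (rs2 (rs2 (pb2 g θ))) := by
  have hss : Function.Injective (fun j : Fin n => j.succ.succ) := fun a b hab =>
    Fin.succ_injective _ (Fin.succ_injective _ hab)
  have h1 := GenM.inv (n + 2)
  have h2 := hq.cols (k := n + 2) Fin.succ (Fin.succ_injective (n + 1))
  have h2' := hr.cols (k := n + 2) (fun j : Fin n => j.succ.succ) hss
  have h3 := hz_genM θ
  have h4 := (Fol_gen (m := n + 1) (by omega) (by omega) h).cols (k := n + 2) Fin.succ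
    (Fin.succ_injective (n + 1))
  have h5 := (Fol_gen (m := n) hn (by omega) h).cols (k := n + 2) (fun j : Fin n => j.succ.succ) hss
  obtain ⟨F, hF, hFP⟩ := ((((((h1.and hp).and h2).and h2').and h3).and h4).and h5)
  obtain ⟨x, hx⟩ : ∃ x, eval x F ≠ 0 := by
    by_contra hc
    refine hF (MvPolynomial.funext fun x => ?_)
    by_contra hx
    rw [map_zero] at hx
    exact hc ⟨x, hx⟩
  have h6 := gen_dg (fun i j => x (i, j)) hx hFP
  have h7 := hz_genM (rs2 (pb2 (fun i j => x (i, j)) θ))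
  obtain ⟨κ, ⟨⟨⟨⟨⟨⟨⟨g', hg⟩, hpg⟩, hqg⟩, hrg⟩, hzg⟩, hfg⟩, hfg2⟩, hzk⟩ := (h6.and h7).exists
  refine ⟨mm (fun i j => x (i, j)) (dg κ), g', hg, hpg, hqg, hrg, Fol_pb2 h hg, hzg, ?_, ?_, ?_⟩
  · rw [rs2_pb2]
    exact hfg
  · rw [← pb2_mm, rs2_pb2_dg]
    exact hzk
  · have h8 : rs2 (rs2 (pb2 (mm (fun i j => x (i, j)) (dg κ)) θ)) =
        pb2 (fun i (j : Fin n) => mm (fun i j => x (i, j)) (dg κ) i j.succ.succ) θ := by
      rw [rs2_pb2, rs2_eq_pb2, pb2_mm]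
      congr 1
      funext i j
      show ∑ l : Fin (n + 1), mm (fun i j => x (i, j)) (dg κ) i l.succ *
        (if l = j.succ then (1 : ℂ) else 0) = _
      simp
    rw [h8]
    exact hfg2

/-- the generic dimension of `E_d` of restrictions to subspaces of dimension `m` -/
noncomputable def ge (θ : F2 n) (m d : ℕ) : ℕ :=
  sInf (Set.range fun φ : Fin n → Fin m → ℂ => Module.finrank ℂ (EE (pb2 φ θ) d))

theorem ge_le (θ : F2 n) (m d : ℕ) (φ : Fin n → Fin m → ℂ) :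
    ge θ m d ≤ Module.finrank ℂ (EE (pb2 φ θ) d) := Nat.sInf_le ⟨φ, rfl⟩

theorem ge_gen (θ : F2 n) (m d : ℕ) :
    GenM (fun φ : Fin n → Fin m → ℂ => Module.finrank ℂ (EE (pb2 φ θ) d) = ge θ m d) := by
  obtain ⟨e, h1, h2⟩ := gen_finrank_EE θ m d
  have he : ge θ m d = e := by
    apply le_antisymm
    · obtain ⟨φ, hφ⟩ := h1.exists
      exact (ge_le θ m d φ).trans hφ.le
    · have hne : (Set.range fun φ : Fin n → Fin m → ℂ =>
          Module.finrank ℂ (EE (pb2 φ θ) d)).Nonempty := ⟨_, fun _ _ => 0, rfl⟩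
      obtain ⟨φ, hφ⟩ := Nat.sInf_mem hne
      have h3 : Module.finrank ℂ (EE (pb2 φ θ) d) = ge θ m d := hφ
      rw [← h3]
      exact h2 φ
  rw [he]
  exact h1

theorem ge_self (θ : F2 n) (d : ℕ) : ge θ n d = Module.finrank ℂ (EE θ d) := by
  obtain ⟨g, h1, g', hg⟩ := ((ge_gen θ n d).and (GenM.inv n)).exists
  rw [← h1, finrank_EE_pb2 θ d hg]

/-- the generic dimensions of a general restriction are those of the whole space -/
theorem ge_pb2 (θ : F2 n) {m k : ℕ} (hmk : m ≤ k) (hkn : k ≤ n) (d : ℕ) :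
    GenM (fun φ : Fin n → Fin k → ℂ => ge (pb2 φ θ) m d = ge θ m d) := by
  refine ((ge_gen θ m d).comp hmk hkn).mono fun φ hφ => ?_
  obtain ⟨κ, h1, h2⟩ := (hφ.and (ge_gen (pb2 φ θ) m d)).exists
  rw [← h1, ← h2, pb2_mm]

theorem ge_inv (θ : F2 n) (m d : ℕ) {g g' : Fin n → Fin n → ℂ} (hg : Inv g g') :
    ge (pb2 g θ) m d = ge θ m d := by
  obtain ⟨κ, h1, h2⟩ := (((ge_gen θ m d).mm_left hg).and (ge_gen (pb2 g θ) m d)).exists
  rw [← h1, ← h2, pb2_mm]

end Pool.Agent.Helper71.FC
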