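import Pool.Agent.Helper71.FC.Class
import Pool.Agent.Helper71.FC.Flag

/-! Case Y of the classification (`E_0 = E_1 = E_2 = 0`): interface statements and assembly.
`ge θ 3 d` is the dimension of `E_d` of the restriction to a general 3-dimensional subspace. -/

set_option autoImplicit false

namespace Pool.Agent.Helper71.FC

open MvPolynomial
open scoped BigOperators
open Pool.Agent.Helper71.FL (w12 pf ct Dec Closed dd CL)
open Pool.Agent.Helper93 (lsub lmap OF pb IntS FolS)

/-- case Y -/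
structure CY {n : ℕ} (θ : F2 n) : Prop where
  fol : Fol θ
  nc : ¬ Cone θ
  e0 : EE θ 0 = ⊥
  e1 : EE θ 1 = ⊥
  e2 : EE θ 2 = ⊥

/-- gluing: no sections of degree 0 and 1 on general planes -/
def IYgl : Prop := ∀ (n : ℕ), 5 ≤ n → ∀ θ : F2 n, Fol θ → ¬ Cone θ → EE θ 0 = ⊥ → EE θ 1 = ⊥ →
  ge θ 3 0 = 0 ∧ ge θ 3 1 = 0

/-- constant vectors are not lost on general planes -/
def IYin : Prop := ∀ (n : ℕ), 5 ≤ n → ∀ θ : F2 n, CY θ →
  GenM (fun φ : Fin n → Fin 3 → ℂ => ∀ v : Fin n → ℂ, pb φ (av θ v) = 0 → v = 0)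

/-- `z = 3`: three linear fields -/
def IY3 : Prop := ∀ θ : F2 5, CY θ → ge θ 3 0 = 0 → ge θ 3 1 = 0 → ge θ 3 2 = 0 →
  OKF θ ∧ ge θ 3 3 ≤ 5

/-- `z = 4` and collinear `z = 3` -/
def IY4 : Prop := ∀ θ : F2 5, CY θ → ge θ 3 0 = 0 → ge θ 3 1 = 0 → ge θ 3 2 ≠ 1

/-- `z = 5` -/
def IY5 : Prop := ∀ θ : F2 5, CY θ → ge θ 3 0 = 0 → ge θ 3 1 = 0 → ge θ 3 2 ≠ 2

/-- `z = 6` -/
def IY6 : Prop := ∀ θ : F2 5, CY θ → ge θ 3 0 = 0 → ge θ 3 1 = 0 → ge θ 3 2 < 3

/-- at least six variables: general restrictions to five variables are in case Y -/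
def IYN : Prop := ∀ (n : ℕ), 6 ≤ n → ∀ θ : F2 n, CY θ → GenM (fun φ : Fin n → Fin 5 → ℂ => CY (pb2 φ θ))

theorem IY_of (hgl : IYgl) (hin : IYin) (h3 : IY3) (h4 : IY4) (h5 : IY5) (h6 : IY6) (hN : IYN) : IY := by
  have key : ∀ θ : F2 5, CY θ → OKF θ ∧ ge θ 3 3 ≤ 5 := by
    intro θ h
    obtain ⟨g0, g1⟩ := hgl 5 le_rfl θ h.fol h.nc h.e0 h.e1
    have a4 := h4 θ h g0 g1
    have a5 := h5 θ h g0 g1
    have a6 := h6 θ h g0 g1
    exact h3 θ h g0 g1 (by omega)
  intro n hn θ hF hc h0 h1 h2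
  have hY : CY θ := ⟨hF, hc, h0, h1, h2⟩
  rcases Nat.lt_or_ge n 6 with hn6 | hn6
  · obtain rfl : n = 5 := by omega
    exact (key θ hY).1
  · exfalso
    -- a general restriction to five variables
    have a1 := hN n hn6 θ hY
    have a2 := ge_pb2 θ (m := 3) (k := 5) (by norm_num) (by omega) 3
    have a3 := hin n hn θ hY
    obtain ⟨φ, hφ1, hφ2⟩ := (a1.and a2).exists
    have b1 := (key _ hφ1).2
    rw [hφ2] at b1
    obtain ⟨ψ, hψ1, hψ2⟩ := (a3.and (ge_gen θ 3 3)).exists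
    -- `v ↦ pb ψ (av θ v)` embeds `ℂ^n` into `E_3` of the plane
    have hlin : ∃ L : (Fin n → ℂ) →ₗ[ℂ] EE (pb2 ψ θ) 3, ∀ v, (L v : F1 3) = pb ψ (av θ v) := by
      have hadd : ∀ v w : Fin n → ℂ, pb ψ (av θ (v + w)) = pb ψ (av θ v) + pb ψ (av θ w) := by
        intro v w
        have : av θ (v + w) = fun i => av θ v i + av θ w i := by
          funext i
          unfold av ct cv
          rw [← Finset.sum_add_distrib]
          refine Finset.sum_congr rfl fun j _ => ?_
          rw [Pi.add_apply, C_add, add_mul]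
        rw [this, pb_add]
        rfl
      have hsm : ∀ (c : ℂ) (v : Fin n → ℂ), pb ψ (av θ (c • v)) = c • pb ψ (av θ v) := by
        intro c v
        have : av θ (c • v) = fun i => C c * av θ v i := by
          funext i
          unfold av ct cv
          rw [Finset.mul_sum]
          refine Finset.sum_congr rfl fun j _ => ?_
          rw [Pi.smul_apply, smul_eq_mul, C_mul, mul_assoc]
        rw [this, pb_smul]
        funext i
        rw [Pi.smul_apply, smul_eq_C_mul]
        congr 1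
        unfold lsub
        rw [aeval_C]
        rfl
      refine ⟨{ toFun := fun v => ⟨pb ψ (av θ v), EE_pb (av_mem_EE hF.dec hF.hom v) ψ⟩
                map_add' := fun v w => Subtype.ext (hadd v w)
                map_smul' := fun c v => Subtype.ext (hsm c v) }, fun v => rfl⟩
    obtain ⟨L, hL⟩ := hlin
    have hinj : Function.Injective L := by
      rw [← LinearMap.ker_eq_bot, LinearMap.ker_eq_bot']
      intro v hv
      apply hψ1 v
      rw [← hL v, hv]
      rfl
    haveI := finite_EE (pb2 ψ θ) 3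
    have b2 := LinearMap.finrank_le_finrank_of_injective hinj
    rw [Module.finrank_fin_fun, hψ2] at b2
    omega

end Pool.Agent.Helper71.FC
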