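import Pool.Agent.Helper71.FC.GL2
import Pool.Agent.Helper71.FL.Cech

/-! FC-4: the multiples `B` of `θ` in the 3-forms and their saturation with respect to the irrelevant ideal.
* `ann_lemma`: (A1); if `y ξ' = y' ξ` with `y, y'` independent linear forms then `ξ = y η`, `ξ' = y' η` and `b = η ∧ θ`. -/

set_option autoImplicit false

namespace Pool.Agent.Helper71.FC

open MvPolynomial
open scoped BigOperators
open Pool.Agent.Helper71.FL (w12 pf ct Dec Closed dd Reg4)
open Pool.Agent.Helper93 (lsub lmap OF pb)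

variable {n : ℕ}

/-- 3-forms -/
abbrev F3 (n : ℕ) : Type := Fin n → Fin n → Fin n → MvPolynomial (Fin n) ℂ

/-- multiples of `θ` -/
def IsB (θ : F2 n) (b : F3 n) : Prop := ∃ c : F1 n, ∀ i j k, b i j k = w12 c θ i j k

/-- saturation of the multiples of `θ` with respect to the irrelevant ideal -/
def IsBsat (θ : F2 n) (b : F3 n) : Prop :=
  ∃ K : ℕ, ∀ f : Pn n, f.IsHomogeneous K → IsB θ (fun i j k => f * b i j k)

theorem IsB.add {θ : F2 n} {b b' : F3 n} (h : IsB θ b) (h' : IsB θ b') :
    IsB θ (fun i j k => b i j k + b' i j k) := by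
  obtain ⟨c, hc⟩ := h
  obtain ⟨c', hc'⟩ := h'
  refine ⟨fun l => c l + c' l, fun i j k => ?_⟩
  rw [Pool.Agent.Helper71.FL.w12_add]
  change b i j k + b' i j k = _
  rw [hc, hc']

theorem IsB.smul {θ : F2 n} {b : F3 n} (h : IsB θ b) (f : Pn n) :
    IsB θ (fun i j k => f * b i j k) := by
  obtain ⟨c, hc⟩ := h
  refine ⟨fun l => f * c l, fun i j k => ?_⟩
  rw [Pool.Agent.Helper71.FL.w12_smul]
  change f * b i j k = _
  rw [hc]

theorem IsB.zero' (θ : F2 n) : IsB θ (fun _ _ _ => (0 : Pn n)) :=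
  ⟨fun _ => 0, fun i j k => by simp [w12]⟩

theorem IsB.sum' {θ : F2 n} {ι : Type*} (s : Finset ι) (b : ι → F3 n) (h : ∀ x ∈ s, IsB θ (b x)) :
    IsB θ (fun i j k => ∑ x ∈ s, b x i j k) := by
  classical
  induction s using Finset.induction_on with
  | empty => simpa using IsB.zero' θ
  | insert a s ha ih =>
    have h1 := (h a (Finset.mem_insert_self a s)).add
      (ih (fun x hx => h x (Finset.mem_insert_of_mem hx)))
    simpa only [Finset.sum_insert ha] using h1

/-- it is enough to treat monomials -/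
theorem IsB_of_mon {θ : F2 n} {b : F3 n} (f : Pn n)
    (h : ∀ s ∈ f.support, IsB θ (fun i j k => monomial s 1 * b i j k)) :
    IsB θ (fun i j k => f * b i j k) := by
  have h1 := IsB.sum' (θ := θ) f.support (fun s i j k => C (coeff s f) * (monomial s 1 * b i j k))
    (fun s hs => (h s hs).smul (C (coeff s f)))
  have h2 : (fun i j k => f * b i j k) = fun i j k => ∑ s ∈ f.support,
      C (coeff s f) * (monomial s 1 * b i j k) := by
    funext i j k
    conv_lhs => rw [f.as_sum]
    rw [Finset.sum_mul]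
    refine Finset.sum_congr rfl fun s _ => ?_
    rw [← mul_assoc, C_mul_monomial, mul_one]
  rw [h2]
  exact h1

/-- a divisor of a monomial of given smaller degree -/
theorem exists_le_deg (s : Fin n →₀ ℕ) {K : ℕ} (hK : K ≤ s.degree) :
    ∃ u : Fin n →₀ ℕ, u ≤ s ∧ u.degree = K := by
  induction K with
  | zero => exact ⟨0, by simp, by simp⟩
  | succ K ih =>
    obtain ⟨u, hu, hd⟩ := ih (by omega)
    have hne : u ≠ s := by
      rintro rfl
      omega
    obtain ⟨l, hl⟩ : ∃ l, u l < s l := by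
      by_contra hcon
      push Not at hcon
      exact hne (le_antisymm hu hcon)
    refine ⟨u + Finsupp.single l 1, ?_, ?_⟩
    · intro x
      by_cases hx : l = x
      · subst hx
        simp only [Finsupp.coe_add, Pi.add_apply, Finsupp.single_eq_same]
        omega
      · simp only [Finsupp.coe_add, Pi.add_apply, Finsupp.single_apply, if_neg hx, add_zero]
        exact hu x
    · rw [map_add, hd, Finsupp.degree_single]

theorem IsB_up {θ : F2 n} {b : F3 n} {K K' : ℕ} (hK : K ≤ K')
    (h : ∀ f : Pn n, f.IsHomogeneous K → IsB θ (fun i j k => f * b i j k)) (f : Pn n)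
    (hf : f.IsHomogeneous K') : IsB θ (fun i j k => f * b i j k) := by
  refine IsB_of_mon f fun s hs => ?_
  have h1 : s.degree = K' := by
    rw [mem_support_iff] at hs
    have := hf hs
    rw [Finsupp.degree_eq_weight_one]
    exact this
  obtain ⟨u, hu, hd⟩ := exists_le_deg s (K := K) (by omega)
  have h2 := (h (monomial u 1) (isHomogeneous_monomial 1 hd)).smul (monomial (s - u) 1)
  have h3 : (fun i j k => monomial (s - u) 1 * (monomial u 1 * b i j k)) =
      fun i j k => (monomial s 1 : Pn n) * b i j k := by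
    funext i j k
    rw [← mul_assoc, monomial_mul, tsub_add_cancel_of_le hu, mul_one]
  rw [h3] at h2
  exact h2

theorem IsBsat.add {θ : F2 n} {b b' : F3 n} (h : IsBsat θ b) (h' : IsBsat θ b') :
    IsBsat θ (fun i j k => b i j k + b' i j k) := by
  obtain ⟨K, hK⟩ := h
  obtain ⟨K', hK'⟩ := h'
  refine ⟨max K K', fun f hf => ?_⟩
  have h1 := (IsB_up (le_max_left K K') hK f hf).add (IsB_up (le_max_right K K') hK' f hf)
  simpa only [mul_add] using h1

theorem IsBsat.smul {θ : F2 n} {b : F3 n} (h : IsBsat θ b) (f : Pn n) :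
    IsBsat θ (fun i j k => f * b i j k) := by
  obtain ⟨K, hK⟩ := h
  refine ⟨K, fun g hg => ?_⟩
  have h1 := (hK g hg).smul f
  have h2 : (fun i j k => f * (g * b i j k)) = fun i j k => g * (f * b i j k) := by
    funext i j k
    ring
  rwa [h2] at h1

theorem IsB.sat {θ : F2 n} {b : F3 n} (h : IsB θ b) : IsBsat θ b :=
  ⟨0, fun f _ => h.smul f⟩

/-- it is enough to know that powers of the coordinates move `b` into the multiples of `θ` -/
theorem IsBsat_of_X {θ : F2 n} {b : F3 n}
    (h : ∀ l : Fin n, ∃ K : ℕ, IsB θ (fun i j k => X l ^ K * b i j k)) : IsBsat θ b := by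
  choose K hK using h
  refine ⟨(∑ l, K l) + 1, fun f hf => IsB_of_mon f fun s hs => ?_⟩
  have h1 : s.degree = (∑ l, K l) + 1 := by
    rw [mem_support_iff] at hs
    have := hf hs
    rw [Finsupp.degree_eq_weight_one]
    exact this
  obtain ⟨l, hl⟩ : ∃ l, K l ≤ s l := by
    by_contra hcon
    push Not at hcon
    have h2 : s.degree ≤ ∑ l, K l := by
      rw [Finsupp.degree_eq_sum]
      exact Finset.sum_le_sum fun l _ => (hcon l).le
    omega
  have hu : Finsupp.single l (K l) ≤ s := by
    intro x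
    by_cases hx : l = x
    · subst hx
      simpa using hl
    · simp [hx]
  have h2 := (hK l).smul (monomial (s - Finsupp.single l (K l)) 1)
  have h3 : (fun i j k => monomial (s - Finsupp.single l (K l)) 1 * (X l ^ K l * b i j k)) =
      fun i j k => (monomial s 1 : Pn n) * b i j k := by
    funext i j k
    rw [← mul_assoc, X_pow_eq_monomial, monomial_mul, tsub_add_cancel_of_le hu, mul_one]
  rw [h3] at h2
  exact h2

theorem IsBsat_of_mul {θ : F2 n} {b : F3 n}
    (h : ∀ l : Fin n, ∃ K : ℕ, IsBsat θ (fun i j k => X l ^ K * b i j k)) : IsBsat θ b := by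
  refine IsBsat_of_X fun l => ?_
  obtain ⟨K, K', h1⟩ := h l
  refine ⟨K' + K, ?_⟩
  have h2 := h1 (X l ^ K') (isHomogeneous_X_pow l K')
  have h3 : (fun i j k => (X l : Pn n) ^ K' * (X l ^ K * b i j k)) =
      fun i j k => X l ^ (K' + K) * b i j k := by
    funext i j k
    rw [← mul_assoc, ← pow_add]
  rwa [h3] at h2

/-- homogeneous multiples of `θ` -/
noncomputable def BB (θ : F2 n) (d : ℕ) : Submodule ℂ (F3 n) where
  carrier := {b | (∀ i j k, (b i j k).IsHomogeneous d) ∧ IsB θ b}
  add_mem' := by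
    rintro a b ⟨h1, h2⟩ ⟨h3, h4⟩
    exact ⟨fun i j k => (h1 i j k).add (h3 i j k), h2.add h4⟩
  zero_mem' := by
    refine ⟨fun i j k => isHomogeneous_zero _ _ _, fun _ => 0, fun i j k => ?_⟩
    simp [w12]
  smul_mem' := by
    rintro c a ⟨h1, h2⟩
    refine ⟨fun i j k => ?_, ?_⟩
    · have := (isHomogeneous_C (Fin n) c).mul (h1 i j k)
      rw [zero_add] at this
      rw [Pi.smul_apply, Pi.smul_apply, Pi.smul_apply, smul_eq_C_mul]
      exact this
    · obtain ⟨e, he⟩ := h2.smul (C c)
      refine ⟨e, fun i j k => ?_⟩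
      rw [← he, Pi.smul_apply, Pi.smul_apply, Pi.smul_apply, smul_eq_C_mul]

/-- homogeneous elements of the saturation -/
noncomputable def BS (θ : F2 n) (d : ℕ) : Submodule ℂ (F3 n) where
  carrier := {b | (∀ i j k, (b i j k).IsHomogeneous d) ∧ IsBsat θ b}
  add_mem' := by
    rintro a b ⟨h1, h2⟩ ⟨h3, h4⟩
    exact ⟨fun i j k => (h1 i j k).add (h3 i j k), h2.add h4⟩
  zero_mem' := by
    refine ⟨fun i j k => isHomogeneous_zero _ _ _, 0, fun f _ => ⟨fun _ => 0, fun i j k => ?_⟩⟩
    simp [w12]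
  smul_mem' := by
    rintro c a ⟨h1, h2⟩
    refine ⟨fun i j k => ?_, ?_⟩
    · have := (isHomogeneous_C (Fin n) c).mul (h1 i j k)
      rw [zero_add] at this
      rw [Pi.smul_apply, Pi.smul_apply, Pi.smul_apply, smul_eq_C_mul]
      exact this
    · obtain ⟨K, hK⟩ := h2.smul (C c)
      refine ⟨K, fun f hf => ?_⟩
      obtain ⟨e, he⟩ := hK f hf
      refine ⟨e, fun i j k => ?_⟩
      rw [← he]
      show f * (c • a i j k) = f * (C c * a i j k)
      rw [smul_eq_C_mul]

theorem BB_le_BS (θ : F2 n) (d : ℕ) : BB θ d ≤ BS θ d := by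
  rintro b ⟨h1, h2⟩
  exact ⟨h1, h2.sat⟩

/-- `dim M[d]`, `M = B^sat / B` -/
noncomputable def mM (θ : F2 n) (d : ℕ) : ℕ := Module.finrank ℂ (BS θ d) - Module.finrank ℂ (BB θ d)

theorem finite_BS (θ : F2 n) (d : ℕ) : Module.Finite ℂ (BS θ d) := by
  have h1 : Module.Finite ℂ (homogeneousSubmodule (Fin n) ℂ d) :=
    Module.Finite.iff_fg.mpr (homogeneousSubmodule_fg (Fin n) ℂ d)
  let f : BS θ d →ₗ[ℂ] (Fin n → Fin n → Fin n → homogeneousSubmodule (Fin n) ℂ d) :=
    { toFun := fun b i j k => ⟨b.1 i j k, b.2.1 i j k⟩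
      map_add' := fun a b => rfl
      map_smul' := fun c a => rfl }
  refine Module.Finite.of_injective f fun a b hab => ?_
  apply Subtype.ext
  funext i j k
  exact congrArg Subtype.val (congrFun (congrFun (congrFun hab i) j) k)

theorem finite_BB (θ : F2 n) (d : ℕ) : Module.Finite ℂ (BB θ d) := by
  have := finite_BS θ d
  exact Module.Finite.of_injective (Submodule.inclusion (BB_le_BS θ d))
    (Submodule.inclusion_injective _)

theorem mM_eq_zero_iff (θ : F2 n) (d : ℕ) : mM θ d = 0 ↔ ∀ b ∈ BS θ d, IsB θ b := by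
  have h1 := finite_BS θ d
  have h2 := finite_BB θ d
  constructor
  · intro h b hb
    have h3 : Module.finrank ℂ (BS θ d) ≤ Module.finrank ℂ (BB θ d) := by
      unfold mM at h
      omega
    have h4 : BB θ d = BS θ d := Submodule.eq_of_le_of_finrank_le (BB_le_BS θ d) h3
    rw [← h4] at hb
    exact hb.2
  · intro h
    have h4 : BB θ d = BS θ d := le_antisymm (BB_le_BS θ d) fun b hb => ⟨hb.1, h b hb⟩
    unfold mM
    rw [h4]
    omega

theorem sat_hc_mul (N K : ℕ) (a t : Pn n) (ht : t.IsHomogeneous K) :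
    homogeneousComponent (N + K) (a * t) = homogeneousComponent N a * t := by
  have h : a * t = ∑ i ∈ Finset.range (a.totalDegree + 1), homogeneousComponent i a * t := by
    rw [← Finset.sum_mul, sum_homogeneousComponent]
  rw [h, map_sum]
  have h2 : ∀ i ∈ Finset.range (a.totalDegree + 1),
      homogeneousComponent (N + K) (homogeneousComponent i a * t) =
        if i = N then homogeneousComponent N a * t else 0 := by
    intro i _
    rw [homogeneousComponent_of_mem (n := i + K) ((homogeneousComponent_isHomogeneous i a).mul ht)]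
    by_cases hi : i = N
    · subst hi
      simp
    · rw [if_neg (by omega), if_neg hi]
  rw [Finset.sum_congr rfl h2, Finset.sum_ite_eq']
  split_ifs with h3
  · rfl
  · rw [Finset.mem_range, not_lt] at h3
    rw [homogeneousComponent_eq_zero _ _ (by omega), zero_mul]

theorem sat_hc_low (d K : ℕ) (hd : d < K) (a t : Pn n) (ht : t.IsHomogeneous K) :
    homogeneousComponent d (a * t) = 0 := by
  have h : a * t = ∑ i ∈ Finset.range (a.totalDegree + 1), homogeneousComponent i a * t := by
    rw [← Finset.sum_mul, sum_homogeneousComponent]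
  rw [h, map_sum]
  refine Finset.sum_eq_zero fun i _ => ?_
  rw [homogeneousComponent_of_mem (n := i + K) ((homogeneousComponent_isHomogeneous i a).mul ht),
    if_neg (by omega)]

theorem hc_w12 {θ : F2 n} (hθ : ∀ i j, (θ i j).IsHomogeneous 3) (c : F1 n) (d : ℕ) (i j k : Fin n) :
    homogeneousComponent (d + 3) (w12 c θ i j k) =
      w12 (fun l => homogeneousComponent d (c l)) θ i j k := by
  unfold w12
  rw [map_add, map_add, sat_hc_mul _ _ _ _ (hθ j k), sat_hc_mul _ _ _ _ (hθ k i),
    sat_hc_mul _ _ _ _ (hθ i j)]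

theorem hc_w12_low {θ : F2 n} (hθ : ∀ i j, (θ i j).IsHomogeneous 3) (c : F1 n) {d : ℕ} (hd : d < 3)
    (i j k : Fin n) : homogeneousComponent d (w12 c θ i j k) = 0 := by
  unfold w12
  rw [map_add, map_add, sat_hc_low _ _ hd _ _ (hθ j k), sat_hc_low _ _ hd _ _ (hθ k i),
    sat_hc_low _ _ hd _ _ (hθ i j), add_zero, add_zero]

theorem IsB_comp {θ : F2 n} (hθ : ∀ i j, (θ i j).IsHomogeneous 3) {b : F3 n} (hb : IsB θ b)
    (d : ℕ) : IsB θ (fun i j k => homogeneousComponent d (b i j k)) := by
  obtain ⟨c, hc⟩ := hb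
  rcases lt_or_ge d 3 with h | h
  · refine ⟨fun _ => 0, fun i j k => ?_⟩
    change homogeneousComponent d (b i j k) = _
    rw [hc, hc_w12_low hθ c h]
    simp [w12]
  · obtain ⟨e, rfl⟩ : ∃ e, d = e + 3 := ⟨d - 3, by omega⟩
    refine ⟨fun l => homogeneousComponent e (c l), fun i j k => ?_⟩
    change homogeneousComponent (e + 3) (b i j k) = _
    rw [hc, hc_w12 hθ]

/-- homogeneous members of `B` are products with homogeneous 1-forms -/
theorem mem_BB_iff {θ : F2 n} (hθ : ∀ i j, (θ i j).IsHomogeneous 3) {d : ℕ} {b : F3 n} :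
    b ∈ BB θ (d + 3) ↔ ∃ c : F1 n, (∀ i, (c i).IsHomogeneous d) ∧ ∀ i j k, b i j k = w12 c θ i j k := by
  constructor
  · rintro ⟨h1, c, hc⟩
    refine ⟨fun l => homogeneousComponent d (c l), fun i => homogeneousComponent_isHomogeneous _ _,
      fun i j k => ?_⟩
    rw [← hc_w12 hθ, ← hc]
    exact (homogeneousComponent_eq_self (h1 i j k)).symm
  · rintro ⟨c, h1, h2⟩
    refine ⟨fun i j k => ?_, c, h2⟩
    rw [h2]
    unfold w12
    exact (((h1 i).mul (hθ j k)).add ((h1 j).mul (hθ k i))).add ((h1 k).mul (hθ i j))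

theorem BB_small {θ : F2 n} (hθ : ∀ i j, (θ i j).IsHomogeneous 3) {d : ℕ} (hd : d < 3) {b : F3 n}
    (hb : b ∈ BB θ d) : b = 0 := by
  obtain ⟨h1, c, hc⟩ := hb
  funext i j k
  have h2 := hc_w12_low hθ c hd i j k
  rw [← hc, homogeneousComponent_eq_self (h1 i j k)] at h2
  exact h2

/-- homogeneous components of members of the saturation belong to the saturation -/
theorem IsBsat_comp {θ : F2 n} (hθ : ∀ i j, (θ i j).IsHomogeneous 3) {b : F3 n} (hb : IsBsat θ b)
    (d : ℕ) : IsBsat θ (fun i j k => homogeneousComponent d (b i j k)) := by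
  obtain ⟨K, hK⟩ := hb
  refine ⟨K, fun f hf => ?_⟩
  have h1 := IsB_comp hθ (hK f hf) (d + K)
  have h2 : (fun i j k => homogeneousComponent (d + K) (f * b i j k)) =
      fun i j k => f * homogeneousComponent d (b i j k) := by
    funext i j k
    rw [mul_comm f, sat_hc_mul _ _ _ _ hf, mul_comm]
  rwa [h2] at h1

/-- `x_0` is a nonzerodivisor modulo `B^sat` -/
def hz {n : ℕ} (θ : F2 (n + 1)) : Prop :=
  ∀ b : F3 (n + 1), IsBsat θ (fun i j k => X 0 * b i j k) → IsBsat θ b

theorem IsB_pb {m : ℕ} {θ : F2 n} {b : F3 n} (h : IsB θ b) (φ : Fin n → Fin m → ℂ) :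
    IsB (pb2 φ θ) (fun i j l => ∑ a, ∑ c, ∑ e, C (φ a i * φ c j * φ e l) * lsub φ (b a c e)) := by
  obtain ⟨c, hc⟩ := h
  refine ⟨pb φ c, fun i j l => ?_⟩
  rw [w12_pb]
  simp only [hc]

/-- nonzero linear forms are prime -/
theorem prime_of_hom_one {y : Pn n} (hy : y.IsHomogeneous 1) (h0 : y ≠ 0) : Prime y := by
  have h1 : Irreducible y := by
    refine irreducible_of_totalDegree_eq_one (hy.totalDegree h0) fun x hx => ?_
    obtain ⟨s, hs⟩ := exists_coeff_ne_zero h0
    have h2 := hx s
    rcases eq_or_ne x 0 with rfl | hx0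
    · rw [zero_dvd_iff] at h2
      exact absurd h2 hs
    · exact isUnit_iff_ne_zero.2 hx0
  exact h1.prime

/-- (A1) -/
theorem ann_lemma {θ : F2 n} {b : F3 n} (hb : ¬ IsB θ b) {y y' : Pn n} (hy : y.IsHomogeneous 1)
    (hy' : y'.IsHomogeneous 1) (hind : ∀ c c' : ℂ, C c * y + C c' * y' = 0 → c = 0 ∧ c' = 0)
    {ξ ξ' : F1 n} (h : ∀ i j k, y * b i j k = w12 ξ θ i j k)
    (h' : ∀ i j k, y' * b i j k = w12 ξ' θ i j k) :
    (∀ i j k, w12 (fun l => y * ξ' l - y' * ξ l) θ i j k = 0) ∧
      ∃ l, y * ξ' l - y' * ξ l ≠ 0 := by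
  constructor
  · intro i j k
    rw [Pool.Agent.Helper71.FL.w12_sub (fun l => y * ξ' l) (fun l => y' * ξ l),
      Pool.Agent.Helper71.FL.w12_smul, Pool.Agent.Helper71.FL.w12_smul, ← h, ← h']
    ring
  · by_contra hcon
    push Not at hcon
    have hy0 : y ≠ 0 := by
      rintro rfl
      have := (hind 1 0 (by simp)).1
      exact one_ne_zero this
    have hpr := prime_of_hom_one hy hy0
    have hnd : ¬ y ∣ y' := by
      rintro ⟨g, hg⟩
      rcases eq_or_ne g 0 with rfl | hg0
      · rw [mul_zero] at hg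
        have := (hind 0 1 (by rw [hg]; simp)).2
        exact one_ne_zero this
      · have hy'0 : y' ≠ 0 := by
          rw [hg]
          exact mul_ne_zero hy0 hg0
        have h1 : y'.totalDegree = y.totalDegree + g.totalDegree := by
          rw [hg]
          exact totalDegree_mul_of_isDomain hy0 hg0
        rw [hy'.totalDegree hy'0, hy.totalDegree hy0] at h1
        have h2 : g.totalDegree = 0 := by omega
        obtain ⟨r, hr⟩ : ∃ r, g = C r := ⟨_, (totalDegree_eq_zero_iff_eq_C (p := g)).mp h2⟩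
        have := (hind r (-1) (by rw [hg, hr, C_neg, C_1]; ring)).2
        exact (neg_ne_zero.2 one_ne_zero) this
    have hdv : ∀ l, ∃ e, ξ l = y * e := by
      intro l
      have h1 : y ∣ y' * ξ l := ⟨ξ' l, by have := hcon l; linear_combination -this⟩
      exact (hpr.dvd_or_dvd h1).resolve_left hnd
    choose η hη using hdv
    apply hb
    refine ⟨η, fun i j k => mul_left_cancel₀ hy0 ?_⟩
    rw [h, ← Pool.Agent.Helper71.FL.w12_smul]
    congr 1
    funext l
    exact hη l

end Pool.Agent.Helper71.FC
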