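import Pool.Agent.Helper71.FC.GL2

/-! FC-3: general parameters and general matrices (Zariski open conditions).
`gen_finrank`: the rank of a matrix with polynomial entries is maximal on a non empty open set (a non vanishing minor);
apply this to the linear map `ξ ↦ w12 ξ (pb2 φ θ)` on the (coefficient) space of homogeneous 1-forms. -/

set_option autoImplicit false

namespace Pool.Agent.Helper71.FC

open MvPolynomial
open scoped BigOperators
open Pool.Agent.Helper71.FL (w12 pf ct Dec Closed dd)
open Pool.Agent.Helper93 (lsub lmap OF pb)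

section gen
variable {ι : Type}

theorem Gen.mono {p q : (ι → ℂ) → Prop} (h : Gen p) (hpq : ∀ x, p x → q x) : Gen q := by
  obtain ⟨F, hF, h⟩ := h
  exact ⟨F, hF, fun x hx => hpq x (h x hx)⟩

theorem Gen.and {p q : (ι → ℂ) → Prop} (h : Gen p) (h' : Gen q) : Gen (fun x => p x ∧ q x) := by
  obtain ⟨F, hF, h⟩ := h
  obtain ⟨G, hG, h'⟩ := h'
  refine ⟨F * G, mul_ne_zero hF hG, fun x hx => ?_⟩
  rw [map_mul] at hx
  exact ⟨h x (left_ne_zero_of_mul hx), h' x (right_ne_zero_of_mul hx)⟩

theorem Gen.exists {p : (ι → ℂ) → Prop} (h : Gen p) : ∃ x, p x := by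
  obtain ⟨F, hF, h⟩ := h
  by_contra hc
  refine hF (MvPolynomial.funext fun x => ?_)
  by_contra hx
  rw [map_zero] at hx
  exact hc ⟨x, h x hx⟩

theorem Gen.all {κ : Type} [Fintype κ] {p : κ → (ι → ℂ) → Prop} (h : ∀ a, Gen (p a)) :
    Gen (fun x => ∀ a, p a x) := by
  classical
  choose F hF h using h
  refine ⟨∏ a, F a, Finset.prod_ne_zero_iff.2 fun a _ => hF a, fun x hx a => h a x fun h0 => hx ?_⟩
  rw [map_prod]
  exact Finset.prod_eq_zero (Finset.mem_univ a) h0

end gen

private theorem exists_eval_ne {ι : Type} {F : MvPolynomial ι ℂ} (hF : F ≠ 0) :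
    ∃ x, eval x F ≠ 0 := by
  by_contra hc
  refine hF (MvPolynomial.funext fun x => ?_)
  by_contra hx
  rw [map_zero] at hx
  exact hc ⟨x, hx⟩

private theorem genM_iff {n m : ℕ} {p : (Fin n → Fin m → ℂ) → Prop} :
    GenM p ↔ Gen (fun x : Fin n × Fin m → ℂ => p (fun i j => x (i, j))) := by
  constructor
  · rintro ⟨F, hF, h⟩
    exact ⟨F, hF, fun x hx => h (fun i j => x (i, j)) hx⟩
  · rintro ⟨F, hF, h⟩
    exact ⟨F, hF, fun φ hφ => h (fun q => φ q.1 q.2) hφ⟩

private theorem eval_bind' {ι κ : Type} (t : ι → MvPolynomial κ ℂ) (x : κ → ℂ)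
    (F : MvPolynomial ι ℂ) : eval x (bind₁ t F) = eval (fun i => eval x (t i)) F := by
  induction F using MvPolynomial.induction_on with
  | C c => simp
  | add p q hp hq => rw [map_add, map_add, map_add, hp, hq]
  | mul_X p i hp => rw [map_mul, map_mul, map_mul, hp, bind₁_X_right, eval_X]

private theorem Gen.comap {ι κ : Type} {p : (ι → ℂ) → Prop} (hp : Gen p)
    (t : ι → MvPolynomial κ ℂ) (hs : ∀ y : ι → ℂ, ∃ x : κ → ℂ, ∀ i, eval x (t i) = y i) :
    Gen (fun x : κ → ℂ => p (fun i => eval x (t i))) := by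
  obtain ⟨F, hF, h⟩ := hp
  have key : ∀ x : κ → ℂ, eval x (bind₁ t F) = eval (fun i => eval x (t i)) F :=
    fun x => eval_bind' t x F
  refine ⟨bind₁ t F, ?_, fun x hx => h _ ?_⟩
  · obtain ⟨y, hy⟩ := exists_eval_ne hF
    obtain ⟨x, hx⟩ := hs y
    intro h0
    have h1 := key x
    rw [h0, map_zero] at h1
    have h2 : (fun i => eval x (t i)) = y := _root_.funext hx
    rw [h2] at h1
    exact hy h1.symm
  · rw [key] at hx
    exact hx

variable {n m k : ℕ}

theorem GenM.mono {p q : (Fin n → Fin m → ℂ) → Prop} (h : GenM p) (hpq : ∀ x, p x → q x) :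
    GenM q := by
  obtain ⟨F, hF, h⟩ := h
  exact ⟨F, hF, fun x hx => hpq x (h x hx)⟩

theorem GenM.and {p q : (Fin n → Fin m → ℂ) → Prop} (h : GenM p) (h' : GenM q) :
    GenM (fun x => p x ∧ q x) := by
  rw [genM_iff] at h h' ⊢
  exact h.and h'

theorem GenM.exists {p : (Fin n → Fin m → ℂ) → Prop} (h : GenM p) : ∃ x, p x := by
  rw [genM_iff] at h
  obtain ⟨x, hx⟩ := h.exists
  exact ⟨_, hx⟩

theorem GenM.all {κ : Type} [Fintype κ] {p : κ → (Fin n → Fin m → ℂ) → Prop}
    (h : ∀ a, GenM (p a)) : GenM (fun x => ∀ a, p a x) := by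
  rw [genM_iff]
  exact Gen.all fun a => genM_iff.1 (h a)

private theorem mm_assoc' {a b c d : ℕ} (A : Fin a → Fin b → ℂ) (B : Fin b → Fin c → ℂ)
    (D : Fin c → Fin d → ℂ) : mm A (mm B D) = mm (mm A B) D := by
  have h := (Matrix.mul_assoc (Matrix.of A) (Matrix.of B) (Matrix.of D)).symm
  funext i j
  have h1 := congrFun (congrFun h i) j
  exact h1

/-- general square matrices are invertible -/
theorem GenM.inv (n : ℕ) : GenM (fun g : Fin n → Fin n → ℂ => ∃ g', Inv g g') := by
  refine ⟨Matrix.det (Matrix.mvPolynomialX (Fin n) (Fin n) ℂ),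
    Matrix.det_mvPolynomialX_ne_zero (Fin n) ℂ, fun g hg => ?_⟩
  rw [Matrix.eval_det_mvPolynomialX] at hg
  have hu : IsUnit (Matrix.det (Matrix.of g)) := isUnit_iff_ne_zero.2 hg
  refine ⟨fun i j => (Matrix.of g)⁻¹ i j, ?_, ?_⟩
  · funext i j
    have h := congrFun (congrFun (Matrix.mul_nonsing_inv (Matrix.of g) hu) i) j
    rw [Matrix.mul_apply, Matrix.one_apply] at h
    exact h
  · funext i j
    have h := congrFun (congrFun (Matrix.nonsing_inv_mul (Matrix.of g) hu) i) j
    rw [Matrix.mul_apply, Matrix.one_apply] at h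
    exact h

/-- general matrices with at least as many rows as columns are injective -/
theorem GenM.inj (h : m ≤ n) : GenM (fun φ : Fin n → Fin m → ℂ => Function.Injective (lmap φ)) := by
  have ev : ∀ φ : Fin n → Fin m → ℂ, eval (fun q : Fin n × Fin m => φ q.1 q.2)
      (Matrix.det (Matrix.of fun i j : Fin m =>
        (X (Fin.castLE h i, j) : MvPolynomial (Fin n × Fin m) ℂ))) =
      Matrix.det (Matrix.of fun i j : Fin m => φ (Fin.castLE h i) j) := by
    intro φ
    rw [RingHom.map_det]
    congr 1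
    ext i j
    simp
  refine ⟨Matrix.det (Matrix.of fun i j : Fin m => X (Fin.castLE h i, j)), ?_, fun φ hφ => ?_⟩
  · intro h0
    have h1 := ev (fun i j => if (i : ℕ) = (j : ℕ) then 1 else 0)
    rw [h0, map_zero] at h1
    have h2 : (Matrix.of fun i j : Fin m =>
        (if ((Fin.castLE h i : Fin n) : ℕ) = (j : ℕ) then (1 : ℂ) else 0)) = 1 := by
      ext i j
      rw [Matrix.of_apply, Matrix.one_apply]
      simp [Fin.ext_iff]
    rw [h2, Matrix.det_one] at h1
    exact zero_ne_one h1
  · rw [ev] at hφ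
    rw [injective_iff_map_eq_zero]
    intro x hx
    refine Matrix.eq_zero_of_mulVec_eq_zero hφ ?_
    funext i
    have h1 := congrFun hx (Fin.castLE h i)
    exact h1

theorem GenM.mm_left {p : (Fin n → Fin m → ℂ) → Prop} (hp : GenM p) {g g' : Fin n → Fin n → ℂ}
    (hg : Inv g g') : GenM (fun φ => p (mm g φ)) := by
  rw [genM_iff] at hp ⊢
  have h := hp.comap (κ := Fin n × Fin m)
    (fun q => ∑ l, C (g q.1 l) * X (l, q.2)) (fun y => ?_)
  · refine h.mono fun x hx => ?_
    convert hx using 2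
    funext j
    simp [mm]
  · refine ⟨fun q => mm g' (fun i j => y (i, j)) q.1 q.2, fun q => ?_⟩
    have h1 : mm g (mm g' (fun i j => y (i, j))) q.1 q.2 = y q := by
      have h2 : mm g (mm g' (fun i j => y (i, j))) = mm (mm g g') (fun i j => y (i, j)) := mm_assoc' _ _ _
      rw [h2, hg.1]
      simp [mm, idm]
    rw [← h1]
    simp [mm]

theorem GenM.mm_right {p : (Fin n → Fin m → ℂ) → Prop} (hp : GenM p) {g g' : Fin m → Fin m → ℂ}
    (hg : Inv g g') : GenM (fun φ => p (mm φ g)) := by
  rw [genM_iff] at hp ⊢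
  have h := hp.comap (κ := Fin n × Fin m)
    (fun q => ∑ l, X (q.1, l) * C (g l q.2)) (fun y => ?_)
  · refine h.mono fun x hx => ?_
    convert hx using 2
    funext j
    simp [mm]
  · refine ⟨fun q => mm (fun i j => y (i, j)) g' q.1 q.2, fun q => ?_⟩
    have h1 : mm (mm (fun i j => y (i, j)) g') g q.1 q.2 = y q := by
      have h2 : mm (mm (fun i j => y (i, j)) g') g = mm (fun i j => y (i, j)) (mm g' g) :=
        (mm_assoc' _ _ _).symm
      rw [h2, hg.2]
      simp [mm, idm]
    rw [← h1]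
    simp [mm]

/-- some columns of a general matrix form a general matrix -/
theorem GenM.cols {p : (Fin n → Fin m → ℂ) → Prop} (hp : GenM p) (f : Fin m → Fin k)
    (hf : Function.Injective f) : GenM (fun φ : Fin n → Fin k → ℂ => p (fun i j => φ i (f j))) := by
  classical
  rw [genM_iff] at hp ⊢
  have h := hp.comap (κ := Fin n × Fin k) (fun q => X (q.1, f q.2)) (fun y => ?_)
  · refine h.mono fun x hx => ?_
    convert hx using 2
    simp
  · refine ⟨fun q => if h : ∃ j, f j = q.2 then y (q.1, h.choose) else 0, fun q => ?_⟩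
    have hex : ∃ j, f j = f q.2 := ⟨q.2, rfl⟩
    rw [eval_X, dif_pos hex, hf hex.choose_spec]

/-- a general subspace of a general subspace is general -/
theorem GenM.comp {p : (Fin n → Fin m → ℂ) → Prop} (hp : GenM p) (hmk : m ≤ k) (hkn : k ≤ n) :
    GenM (fun φ : Fin n → Fin k → ℂ => GenM (fun κ : Fin k → Fin m → ℂ => p (mm φ κ))) := by
  obtain ⟨F, hF, h⟩ := hp
  obtain ⟨y, hy⟩ := exists_eval_ne hF
  -- the matrix `κ₀` with the identity on top
  let κ₀ : Fin k → Fin m → ℂ := fun i j => if (i : ℕ) = (j : ℕ) then 1 else 0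
  have key1 : ∀ φ : Fin n → Fin k → ℂ, eval (fun q : Fin n × Fin k => φ q.1 q.2)
      (bind₁ (fun q : Fin n × Fin m => ∑ l, X (q.1, l) * C (κ₀ l q.2)) F) =
      eval (fun q : Fin n × Fin m => mm φ κ₀ q.1 q.2) F := by
    intro φ
    rw [eval_bind']
    congr 2
    funext q
    simp [mm]
  refine ⟨bind₁ (fun q : Fin n × Fin m => ∑ l, X (q.1, l) * C (κ₀ l q.2)) F, ?_, fun φ hφ => ?_⟩
  · intro h0
    have h1 := key1 (fun i j => if hj : (j : ℕ) < m then y (i, ⟨j, hj⟩) else 0)
    rw [h0, map_zero] at h1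
    have h2 : (fun q : Fin n × Fin m => mm (fun i j => if hj : (j : ℕ) < m then y (i, ⟨j, hj⟩)
        else 0) κ₀ q.1 q.2) = y := by
      funext q
      obtain ⟨i, j⟩ := q
      show ∑ l : Fin k, (if hj : (l : ℕ) < m then y (i, ⟨l, hj⟩) else 0) *
        (if (l : ℕ) = (j : ℕ) then 1 else 0) = y (i, j)
      rw [Finset.sum_eq_single (Fin.castLE hmk j)]
      · simp
      · intro l _ hl
        have : (l : ℕ) ≠ (j : ℕ) := fun h => hl (Fin.ext h)
        rw [if_neg this, mul_zero]
      · intro h; exact absurd (Finset.mem_univ _) h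
    rw [h2] at h1
    exact hy h1.symm
  · rw [key1] at hφ
    have key2 : ∀ κ : Fin k → Fin m → ℂ, eval (fun q : Fin k × Fin m => κ q.1 q.2)
        (bind₁ (fun q : Fin n × Fin m => ∑ l, C (φ q.1 l) * X (l, q.2)) F) =
        eval (fun q : Fin n × Fin m => mm φ κ q.1 q.2) F := by
      intro κ
      rw [eval_bind']
      congr 2
      funext q
      simp [mm]
    refine ⟨bind₁ (fun q : Fin n × Fin m => ∑ l, C (φ q.1 l) * X (l, q.2)) F, ?_, fun κ hκ => ?_⟩
    · intro h0
      have h1 := key2 κ₀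
      rw [h0, map_zero] at h1
      exact hφ h1.symm
    · rw [key2] at hκ
      exact h _ hκ

/-- a polynomial vanishing at general points vanishes -/
theorem eq_zero_of_gen {f : Pn n} (h : Gen (fun x : Fin n → ℂ => eval x f = 0)) : f = 0 := by
  obtain ⟨F, hF, h⟩ := h
  have h1 : F * f = 0 := by
    refine MvPolynomial.funext fun x => ?_
    rw [map_mul, map_zero]
    by_cases hx : eval x F = 0
    · rw [hx, zero_mul]
    · rw [h x hx, mul_zero]
  exact (mul_eq_zero.1 h1).resolve_left hF

/-- a polynomial is determined by its restrictions to general subspaces (`m ≥ 1`) -/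
theorem eq_zero_of_genM {f : Pn n} (hm : 0 < m) (hmn : m ≤ n)
    (h : GenM (fun φ : Fin n → Fin m → ℂ => lsub φ f = 0)) : f = 0 := by
  obtain ⟨F, hF, h⟩ := h
  let z : Fin m := ⟨0, hm⟩
  have h1 : F * rename (fun i : Fin n => (i, z)) f = 0 := by
    refine MvPolynomial.funext fun x => ?_
    rw [map_mul, map_zero]
    by_cases hx : eval x F = 0
    · rw [hx, zero_mul]
    · have h2 := h (fun i j => x (i, j)) hx
      have h3 := Pool.Agent.Helper93.eval_lsub (fun i j => x (i, j)) f
        (fun j => if j = z then 1 else 0)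
      rw [h2, map_zero] at h3
      have h4 : (lmap (fun i j => x (i, j)) (fun j => if j = z then 1 else 0) : Fin n → ℂ) =
          x ∘ (fun i : Fin n => (i, z)) := by
        funext i
        show ∑ l, x (i, l) * (if l = z then 1 else 0) = x (i, z)
        rw [Finset.sum_eq_single z]
        · simp
        · intro l _ hl; rw [if_neg hl, mul_zero]
        · intro h; exact absurd (Finset.mem_univ _) h
      rw [h4] at h3
      rw [eval_rename, ← h3, mul_zero]
  have h2 := (mul_eq_zero.1 h1).resolve_left hF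
  exact rename_injective _ (fun a b hab => (Prod.mk.inj hab).1) (h2.trans (map_zero _).symm)


private noncomputable def dotF {κ : Type} [Fintype κ] (c : κ → ℂ) : (κ → ℂ) →ₗ[ℂ] ℂ where
  toFun a := ∑ j, a j * c j
  map_add' := by
    intro a b
    simp only [Pi.add_apply, add_mul, Finset.sum_add_distrib]
  map_smul' := by
    intro t a
    simp only [Pi.smul_apply, smul_eq_mul, RingHom.id_apply]
    rw [Finset.mul_sum]
    exact Finset.sum_congr rfl fun j _ => by ring

/-- the vectors annihilated by a family of rows with polynomial entries -/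
private noncomputable def NN {ι R κ : Type} [Fintype κ] (A : R → κ → MvPolynomial ι ℂ)
    (x : ι → ℂ) : Submodule ℂ (κ → ℂ) where
  carrier := {c | ∀ ρ, ∑ j, eval x (A ρ j) * c j = 0}
  add_mem' := by
    intro a b ha hb ρ
    simp only [Pi.add_apply, mul_add, Finset.sum_add_distrib]
    rw [ha ρ, hb ρ, add_zero]
  zero_mem' := by
    intro ρ
    simp
  smul_mem' := by
    intro r a ha ρ
    simp only [Pi.smul_apply, smul_eq_mul]
    have h : ∀ j, eval x (A ρ j) * (r * a j) = r * (eval x (A ρ j) * a j) := fun j => by ring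
    simp only [h]
    rw [← Finset.mul_sum, ha ρ, mul_zero]

private noncomputable def rowMap {r : ℕ} {κ : Type} [Fintype κ] (M : Fin r → κ → ℂ) :
    (κ → ℂ) →ₗ[ℂ] (Fin r → ℂ) where
  toFun c := fun i => ∑ j, M i j * c j
  map_add' := by
    intro a b
    funext i
    simp only [Pi.add_apply, mul_add, Finset.sum_add_distrib]
  map_smul' := by
    intro t a
    funext i
    simp only [Pi.smul_apply, smul_eq_mul, RingHom.id_apply]
    rw [Finset.mul_sum]
    exact Finset.sum_congr rfl fun j _ => by ring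

private theorem rowMap_surj_of_indep {r : ℕ} {κ : Type} [Fintype κ] [DecidableEq κ]
    (M : Fin r → κ → ℂ) (hM : LinearIndependent ℂ M) : Function.Surjective (rowMap M) := by
  have h1 : (Matrix.of M).rank = Fintype.card (Fin r) := LinearIndependent.rank_matrix hM
  have h2 : Function.Surjective (Matrix.of M).mulVecLin := by
    rw [← LinearMap.range_eq_top]
    apply Submodule.eq_top_of_finrank_eq
    rw [Module.finrank_fintype_fun_eq_card]
    exact h1
  exact h2

private theorem finrank_ker_rowMap {r : ℕ} {κ : Type} [Fintype κ]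
    (M : Fin r → κ → ℂ) (hM : Function.Surjective (rowMap M)) :
    Module.finrank ℂ (LinearMap.ker (rowMap M)) + r = Fintype.card κ := by
  have h := (rowMap M).finrank_range_add_finrank_ker
  rw [LinearMap.range_eq_top.2 hM, finrank_top, Module.finrank_fintype_fun_eq_card,
    Module.finrank_fintype_fun_eq_card, Fintype.card_fin] at h
  rw [add_comm]
  exact h

private theorem gen_rank {ι R κ : Type} [Fintype κ] (A : R → κ → MvPolynomial ι ℂ) :
    ∃ e : ℕ, Gen (fun x => Module.finrank ℂ (NN A x) = e) ∧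
      ∀ x, e ≤ Module.finrank ℂ (NN A x) := by
  classical
  obtain ⟨x₀, hx₀⟩ : ∃ x₀, ∀ x, Module.finrank ℂ (NN A x₀) ≤ Module.finrank ℂ (NN A x) := by
    have hne : (Set.range fun x => Module.finrank ℂ (NN A x)).Nonempty := ⟨_, fun _ => 0, rfl⟩
    obtain ⟨x₀, hx₀⟩ := Nat.sInf_mem hne
    refine ⟨x₀, fun x => ?_⟩
    have h1 : Module.finrank ℂ (NN A x₀) = sInf (Set.range fun x => Module.finrank ℂ (NN A x)) := hx₀
    rw [h1]
    exact Nat.sInf_le ⟨x, rfl⟩
  refine ⟨Module.finrank ℂ (NN A x₀), ?_, hx₀⟩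
  let s : Set (κ → ℂ) := Set.range fun ρ => fun j => eval x₀ (A ρ j)
  obtain ⟨f, hf1, hf2, hf3⟩ := Submodule.exists_fun_fin_finrank_span_eq ℂ s
  choose ρ hρ using hf1
  -- the kernel of the chosen rows is the space at `x₀`
  have hsurj := rowMap_surj_of_indep f hf3
  have hN0 : NN A x₀ = LinearMap.ker (rowMap f) := by
    ext c
    rw [LinearMap.mem_ker]
    constructor
    · intro hc
      funext i
      show ∑ j, f i j * c j = 0
      rw [← hρ i]
      exact hc (ρ i)
    · intro hc ρ'
      have hmem : (fun j => eval x₀ (A ρ' j)) ∈ Submodule.span ℂ (Set.range f) := by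
        rw [hf2]
        exact Submodule.subset_span ⟨ρ', rfl⟩
      have hle : Submodule.span ℂ (Set.range f) ≤
          LinearMap.ker (dotF c) := by
        rw [Submodule.span_le]
        rintro _ ⟨i, rfl⟩
        have h1 := congrFun hc i
        exact h1
      exact hle hmem
  choose b hb using fun k : Fin (Module.finrank ℂ (Submodule.span ℂ s)) =>
    hsurj (Pi.single k 1)
  let P : MvPolynomial ι ℂ := Matrix.det (Matrix.of fun i k => ∑ j, A (ρ i) j * C (b k j))
  have hP : ∀ x, eval x P = Matrix.det (Matrix.of fun i k => ∑ j, eval x (A (ρ i) j) * b k j) := by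
    intro x
    show eval x (Matrix.det _) = _
    rw [RingHom.map_det]
    congr 1
    ext i k
    simp
  refine ⟨P, ?_, fun x hx => le_antisymm ?_ (hx₀ x)⟩
  · intro h0
    have h1 := hP x₀
    rw [h0, map_zero] at h1
    have h2 : (Matrix.of fun i k => ∑ j, eval x₀ (A (ρ i) j) * b k j) = 1 := by
      ext i k
      have h3 := congrFun (hb k) i
      rw [Matrix.of_apply, Matrix.one_apply]
      have h4 : ∑ j, f i j * b k j = (Pi.single k (1 : ℂ) : _ → ℂ) i := h3
      rw [← hρ i] at h4
      rw [h4, Pi.single_apply]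
    rw [h2, Matrix.det_one] at h1
    exact zero_ne_one h1
  · -- the rows at `x` are still surjective
    let g : Fin (Module.finrank ℂ (Submodule.span ℂ s)) → κ → ℂ := fun i j => eval x (A (ρ i) j)
    have hg : Function.Surjective (rowMap g) := by
      rw [hP] at hx
      intro v
      have hu : IsUnit (Matrix.det (Matrix.of fun i k => ∑ j, eval x (A (ρ i) j) * b k j)) :=
        isUnit_iff_ne_zero.2 hx
      let w := (Matrix.of fun i k => ∑ j, eval x (A (ρ i) j) * b k j)⁻¹.mulVec v
      refine ⟨fun j => ∑ k, w k * b k j, ?_⟩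
      have h1 : (Matrix.of fun i k => ∑ j, eval x (A (ρ i) j) * b k j).mulVec w = v := by
        show Matrix.mulVec _ (Matrix.mulVec _ v) = v
        rw [Matrix.mulVec_mulVec, Matrix.mul_nonsing_inv _ hu, Matrix.one_mulVec]
      rw [← h1]
      funext i
      show ∑ j, eval x (A (ρ i) j) * ∑ k, w k * b k j =
        ∑ k, (∑ j, eval x (A (ρ i) j) * b k j) * w k
      simp only [Finset.mul_sum, Finset.sum_mul]
      rw [Finset.sum_comm]
      exact Finset.sum_congr rfl fun k _ => Finset.sum_congr rfl fun j _ => by ring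
    have h1 := finrank_ker_rowMap g hg
    have h2 := finrank_ker_rowMap f hsurj
    have hle : NN A x ≤ LinearMap.ker (rowMap g) := by
      intro c hc
      rw [LinearMap.mem_ker]
      funext i
      exact hc (ρ i)
    have h3 := Submodule.finrank_mono hle
    rw [hN0]
    omega

/-- the monomials of degree `d` in `m` variables -/
private def mons (m d : ℕ) : Finset (Fin m →₀ ℕ) := Finset.univ.finsuppAntidiag d

private theorem mem_mons {m d : ℕ} {s : Fin m →₀ ℕ} : s ∈ mons m d ↔ s.degree = d := by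
  unfold mons
  rw [Finset.mem_finsuppAntidiag]
  constructor
  · rintro ⟨h, -⟩
    rw [← h, Finsupp.degree_eq_sum]
  · intro h
    refine ⟨?_, Finset.subset_univ _⟩
    rw [← h, Finsupp.degree_eq_sum]

/-- the homogeneous 1-form with given coefficients -/
private noncomputable def lin (m d : ℕ) : (Fin m × mons m d → ℂ) →ₗ[ℂ] F1 m where
  toFun c := fun a => ∑ s : mons m d, monomial s.1 (c (a, s))
  map_add' := by
    intro a b
    funext i
    simp only [Pi.add_apply, map_add, Finset.sum_add_distrib]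
  map_smul' := by
    intro t a
    funext i
    simp only [Pi.smul_apply, RingHom.id_apply, map_smul, Finset.smul_sum]

private theorem coeff_lin {m d : ℕ} (c : Fin m × mons m d → ℂ) (a : Fin m) (s : mons m d) :
    coeff s.1 (lin m d c a) = c (a, s) := by
  classical
  show coeff s.1 (∑ s : mons m d, monomial s.1 (c (a, s))) = _
  rw [coeff_sum, Finset.sum_eq_single s]
  · rw [coeff_monomial, if_pos rfl]
  · intro t _ ht
    rw [coeff_monomial, if_neg]
    exact fun h => ht (Subtype.ext h)
  · intro h; exact absurd (Finset.mem_univ _) h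

private theorem lin_hom {m d : ℕ} (c : Fin m × mons m d → ℂ) (a : Fin m) :
    (lin m d c a).IsHomogeneous d := by
  refine IsHomogeneous.sum _ _ _ fun s _ => ?_
  exact isHomogeneous_monomial _ (mem_mons.1 s.2)

private theorem exists_lin {m d : ℕ} {ξ : F1 m} (h : ∀ a, (ξ a).IsHomogeneous d) :
    ∃ c, lin m d c = ξ := by
  classical
  refine ⟨fun q => coeff q.2.1 (ξ q.1), ?_⟩
  funext a
  ext t
  by_cases ht : t ∈ mons m d
  · exact coeff_lin _ a ⟨t, ht⟩
  · rw [(h a).coeff_eq_zero (fun h1 => ht (mem_mons.2 h1)),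
      (lin_hom _ a).coeff_eq_zero (fun h1 => ht (mem_mons.2 h1))]

private theorem w12_lin_aux {A : Type} [CommRing A] {ι κ : Type} [Fintype κ] {ξ : ι → A}
    (c : κ → A) (E : κ → ι → A) (h : ∀ a, ξ a = ∑ q, c q * E q a) (θ : ι → ι → A) (i j l : ι) :
    w12 ξ θ i j l = ∑ q, c q * w12 (E q) θ i j l := by
  unfold w12
  rw [h, h, h, Finset.sum_mul, Finset.sum_mul, Finset.sum_mul, ← Finset.sum_add_distrib,
    ← Finset.sum_add_distrib]
  exact Finset.sum_congr rfl fun q _ => by ring

section generic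
variable {n : ℕ} (θ : F2 n) (m : ℕ)

/-- generic linear substitution -/
private noncomputable def glsub (n m : ℕ) :
    Pn n →+* MvPolynomial (Fin m) (MvPolynomial (Fin n × Fin m) ℂ) :=
  eval₂Hom (C.comp C) (fun k => ∑ l, C (X (k, l)) * X l)

private noncomputable def gpb2 : Fin m → Fin m → MvPolynomial (Fin m) (MvPolynomial (Fin n × Fin m) ℂ) :=
  fun i j => ∑ k, ∑ l, C (X (k, i) * X (l, j)) * glsub n m (θ k l)

private theorem map_glsub (φ : Fin n → Fin m → ℂ) (f : Pn n) :
    MvPolynomial.map (eval fun q : Fin n × Fin m => φ q.1 q.2) (glsub n m f) = lsub φ f := by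
  have h : (MvPolynomial.map (eval fun q : Fin n × Fin m => φ q.1 q.2)).comp (glsub n m) =
      (lsub φ : Pn n →+* Pn m) := by
    apply MvPolynomial.ringHom_ext
    · intro c
      show MvPolynomial.map _ (eval₂Hom (C.comp C) _ (C c)) = (lsub φ) (C c)
      rw [eval₂Hom_C, RingHom.comp_apply, map_C, eval_C]
      unfold lsub
      rw [aeval_C]
      rfl
    · intro i
      show MvPolynomial.map _ (eval₂Hom (C.comp C) _ (X i)) = (lsub φ) (X i)
      rw [eval₂Hom_X', map_sum]
      unfold lsub
      rw [aeval_X]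
      refine Finset.sum_congr rfl fun l _ => ?_
      rw [map_mul, map_C, map_X, eval_X]
  exact congrArg (fun g : Pn n →+* Pn m => g f) h

private theorem map_gpb2 (φ : Fin n → Fin m → ℂ) (i j : Fin m) :
    MvPolynomial.map (eval fun q : Fin n × Fin m => φ q.1 q.2) (gpb2 θ m i j) = pb2 φ θ i j := by
  unfold gpb2 pb2
  rw [map_sum]
  refine Finset.sum_congr rfl fun k _ => ?_
  rw [map_sum]
  refine Finset.sum_congr rfl fun l _ => ?_
  rw [map_mul, map_glsub, map_C, map_mul, eval_X, eval_X]

/-- the rows -/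
private noncomputable def Arow (d : ℕ) (R : (Fin m × Fin m × Fin m) × (Fin m →₀ ℕ))
    (c : Fin m × mons m d) : MvPolynomial (Fin n × Fin m) ℂ :=
  coeff R.2 (w12 (fun a => if a = c.1 then monomial c.2.1 1 else 0) (gpb2 θ m) R.1.1 R.1.2.1 R.1.2.2)

private theorem eval_Arow (d : ℕ) (R : (Fin m × Fin m × Fin m) × (Fin m →₀ ℕ))
    (c : Fin m × mons m d) (φ : Fin n → Fin m → ℂ) :
    eval (fun q : Fin n × Fin m => φ q.1 q.2) (Arow θ m d R c) =
      coeff R.2 (w12 (fun a => if a = c.1 then monomial c.2.1 (1 : ℂ) else 0) (pb2 φ θ)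
        R.1.1 R.1.2.1 R.1.2.2) := by
  unfold Arow
  rw [← coeff_map, ← Pool.Agent.Helper71.FL.w12_map]
  congr 2
  · funext a
    split_ifs
    · rw [map_monomial, map_one]
    · rw [map_zero]
  · funext i j
    exact map_gpb2 θ m φ i j

private theorem EE_eq (d : ℕ) (φ : Fin n → Fin m → ℂ) :
    EE (pb2 φ θ) d = (NN (Arow θ m d) (fun q => φ q.1 q.2)).map (lin m d) := by
  classical
  have key : ∀ (c : Fin m × mons m d → ℂ) (R : (Fin m × Fin m × Fin m) × (Fin m →₀ ℕ)),
      coeff R.2 (w12 (lin m d c) (pb2 φ θ) R.1.1 R.1.2.1 R.1.2.2) =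
      ∑ q, eval (fun q : Fin n × Fin m => φ q.1 q.2) (Arow θ m d R q) * c q := by
    intro c R
    have h1 : ∀ a, lin m d c a =
        ∑ q : Fin m × mons m d, C (c q) * (if a = q.1 then monomial q.2.1 (1 : ℂ) else 0) := by
      intro a
      rw [Fintype.sum_prod_type, Finset.sum_eq_single a]
      · show ∑ s : mons m d, monomial s.1 (c (a, s)) = _
        refine Finset.sum_congr rfl fun s _ => ?_
        rw [if_pos rfl, C_mul_monomial, mul_one]
      · intro b _ hb
        refine Finset.sum_eq_zero fun s _ => ?_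
        rw [if_neg (fun h => hb h.symm), mul_zero]
      · intro h; exact absurd (Finset.mem_univ _) h
    have h2 : w12 (lin m d c) (pb2 φ θ) R.1.1 R.1.2.1 R.1.2.2 =
        ∑ q : Fin m × mons m d, C (c q) * w12 (fun a => if a = q.1 then monomial q.2.1 (1 : ℂ)
          else 0) (pb2 φ θ) R.1.1 R.1.2.1 R.1.2.2 := by
      exact w12_lin_aux _ _ h1 _ _ _ _
    rw [h2, coeff_sum]
    refine Finset.sum_congr rfl fun q _ => ?_
    rw [coeff_C_mul, eval_Arow, mul_comm]
  ext ξ
  rw [mem_EE, Submodule.mem_map]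
  constructor
  · rintro ⟨h1, h2⟩
    obtain ⟨c, rfl⟩ := exists_lin h1
    refine ⟨c, fun R => ?_, rfl⟩
    rw [← key, h2, coeff_zero]
  · rintro ⟨c, hc, rfl⟩
    refine ⟨fun a => lin_hom c a, fun i j l => ?_⟩
    ext t
    have h1 := key c ((i, j, l), t)
    rw [coeff_zero]
    exact h1.trans (hc ((i, j, l), t))

private theorem finrank_EE_eq (d : ℕ) (φ : Fin n → Fin m → ℂ) :
    Module.finrank ℂ (EE (pb2 φ θ) d) =
      Module.finrank ℂ (NN (Arow θ m d) (fun q => φ q.1 q.2)) := by
  have hinj : Function.Injective (lin m d) := by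
    intro c c' h
    funext q
    obtain ⟨a, s⟩ := q
    rw [← coeff_lin c a s, ← coeff_lin c' a s, h]
  rw [EE_eq]
  exact (Submodule.equivMapOfInjective (lin m d) hinj _).finrank_eq.symm

end generic

/-- generic value and semicontinuity of `dim E_d` of restrictions -/
theorem gen_finrank_EE (θ : F2 n) (m d : ℕ) : ∃ e : ℕ,
    GenM (fun φ : Fin n → Fin m → ℂ => Module.finrank ℂ (EE (pb2 φ θ) d) = e) ∧
    ∀ φ : Fin n → Fin m → ℂ, e ≤ Module.finrank ℂ (EE (pb2 φ θ) d) := by
  obtain ⟨e, h1, h2⟩ := gen_rank (Arow θ m d)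
  refine ⟨e, ?_, fun φ => ?_⟩
  · rw [genM_iff]
    refine h1.mono fun x hx => ?_
    rw [finrank_EE_eq]
    exact hx
  · rw [finrank_EE_eq]
    exact h2 _

end Pool.Agent.Helper71.FC
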