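import Pool.Agent.Helper71.FC.Sat
import Pool.Agent.Helper71.FC.GenP
import Pool.Agent.Helper71.FL.Cech

/-! FC-5: finiteness of `M = B^sat / B`, general linear forms are nonzerodivisors, a criterion for `M = 0`.
* `BS_large`: `B^sat / B` is a finitely generated module killed by a power of the irrelevant ideal.
* `hz_gen`: `Ω³/B^sat` has no element killed by a power of the irrelevant ideal, its associated primes are finitely many
  (`associatedPrimes.finite`) and none of them contains all linear forms; the linear forms in a prime are a proper subspace;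
  a finite union of proper subspaces lies in the zero set of a product of linear functions.
* `hz_genM`: `x_0` in the new coordinates is `lf a` in the old ones, `det g * a` = row of the adjugate matrix.
* `b_of_cech`: same proof as `good_of_cech` in `FL/Cech.lean`.
* `sat_of_pres`: `M` has a left inverse over the fraction field: `adj ∘ M = δ`, `δ ≠ 0`; choose a point `a ≠ 0` with `δ(a) ≠ 0` and three
  independent linear forms `g_i` vanishing at `a` (`n ≥ 4`): `g_0, g_1, g_2, δ` is a regular sequence, use its powers (`Reg4.pow`). -/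

set_option autoImplicit false

namespace Pool.Agent.Helper71.FC

open MvPolynomial
open scoped BigOperators
open Pool.Agent.Helper71.FL (w12 pf ct Dec Closed dd Reg4)
open Pool.Agent.Helper93 (lsub lmap OF pb)

variable {n : ℕ}

/-! ### homogeneous components -/

private theorem hc_mul {f t : Pn n} {e d : ℕ} (ht : t.IsHomogeneous e) (hed : e ≤ d) :
    homogeneousComponent d (f * t) = homogeneousComponent (d - e) f * t := by
  have h1 : ∀ i, homogeneousComponent d (homogeneousComponent i f * t) =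
      if i + e = d then homogeneousComponent i f * t else 0 := by
    intro i
    have h2 : (homogeneousComponent i f * t).IsHomogeneous (i + e) :=
      (homogeneousComponent_isHomogeneous i f).mul ht
    rw [homogeneousComponent_of_mem ((mem_homogeneousSubmodule _ _).2 h2)]
    by_cases h : i + e = d
    · rw [if_pos h, if_pos h.symm]
    · rw [if_neg h, if_neg (Ne.symm h)]
  conv_lhs => rw [← sum_homogeneousComponent f]
  rw [Finset.sum_mul, map_sum, Finset.sum_congr rfl (fun i _ => h1 i)]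
  have h3 : ∀ i, (i + e = d) = (i = d - e) := by
    intro i
    apply propext
    omega
  simp only [h3]
  rw [Finset.sum_ite_eq']
  split_ifs with h
  · rfl
  · have h4 : f.totalDegree < d - e := by
      rw [Finset.mem_range] at h
      omega
    rw [homogeneousComponent_eq_zero _ _ h4, zero_mul]

private theorem isB_congr {θ : F2 n} {b b' : F3 n} (h : IsB θ b)
    (hbb : ∀ i j k, b' i j k = b i j k) : IsB θ b' := by
  obtain ⟨c, hc⟩ := h
  exact ⟨c, fun i j k => (hbb i j k).trans (hc i j k)⟩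

private theorem isB_zero (θ : F2 n) : IsB θ (fun _ _ _ => 0) :=
  ⟨fun _ => 0, fun i j k => by simp [w12]⟩

private theorem isB_sum (θ : F2 n) {α : Type} (s : Finset α) (b : α → F3 n)
    (h : ∀ a ∈ s, IsB θ (b a)) : IsB θ (fun i j k => ∑ a ∈ s, b a i j k) := by
  classical
  induction s using Finset.induction_on with
  | empty =>
    simp only [Finset.sum_empty]
    exact isB_zero θ
  | insert a s ha ih =>
    have h1 := (h a (Finset.mem_insert_self a s)).add
      (ih fun c hc => h c (Finset.mem_insert_of_mem hc))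
    exact isB_congr h1 fun i j k => by rw [Finset.sum_insert ha]

/-- multiples of large degree -/
private theorem isB_large (θ : F2 n) {b : F3 n} {K : ℕ}
    (h : ∀ f : Pn n, f.IsHomogeneous K → IsB θ (fun i j k => f * b i j k)) {e : ℕ} (he : K ≤ e)
    {f : Pn n} (hf : f.IsHomogeneous e) : IsB θ (fun i j k => f * b i j k) := by
  classical
  have h1 : ∀ m ∈ f.support, IsB θ (fun i j k => monomial m (coeff m f) * b i j k) := by
    intro m hm
    have hdeg : m.degree = e := by
      have := hf (mem_support_iff.1 hm)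
      rw [← this, Finsupp.degree_eq_weight_one]
      rfl
    obtain ⟨u, v, huv, hu⟩ : ∃ u v : Fin n →₀ ℕ, m = u + v ∧ u.degree = K := by
      have key : ∀ (K : ℕ) (m : Fin n →₀ ℕ), K ≤ m.degree →
          ∃ u v : Fin n →₀ ℕ, m = u + v ∧ u.degree = K := by
        intro K
        induction K with
        | zero => intro m _; exact ⟨0, m, by rw [zero_add], by simp⟩
        | succ K ih =>
          intro m hm
          obtain ⟨u, v, huv, hu⟩ := ih m (by omega)
          have hv : v ≠ 0 := by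
            rintro rfl
            rw [add_zero] at huv
            rw [huv] at hm
            omega
          obtain ⟨l, hl⟩ := Finsupp.ne_iff.1 hv
          have hl' : 1 ≤ v l := Nat.one_le_iff_ne_zero.2 hl
          refine ⟨u + Finsupp.single l 1, v - Finsupp.single l 1, ?_, ?_⟩
          · rw [huv, add_assoc, add_tsub_cancel_of_le]
            exact Finsupp.single_le_iff.2 hl'
          · rw [map_add, hu, Finsupp.degree_single]
      exact key K m (by omega)
    have h2 : IsB θ (fun i j k => monomial u (1 : ℂ) * b i j k) :=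
      h _ (isHomogeneous_monomial _ hu)
    have h3 := h2.smul (monomial v (coeff m f))
    refine isB_congr h3 fun i j k => ?_
    rw [← mul_assoc, monomial_mul, mul_one, add_comm v u, ← huv]
  have h2 := isB_sum θ f.support _ h1
  refine isB_congr h2 fun i j k => ?_
  rw [← Finset.sum_mul, ← f.as_sum]

/-- `M` vanishes in large degrees -/
theorem BS_large {θ : F2 n} (hθ : ∀ i j, (θ i j).IsHomogeneous 3) : ∃ D : ℕ, ∀ d, D ≤ d → ∀ b ∈ BS θ d, IsB θ b := by
  classical
  have hfg : (Submodule.span (Pn n) {b : F3 n | ∃ d, b ∈ BS θ d}).FG := IsNoetherian.noetherian _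
  obtain ⟨T, hT, hspan⟩ := (Submodule.fg_span_iff_fg_span_finset_subset _).1 hfg
  have hT' : ∀ t ∈ T, ∃ (d K : ℕ), (∀ i j k, (t i j k).IsHomogeneous d) ∧
      ∀ f : Pn n, f.IsHomogeneous K → IsB θ (fun i j k => f * t i j k) := by
    intro t ht
    obtain ⟨d, h1, K, h2⟩ := hT ht
    exact ⟨d, K, h1, h2⟩
  choose! dd' KK h1 h2 using hT'
  refine ⟨∑ t ∈ T, (dd' t + KK t), fun d hd b hb => ?_⟩
  have hle : ∀ t ∈ T, dd' t + KK t ≤ d := fun t ht =>
    le_trans (Finset.single_le_sum (f := fun t => dd' t + KK t) (fun _ _ => Nat.zero_le _) ht) hd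
  have hbT : b ∈ Submodule.span (Pn n) (T : Set (F3 n)) := by
    rw [← hspan]
    exact Submodule.subset_span ⟨d, hb⟩
  obtain ⟨f, hf⟩ := Submodule.mem_span_finset.1 hbT
  have hf2 : b = ∑ t ∈ T, f t • t := hf.2.symm
  have h3 := isB_sum θ T (fun t i j k => homogeneousComponent (d - dd' t) (f t) * t i j k)
    (fun t ht => isB_large θ (h2 t ht) (by have := hle t ht; omega)
      (homogeneousComponent_isHomogeneous _ _))
  refine isB_congr h3 fun i j k => ?_
  have h4 : b i j k = ∑ t ∈ T, f t * t i j k := by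
    conv_lhs => rw [hf2]
    rw [Finset.sum_apply, Finset.sum_apply, Finset.sum_apply]
    rfl
  have h5 : homogeneousComponent d (b i j k) = b i j k :=
    homogeneousComponent_eq_self (hb.1 i j k)
  rw [← h5, h4, map_sum]
  refine Finset.sum_congr rfl fun t ht => ?_
  exact hc_mul (h1 t ht i j k) (by have := hle t ht; omega)

/-! ### associated primes -/

private def sbm (θ : F2 n) : Submodule (Pn n) (F3 n) where
  carrier := {b | IsBsat θ b}
  add_mem' := fun h h' => h.add h'
  zero_mem' := (isB_zero θ).sat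
  smul_mem' := fun c _ h => h.smul c

private theorem lf_add (a a' : Fin n → ℂ) : lf (a + a') = lf a + lf a' := by
  unfold lf
  rw [← Finset.sum_add_distrib]
  refine Finset.sum_congr rfl fun i _ => ?_
  rw [Pi.add_apply, C_add, add_mul]

private theorem lf_smul (c : ℂ) (a : Fin n → ℂ) : lf (c • a) = C c * lf a := by
  unfold lf
  rw [Finset.mul_sum]
  refine Finset.sum_congr rfl fun i _ => ?_
  rw [Pi.smul_apply, smul_eq_mul, C_mul, mul_assoc]

private theorem lf_single (i : Fin n) : lf (Pi.single i 1) = (X i : Pn n) := by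
  classical
  unfold lf
  rw [Finset.sum_eq_single i]
  · rw [Pi.single_eq_same, C_1, one_mul]
  · intro j _ hj
    rw [Pi.single_eq_of_ne hj, C_0, zero_mul]
  · intro h; exact absurd (Finset.mem_univ _) h

/-- the linear forms in an ideal -/
private noncomputable def lfI (p : Ideal (Pn n)) : Submodule ℂ (Fin n → ℂ) where
  carrier := {a | lf a ∈ p}
  add_mem' := by
    intro a a' h h'
    show lf (a + a') ∈ p
    rw [lf_add]
    exact p.add_mem h h'
  zero_mem' := by
    show lf 0 ∈ p
    have : lf (0 : Fin n → ℂ) = 0 := by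
      unfold lf
      exact Finset.sum_eq_zero fun i _ => by rw [Pi.zero_apply, C_0, zero_mul]
    rw [this]
    exact p.zero_mem
  smul_mem' := by
    intro c a h
    show lf (c • a) ∈ p
    rw [lf_smul]
    exact p.mul_mem_left _ h

private theorem eval_lf_smul (v : Fin n → ℂ) (c : ℂ) (a : Fin n → ℂ) :
    eval (c • a) (lf v) = c * eval a (lf v) := by
  unfold lf
  rw [map_sum, map_sum, Finset.mul_sum]
  refine Finset.sum_congr rfl fun i _ => ?_
  rw [map_mul, map_mul, eval_C, eval_C, eval_X, eval_X, Pi.smul_apply, smul_eq_mul]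
  ring

/-- a proper subspace lies in the zero set of a nonzero homogeneous polynomial -/
private theorem exists_poly (V : Submodule ℂ (Fin n → ℂ)) (hV : V ≠ ⊤) :
    ∃ F : Pn n, F ≠ 0 ∧ (∃ d : ℕ, ∀ (c : ℂ) (a : Fin n → ℂ), eval (c • a) F = c ^ d * eval a F) ∧
      ∀ a ∈ V, eval a F = 0 := by
  classical
  obtain ⟨x, hx⟩ : ∃ x, x ∉ V := by
    by_contra h
    push Not at h
    exact hV (eq_top_iff.2 fun x _ => h x)
  obtain ⟨φ, hφ, hφV⟩ := Submodule.exists_dual_map_eq_bot_of_notMem hx inferInstance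
  have hval : ∀ a, eval a (lf fun i => φ (Pi.single i 1)) = φ a := by
    intro a
    unfold lf
    rw [map_sum]
    have : a = ∑ i, a i • (Pi.single i (1 : ℂ) : Fin n → ℂ) := by
      funext j
      rw [Finset.sum_apply, Finset.sum_eq_single j]
      · simp
      · intro i _ hi
        simp [Pi.single_eq_of_ne hi.symm]
      · intro h; exact absurd (Finset.mem_univ _) h
    conv_rhs => rw [this]
    rw [map_sum]
    refine Finset.sum_congr rfl fun i _ => ?_
    rw [map_mul, eval_C, eval_X, map_smul, smul_eq_mul, mul_comm]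
  refine ⟨lf fun i => φ (Pi.single i 1), ?_, ⟨1, fun c a => ?_⟩, ?_⟩
  · intro h
    have := hval x
    rw [h, map_zero] at this
    exact hφ this.symm
  · rw [eval_lf_smul, pow_one]
  · intro a ha
    rw [hval]
    have : φ a ∈ V.map φ := Submodule.mem_map_of_mem ha
    rw [hφV] at this
    exact this

private theorem hz_gen' (θ : F2 n) : ∃ F : Pn n, F ≠ 0 ∧
    (∃ d : ℕ, ∀ (c : ℂ) (a : Fin n → ℂ), eval (c • a) F = c ^ d * eval a F) ∧
    ∀ a : Fin n → ℂ, eval a F ≠ 0 →
    ∀ b : F3 n, IsBsat θ (fun i j k => lf a * b i j k) → IsBsat θ b := by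
  classical
  have hfin : (associatedPrimes (Pn n) (F3 n ⧸ sbm θ)).Finite := associatedPrimes.finite _ _
  have hmk : ∀ b : F3 n, (Submodule.Quotient.mk b : F3 n ⧸ sbm θ) = 0 ↔ IsBsat θ b := fun b =>
    Submodule.Quotient.mk_eq_zero _
  have hprop : ∀ p ∈ associatedPrimes (Pn n) (F3 n ⧸ sbm θ), lfI p ≠ ⊤ := by
    intro p hp htop
    obtain ⟨hp1, x, hx⟩ := isAssociatedPrime_iff.1 hp
    obtain ⟨b, rfl⟩ := Submodule.Quotient.mk_surjective _ x
    have hX : ∀ l : Fin n, (X l : Pn n) ∈ p := by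
      intro l
      have : (Pi.single l 1 : Fin n → ℂ) ∈ lfI p := by rw [htop]; trivial
      have h2 : lf (Pi.single l 1) ∈ p := this
      rwa [lf_single] at h2
    have hb : IsBsat θ b := by
      refine IsBsat_of_mul fun l => ⟨1, ?_⟩
      have h1 := hX l
      rw [hx, Submodule.mem_colon_singleton, Submodule.mem_bot, ← Submodule.Quotient.mk_smul,
        hmk] at h1
      rw [pow_one]
      exact h1
    apply hp1.ne_top
    rw [hx, Ideal.eq_top_iff_one, Submodule.mem_colon_singleton, one_smul]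
    exact (hmk b).2 hb
  have hF : ∀ p : Ideal (Pn n), ∃ (F : Pn n) (d : ℕ), F ≠ 0 ∧
      (∀ (c : ℂ) (a : Fin n → ℂ), eval (c • a) F = c ^ d * eval a F) ∧
      (p ∈ associatedPrimes (Pn n) (F3 n ⧸ sbm θ) → ∀ a, lf a ∈ p → eval a F = 0) := by
    intro p
    by_cases hp : p ∈ associatedPrimes (Pn n) (F3 n ⧸ sbm θ)
    · obtain ⟨F, h1, ⟨d, hd⟩, h2⟩ := exists_poly (lfI p) (hprop p hp)
      exact ⟨F, d, h1, hd, fun _ a ha => h2 a ha⟩
    · exact ⟨1, 0, one_ne_zero, fun c a => by rw [map_one, map_one, pow_zero, one_mul],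
        fun h => absurd h hp⟩
  choose F d hF0 hFd hF1 using hF
  refine ⟨∏ p ∈ hfin.toFinset, F p, Finset.prod_ne_zero_iff.2 fun p _ => hF0 p,
    ⟨∑ p ∈ hfin.toFinset, d p, fun c a => ?_⟩, ?_⟩
  · rw [map_prod, map_prod, ← Finset.prod_pow_eq_pow_sum, ← Finset.prod_mul_distrib]
    exact Finset.prod_congr rfl fun p _ => hFd p c a
  intro a ha b hb
  by_contra hcon
  have h1 : lf a ∈ {r : Pn n | ∃ x : F3 n ⧸ sbm θ, x ≠ 0 ∧ r • x = 0} := by
    refine ⟨Submodule.Quotient.mk b, fun h => hcon ((hmk b).1 h), ?_⟩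
    rw [← Submodule.Quotient.mk_smul, hmk]
    exact hb
  rw [← biUnion_associatedPrimes_eq_zero_divisors] at h1
  obtain ⟨p, hp, hap⟩ := Set.mem_iUnion₂.1 h1
  apply ha
  rw [map_prod]
  exact Finset.prod_eq_zero (hfin.mem_toFinset.2 hp) (hF1 p hp a hap)

/-- general linear forms are nonzerodivisors modulo `B^sat` -/
theorem hz_gen (θ : F2 n) : ∃ F : Pn n, F ≠ 0 ∧ ∀ a : Fin n → ℂ, eval a F ≠ 0 →
    ∀ b : F3 n, IsBsat θ (fun i j k => lf a * b i j k) → IsBsat θ b := by
  obtain ⟨F, h1, _, h2⟩ := hz_gen' θ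
  exact ⟨F, h1, h2⟩

/-! ### coordinate changes -/

/-- pullback of 3-forms -/
private noncomputable def pb3 {m : ℕ} (φ : Fin n → Fin m → ℂ) (b : F3 n) : F3 m :=
  fun i j l => ∑ a, ∑ c, ∑ e, C (φ a i * φ c j * φ e l) * lsub φ (b a c e)

private theorem pb3_eq {m : ℕ} (φ : Fin n → Fin m → ℂ) (b : F3 n) (i j l : Fin m) :
    pb3 φ b i j l = ∑ a, C (φ a i) * pb2 φ (b a) j l := by
  unfold pb3 pb2
  refine Finset.sum_congr rfl fun a _ => ?_
  rw [Finset.mul_sum]
  refine Finset.sum_congr rfl fun c _ => ?_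
  rw [Finset.mul_sum]
  refine Finset.sum_congr rfl fun e _ => ?_
  rw [← mul_assoc, ← C_mul, mul_assoc]

private theorem lsub_C {m : ℕ} (φ : Fin n → Fin m → ℂ) (c : ℂ) : lsub φ (C c) = C c := by
  unfold lsub
  rw [aeval_C]
  rfl

private theorem pb2_sum {m : ℕ} (φ : Fin n → Fin m → ℂ) {α : Type} (s : Finset α)
    (t : α → F2 n) (c : α → ℂ) (i j : Fin m) :
    pb2 φ (fun k l => ∑ a ∈ s, C (c a) * t a k l) i j = ∑ a ∈ s, C (c a) * pb2 φ (t a) i j := by
  unfold pb2
  simp only [map_sum, map_mul, lsub_C, Finset.mul_sum]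
  conv_rhs => rw [Finset.sum_comm]
  refine Finset.sum_congr rfl fun k _ => ?_
  conv_rhs => rw [Finset.sum_comm]
  refine Finset.sum_congr rfl fun l _ => Finset.sum_congr rfl fun a _ => ?_
  ring

private theorem pb3_mm {m k : ℕ} (φ : Fin n → Fin m → ℂ) (ψ : Fin m → Fin k → ℂ) (b : F3 n)
    (i j l : Fin k) : pb3 ψ (pb3 φ b) i j l = pb3 (mm φ ψ) b i j l := by
  have h1 : ∀ a, pb2 ψ (pb3 φ b a) j l = ∑ a', C (φ a' a) * pb2 (mm φ ψ) (b a') j l := by
    intro a
    have h2 : pb3 φ b a = fun c e => ∑ a', C (φ a' a) * pb2 φ (b a') c e := by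
      funext c e
      exact pb3_eq φ b a c e
    rw [h2, pb2_sum ψ Finset.univ (fun a' => pb2 φ (b a')) (fun a' => φ a' a)]
    refine Finset.sum_congr rfl fun a' _ => ?_
    rw [pb2_mm]
  rw [pb3_eq, pb3_eq]
  simp only [h1, Finset.mul_sum]
  rw [Finset.sum_comm]
  refine Finset.sum_congr rfl fun a' _ => ?_
  unfold mm
  rw [map_sum, Finset.sum_mul]
  refine Finset.sum_congr rfl fun a _ => ?_
  rw [C_mul]
  ring

private theorem pb3_idm (b : F3 n) (i j l : Fin n) : pb3 (idm n) b i j l = b i j l := by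
  rw [pb3_eq]
  simp only [pb2_idm]
  rw [Finset.sum_eq_single i]
  · simp [idm]
  · intro a _ ha
    simp [idm, ha]
  · intro h; exact absurd (Finset.mem_univ _) h

private theorem isBsat_pb3 {θ : F2 n} {b : F3 n} (hb : IsBsat θ b) {g g' : Fin n → Fin n → ℂ}
    (hg : Inv g g') : IsBsat (pb2 g θ) (pb3 g b) := by
  obtain ⟨K, hK⟩ := hb
  refine ⟨K, fun f hf => ?_⟩
  have h1 : lsub g (lsub g' f) = f := by
    rw [lsub_mm, hg.2, lsub_idm]
  have h2 := IsB_pb (hK (lsub g' f) (lsub_hom hf)) g
  refine isB_congr h2 fun i j l => ?_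
  unfold pb3
  simp only [map_mul, h1, Finset.mul_sum]
  refine Finset.sum_congr rfl fun a _ => Finset.sum_congr rfl fun c _ =>
    Finset.sum_congr rfl fun e _ => ?_
  ring

theorem hz_genM {n : ℕ} (θ : F2 (n + 1)) :
    GenM (fun g : Fin (n + 1) → Fin (n + 1) → ℂ => hz (pb2 g θ)) := by
  classical
  obtain ⟨F, hF0, ⟨d, hFd⟩, hF⟩ := hz_gen' θ
  have hadj : ∀ g g' : Matrix (Fin (n + 1)) (Fin (n + 1)) ℂ, g * g' = 1 →
      g.adjugate = g.det • g' := by
    intro g g' h
    calc g.adjugate = g.adjugate * (g * g') := by rw [h, mul_one]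
      _ = g.det • g' := by rw [← mul_assoc, Matrix.adjugate_mul, smul_mul_assoc, one_mul]
  let G : Matrix (Fin (n + 1)) (Fin (n + 1)) (MvPolynomial (Fin (n + 1) × Fin (n + 1)) ℂ) :=
    fun i j => X (i, j)
  let F' : MvPolynomial (Fin (n + 1) × Fin (n + 1)) ℂ := aeval (fun j => G.adjugate 0 j) F
  have hev : ∀ g : Fin (n + 1) → Fin (n + 1) → ℂ, eval (fun q => g q.1 q.2) F' =
      eval (fun j => (Matrix.of g).adjugate 0 j) F := by
    intro g
    have h1 : (eval (fun q : Fin (n + 1) × Fin (n + 1) => g q.1 q.2)).mapMatrix G =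
        Matrix.of g := by
      ext i j
      simp [G]
    have h2 : ∀ j, eval (fun q : Fin (n + 1) × Fin (n + 1) => g q.1 q.2) (G.adjugate 0 j) =
        (Matrix.of g).adjugate 0 j := by
      intro j
      rw [← h1, ← RingHom.map_adjugate]
      rfl
    show eval _ (aeval (fun j => G.adjugate 0 j) F) = _
    rw [aeval_def, ← coe_eval₂Hom, ← RingHom.comp_apply]
    have h3 : (eval (fun q : Fin (n + 1) × Fin (n + 1) => g q.1 q.2)).comp
        (eval₂Hom (algebraMap ℂ (MvPolynomial (Fin (n + 1) × Fin (n + 1)) ℂ))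
          (fun j => G.adjugate 0 j)) = eval (fun j => (Matrix.of g).adjugate 0 j) := by
      apply ringHom_ext
      · intro c
        simp
      · intro j
        simp [h2]
    rw [h3]
  have hF'0 : F' ≠ 0 := by
    intro hzero
    obtain ⟨a, ha⟩ : ∃ a : Fin (n + 1) → ℂ, eval a (F * X 0) ≠ 0 := by
      by_contra hcon
      push Not at hcon
      have : F * X 0 = 0 := by
        apply MvPolynomial.funext
        intro x
        rw [hcon x, map_zero]
      exact mul_ne_zero hF0 (X_ne_zero 0) this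
    rw [map_mul, eval_X] at ha
    let h : Matrix (Fin (n + 1)) (Fin (n + 1)) ℂ := fun i j =>
      if i = 0 then a j else if i = j then 1 else 0
    have hdet : h.det = a 0 := by
      have h1 : h.BlockTriangular id := by
        intro i j hij
        have h2 : i ≠ 0 := by
          rintro rfl
          exact absurd hij (Fin.not_lt_zero _)
        have h3 : i ≠ j := ne_of_gt hij
        show (if i = 0 then a j else if i = j then (1 : ℂ) else 0) = 0
        rw [if_neg h2, if_neg h3]
      rw [Matrix.det_of_upperTriangular h1, Fin.prod_univ_succ]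
      simp [h]
    have hunit : IsUnit h.det := by
      rw [hdet]
      exact (right_ne_zero_of_mul ha).isUnit
    have hgh : h⁻¹ * h = 1 := Matrix.nonsing_inv_mul h hunit
    have h5 := hev (h⁻¹ : Matrix (Fin (n + 1)) (Fin (n + 1)) ℂ)
    rw [hzero, map_zero] at h5
    have h6 : (fun j => (Matrix.of (h⁻¹ : Matrix (Fin (n + 1)) (Fin (n + 1)) ℂ)).adjugate 0 j) =
        (h⁻¹).det • a := by
      funext j
      have h7 : (h⁻¹).adjugate = (h⁻¹).det • h := hadj _ _ hgh
      show (h⁻¹).adjugate 0 j = _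
      rw [h7]
      show (h⁻¹).det * h 0 j = (h⁻¹).det * a j
      simp [h]
    rw [h6, hFd] at h5
    have h8 : (h⁻¹).det ≠ 0 := by
      intro h9
      have := congrArg Matrix.det hgh
      rw [Matrix.det_mul, h9, zero_mul, Matrix.det_one] at this
      exact zero_ne_one this
    exact mul_ne_zero (pow_ne_zero _ h8) (left_ne_zero_of_mul ha) h5.symm
  have hG : GenM (fun g : Fin (n + 1) → Fin (n + 1) → ℂ =>
      eval (fun j => (Matrix.of g).adjugate 0 j) F ≠ 0) :=
    ⟨F', hF'0, fun g hg => by rwa [hev] at hg⟩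
  refine (hG.and (GenM.inv (n + 1))).mono ?_
  rintro g ⟨h1, g', hg⟩ b hb
  have h2 : Matrix.of g * Matrix.of g' = 1 := by
    ext i j
    have := congrFun (congrFun hg.1 i) j
    rw [Matrix.mul_apply, Matrix.one_apply]
    exact this
  have h3 : (fun j => (Matrix.of g).adjugate 0 j) = (Matrix.of g).det • g' 0 := by
    funext j
    rw [hadj _ _ h2]
    rfl
  rw [h3] at h1
  have h4 : IsBsat θ (pb3 g' b) := by
    refine hF _ h1 _ ?_
    have h5 := isBsat_pb3 hb hg.symm
    rw [pb2_mm, hg.1, pb2_idm] at h5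
    have h6 := h5.smul (C (Matrix.of g).det)
    have h7 : (fun i j k => C (Matrix.of g).det * pb3 g' (fun i j k => X 0 * b i j k) i j k) =
        fun i j k => lf ((Matrix.of g).det • g' 0) * pb3 g' b i j k := by
      funext i j k
      rw [lf_smul, mul_assoc]
      congr 1
      have h8 : lsub g' (X 0) = lf (g' 0) := by
        unfold lsub lf
        rw [aeval_X]
      unfold pb3
      simp only [map_mul, h8, Finset.mul_sum]
      refine Finset.sum_congr rfl fun a _ => Finset.sum_congr rfl fun c _ =>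
        Finset.sum_congr rfl fun e _ => ?_
      ring
    rw [h7] at h6
    exact h6
  have h5 := isBsat_pb3 h4 hg
  have h6 : pb3 g (pb3 g' b) = b := by
    funext i j l
    rw [pb3_mm, hg.2, pb3_idm]
  rw [h6] at h5
  exact h5

theorem b_of_cech {S : Type} [CommRing S] {ι p q : Type} [Fintype ι] [Fintype p] [Fintype q]
    (θ : ι → ι → S) (Xi : (p → S) →ₗ[S] (ι → S)) (M : (q → S) →ₗ[S] (p → S))
    (adj : (p → S) →ₗ[S] (q → S)) (g0 g1 g2 δ : S)
    (h1 : ∀ ξ : ι → S, (∀ i j k, w12 ξ θ i j k = 0) ↔ ∃ e, Xi e = ξ)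
    (h2 : ∀ e, Xi e = 0 ↔ ∃ f, M f = e) (h3 : ∀ f, adj (M f) = δ • f)
    (hreg : Reg4 g0 g1 g2 δ) (b : ι → ι → ι → S)
    (hb0 : ∃ c : ι → S, ∀ i j k, g0 * b i j k = w12 c θ i j k)
    (hb1 : ∃ c : ι → S, ∀ i j k, g1 * b i j k = w12 c θ i j k)
    (hb2 : ∃ c : ι → S, ∀ i j k, g2 * b i j k = w12 c θ i j k) :
    ∃ c : ι → S, ∀ i j k, b i j k = w12 c θ i j k := by
  obtain ⟨c0, e0⟩ := hb0
  obtain ⟨c1, e1⟩ := hb1
  obtain ⟨c2, e2⟩ := hb2
  obtain ⟨r1, r2, r3, r4⟩ := hreg
  have key : ∀ (Ga Gb : S) (ca cb : ι → S), (∀ i j k, Ga * b i j k = w12 ca θ i j k) →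
      (∀ i j k, Gb * b i j k = w12 cb θ i j k) → ∃ e, Xi e = fun l => Gb * ca l - Ga * cb l := by
    intro Ga Gb ca cb ha hb'
    refine (h1 _).1 fun i j k => ?_
    rw [Pool.Agent.Helper71.FL.w12_sub (fun l => Gb * ca l) (fun l => Ga * cb l) θ i j k,
      Pool.Agent.Helper71.FL.w12_smul, Pool.Agent.Helper71.FL.w12_smul, ← ha, ← hb']
    ring
  obtain ⟨e01, x01⟩ := key g0 g1 c0 c1 e0 e1
  obtain ⟨e02, x02⟩ := key g0 g2 c0 c2 e0 e2
  obtain ⟨e12, x12⟩ := key g1 g2 c1 c2 e1 e2
  have hx : Xi (g2 • e01 - g1 • e02 + g0 • e12) = 0 := by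
    rw [map_add, map_sub, map_smul, map_smul, map_smul, x01, x02, x12]
    funext l
    simp only [Pi.add_apply, Pi.sub_apply, Pi.smul_apply, smul_eq_mul, Pi.zero_apply]
    ring
  obtain ⟨f, hf⟩ := (h2 _).1 hx
  have hδ : δ • f = g2 • adj e01 - g1 • adj e02 + g0 • adj e12 := by
    rw [← h3, hf, map_add, map_sub, map_smul, map_smul, map_smul]
  have hu : ∀ t, ∃ u v w, f t = g0 * u + g1 * v + g2 * w := fun t =>
    r4 (f t) ⟨adj e12 t, -(adj e02 t), adj e01 t, by
      have h5 := congrFun hδ t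
      simp only [Pi.add_apply, Pi.sub_apply, Pi.smul_apply, smul_eq_mul] at h5
      rw [h5]; ring⟩
  choose u v w hu using hu
  have hfu : f = g0 • u + g1 • v + g2 • w := by
    funext t
    simp only [Pi.add_apply, Pi.smul_apply, smul_eq_mul]
    exact hu t
  have hMf : M f = g0 • M u + g1 • M v + g2 • M w := by
    rw [hfu, map_add, map_add, map_smul, map_smul, map_smul]
  have ha : ∀ s, ∃ u' v', e01 s - M w s = g0 * u' + g1 * v' := fun s =>
    r3 _ ⟨-(e12 s - M u s), e02 s + M v s, by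
      have h5 := congrFun hf s
      have h6 := congrFun hMf s
      simp only [Pi.add_apply, Pi.sub_apply, Pi.smul_apply, smul_eq_mul] at h5 h6
      linear_combination h6 - h5⟩
  choose a1 a0 ha using ha
  have hea : e01 = M w + g0 • a1 + g1 • a0 := by
    funext s
    simp only [Pi.add_apply, Pi.smul_apply, smul_eq_mul]
    linear_combination ha s
  have hXM : Xi (M w) = 0 := (h2 _).2 ⟨w, rfl⟩
  have hc : ∀ l, ∃ c, c0 l - Xi a0 l = g0 * c := fun l =>
    r2 _ ⟨c1 l + Xi a1 l, by
      have h5 := congrFun x01 l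
      rw [hea, map_add, map_add, map_smul, map_smul, hXM] at h5
      simp only [Pi.add_apply, Pi.smul_apply, smul_eq_mul, Pi.zero_apply] at h5
      linear_combination -h5⟩
  choose c hc using hc
  refine ⟨c, fun i j k => ?_⟩
  refine sub_eq_zero.1 (r1 _ ?_)
  have h5 : w12 (Xi a0) θ i j k = 0 := (h1 _).2 ⟨a0, rfl⟩ i j k
  have h6 : g0 * w12 c θ i j k = w12 c0 θ i j k - w12 (Xi a0) θ i j k := by
    rw [← Pool.Agent.Helper71.FL.w12_smul, ← Pool.Agent.Helper71.FL.w12_sub]
    congr 1
    funext l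
    exact (hc l).symm
  rw [mul_sub, h6, h5, e0]
  ring

/-! ### a regular sequence -/

private theorem exists_adj {P : Type} [CommRing P] [IsDomain P] {p q : Type} [Fintype p]
    [Fintype q] (M : (q → P) →ₗ[P] (p → P)) (hM : Function.Injective M) :
    ∃ (adj : (p → P) →ₗ[P] (q → P)) (δ : P), δ ≠ 0 ∧ ∀ f, adj (M f) = δ • f := by
  classical
  let K := FractionRing P
  let A : Matrix p q P := LinearMap.toMatrix' M
  have hA : ∀ v, A.mulVec v = M v := fun v => LinearMap.toMatrix'_mulVec M v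
  let AK : Matrix p q K := A.map (algebraMap P K)
  have hinj : LinearMap.ker AK.mulVecLin = ⊥ := by
    rw [LinearMap.ker_eq_bot']
    intro v hv
    obtain ⟨s, hs⟩ := IsLocalization.exist_integer_multiples_of_finite (nonZeroDivisors P) v
    choose w hw using hs
    have h1 : AK.mulVec (fun i => algebraMap P K (w i)) = 0 := by
      have h2 : (fun i => algebraMap P K (w i)) = (s : P) • v := by
        funext i
        exact hw i
      rw [h2]
      have h3 : AK.mulVec ((s : P) • v) = (s : P) • AK.mulVec v := by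
        rw [Matrix.mulVec_smul]
      rw [h3]
      have h4 : AK.mulVec v = 0 := hv
      rw [h4, smul_zero]
    have h5 : A.mulVec w = 0 := by
      funext i
      apply FaithfulSMul.algebraMap_injective P K
      have h6 : AK.mulVec (fun i => algebraMap P K (w i)) i = 0 := congrFun h1 i
      rw [Pi.zero_apply, map_zero, ← h6]
      unfold Matrix.mulVec dotProduct
      rw [map_sum]
      refine Finset.sum_congr rfl fun j _ => ?_
      rw [map_mul]
      rfl
    rw [hA] at h5
    have h6 : w = 0 := hM (by rw [h5, map_zero])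
    have hs0 : algebraMap P K (s : P) ≠ 0 := by
      intro h
      exact nonZeroDivisors.coe_ne_zero s ((FaithfulSMul.algebraMap_injective P K)
        (by rw [h, map_zero]))
    funext i
    have h7 := hw i
    rw [h6, Pi.zero_apply, map_zero, Algebra.smul_def] at h7
    exact (mul_eq_zero.1 h7.symm).resolve_left hs0
  obtain ⟨L, hL⟩ := AK.mulVecLin.exists_leftInverse_of_injective hinj
  let BK : Matrix q p K := LinearMap.toMatrix' L
  have hBA : BK * AK = 1 := by
    have h1 : LinearMap.toMatrix' (L ∘ₗ AK.mulVecLin) = 1 := by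
      rw [hL, LinearMap.toMatrix'_id]
    rw [LinearMap.toMatrix'_comp] at h1
    have h2 : LinearMap.toMatrix' AK.mulVecLin = AK := LinearMap.toMatrix'_toLin' AK
    rw [h2] at h1
    exact h1
  obtain ⟨s, hs⟩ := IsLocalization.exist_integer_multiples_of_finite (nonZeroDivisors P)
    (fun x : q × p => BK x.1 x.2)
  choose B hB using hs
  refine ⟨Matrix.mulVecLin (Matrix.of fun i j => B (i, j)), s, nonZeroDivisors.coe_ne_zero s,
    fun f => ?_⟩
  rw [← hA, Matrix.mulVecLin_apply, Matrix.mulVec_mulVec]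
  have h1 : (Matrix.of fun i j => B (i, j)) * A = (s : P) • (1 : Matrix q q P) := by
    ext i j
    apply FaithfulSMul.algebraMap_injective P K
    have h2 := congrFun (congrFun hBA i) j
    rw [Matrix.mul_apply] at h2
    rw [Matrix.mul_apply, map_sum, Matrix.smul_apply, smul_eq_mul, map_mul]
    have h3 : algebraMap P K ((1 : Matrix q q P) i j) = (1 : Matrix q q K) i j := by
      rw [Matrix.one_apply, Matrix.one_apply]
      split_ifs
      · exact map_one _
      · exact map_zero _
    rw [h3, ← h2, Finset.mul_sum]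
    refine Finset.sum_congr rfl fun k _ => ?_
    rw [map_mul]
    have h4 : algebraMap P K (B (i, k)) = (s : P) • BK i k := hB (i, k)
    show algebraMap P K (B (i, k)) * algebraMap P K (A k j) = _
    rw [h4, Algebra.smul_def, mul_assoc]
    rfl
  rw [h1, Matrix.smul_mulVec, Matrix.one_mulVec]

private theorem sub_aeval_mem {I : Ideal (Pn n)} (ρ : Pn n →ₐ[ℂ] Pn n)
    (h : ∀ i, X i - ρ (X i) ∈ I) (f : Pn n) : f - ρ f ∈ I := by
  induction f using MvPolynomial.induction_on with
  | C c =>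
    have : ρ (C c) = C c := ρ.commutes c
    rw [this, sub_self]
    exact I.zero_mem
  | add p q hp hq =>
    have : p + q - ρ (p + q) = (p - ρ p) + (q - ρ q) := by rw [map_add]; ring
    rw [this]
    exact I.add_mem hp hq
  | mul_X p i hp =>
    have : p * X i - ρ (p * X i) = (p - ρ p) * X i + ρ p * (X i - ρ (X i)) := by
      rw [map_mul]; ring
    rw [this]
    exact I.add_mem (I.mul_mem_right _ hp) (I.mul_mem_left _ (h i))

private theorem exists_reg (hn : 4 ≤ n) {δ : Pn n} (hδ : δ ≠ 0) : ∃ g0 g1 g2 : Pn n,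
    g0.IsHomogeneous 1 ∧ g1.IsHomogeneous 1 ∧ g2.IsHomogeneous 1 ∧ Reg4 g0 g1 g2 δ := by
  classical
  obtain ⟨i0, i1, i2, i3, h01, h02, h03, h12, h13, h23⟩ : ∃ i0 i1 i2 i3 : Fin n,
      i0 ≠ i1 ∧ i0 ≠ i2 ∧ i0 ≠ i3 ∧ i1 ≠ i2 ∧ i1 ≠ i3 ∧ i2 ≠ i3 := by
    refine ⟨⟨0, by omega⟩, ⟨1, by omega⟩, ⟨2, by omega⟩, ⟨3, by omega⟩, ?_, ?_, ?_, ?_, ?_, ?_⟩ <;>
      simp [Fin.ext_iff]
  obtain ⟨a, ha⟩ : ∃ a : Fin n → ℂ, eval a (δ * X i3) ≠ 0 := by
    by_contra hcon
    push Not at hcon
    have : δ * X i3 = 0 := by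
      apply MvPolynomial.funext
      intro x
      rw [hcon x, map_zero]
    exact mul_ne_zero hδ (X_ne_zero i3) this
  rw [map_mul, eval_X] at ha
  have ha3 : a i3 ≠ 0 := right_ne_zero_of_mul ha
  have haδ : eval a δ ≠ 0 := left_ne_zero_of_mul ha
  let c : Fin n → ℂ := fun i => a i / a i3
  let g : Fin n → Pn n := fun i => X i - C (c i) * X i3
  let ρ : Finset (Fin n) → (Pn n →ₐ[ℂ] Pn n) := fun s =>
    aeval (fun i => if i ∈ s then C (c i) * X i3 else X i)
  have hρ1 : ∀ s i, i ∈ s → ρ s (X i) = C (c i) * X i3 := by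
    intro s i hi
    simp only [ρ]
    rw [aeval_X, if_pos hi]
  have hρ2 : ∀ s i, i ∉ s → ρ s (X i) = X i := by
    intro s i hi
    simp only [ρ]
    rw [aeval_X, if_neg hi]
  have hρC : ∀ s x, ρ s (C x) = C x := fun s x => (ρ s).commutes x
  have hg1 : ∀ s i, i3 ∉ s → i ∈ s → ρ s (g i) = 0 := by
    intro s i h3 hi
    simp only [g]
    rw [map_sub, map_mul, hρ1 s i hi, hρ2 s i3 h3, hρC, sub_self]
  have hg2 : ∀ s i, i3 ∉ s → i ∉ s → ρ s (g i) = g i := by
    intro s i h3 hi
    simp only [g]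
    rw [map_sub, map_mul, hρ2 s i hi, hρ2 s i3 h3, hρC]
  have hg0 : ∀ i, i ≠ i3 → g i ≠ 0 := by
    intro i hi h
    have h1 := congrArg (eval (Pi.single i (1 : ℂ))) h
    simp only [g] at h1
    rw [map_sub, map_mul, eval_X, eval_X, eval_C, map_zero, Pi.single_eq_same,
      Pi.single_eq_of_ne hi.symm, mul_zero, sub_zero] at h1
    exact one_ne_zero h1
  have hmem : ∀ (s : Finset (Fin n)) (I : Ideal (Pn n)), (∀ i ∈ s, g i ∈ I) →
      ∀ f, ρ s f = 0 → f ∈ I := by
    intro s I hI f hf
    have h1 := sub_aeval_mem (I := I) (ρ s) (fun i => by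
      by_cases hi : i ∈ s
      · rw [hρ1 s i hi]
        exact hI i hi
      · rw [hρ2 s i hi, sub_self]
        exact I.zero_mem) f
    rwa [hf, sub_zero] at h1
  have hδρ : ∀ s, ρ s δ ≠ 0 := by
    intro s h
    apply haδ
    have h1 : (eval a).comp (ρ s : Pn n →+* Pn n) = eval a := by
      apply ringHom_ext
      · intro x
        rw [RingHom.comp_apply]
        show eval a (ρ s (C x)) = _
        rw [hρC]
      · intro i
        rw [RingHom.comp_apply]
        show eval a (ρ s (X i)) = _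
        by_cases hi : i ∈ s
        · rw [hρ1 s i hi, map_mul, eval_C, eval_X, eval_X]
          exact div_mul_cancel₀ _ ha3
        · rw [hρ2 s i hi]
    rw [← h1, RingHom.comp_apply]
    show eval a (ρ s δ) = 0
    rw [h, map_zero]
  have hom : ∀ i, (g i).IsHomogeneous 1 := by
    intro i
    simp only [g]
    refine (isHomogeneous_X ℂ i).sub ?_
    have := (isHomogeneous_C (Fin n) (c i)).mul (isHomogeneous_X ℂ i3)
    rwa [zero_add] at this
  refine ⟨g i0, g i1, g i2, hom i0, hom i1, hom i2, ?_, ?_, ?_, ?_⟩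
  · intro x hx
    exact (mul_eq_zero.1 hx).resolve_left (hg0 i0 h03)
  · rintro x ⟨u, hx⟩
    have h1 := congrArg (ρ {i0}) hx
    rw [map_mul, map_mul, hg1 {i0} i0 (by simp [h03.symm]) (by simp), zero_mul,
      hg2 {i0} i1 (by simp [h03.symm]) (by simp [h01.symm])] at h1
    have h2 := (mul_eq_zero.1 h1).resolve_left (hg0 i1 h13)
    have h3 := hmem {i0} (Ideal.span {g i0}) (by
      intro i hi
      rw [Finset.mem_singleton.1 hi]
      exact Ideal.subset_span rfl) x h2
    obtain ⟨y, hy⟩ := Ideal.mem_span_singleton'.1 h3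
    exact ⟨y, by rw [← hy]; ring⟩
  · rintro x ⟨u, v, hx⟩
    have hi3 : i3 ∉ ({i0, i1} : Finset (Fin n)) := by simp [h03.symm, h13.symm]
    have h1 := congrArg (ρ {i0, i1}) hx
    rw [map_add, map_mul, map_mul, map_mul, hg1 _ i0 hi3 (by simp), hg1 _ i1 hi3 (by simp),
      zero_mul, zero_mul, add_zero, hg2 _ i2 hi3 (by simp [h02.symm, h12.symm])] at h1
    have h2 := (mul_eq_zero.1 h1).resolve_left (hg0 i2 h23)
    have h3 := hmem {i0, i1} (Ideal.span {g i0, g i1}) (by
      intro i hi
      rcases Finset.mem_insert.1 hi with rfl | hi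
      · exact Ideal.subset_span (by simp)
      · rw [Finset.mem_singleton.1 hi]
        exact Ideal.subset_span (by simp)) x h2
    obtain ⟨y, z, hy⟩ := Ideal.mem_span_pair.1 h3
    exact ⟨y, z, by rw [← hy]; ring⟩
  · rintro x ⟨u, v, w, hx⟩
    have hi3 : i3 ∉ ({i0, i1, i2} : Finset (Fin n)) := by simp [h03.symm, h13.symm, h23.symm]
    have h1 := congrArg (ρ {i0, i1, i2}) hx
    rw [map_add, map_add, map_mul, map_mul, map_mul, map_mul, hg1 _ i0 hi3 (by simp),
      hg1 _ i1 hi3 (by simp), hg1 _ i2 hi3 (by simp), zero_mul, zero_mul, zero_mul, add_zero,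
      add_zero] at h1
    have h2 := (mul_eq_zero.1 h1).resolve_left (hδρ _)
    have h3 := hmem {i0, i1, i2} (Ideal.span {g i0, g i1, g i2}) (by
      intro i hi
      rcases Finset.mem_insert.1 hi with rfl | hi
      · exact Ideal.subset_span (by simp)
      rcases Finset.mem_insert.1 hi with rfl | hi
      · exact Ideal.subset_span (by simp)
      · rw [Finset.mem_singleton.1 hi]
        exact Ideal.subset_span (by simp)) x h2
    obtain ⟨y, z, t, hy⟩ := Submodule.mem_span_triple.1 h3
    refine ⟨y, z, t, ?_⟩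
    rw [← hy]
    simp only [smul_eq_mul]
    ring

/-- projective dimension at most one and at least four variables: `B` is saturated -/
theorem sat_of_pres {n : ℕ} (hn : 4 ≤ n) {p q : Type} [Fintype p] [Fintype q] (θ : F2 n)
    (Xi : (p → Pn n) →ₗ[Pn n] (Fin n → Pn n)) (M : (q → Pn n) →ₗ[Pn n] (p → Pn n))
    (h1 : ∀ ξ : F1 n, (∀ i j k, w12 ξ θ i j k = 0) ↔ ∃ e, Xi e = ξ)
    (h2 : ∀ e, Xi e = 0 ↔ ∃ f, M f = e) (h3 : Function.Injective M) {b : F3 n}
    (hb : IsBsat θ b) : IsB θ b := by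
  obtain ⟨adj, δ, hδ, hadj⟩ := exists_adj M h3
  obtain ⟨g0, g1, g2, hg0, hg1, hg2, hreg⟩ := exists_reg hn hδ
  obtain ⟨K, hK⟩ := hb
  have h4 : ∀ g : Pn n, g.IsHomogeneous 1 → IsB θ (fun i j k => g ^ (K + 1) * b i j k) := by
    intro g hg
    have h5 := hg.pow (K + 1)
    rw [one_mul] at h5
    exact isB_large θ hK (by omega) h5
  exact b_of_cech θ Xi M adj (g0 ^ (K + 1)) (g1 ^ (K + 1)) (g2 ^ (K + 1)) δ h1 h2 hadj
    (hreg.pow (K + 1) (by omega)) b (h4 g0 hg0) (h4 g1 hg1) (h4 g2 hg2)

end Pool.Agent.Helper71.FC
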