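import Pool.Agent.Helper71.FC.GL2
import Pool.Agent.Helper1.FG.List

/-! FC-11: the list of forms produced by the classification, in terms of `θ`; bridges from the families of `FC/Defs`.
`OKForm_of_OKF`: `dd A = θ` determines `A` for `A ∈ IntS n 3` (`radC_dd` in `FG/StdF.lean`).
`OKF_pb2`: substitute in `Φ` (chain rule); the fields `v` and `P` do not change; `om7` is compatible with substitutions. -/

set_option autoImplicit false

namespace Pool.Agent.Helper71.FC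

open MvPolynomial
open scoped BigOperators
open Pool.Agent.Helper71.FL (w12 pf ct Dec Closed dd)
open Pool.Agent.Helper93 (lsub lmap OF pb IntS FolS)
open Pool.Agent.Helper1.FG (stdF WH ClV mins Triv om7 OKForm)

variable {n : ℕ}

/-- the list of `FG/List.lean` for 2-forms -/
def OKF (θ : F2 n) : Prop :=
  (∃ Φ v, WH (k := 0) ![1, 4] ![] Φ v ∧ θ = stdF Φ v) ∨
  (∃ Φ v, WH (k := 0) ![2, 3] ![] Φ v ∧ θ = stdF Φ v) ∨
  (∃ Φ v, WH (k := 1) ![1, 1, 2] ![1] Φ v ∧ ClV v ∧ θ = stdF Φ v) ∨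
  (∃ Φ v, WH (k := 1) ![1, 1, 3] ![0] Φ v ∧ ClV v ∧ θ = stdF Φ v) ∨
  (∃ Φ v, WH (k := 1) ![1, 2, 2] ![0] Φ v ∧ ClV v ∧ θ = stdF Φ v) ∨
  (∃ Φ v, WH (k := 2) ![1, 1, 1, 2] ![0, 0] Φ v ∧ ClV v ∧ θ = stdF Φ v ∧
    ∃ P : Fin 4 → MvPolynomial (Fin 3) ℂ, (∀ i, (P i).IsHomogeneous (![1, 1, 1, 2] i)) ∧
      Triv (mins (k := 2) (fun l i => aeval P (v l i)))) ∨
  (n = 5 ∧ ∃ Φ v, WH (k := 3) (fun _ => 1) (fun _ => 0) Φ v ∧ ClV v ∧ θ = stdF Φ v ∧
    ∃ P : Fin 5 → MvPolynomial (Fin 3) ℂ, (∀ i, (P i).IsHomogeneous 1) ∧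
      Triv (mins (k := 3) (fun l i => aeval P (v l i)))) ∨
  (∃ (a b x y : MvPolynomial (Fin n) ℂ) (c ka kb kx kQ : ℂ), a.IsHomogeneous 1 ∧
    b.IsHomogeneous 1 ∧ x.IsHomogeneous 1 ∧ y.IsHomogeneous 2 ∧ ka + kb + kx + 2 * kQ = 0 ∧
    c ≠ 0 ∧ ka ≠ kb ∧ θ = dd (fun i => om7 a b x y c ka kb kx kQ 0 i))

theorem OKForm_of_OKF {A : OF n} (hA : A ∈ IntS n 3) (h : OKF (dd A)) : OKForm n A := by
  rcases h with h | h | h | h | h | h | h | h
  · exact Or.inl h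
  · exact Or.inr (Or.inl h)
  · exact Or.inr (Or.inr (Or.inl h))
  · exact Or.inr (Or.inr (Or.inr (Or.inl h)))
  · exact Or.inr (Or.inr (Or.inr (Or.inr (Or.inl h))))
  · exact Or.inr (Or.inr (Or.inr (Or.inr (Or.inr (Or.inl h)))))
  · exact Or.inr (Or.inr (Or.inr (Or.inr (Or.inr (Or.inr (Or.inl h))))))
  · obtain ⟨a, b, x, y, c, ka, kb, kx, kQ, ha, hb, hx, hy, hk, hc, hab, h⟩ := h
    refine Or.inr (Or.inr (Or.inr (Or.inr (Or.inr (Or.inr (Or.inr
      ⟨a, b, x, y, c, ka, kb, kx, kQ, ha, hb, hx, hy, hk, hc, hab, ?_⟩))))))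
    have h1 := Pool.Agent.Helper1.FG.radC_dd hA
    have h2 := Pool.Agent.Helper1.FG.radC_dd
      (Pool.Agent.Helper1.FG.om7_mem (c := c) ha hb hx hy hk 0)
    rw [← h1, h, h2]

private theorem stdF_two (l g : Pn n) (v : Fin 0 → Fin 2 → MvPolynomial (Fin 2) ℂ) (i j : Fin n) :
    stdF (k := 0) ![l, g] v i j = w11 (df l) (df g) i j := by
  unfold stdF Pool.Agent.Helper1.FG.alp
  rw [Matrix.det_fin_two]
  unfold w11 df
  simp [Matrix.of_apply, Fin.cons_zero, Fin.cons_one]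
  ring

theorem OKF_of_Fam14 {θ : F2 n} (h : Fam14 θ) : OKF θ := by
  obtain ⟨l, g, hl, hg, h⟩ := h
  refine Or.inl ⟨![l, g], fun i => i.elim0, ⟨?_, fun l => l.elim0⟩, ?_⟩
  · intro i
    fin_cases i
    · exact hl
    · exact hg
  · funext i j
    rw [h i j, stdF_two]

theorem OKF_of_Fam23 {θ : F2 n} (h : Fam23 θ) : OKF θ := by
  obtain ⟨l, g, hl, hg, h⟩ := h
  refine Or.inr (Or.inl ⟨![l, g], fun i => i.elim0, ⟨?_, fun l => l.elim0⟩, ?_⟩)
  · intro i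
    fin_cases i
    · exact hl
    · exact hg
  · funext i j
    rw [h i j, stdF_two]

private theorem alp_one {S : Type} [CommRing S] (r : Fin 1 → Fin 3 → S) (x y : Fin 3 → S) :
    Pool.Agent.Helper1.FG.alp (k := 1) r x y =
      x 0 * y 1 * r 0 2 - x 0 * y 2 * r 0 1 - x 1 * y 0 * r 0 2 + x 1 * y 2 * r 0 0 +
        x 2 * y 0 * r 0 1 - x 2 * y 1 * r 0 0 := by
  unfold Pool.Agent.Helper1.FG.alp
  exact Matrix.det_fin_three _

private theorem stdF_three (Φ : Fin 3 → Pn n) (r : Fin 3 → MvPolynomial (Fin 3) ℂ) (i j : Fin n) :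
    stdF (k := 1) Φ (fun _ => r) i j =
      ∑ a : Fin 3, aeval Φ (r a) * w11 (df (Φ (a + 1))) (df (Φ (a + 2))) i j := by
  unfold stdF
  rw [alp_one, Fin.sum_univ_three]
  unfold w11 df
  have e1 : (0 : Fin 3) + 1 = 1 := rfl
  have e2 : (0 : Fin 3) + 2 = 2 := rfl
  have e3 : (1 : Fin 3) + 1 = 2 := rfl
  have e4 : (1 : Fin 3) + 2 = 0 := rfl
  have e5 : (2 : Fin 3) + 1 = 0 := rfl
  have e6 : (2 : Fin 3) + 2 = 1 := rfl
  rw [e1, e2, e3, e4, e5, e6]
  ring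

private theorem mins_three (r : Fin 3 → MvPolynomial (Fin 3) ℂ) (i j : Fin 3) :
    mins (k := 1) (fun _ => r) (i, j) =
      (![![0, r 2, -r 1], ![-r 2, 0, r 0], ![r 1, -r 0, 0]] : Fin 3 → Fin 3 → MvPolynomial (Fin 3) ℂ)
        i j := by
  unfold Pool.Agent.Helper1.FG.mins
  rw [alp_one]
  fin_cases i <;> fin_cases j <;> simp

private theorem ClV_three (r : Fin 3 → MvPolynomial (Fin 3) ℂ) (hdiv : (∑ a, pderiv a (r a)) = 0) :
    ClV (k := 1) (fun _ => r) := by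
  rw [Fin.sum_univ_three] at hdiv
  intro i j k
  show pderiv i (mins (k := 1) (fun _ => r) (j, k)) + pderiv j (mins (k := 1) (fun _ => r) (k, i)) +
    pderiv k (mins (k := 1) (fun _ => r) (i, j)) = 0
  rw [mins_three, mins_three, mins_three]
  fin_cases i <;> fin_cases j <;> fin_cases k <;> simp <;>
    first | done | linear_combination hdiv | linear_combination -hdiv

private theorem OKF3_aux {e : Fin 3 → ℕ} {s : Fin 1 → ℕ} {θ : F2 n} (h : Fam3 e θ)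
    (hs : ∀ a : Fin 3, 5 - e (a + 1) - e (a + 2) = e a + s 0) :
    ∃ Φ v, WH (k := 1) e s Φ v ∧ ClV (k := 1) v ∧ θ = stdF (k := 1) Φ v := by
  obtain ⟨Φ, r, hΦ, hr, hdiv, h⟩ := h
  refine ⟨Φ, fun _ => r, ⟨hΦ, fun l i => ?_⟩, ClV_three r hdiv, ?_⟩
  · obtain rfl : l = 0 := Subsingleton.elim _ _
    rw [← hs i]
    exact hr i
  · funext i j
    rw [h i j, stdF_three]

theorem OKF_of_Fam112 {θ : F2 n} (h : Fam3 ![1, 1, 2] θ) : OKF θ :=
  Or.inr (Or.inr (Or.inl (OKF3_aux h fun a => by fin_cases a <;> rfl)))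

theorem OKF_of_Fam113 {θ : F2 n} (h : Fam3 ![1, 1, 3] θ) : OKF θ :=
  Or.inr (Or.inr (Or.inr (Or.inl (OKF3_aux h fun a => by fin_cases a <;> rfl))))

theorem OKF_of_Fam122 {θ : F2 n} (h : Fam3 ![1, 2, 2] θ) : OKF θ :=
  Or.inr (Or.inr (Or.inr (Or.inr (Or.inl (OKF3_aux h fun a => by fin_cases a <;> rfl)))))

private theorem pb_df' (φ : Fin n → Fin n → ℂ) (f : Pn n) (i : Fin n) :
    ∑ k, C (φ k i) * lsub φ (pderiv k f) = pderiv i (lsub φ f) :=
  congrFun (pb_df φ f) i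

private theorem pb2_stdF {k : ℕ} (φ : Fin n → Fin n → ℂ) (Φ : Fin (k + 2) → Pn n)
    (v : Fin k → Fin (k + 2) → MvPolynomial (Fin (k + 2)) ℂ) :
    pb2 φ (stdF Φ v) = stdF (fun i => lsub φ (Φ i)) v := by
  have h1 : ∀ (p : MvPolynomial (Fin (k + 2)) ℂ),
      lsub φ (aeval Φ p) = aeval (fun b => lsub φ (Φ b)) p := by
    intro p
    have h2 : ((lsub φ).comp (aeval Φ) : MvPolynomial (Fin (k + 2)) ℂ →ₐ[ℂ] Pn n) =
        aeval (fun b => lsub φ (Φ b)) := by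
      apply MvPolynomial.algHom_ext
      intro b
      rw [AlgHom.comp_apply, aeval_X, aeval_X]
    rw [← h2]
    rfl
  funext i j
  unfold pb2 stdF
  have h2 : ∀ a b, lsub φ (Pool.Agent.Helper1.FG.alp (fun l i => aeval Φ (v l i))
      (fun i => pderiv a (Φ i)) (fun i => pderiv b (Φ i))) =
      Pool.Agent.Helper1.FG.alp (fun l i => aeval (fun b => lsub φ (Φ b)) (v l i))
        (fun i => lsub φ (pderiv a (Φ i))) (fun i => lsub φ (pderiv b (Φ i))) := by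
    intro a b
    have h3 := Pool.Agent.Helper1.FG.alp_map (fun l i => aeval Φ (v l i))
      ((lsub φ : Pn n →ₐ[ℂ] Pn n) : Pn n →+* Pn n) (fun i => pderiv a (Φ i)) (fun i => pderiv b (Φ i))
    have h4 : (fun l i => ((lsub φ : Pn n →ₐ[ℂ] Pn n) : Pn n →+* Pn n) (aeval Φ (v l i))) =
        fun l i => aeval (fun b => lsub φ (Φ b)) (v l i) := by
      funext l i
      exact h1 (v l i)
    rw [h4] at h3
    exact h3.symm
  simp only [h2]
  set R := (fun (l : Fin k) (i : Fin (k + 2)) => aeval (fun b => lsub φ (Φ b)) (v l i)) with hR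
  have h5 : ∀ (y : Fin (k + 2) → Pn n), Pool.Agent.Helper1.FG.alp R
      (fun a => pderiv i (lsub φ (Φ a))) y =
      ∑ a, C (φ a i) * Pool.Agent.Helper1.FG.alp R (fun b => lsub φ (pderiv a (Φ b))) y := by
    intro y
    rw [← Pool.Agent.Helper1.FG.alp_comb]
    congr 1
    funext b
    exact (pb_df' φ (Φ b) i).symm
  have h6 : ∀ (x : Fin (k + 2) → Pn n), Pool.Agent.Helper1.FG.alp R x
      (fun a => pderiv j (lsub φ (Φ a))) =
      ∑ a, C (φ a j) * Pool.Agent.Helper1.FG.alp R x (fun b => lsub φ (pderiv a (Φ b))) := by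
    intro x
    rw [Pool.Agent.Helper1.FG.alp_swap]
    have h7 : (fun a => pderiv j (lsub φ (Φ a))) =
        fun b => ∑ a, C (φ a j) * lsub φ (pderiv a (Φ b)) := by
      funext b
      exact (pb_df' φ (Φ b) j).symm
    rw [h7, Pool.Agent.Helper1.FG.alp_comb, ← Finset.sum_neg_distrib]
    refine Finset.sum_congr rfl fun a _ => ?_
    rw [Pool.Agent.Helper1.FG.alp_swap R _ x]
    ring
  rw [h5]
  refine Finset.sum_congr rfl fun a _ => ?_
  rw [h6, Finset.mul_sum]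
  refine Finset.sum_congr rfl fun b _ => ?_
  rw [C_mul, mul_assoc]

private theorem WH_lsub {k : ℕ} {w : Fin (k + 2) → ℕ} {s : Fin k → ℕ} {Φ : Fin (k + 2) → Pn n}
    {v : Fin k → Fin (k + 2) → MvPolynomial (Fin (k + 2)) ℂ} (h : WH w s Φ v)
    (φ : Fin n → Fin n → ℂ) : WH w s (fun i => lsub φ (Φ i)) v :=
  ⟨fun i => lsub_hom (h.hΦ i), h.hv⟩

private theorem pb_term (φ : Fin n → Fin n → ℂ) (f g : Pn n) (i : Fin n) :
    ∑ k, C (φ k i) * lsub φ (f * pderiv k g) = lsub φ f * pderiv i (lsub φ g) := by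
  rw [← pb_df', Finset.mul_sum]
  refine Finset.sum_congr rfl fun k _ => ?_
  rw [map_mul]
  ring

private theorem om7_split {m : ℕ} (a b x y : Pn m) (c ka kb kx kQ t : ℂ) (i : Fin m) :
    om7 a b x y c ka kb kx kQ t i =
      (C c * x * y) * pderiv i (a * b) + (-(C c * x * (a * b))) * pderiv i y +
      (C ka * b * x * (a * b + C t * y)) * pderiv i a +
      (C kb * a * x * (a * b + C t * y)) * pderiv i b +
      (C kx * a * b * (a * b + C t * y)) * pderiv i x +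
      (C kQ * a * b * x) * pderiv i (a * b + C t * y) := by
  unfold Pool.Agent.Helper1.FG.om7
  ring

private theorem pb_om7 (φ : Fin n → Fin n → ℂ) (a b x y : Pn n) (c ka kb kx kQ : ℂ) :
    pb φ (fun i => om7 a b x y c ka kb kx kQ 0 i) =
      fun i => om7 (lsub φ a) (lsub φ b) (lsub φ x) (lsub φ y) c ka kb kx kQ 0 i := by
  funext i
  have hC : ∀ t : ℂ, lsub φ (C t) = C t := by
    intro t
    unfold lsub
    rw [aeval_C]
    rfl
  show ∑ k, C (φ k i) * lsub φ (om7 a b x y c ka kb kx kQ 0 k) =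
    om7 (lsub φ a) (lsub φ b) (lsub φ x) (lsub φ y) c ka kb kx kQ 0 i
  have h1 : ∀ k, C (φ k i) * lsub φ (om7 a b x y c ka kb kx kQ 0 k) =
      C (φ k i) * lsub φ ((C c * x * y) * pderiv k (a * b)) +
      C (φ k i) * lsub φ ((-(C c * x * (a * b))) * pderiv k y) +
      C (φ k i) * lsub φ ((C ka * b * x * (a * b + C 0 * y)) * pderiv k a) +
      C (φ k i) * lsub φ ((C kb * a * x * (a * b + C 0 * y)) * pderiv k b) +
      C (φ k i) * lsub φ ((C kx * a * b * (a * b + C 0 * y)) * pderiv k x) +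
      C (φ k i) * lsub φ ((C kQ * a * b * x) * pderiv k (a * b + C 0 * y)) := by
    intro k
    rw [om7_split, map_add, map_add, map_add, map_add, map_add]
    ring
  rw [Finset.sum_congr rfl fun k _ => h1 k, Finset.sum_add_distrib, Finset.sum_add_distrib,
    Finset.sum_add_distrib, Finset.sum_add_distrib, Finset.sum_add_distrib, pb_term, pb_term,
    pb_term, pb_term, pb_term, pb_term, om7_split]
  have e1 : ∀ p q : Pn n, lsub φ (p * q) = lsub φ p * lsub φ q := fun p q => map_mul _ _ _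
  have e2 : ∀ p q : Pn n, lsub φ (p + q) = lsub φ p + lsub φ q := fun p q => map_add _ _ _
  have e3 : ∀ p : Pn n, lsub φ (-p) = -lsub φ p := fun p => map_neg _ _
  simp only [e1, e2, e3, hC]

/-- invariance under substitutions (in the case `k = 3` the number of variables is fixed) -/
theorem OKF_pb2 {θ : F2 n} (h : OKF θ) (φ : Fin n → Fin n → ℂ) : OKF (pb2 φ θ) := by
  rcases h with ⟨Φ, v, h1, h2⟩ | ⟨Φ, v, h1, h2⟩ | ⟨Φ, v, h1, h2, h3⟩ | ⟨Φ, v, h1, h2, h3⟩ |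
    ⟨Φ, v, h1, h2, h3⟩ | ⟨Φ, v, h1, h2, h3, h4⟩ | ⟨hn, Φ, v, h1, h2, h3, h4⟩ | h
  · exact Or.inl ⟨_, v, WH_lsub h1 φ, by rw [h2, pb2_stdF]⟩
  · exact Or.inr (Or.inl ⟨_, v, WH_lsub h1 φ, by rw [h2, pb2_stdF]⟩)
  · exact Or.inr (Or.inr (Or.inl ⟨_, v, WH_lsub h1 φ, h2, by rw [h3, pb2_stdF]⟩))
  · exact Or.inr (Or.inr (Or.inr (Or.inl ⟨_, v, WH_lsub h1 φ, h2, by rw [h3, pb2_stdF]⟩)))
  · exact Or.inr (Or.inr (Or.inr (Or.inr (Or.inl ⟨_, v, WH_lsub h1 φ, h2, by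
      rw [h3, pb2_stdF]⟩))))
  · exact Or.inr (Or.inr (Or.inr (Or.inr (Or.inr (Or.inl ⟨_, v, WH_lsub h1 φ, h2, by
      rw [h3, pb2_stdF], h4⟩)))))
  · exact Or.inr (Or.inr (Or.inr (Or.inr (Or.inr (Or.inr (Or.inl ⟨hn, _, v, WH_lsub h1 φ, h2, by
      rw [h3, pb2_stdF], h4⟩))))))
  · obtain ⟨a, b, x, y, c, ka, kb, kx, kQ, ha, hb, hx, hy, hk, hc, hab, h⟩ := h
    refine Or.inr (Or.inr (Or.inr (Or.inr (Or.inr (Or.inr (Or.inr
      ⟨lsub φ a, lsub φ b, lsub φ x, lsub φ y, c, ka, kb, kx, kQ, lsub_hom ha, lsub_hom hb,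
        lsub_hom hx, lsub_hom hy, hk, hc, hab, ?_⟩))))))
    rw [h, pb2_dd, pb_om7]

theorem OKF_pb2_iff (θ : F2 n) {g g' : Fin n → Fin n → ℂ} (hg : Inv g g') :
    OKF (pb2 g θ) ↔ OKF θ := by
  refine ⟨fun h => ?_, fun h => OKF_pb2 h g⟩
  have h1 := OKF_pb2 h g'
  rwa [pb2_mm, hg.1, pb2_idm] at h1

end Pool.Agent.Helper71.FC
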