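import Pool.Agent.Helper71.FC.Class
import Pool.Agent.Helper18.LB.NF

/-! Part (C2) of the classification (`E_0 = E_1 = 0`, `E_2 ≠ 0`): interface statements and assembly. -/

set_option autoImplicit false

namespace Pool.Agent.Helper71.FC

open MvPolynomial
open scoped BigOperators
open Pool.Agent.Helper71.FL (w12 pf ct Dec Closed dd CL)
open Pool.Agent.Helper93 (lsub lmap OF pb IntS FolS)
open Pool.Agent.Helper18.LB (NF exists_NF')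

/-- the outcome of part (C2) -/
def OutC2 {n : ℕ} (θ : F2 n) : Prop := OKF θ ∨ ∃ σ ∈ EE θ 2, σ ≠ 0 ∧ Van3 σ

/-- type (3a) -/
def IC2nf1 : Prop := ∀ (n : ℕ), 5 ≤ n → ∀ θ : F2 n, Fol θ → ¬ Cone θ → EE θ 0 = ⊥ → EE θ 1 = ⊥ →
  ∀ (σ1 σ2 : F1 n) (a b m : Pn n) (ρ φ1 φ2 : F1 n), NF θ 1 σ1 σ2 a b m ρ φ1 φ2 → OutC2 θ

/-- type (4) -/
def IC2nf2 : Prop := ∀ (n : ℕ), 5 ≤ n → ∀ θ : F2 n, Fol θ → ¬ Cone θ → EE θ 0 = ⊥ → EE θ 1 = ⊥ →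
  ∀ (σ1 σ2 : F1 n) (a b m : Pn n) (ρ φ1 φ2 : F1 n), NF θ 2 σ1 σ2 a b m ρ φ1 φ2 → OutC2 θ

/-- one section only -/
def IC2one : Prop := ∀ (n : ℕ), 5 ≤ n → ∀ θ : F2 n, Fol θ → ¬ Cone θ → EE θ 0 = ⊥ → EE θ 1 = ⊥ →
  Module.finrank ℂ (EE θ 2) = 1 → OutC2 θ

theorem IC2_of (h1 : IC2nf1) (h2 : IC2nf2) (h3 : IC2one) : IC2 := by
  intro n hn θ hF hc e0 e1 e2
  haveI := finite_EE θ 2
  rcases Nat.lt_or_ge (Module.finrank ℂ (EE θ 2)) 2 with h | h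
  · have h0 : Module.finrank ℂ (EE θ 2) ≠ 0 := fun h0 => e2 (Submodule.finrank_eq_zero.mp h0)
    exact h3 n hn θ hF hc e0 e1 (by omega)
  · obtain ⟨e, σ1, σ2, a, b, m, ρ, φ1, φ2, hN⟩ := exists_NF' hF e1 h
    rcases hN.he with rfl | rfl
    · exact h1 n hn θ hF hc e0 e1 σ1 σ2 a b m ρ φ1 φ2 hN
    · exact h2 n hn θ hF hc e0 e1 σ1 σ2 a b m ρ φ1 φ2 hN

end Pool.Agent.Helper71.FC
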