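import Pool.Agent.Helper71.FL.Defs
import Pool.Agent.Helper93.PB

/-!
Block II (classification) of the project on MP_45a28a (frozen statement S00166): common definitions.
Forms are index functions over polynomial rings: a 1-form is `ξ : ι → A`, a 2-form is `θ : ι → ι → A`
(all ordered pairs of indices, alternating), `w12 ξ θ` is the wedge product, `pf θ` is one half of
`θ ∧ θ`, `ct w θ` is the contraction with the vector field `w` (see `FL/Defs.lean`).
-/

set_option autoImplicit false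

namespace Pool.Agent.Helper71.FC

open MvPolynomial
open scoped BigOperators
open Pool.Agent.Helper71.FL (w12 pf ct Dec Closed dd)
open Pool.Agent.Helper93 (lsub lmap OF pb)

/-- polynomials in `n` variables -/
abbrev Pn (n : ℕ) : Type := MvPolynomial (Fin n) ℂ

/-- 1-forms -/
abbrev F1 (n : ℕ) : Type := Fin n → MvPolynomial (Fin n) ℂ

/-- 2-forms -/
abbrev F2 (n : ℕ) : Type := Fin n → Fin n → MvPolynomial (Fin n) ℂ

section wedge
variable {A : Type} [CommRing A] {ι : Type}

/-- wedge product of two 1-forms -/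
def w11 (α β : ι → A) (i j : ι) : A := α i * β j - α j * β i

/-- wedge product of three 1-forms -/
def w111 (α β γ : ι → A) (i j k : ι) : A := w12 α (w11 β γ) i j k

/-- pairing of a 1-form with a vector field -/
def pair [Fintype ι] (w ξ : ι → A) : A := ∑ i, w i * ξ i

end wedge

section
variable {n m : ℕ}

/-- the differential of a polynomial -/
noncomputable def df (g : Pn n) : F1 n := fun i => pderiv i g

/-- constant vector fields -/
noncomputable def cv (v : Fin n → ℂ) : F1 n := fun i => C (v i)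

/-- the Euler field -/
noncomputable def eul (n : ℕ) : F1 n := fun i => X i

/-- the 1-form `a_v = i_v θ` of a constant vector `v` -/
noncomputable def av (θ : F2 n) (v : Fin n → ℂ) : F1 n := ct (cv v) θ

/-- the 2-forms of the classification: closed, decomposable, cubic coefficients, primitive -/
structure Fol (θ : F2 n) : Prop where
  hom : ∀ i j, (θ i j).IsHomogeneous 3
  dec : Dec θ
  closed : Closed θ
  prim : ∀ p, (∀ i j, p ∣ θ i j) → IsUnit p

/-- `θ` depends on fewer variables -/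
def Cone (θ : F2 n) : Prop := ∃ v : Fin n → ℂ, v ≠ 0 ∧ ∀ j, av θ v j = 0

/-- the 1-forms with coefficients of degree `k` annihilated by `θ` (`E#_k`) -/
noncomputable def EE (θ : F2 n) (k : ℕ) : Submodule ℂ (F1 n) where
  carrier := {ξ | (∀ i, (ξ i).IsHomogeneous k) ∧ ∀ i j l, w12 ξ θ i j l = 0}
  add_mem' := by
    rintro a b ⟨h1, h2⟩ ⟨h3, h4⟩
    refine ⟨fun i => (h1 i).add (h3 i), fun i j l => ?_⟩
    have := Pool.Agent.Helper71.FL.w12_add a b θ i j l
    exact this.trans (by rw [h2, h4, add_zero])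
  zero_mem' := by
    refine ⟨fun i => isHomogeneous_zero _ _ _, fun i j l => ?_⟩
    simp [w12]
  smul_mem' := by
    rintro c a ⟨h1, h2⟩
    refine ⟨fun i => ?_, fun i j l => ?_⟩
    · have := (isHomogeneous_C (Fin n) c).mul (h1 i)
      rw [zero_add] at this
      rw [Pi.smul_apply, smul_eq_C_mul]
      exact this
    · have := Pool.Agent.Helper71.FL.w12_smul (C c) a θ i j l
      rw [h2, mul_zero] at this
      rw [← this]
      unfold w12
      simp only [Pi.smul_apply, smul_eq_C_mul]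

theorem mem_EE {θ : F2 n} {k : ℕ} {ξ : F1 n} :
    ξ ∈ EE θ k ↔ (∀ i, (ξ i).IsHomogeneous k) ∧ ∀ i j l, w12 ξ θ i j l = 0 := Iff.rfl

/-- pullback of a 2-form along the linear map with matrix `φ` (see `pb`, `lsub`, `lmap` in
`Helper93/PB.lean`; for `m ≤ n` and `φ : Fin n → Fin m → ℂ` injective this is the restriction to an
`m`-dimensional subspace of `ℂ^n`) -/
noncomputable def pb2 (φ : Fin n → Fin m → ℂ) (θ : F2 n) : F2 m :=
  fun i j => ∑ k, ∑ l, C (φ k i * φ l j) * lsub φ (θ k l)

/-- a property holds for general values of the parameters -/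
def Gen {ι : Type} (p : (ι → ℂ) → Prop) : Prop :=
  ∃ F : MvPolynomial ι ℂ, F ≠ 0 ∧ ∀ x, eval x F ≠ 0 → p x

/-- a property holds for general matrices -/
def GenM (p : (Fin n → Fin m → ℂ) → Prop) : Prop :=
  ∃ F : MvPolynomial (Fin n × Fin m) ℂ, F ≠ 0 ∧ ∀ φ : Fin n → Fin m → ℂ,
    eval (fun q => φ q.1 q.2) F ≠ 0 → p φ

end

/-! ### the families -/

section fam
variable {n : ℕ}

/-- `θ = dl ∧ dg`, the family R(1,4) -/
def Fam14 (θ : F2 n) : Prop :=
  ∃ l g : Pn n, l.IsHomogeneous 1 ∧ g.IsHomogeneous 4 ∧ ∀ i j, θ i j = w11 (df l) (df g) i j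

/-- `θ = dq ∧ dc`, the family R(2,3) -/
def Fam23 (θ : F2 n) : Prop :=
  ∃ q c : Pn n, q.IsHomogeneous 2 ∧ c.IsHomogeneous 3 ∧ ∀ i j, θ i j = w11 (df q) (df c) i j

/-- pullback of `i_v vol` by a map `Φ` to the weighted space with weights `e`:
`θ = r_0 dΦ_1 ∧ dΦ_2 + r_1 dΦ_2 ∧ dΦ_0 + r_2 dΦ_0 ∧ dΦ_1`, `r` a divergence free vector field on `ℂ³`,
quasi-homogeneous of weight `5 - e_0 - e_1 - e_2` -/
def Fam3 (e : Fin 3 → ℕ) (θ : F2 n) : Prop :=
  ∃ (Φ : Fin 3 → Pn n) (r : Fin 3 → MvPolynomial (Fin 3) ℂ),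
    (∀ a, (Φ a).IsHomogeneous (e a)) ∧
    (∀ a, IsWeightedHomogeneous e (r a) (5 - e (a + 1) - e (a + 2))) ∧
    (∑ a, pderiv a (r a)) = 0 ∧
    ∀ i j, θ i j = ∑ a : Fin 3, aeval Φ (r a) * w11 (df (Φ (a + 1))) (df (Φ (a + 2))) i j

end fam

end Pool.Agent.Helper71.FC
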