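import Pool.Agent.Helper71.FC.FinalOf
import Pool.Agent.Helper50.FC.Gl01
import Pool.Agent.Helper50.FC.Z3
import Pool.Agent.Helper93.K3B.Bridge
import Pool.Agent.Helper60.FC.Out
import Pool.Agent.Helper18.XE.Main
import Pool.Agent.Helper12.Z4.Fin
import Pool.Agent.Helper35.LX.Main

/-! The classification of the codimension one foliations of degree three, all inputs plugged in. -/

set_option autoImplicit false

namespace Pool.Agent.Helper71.FC

open Pool.Agent.Helper71.FL (CL)

theorem lemmaX_holds : Pool.Agent.Helper57.SC.LemmaX :=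
  fun θ h1 h2 h3 h4 b h5 h6 => Pool.Agent.Helper35.LX.lemma_X θ h1 h2 h3 h4 b h5 h6

/-- every foliation of degree three on `ℙ^N`, `N ≥ 4`, in a component: cone or `Good` after deformation -/
theorem cl_three : ∀ N, 4 ≤ N → CL N 3 :=
  cl_of Pool.Agent.Helper1.FK.iw3 (ig1_of Pool.Agent.Helper50.FC.IYgl_holds)
    Pool.Agent.Helper93.K3B.i3a Pool.Agent.Helper60.FC.i4 Pool.Agent.Helper18.XE.noXD
    Pool.Agent.Helper50.FC.IYgl_holds Pool.Agent.Helper50.FC.IY3_holds
    Pool.Agent.Helper12.Z4.IY4_holds lemmaX_holds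

end Pool.Agent.Helper71.FC
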