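import Pool.Agent.Helper71.FC.GlueC0
import Pool.Agent.Helper71.FC.Frozen
import Pool.Agent.Helper1.FK.Main
import Pool.Agent.Helper18.LB.IC2
import Pool.Agent.Helper57.SC.IYall

/-! The final assembly with the open inputs as hypotheses. -/

set_option autoImplicit false

namespace Pool.Agent.Helper71.FC

open Pool.Agent.Helper71.FL (CL)

/-- (C1): both forms of the interface agree -/
theorem iw2_of (h : Pool.Agent.Helper1.FK.IW3) : IW2 := by
  intro n hn θ hF hc e0 e1 σ hσ hσ0 hv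
  obtain ⟨D, hD, hDσ⟩ := hv
  exact h n hn θ hF hc e0 e1 σ hσ hσ0 D hD hDσ

/-- everything from the open inputs -/
theorem cl_of (hw : Pool.Agent.Helper1.FK.IW3) (hg : Pool.Agent.Helper18.LB.IG1)
    (h3a : Pool.Agent.Helper18.LB.I3a) (h4 : Pool.Agent.Helper18.LB.I4)
    (hX : Pool.Agent.Helper18.LB.NoXD) (hgl : IYgl) (hz3 : IY3) (hz4 : IY4)
    (hLX : Pool.Agent.Helper57.SC.LemmaX) : ∀ N, 4 ≤ N → CL N 3 :=
  CL_all iC0 (iw2_of hw) (Pool.Agent.Helper18.LB.IC2_of hg h3a h4 hX)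
    (Pool.Agent.Helper57.SC.IY_all hgl hz3 hz4 hLX)

/-- `IG1` is a part of `IYgl` -/
theorem ig1_of (h : IYgl) : Pool.Agent.Helper18.LB.IG1 :=
  fun n hn θ hF hc e0 e1 => (h n hn θ hF hc e0 e1).2

end Pool.Agent.Helper71.FC
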