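import Pool.Agent.Helper71.FC.Defs

/-! FC-1: linear substitutions: composition, behaviour of all notions of `FC/Defs`.
All proofs are routine: chain rule `pb_df` (induction on the polynomial), `pb2` is bilinear, compare
`eval_lsub`, `lmap` in `Helper93/PB.lean`.  `exists_coord`: complete the independent linear forms to a basis. -/

set_option autoImplicit false

namespace Pool.Agent.Helper71.FC

open MvPolynomial
open scoped BigOperators
open Pool.Agent.Helper71.FL (w12 pf ct Dec Closed dd)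
open Pool.Agent.Helper93 (lsub lmap OF pb)

variable {n m k : ℕ}

/-- matrix product -/
def mm (φ : Fin n → Fin m → ℂ) (ψ : Fin m → Fin k → ℂ) : Fin n → Fin k → ℂ :=
  fun i j => ∑ l, φ i l * ψ l j

/-- identity matrix -/
def idm (n : ℕ) : Fin n → Fin n → ℂ := fun i j => if i = j then 1 else 0

/-- mutually inverse matrices -/
def Inv (g g' : Fin n → Fin n → ℂ) : Prop := mm g g' = idm n ∧ mm g' g = idm n

private theorem prod3 {A κ : Type} [CommRing A] [Fintype κ] (f : κ → A) (g : κ → κ → A) :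
    (∑ a, f a) * (∑ b, ∑ c, g b c) = ∑ a, ∑ b, ∑ c, f a * g b c := by
  rw [Finset.sum_mul]
  apply Finset.sum_congr rfl; intro a _
  rw [Finset.mul_sum]
  apply Finset.sum_congr rfl; intro b _
  rw [Finset.mul_sum]

private theorem prod4 {A κ : Type} [CommRing A] [Fintype κ] (f g : κ → κ → A) :
    (∑ a, ∑ b, f a b) * (∑ c, ∑ d, g c d) = ∑ a, ∑ b, ∑ c, ∑ d, f a b * g c d := by
  rw [Finset.sum_mul]
  apply Finset.sum_congr rfl; intro a _
  rw [Finset.sum_mul]
  apply Finset.sum_congr rfl; intro b _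
  rw [Finset.mul_sum]
  apply Finset.sum_congr rfl; intro c _
  rw [Finset.mul_sum]

/-- `b c a` to `a b c` -/
private theorem rot3 {A κ : Type} [AddCommMonoid A] [Fintype κ] (f : κ → κ → κ → A) :
    (∑ b, ∑ c, ∑ a, f b c a) = ∑ a, ∑ b, ∑ c, f b c a := by
  calc (∑ b, ∑ c, ∑ a, f b c a) = ∑ b, ∑ a, ∑ c, f b c a := by
        apply Finset.sum_congr rfl; intro b _
        rw [Finset.sum_comm]
    _ = _ := by rw [Finset.sum_comm]

/-- `c a b` to `a b c` -/
private theorem rot3' {A κ : Type} [AddCommMonoid A] [Fintype κ] (f : κ → κ → κ → A) :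
    (∑ c, ∑ a, ∑ b, f c a b) = ∑ a, ∑ b, ∑ c, f c a b := by
  rw [Finset.sum_comm]
  apply Finset.sum_congr rfl; intro a _
  rw [Finset.sum_comm]

private theorem lmap_mm (φ : Fin n → Fin m → ℂ) (ψ : Fin m → Fin k → ℂ) (x : Fin k → ℂ) :
    lmap (mm φ ψ) x = lmap φ (lmap ψ x) := by
  funext i
  show ∑ l, mm φ ψ i l * x l = ∑ l, φ i l * ∑ q, ψ l q * x q
  simp only [mm, Finset.sum_mul, Finset.mul_sum]
  rw [Finset.sum_comm]
  apply Finset.sum_congr rfl; intro l _
  apply Finset.sum_congr rfl; intro q _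
  ring

private theorem lmap_idm (x : Fin n → ℂ) : lmap (idm n) x = x := by
  funext i
  show ∑ l, idm n i l * x l = x i
  simp [idm]

private theorem eval_pb (φ : Fin n → Fin m → ℂ) (ξ : F1 n) (i : Fin m) (x : Fin m → ℂ) :
    eval x (pb φ ξ i) = ∑ j, φ j i * eval (lmap φ x) (ξ j) := by
  unfold pb
  rw [map_sum]
  apply Finset.sum_congr rfl; intro j _
  rw [map_mul, eval_C, Pool.Agent.Helper93.eval_lsub]

private theorem eval_pb2 (φ : Fin n → Fin m → ℂ) (θ : F2 n) (i j : Fin m) (x : Fin m → ℂ) :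
    eval x (pb2 φ θ i j) = ∑ p, ∑ q, φ p i * φ q j * eval (lmap φ x) (θ p q) := by
  unfold pb2
  rw [map_sum]
  apply Finset.sum_congr rfl; intro p _
  rw [map_sum]
  apply Finset.sum_congr rfl; intro q _
  rw [map_mul, eval_C, Pool.Agent.Helper93.eval_lsub]

theorem lsub_mm (φ : Fin n → Fin m → ℂ) (ψ : Fin m → Fin k → ℂ) (f : Pn n) :
    lsub ψ (lsub φ f) = lsub (mm φ ψ) f := by
  apply MvPolynomial.funext
  intro x
  rw [Pool.Agent.Helper93.eval_lsub, Pool.Agent.Helper93.eval_lsub,
    Pool.Agent.Helper93.eval_lsub, lmap_mm]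

theorem lsub_idm (f : Pn n) : lsub (idm n) f = f := by
  apply MvPolynomial.funext
  intro x
  rw [Pool.Agent.Helper93.eval_lsub, lmap_idm]

theorem lsub_hom {φ : Fin n → Fin m → ℂ} {f : Pn n} {d : ℕ} (h : f.IsHomogeneous d) :
    (lsub φ f).IsHomogeneous d := by
  unfold lsub
  have h1 : ∀ i, (∑ l, C (φ i l) * X l : MvPolynomial (Fin m) ℂ).IsHomogeneous 1 := by
    intro i
    apply IsHomogeneous.sum
    intro l _
    have := (isHomogeneous_C (Fin m) (φ i l)).mul (isHomogeneous_X ℂ l)
    rwa [zero_add] at this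
  have h2 := h.aeval (fun i => (∑ l, C (φ i l) * X l : MvPolynomial (Fin m) ℂ)) h1
  rwa [one_mul] at h2

theorem pb_mm (φ : Fin n → Fin m → ℂ) (ψ : Fin m → Fin k → ℂ) (ξ : F1 n) :
    pb ψ (pb φ ξ) = pb (mm φ ψ) ξ := by
  funext i
  apply MvPolynomial.funext
  intro x
  simp only [eval_pb, lmap_mm, mm, Finset.sum_mul, Finset.mul_sum]
  rw [Finset.sum_comm]
  apply Finset.sum_congr rfl; intro p _
  apply Finset.sum_congr rfl; intro q _
  ring

theorem pb_idm (ξ : F1 n) : pb (idm n) ξ = ξ := by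
  funext i
  apply MvPolynomial.funext
  intro x
  rw [eval_pb, lmap_idm]
  simp [idm]

theorem pb_add (φ : Fin n → Fin m → ℂ) (ξ ξ' : F1 n) :
    pb φ (fun i => ξ i + ξ' i) = fun i => pb φ ξ i + pb φ ξ' i := by
  funext i
  unfold pb
  simp only [map_add, mul_add, Finset.sum_add_distrib]

theorem pb_smul (φ : Fin n → Fin m → ℂ) (f : Pn n) (ξ : F1 n) :
    pb φ (fun i => f * ξ i) = fun i => lsub φ f * pb φ ξ i := by
  funext i
  unfold pb
  simp only [map_mul, Finset.mul_sum]
  apply Finset.sum_congr rfl; intro p _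
  ring

theorem pb_hom {φ : Fin n → Fin m → ℂ} {ξ : F1 n} {d : ℕ} (h : ∀ i, (ξ i).IsHomogeneous d) (i : Fin m) :
    (pb φ ξ i).IsHomogeneous d := by
  unfold pb
  apply IsHomogeneous.sum
  intro j _
  have := (isHomogeneous_C (Fin m) (φ j i)).mul (lsub_hom (φ := φ) (h j))
  rwa [zero_add] at this

theorem pb2_mm (φ : Fin n → Fin m → ℂ) (ψ : Fin m → Fin k → ℂ) (θ : F2 n) :
    pb2 ψ (pb2 φ θ) = pb2 (mm φ ψ) θ := by
  funext i j
  apply MvPolynomial.funext
  intro x
  simp only [eval_pb2, lmap_mm, mm, Finset.sum_mul, Finset.mul_sum]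
  -- left: ∑ p q a b, right: ∑ a b (l) (q)
  calc ∑ p, ∑ q, ∑ a, ∑ b, ψ p i * ψ q j * (φ a p * φ b q * eval (lmap φ (lmap ψ x)) (θ a b))
      = ∑ p, ∑ a, ∑ q, ∑ b, ψ p i * ψ q j * (φ a p * φ b q * eval (lmap φ (lmap ψ x)) (θ a b)) := by
        apply Finset.sum_congr rfl; intro p _
        rw [Finset.sum_comm]
    _ = ∑ a, ∑ p, ∑ q, ∑ b, ψ p i * ψ q j * (φ a p * φ b q * eval (lmap φ (lmap ψ x)) (θ a b)) := by
        rw [Finset.sum_comm]
    _ = ∑ a, ∑ p, ∑ b, ∑ q, ψ p i * ψ q j * (φ a p * φ b q * eval (lmap φ (lmap ψ x)) (θ a b)) := by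
        apply Finset.sum_congr rfl; intro a _
        apply Finset.sum_congr rfl; intro p _
        rw [Finset.sum_comm]
    _ = ∑ a, ∑ b, ∑ p, ∑ q, ψ p i * ψ q j * (φ a p * φ b q * eval (lmap φ (lmap ψ x)) (θ a b)) := by
        apply Finset.sum_congr rfl; intro a _
        rw [Finset.sum_comm]
    _ = _ := by
        apply Finset.sum_congr rfl; intro a _
        apply Finset.sum_congr rfl; intro b _
        rw [Finset.sum_comm]
        apply Finset.sum_congr rfl; intro p _
        apply Finset.sum_congr rfl; intro q _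
        ring

theorem pb2_idm (θ : F2 n) : pb2 (idm n) θ = θ := by
  funext i j
  apply MvPolynomial.funext
  intro x
  rw [eval_pb2, lmap_idm]
  simp [idm]

theorem pb2_hom {φ : Fin n → Fin m → ℂ} {θ : F2 n} {d : ℕ} (h : ∀ i j, (θ i j).IsHomogeneous d)
    (i j : Fin m) : (pb2 φ θ i j).IsHomogeneous d := by
  unfold pb2
  apply IsHomogeneous.sum
  intro p _
  apply IsHomogeneous.sum
  intro q _
  have := (isHomogeneous_C (Fin m) (φ p i * φ q j)).mul (lsub_hom (φ := φ) (h p q))
  rwa [zero_add] at this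

theorem pb2_add (φ : Fin n → Fin m → ℂ) (θ θ' : F2 n) :
    pb2 φ (fun i j => θ i j + θ' i j) = fun i j => pb2 φ θ i j + pb2 φ θ' i j := by
  funext i j
  unfold pb2
  simp only [map_add, mul_add, Finset.sum_add_distrib]

theorem pb2_smul (φ : Fin n → Fin m → ℂ) (f : Pn n) (θ : F2 n) :
    pb2 φ (fun i j => f * θ i j) = fun i j => lsub φ f * pb2 φ θ i j := by
  funext i j
  unfold pb2
  simp only [map_mul, Finset.mul_sum]
  apply Finset.sum_congr rfl; intro p _
  apply Finset.sum_congr rfl; intro q _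
  ring

/-- chain rule -/
theorem pb_df (φ : Fin n → Fin m → ℂ) (f : Pn n) : pb φ (df f) = df (lsub φ f) := by
  classical
  funext i
  show ∑ j, C (φ j i) * lsub φ (pderiv j f) = pderiv i (lsub φ f)
  induction f using MvPolynomial.induction_on with
  | C c =>
    have h1 : lsub φ (C c) = C c := by unfold lsub; rw [aeval_C]; rfl
    rw [h1, pderiv_C]
    simp
  | add p q hp hq =>
    simp only [map_add, mul_add, Finset.sum_add_distrib]
    rw [hp, hq]
  | mul_X p a hp =>
    have h1 : lsub φ (X a) = ∑ l, C (φ a l) * X l := by unfold lsub; rw [aeval_X]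
    have h2 : pderiv i (∑ l, C (φ a l) * X l : MvPolynomial (Fin m) ℂ) = C (φ a i) := by
      rw [map_sum]
      simp only [pderiv_C_mul, pderiv_X, Pi.single_apply]
      simp
    rw [map_mul, h1, Derivation.leibniz, h2, ← hp]
    simp only [Derivation.leibniz, smul_eq_mul, map_add, map_mul, h1, pderiv_X, Pi.single_apply,
      mul_add, Finset.sum_add_distrib]
    refine congrArg₂ (fun a b => a + b) ?_ ?_
    · rw [Finset.sum_eq_single a]
      · simp; ring
      · intro b _ hb
        simp [hb.symm]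
      · intro h; exact absurd (Finset.mem_univ _) h
    · rw [Finset.mul_sum]
      apply Finset.sum_congr rfl; intro b _
      ring

private theorem pderiv_lsub (φ : Fin n → Fin m → ℂ) (f : Pn n) (i : Fin m) :
    pderiv i (lsub φ f) = ∑ j, C (φ j i) * lsub φ (pderiv j f) :=
  (congrFun (pb_df φ f) i).symm

theorem pb2_dd (φ : Fin n → Fin m → ℂ) (ξ : F1 n) : pb2 φ (dd ξ) = dd (pb φ ξ) := by
  funext i j
  unfold pb2 dd pb
  simp only [map_sum, pderiv_C_mul, pderiv_lsub, map_sub, mul_sub, Finset.sum_sub_distrib,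
    Finset.mul_sum, C_mul]
  refine congrArg₂ (fun a b => a - b) ?_ ?_
  · rw [Finset.sum_comm]
    apply Finset.sum_congr rfl; intro p _
    apply Finset.sum_congr rfl; intro q _
    ring
  · apply Finset.sum_congr rfl; intro p _
    apply Finset.sum_congr rfl; intro q _
    ring

theorem pb2_w11 (φ : Fin n → Fin m → ℂ) (α β : F1 n) :
    pb2 φ (w11 α β) = w11 (pb φ α) (pb φ β) := by
  funext i j
  unfold pb2 w11 pb
  simp only [map_sub, map_mul, mul_sub, Finset.sum_sub_distrib, Finset.sum_mul_sum]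
  refine congrArg₂ (fun a b => a - b) ?_ ?_
  · apply Finset.sum_congr rfl; intro p _
    apply Finset.sum_congr rfl; intro q _
    ring
  · rw [Finset.sum_comm]
    apply Finset.sum_congr rfl; intro p _
    apply Finset.sum_congr rfl; intro q _
    ring

theorem w12_pb (φ : Fin n → Fin m → ℂ) (ξ : F1 n) (θ : F2 n) (i j l : Fin m) :
    w12 (pb φ ξ) (pb2 φ θ) i j l =
      ∑ a, ∑ b, ∑ c, C (φ a i * φ b j * φ c l) * lsub φ (w12 ξ θ a b c) := by
  have h1 : ∀ i j l : Fin m, pb φ ξ i * pb2 φ θ j l =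
      ∑ a, ∑ b, ∑ c, C (φ a i * φ b j * φ c l) * lsub φ (ξ a * θ b c) := by
    intro i j l
    unfold pb pb2
    rw [prod3]
    apply Finset.sum_congr rfl; intro a _
    apply Finset.sum_congr rfl; intro b _
    apply Finset.sum_congr rfl; intro c _
    rw [map_mul (lsub φ), C_mul, C_mul, C_mul]
    ring
  have h2 : ∀ a b c, C (φ a i * φ b j * φ c l) * lsub φ (w12 ξ θ a b c) =
      C (φ a i * φ b j * φ c l) * lsub φ (ξ a * θ b c) +
      C (φ a i * φ b j * φ c l) * lsub φ (ξ b * θ c a) +
      C (φ a i * φ b j * φ c l) * lsub φ (ξ c * θ a b) := by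
    intro a b c
    unfold w12
    rw [map_add, map_add, mul_add, mul_add]
  simp only [h2, Finset.sum_add_distrib]
  show pb φ ξ i * pb2 φ θ j l + pb φ ξ j * pb2 φ θ l i + pb φ ξ l * pb2 φ θ i j = _
  rw [h1 i j l, h1 j l i, h1 l i j]
  refine congrArg₂ (fun a b => a + b) (congrArg₂ (fun a b => a + b) rfl ?_) ?_
  · rw [rot3]
    apply Finset.sum_congr rfl; intro a _
    apply Finset.sum_congr rfl; intro b _
    apply Finset.sum_congr rfl; intro c _
    rw [show φ b j * φ c l * φ a i = φ a i * φ b j * φ c l by ring]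
  · rw [rot3']
    apply Finset.sum_congr rfl; intro a _
    apply Finset.sum_congr rfl; intro b _
    apply Finset.sum_congr rfl; intro c _
    rw [show φ c l * φ a i * φ b j = φ a i * φ b j * φ c l by ring]

theorem av_pb2 (φ : Fin n → Fin m → ℂ) (θ : F2 n) (v : Fin m → ℂ) :
    av (pb2 φ θ) v = pb φ (av θ (lmap φ v)) := by
  funext j
  show ∑ i, C (v i) * (∑ p, ∑ q, C (φ p i * φ q j) * lsub φ (θ p q)) =
    ∑ q, C (φ q j) * lsub φ (∑ p, C (∑ i, φ p i * v i) * θ p q)
  have hC : ∀ c : ℂ, lsub φ (C c : Pn n) = C c := by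
    intro c; unfold lsub; rw [aeval_C]; rfl
  simp only [map_sum, map_mul, hC, Finset.mul_sum, Finset.sum_mul]
  calc ∑ i, ∑ p, ∑ q, C (v i) * (C (φ p i) * C (φ q j) * lsub φ (θ p q))
      = ∑ i, ∑ q, ∑ p, C (v i) * (C (φ p i) * C (φ q j) * lsub φ (θ p q)) := by
        apply Finset.sum_congr rfl; intro i _
        rw [Finset.sum_comm]
    _ = ∑ q, ∑ i, ∑ p, C (v i) * (C (φ p i) * C (φ q j) * lsub φ (θ p q)) := by
        rw [Finset.sum_comm]
    _ = ∑ q, ∑ p, ∑ i, C (v i) * (C (φ p i) * C (φ q j) * lsub φ (θ p q)) := by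
        apply Finset.sum_congr rfl; intro q _
        rw [Finset.sum_comm]
    _ = _ := by
        apply Finset.sum_congr rfl; intro q _
        apply Finset.sum_congr rfl; intro p _
        apply Finset.sum_congr rfl; intro i _
        ring

theorem Dec_pb2 {θ : F2 n} (h : Dec θ) (φ : Fin n → Fin m → ℂ) : Dec (pb2 φ θ) := by
  obtain ⟨_, h2, h3⟩ := h
  have hanti : ∀ i j, pb2 φ θ i j = - pb2 φ θ j i := by
    intro i j
    unfold pb2
    rw [Finset.sum_comm, ← Finset.sum_neg_distrib]
    apply Finset.sum_congr rfl; intro p _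
    rw [← Finset.sum_neg_distrib]
    apply Finset.sum_congr rfl; intro q _
    rw [h2 q p, map_neg, mul_comm (φ q i)]
    ring
  refine ⟨?_, hanti, ?_⟩
  · intro i
    have h4 := hanti i i
    have h5 : (2 : MvPolynomial (Fin m) ℂ) * pb2 φ θ i i = 0 := by
      rw [two_mul]
      nth_rewrite 1 [h4]
      ring
    exact (mul_eq_zero.mp h5).resolve_left two_ne_zero
  · intro i j k l
    have h5 : ∀ i j k l : Fin m, pb2 φ θ i j * pb2 φ θ k l = ∑ a, ∑ b, ∑ c, ∑ d,
        C (φ a i * φ b j * φ c k * φ d l) * lsub φ (θ a b * θ c d) := by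
      intro i j k l
      unfold pb2
      rw [prod4]
      apply Finset.sum_congr rfl; intro a _
      apply Finset.sum_congr rfl; intro b _
      apply Finset.sum_congr rfl; intro c _
      apply Finset.sum_congr rfl; intro d _
      rw [map_mul (lsub φ)]
      simp only [C_mul]
      ring
    have h6 : ∀ a b c d, C (φ a i * φ b j * φ c k * φ d l) * lsub φ (pf θ a b c d) =
        C (φ a i * φ b j * φ c k * φ d l) * lsub φ (θ a b * θ c d) -
        C (φ a i * φ b j * φ c k * φ d l) * lsub φ (θ a c * θ b d) +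
        C (φ a i * φ b j * φ c k * φ d l) * lsub φ (θ a d * θ b c) := by
      intro a b c d
      unfold pf
      rw [map_add, map_sub, mul_add, mul_sub]
    have key : pf (pb2 φ θ) i j k l = ∑ a, ∑ b, ∑ c, ∑ d,
        C (φ a i * φ b j * φ c k * φ d l) * lsub φ (pf θ a b c d) := by
      simp only [h6, Finset.sum_add_distrib, Finset.sum_sub_distrib]
      show pb2 φ θ i j * pb2 φ θ k l - pb2 φ θ i k * pb2 φ θ j l + pb2 φ θ i l * pb2 φ θ j k = _
      rw [h5 i j k l, h5 i k j l, h5 i l j k]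
      refine congrArg₂ (fun a b => a + b) (congrArg₂ (fun a b => a - b) rfl ?_) ?_
      · apply Finset.sum_congr rfl; intro a _
        rw [Finset.sum_comm]
        apply Finset.sum_congr rfl; intro b _
        apply Finset.sum_congr rfl; intro c _
        apply Finset.sum_congr rfl; intro d _
        rw [show φ a i * φ c k * φ b j * φ d l = φ a i * φ b j * φ c k * φ d l by ring]
      · apply Finset.sum_congr rfl; intro a _
        rw [rot3']
        apply Finset.sum_congr rfl; intro b _
        apply Finset.sum_congr rfl; intro c _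
        apply Finset.sum_congr rfl; intro d _
        rw [show φ a i * φ d l * φ b j * φ c k = φ a i * φ b j * φ c k * φ d l by ring]
    rw [key]
    apply Finset.sum_eq_zero; intro a _
    apply Finset.sum_eq_zero; intro b _
    apply Finset.sum_eq_zero; intro c _
    apply Finset.sum_eq_zero; intro d _
    rw [h3, map_zero, mul_zero]

theorem Closed_pb2 {θ : F2 n} (h : Closed θ) (φ : Fin n → Fin m → ℂ) : Closed (pb2 φ θ) := by
  intro i j l
  have h1 : ∀ i j l : Fin m, pderiv i (pb2 φ θ j l) =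
      ∑ b, ∑ c, ∑ a, C (φ a i * φ b j * φ c l) * lsub φ (pderiv a (θ b c)) := by
    intro i j l
    unfold pb2
    rw [map_sum]
    apply Finset.sum_congr rfl; intro b _
    rw [map_sum]
    apply Finset.sum_congr rfl; intro c _
    rw [pderiv_C_mul, pderiv_lsub, Finset.mul_sum]
    apply Finset.sum_congr rfl; intro a _
    rw [C_mul, C_mul, C_mul]
    ring
  have h2 : ∀ a b c, C (φ a i * φ b j * φ c l) *
        lsub φ (pderiv a (θ b c) + pderiv b (θ c a) + pderiv c (θ a b)) =
      C (φ a i * φ b j * φ c l) * lsub φ (pderiv a (θ b c)) +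
      C (φ a i * φ b j * φ c l) * lsub φ (pderiv b (θ c a)) +
      C (φ a i * φ b j * φ c l) * lsub φ (pderiv c (θ a b)) := by
    intro a b c
    rw [map_add, map_add, mul_add, mul_add]
  have key : pderiv i (pb2 φ θ j l) + pderiv j (pb2 φ θ l i) + pderiv l (pb2 φ θ i j) =
      ∑ a, ∑ b, ∑ c, C (φ a i * φ b j * φ c l) *
        lsub φ (pderiv a (θ b c) + pderiv b (θ c a) + pderiv c (θ a b)) := by
    simp only [h2, Finset.sum_add_distrib]
    rw [h1 i j l, h1 j l i, h1 l i j]
    refine congrArg₂ (fun a b => a + b) (congrArg₂ (fun a b => a + b) ?_ ?_) ?_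
    · rw [rot3]
    · rw [rot3']
      apply Finset.sum_congr rfl; intro a _
      apply Finset.sum_congr rfl; intro b _
      apply Finset.sum_congr rfl; intro c _
      rw [show φ b j * φ c l * φ a i = φ a i * φ b j * φ c l by ring]
    · apply Finset.sum_congr rfl; intro a _
      apply Finset.sum_congr rfl; intro b _
      apply Finset.sum_congr rfl; intro c _
      rw [show φ c l * φ a i * φ b j = φ a i * φ b j * φ c l by ring]
  rw [key]
  apply Finset.sum_eq_zero; intro a _
  apply Finset.sum_eq_zero; intro b _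
  apply Finset.sum_eq_zero; intro c _
  rw [h, map_zero, mul_zero]

theorem EE_pb {θ : F2 n} {d : ℕ} {ξ : F1 n} (h : ξ ∈ EE θ d) (φ : Fin n → Fin m → ℂ) :
    pb φ ξ ∈ EE (pb2 φ θ) d := by
  rw [mem_EE] at h ⊢
  refine ⟨fun i => pb_hom h.1 i, ?_⟩
  intro i j l
  rw [w12_pb]
  apply Finset.sum_eq_zero; intro a _
  apply Finset.sum_eq_zero; intro b _
  apply Finset.sum_eq_zero; intro c _
  rw [h.2, map_zero, mul_zero]

theorem av_mem_EE {θ : F2 n} (h : Dec θ) (hh : ∀ i j, (θ i j).IsHomogeneous 3) (v : Fin n → ℂ) :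
    av θ v ∈ EE θ 3 := by
  rw [mem_EE]
  refine ⟨?_, ?_⟩
  · intro j
    show (∑ i, C (v i) * θ i j).IsHomogeneous 3
    apply IsHomogeneous.sum
    intro i _
    have := (isHomogeneous_C (Fin n) (v i)).mul (hh i j)
    rwa [zero_add] at this
  · intro i j l
    exact Pool.Agent.Helper71.FL.w12_ct h (cv v) i j l

/-- homogeneous 1-forms form a finite-dimensional space -/
theorem finite_EE (θ : F2 n) (d : ℕ) : Module.Finite ℂ (EE θ d) := by
  classical
  let F : EE θ d →ₗ[ℂ] (Fin n → (Finset.finsuppAntidiag (Finset.univ : Finset (Fin n)) d) → ℂ) :=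
    { toFun := fun ξ i ν => coeff ν.1 (ξ.1 i)
      map_add' := by
        intro a b
        funext i ν
        exact coeff_add _ _ _
      map_smul' := by
        intro c a
        funext i ν
        exact coeff_smul _ _ _ }
  have hF : Function.Injective F := by
    intro a b hab
    apply Subtype.ext
    funext i
    ext ν
    by_cases hν : ν ∈ Finset.finsuppAntidiag (Finset.univ : Finset (Fin n)) d
    · exact congrFun (congrFun hab i) ⟨ν, hν⟩
    · have hdeg : Finsupp.degree ν ≠ d := by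
        intro h
        apply hν
        rw [Finset.mem_finsuppAntidiag]
        refine ⟨?_, Finset.subset_univ _⟩
        rw [← Finsupp.degree_eq_sum]
        exact h
      rw [(a.2.1 i).coeff_eq_zero hdeg, (b.2.1 i).coeff_eq_zero hdeg]
  exact Module.Finite.of_injective F hF

end Pool.Agent.Helper71.FC
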