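import Pool.Agent.Helper71.FC.GL

/-! FC-2: invariance of the notions of `FC/Defs` under linear coordinate changes, coordinates adapted to
independent linear forms or vectors. -/

set_option autoImplicit false

namespace Pool.Agent.Helper71.FC

open MvPolynomial
open scoped BigOperators
open Pool.Agent.Helper71.FL (w12 pf ct Dec Closed dd)
open Pool.Agent.Helper93 (lsub lmap OF pb)

variable {n m k : ℕ}

theorem Inv.symm {g g' : Fin n → Fin n → ℂ} (h : Inv g g') : Inv g' g := ⟨h.2, h.1⟩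

private theorem pb2_inv {g g' : Fin n → Fin n → ℂ} (hg : Inv g g') (θ : F2 n) :
    pb2 g' (pb2 g θ) = θ := by
  rw [pb2_mm, hg.1, pb2_idm]

private theorem pb_inv {g g' : Fin n → Fin n → ℂ} (hg : Inv g g') (ξ : F1 n) :
    pb g' (pb g ξ) = ξ := by
  rw [pb_mm, hg.1, pb_idm]

private theorem lsub_inv {g g' : Fin n → Fin n → ℂ} (hg : Inv g g') (p : Pn n) :
    lsub g' (lsub g p) = p := by
  rw [lsub_mm, hg.1, lsub_idm]

private theorem lmap_inv {g g' : Fin n → Fin n → ℂ} (hg : Inv g g') (v : Fin n → ℂ) :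
    lmap g (lmap g' v) = v := by
  funext i
  show ∑ l, g i l * ∑ j, g' l j * v j = v i
  have h1 : ∑ l, g i l * ∑ j, g' l j * v j = ∑ j, mm g g' i j * v j := by
    unfold mm
    simp only [Finset.mul_sum, Finset.sum_mul]
    rw [Finset.sum_comm]
    refine Finset.sum_congr rfl fun j _ => Finset.sum_congr rfl fun l _ => ?_
    ring
  rw [h1, hg.1]
  unfold idm
  simp

private theorem dvd_pb2 {g : Fin n → Fin m → ℂ} {θ : F2 n} {p : Pn n} (h : ∀ i j, p ∣ θ i j)
    (i j : Fin m) : lsub g p ∣ pb2 g θ i j := by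
  unfold pb2
  exact Finset.dvd_sum fun k _ => Finset.dvd_sum fun l _ =>
    Dvd.dvd.mul_left (map_dvd (lsub g) (h k l)) _

theorem Fol_pb2 {θ : F2 n} (h : Fol θ) {g g' : Fin n → Fin n → ℂ} (hg : Inv g g') :
    Fol (pb2 g θ) := by
  refine ⟨pb2_hom h.hom, Dec_pb2 h.dec g, Closed_pb2 h.closed g, fun p hp => ?_⟩
  have h1 : ∀ i j, lsub g' p ∣ θ i j := by
    intro i j
    have := dvd_pb2 (g := g') hp i j
    rwa [pb2_inv hg] at this
  have h2 := (h.prim _ h1).map (lsub g)
  rwa [lsub_inv hg.symm] at h2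

private theorem Cone_pb2_aux (θ : F2 n) {g g' : Fin n → Fin n → ℂ} (hg : Inv g g')
    (h : Cone θ) : Cone (pb2 g θ) := by
  obtain ⟨v, hv, h0⟩ := h
  refine ⟨lmap g' v, fun h1 => hv ?_, fun j => ?_⟩
  · rw [← lmap_inv hg v, h1, map_zero]
  · have h2 : av θ v = fun _ => 0 := funext h0
    rw [av_pb2, lmap_inv hg, h2]
    unfold pb
    simp

theorem Cone_pb2 (θ : F2 n) {g g' : Fin n → Fin n → ℂ} (hg : Inv g g') :
    Cone (pb2 g θ) ↔ Cone θ := by
  refine ⟨fun h => ?_, Cone_pb2_aux θ hg⟩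
  have := Cone_pb2_aux _ hg.symm h
  rwa [pb2_inv hg] at this

theorem finrank_EE_pb2 (θ : F2 n) (d : ℕ) {g g' : Fin n → Fin n → ℂ} (hg : Inv g g') :
    Module.finrank ℂ (EE (pb2 g θ) d) = Module.finrank ℂ (EE θ d) := by
  symm
  have hmem : ∀ ξ : F1 n, ξ ∈ EE (pb2 g θ) d → pb g' ξ ∈ EE θ d := by
    intro ξ hξ
    have := EE_pb hξ g'
    rwa [pb2_inv hg] at this
  exact LinearEquiv.finrank_eq
    { toFun := fun ξ => (⟨pb g ξ.1, EE_pb ξ.2 g⟩ : EE (pb2 g θ) d)
      map_add' := fun a b => Subtype.ext (pb_add g a.1 b.1)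
      map_smul' := fun c a => Subtype.ext (by
        have h1 := pb_smul g (C c) a.1
        funext i
        have h2 := congrFun h1 i
        have h3 : (fun j => C c * a.1 j) = (c • a.1 : F1 n) := by
          funext j
          rw [Pi.smul_apply, smul_eq_C_mul]
        rw [h3] at h2
        have h4 : lsub g (C c) = C c := by
          unfold lsub
          rw [aeval_C]
          rfl
        rw [h4] at h2
        show pb g (c • a.1) i = (c • pb g a.1) i
        rw [h2, Pi.smul_apply, smul_eq_C_mul])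
      invFun := fun ξ => ⟨pb g' ξ.1, hmem ξ.1 ξ.2⟩
      left_inv := fun ξ => Subtype.ext (pb_inv hg ξ.1)
      right_inv := fun ξ => Subtype.ext (pb_inv hg.symm ξ.1) }

private theorem pb2_w11_df (φ : Fin n → Fin m → ℂ) (l g : Pn n) {θ : F2 n}
    (h : ∀ i j, θ i j = w11 (df l) (df g) i j) (i j : Fin m) :
    pb2 φ θ i j = w11 (df (lsub φ l)) (df (lsub φ g)) i j := by
  have h1 : θ = w11 (df l) (df g) := by
    funext i j
    exact h i j
  rw [h1, pb2_w11, pb_df, pb_df]

theorem Fam14_pb2 {θ : F2 n} (h : Fam14 θ) (φ : Fin n → Fin m → ℂ) : Fam14 (pb2 φ θ) := by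
  obtain ⟨l, g, hl, hg, h⟩ := h
  exact ⟨lsub φ l, lsub φ g, lsub_hom hl, lsub_hom hg, pb2_w11_df φ l g h⟩

theorem Fam23_pb2 {θ : F2 n} (h : Fam23 θ) (φ : Fin n → Fin m → ℂ) : Fam23 (pb2 φ θ) := by
  obtain ⟨l, g, hl, hg, h⟩ := h
  exact ⟨lsub φ l, lsub φ g, lsub_hom hl, lsub_hom hg, pb2_w11_df φ l g h⟩

theorem Fam3_pb2 {e : Fin 3 → ℕ} {θ : F2 n} (h : Fam3 e θ) (φ : Fin n → Fin m → ℂ) :
    Fam3 e (pb2 φ θ) := by
  obtain ⟨Φ, r, hΦ, hr, hdiv, h⟩ := h
  refine ⟨fun a => lsub φ (Φ a), r, fun a => lsub_hom (hΦ a), hr, hdiv, fun i j => ?_⟩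
  have h1 : ∀ a : Fin 3, aeval (fun b => lsub φ (Φ b)) (r a) = lsub φ (aeval Φ (r a)) := by
    intro a
    have h2 : ((lsub φ).comp (aeval Φ) : MvPolynomial (Fin 3) ℂ →ₐ[ℂ] Pn m) =
        aeval (fun b => lsub φ (Φ b)) := by
      apply MvPolynomial.algHom_ext
      intro b
      rw [AlgHom.comp_apply, aeval_X, aeval_X]
    rw [← h2]
    rfl
  have h3 : ∀ a : Fin 3, w11 (df (lsub φ (Φ (a + 1)))) (df (lsub φ (Φ (a + 2)))) i j =
      pb2 φ (w11 (df (Φ (a + 1))) (df (Φ (a + 2)))) i j := by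
    intro a
    rw [pb2_w11, pb_df, pb_df]
  simp only [h1, h3]
  unfold pb2
  have h4 : ∀ k l, lsub φ (θ k l) = ∑ a : Fin 3, lsub φ (aeval Φ (r a)) *
      lsub φ (w11 (df (Φ (a + 1))) (df (Φ (a + 2))) k l) := by
    intro k l
    rw [h k l, map_sum]
    exact Finset.sum_congr rfl fun a _ => map_mul _ _ _
  simp only [h4, Finset.mul_sum]
  have h5 : ∀ k, ∑ l, ∑ a : Fin 3, C (φ k i * φ l j) * (lsub φ (aeval Φ (r a)) *
      lsub φ (w11 (df (Φ (a + 1))) (df (Φ (a + 2))) k l)) =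
      ∑ a : Fin 3, ∑ l, C (φ k i * φ l j) * (lsub φ (aeval Φ (r a)) *
      lsub φ (w11 (df (Φ (a + 1))) (df (Φ (a + 2))) k l)) := fun k => Finset.sum_comm
  rw [Finset.sum_congr rfl fun k _ => h5 k, Finset.sum_comm]
  refine Finset.sum_congr rfl fun a _ => Finset.sum_congr rfl fun k _ =>
    Finset.sum_congr rfl fun l _ => ?_
  rw [mul_left_comm]

/-- the linear form with coefficient vector `a` -/
noncomputable def lf (a : Fin n → ℂ) : Pn n := ∑ i, C (a i) * X i

theorem lf_of_hom {l : Pn n} (h : l.IsHomogeneous 1) : ∃ a : Fin n → ℂ, l = lf a := by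
  have h1 : ∀ i, ∃ a : ℂ, pderiv i l = C a := by
    intro i
    have h2 : (pderiv i l).IsHomogeneous 0 := h.pderiv
    rw [← totalDegree_zero_iff_isHomogeneous, totalDegree_eq_zero_iff_eq_C] at h2
    exact ⟨_, h2⟩
  choose a ha using h1
  refine ⟨a, ?_⟩
  have h2 := h.sum_X_mul_pderiv
  rw [one_smul] at h2
  rw [← h2]
  unfold lf
  refine Finset.sum_congr rfl fun i _ => ?_
  rw [ha, mul_comm]

/-- an independent family is the beginning of an independent family with `n` members -/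
private theorem extend_fam (d : ℕ) : ∀ (r : ℕ) (h : r + d = n) (v : Fin r → Fin n → ℂ),
    LinearIndependent ℂ v → ∃ w : Fin n → Fin n → ℂ, LinearIndependent ℂ w ∧
      ∀ i, w (Fin.castLE (by omega) i) = v i := by
  induction d with
  | zero =>
    intro r h v hv
    obtain rfl : r = n := by omega
    exact ⟨v, hv, fun i => rfl⟩
  | succ d ih =>
    intro r h v hv
    obtain ⟨x, hx⟩ := exists_linearIndependent_snoc_of_lt_finrank hv
      (by rw [Module.finrank_fin_fun]; omega)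
    obtain ⟨w, hw, hw'⟩ := ih (r + 1) (by omega) _ hx
    refine ⟨w, hw, fun i => ?_⟩
    have := hw' (Fin.castSucc i)
    rw [Fin.snoc_castSucc] at this
    rw [← this]
    rfl

private theorem exists_mat {r : ℕ} (hr : r ≤ n) (v : Fin r → Fin n → ℂ)
    (hv : LinearIndependent ℂ v) : ∃ A A' : Matrix (Fin n) (Fin n) ℂ, A * A' = 1 ∧ A' * A = 1 ∧
      ∀ i, A (Fin.castLE hr i) = v i := by
  obtain ⟨w, hw, hw'⟩ := extend_fam (n := n) (n - r) r (by omega) v hv
  have hu : IsUnit (Matrix.of w) := by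
    rw [← Matrix.linearIndependent_rows_iff_isUnit]
    exact hw
  rw [Matrix.isUnit_iff_isUnit_det] at hu
  exact ⟨Matrix.of w, (Matrix.of w)⁻¹, Matrix.mul_nonsing_inv _ hu, Matrix.nonsing_inv_mul _ hu,
    hw'⟩

private theorem mm_of {A B : Matrix (Fin n) (Fin n) ℂ} (h : A * B = 1) :
    mm (fun i j => A i j) (fun i j => B i j) = idm n := by
  funext i j
  have := congrFun (congrFun h i) j
  rw [Matrix.mul_apply, Matrix.one_apply] at this
  exact this

/-- independent linear forms are coordinates after a linear change of variables -/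
theorem exists_coord {r : ℕ} (hr : r ≤ n) (a : Fin r → Fin n → ℂ) (ha : LinearIndependent ℂ a) :
    ∃ g g' : Fin n → Fin n → ℂ, Inv g g' ∧ ∀ i, lsub g (lf (a i)) = X (Fin.castLE hr i) := by
  obtain ⟨A, B, h1, h2, h3⟩ := exists_mat hr a ha
  refine ⟨fun i j => B i j, fun i j => A i j, ⟨mm_of h2, mm_of h1⟩, fun i => ?_⟩
  have h4 : ∀ l, ∑ k, a i k * B k l = if Fin.castLE hr i = l then 1 else 0 := by
    intro l
    have := congrFun (congrFun h1 (Fin.castLE hr i)) l
    rw [Matrix.mul_apply, Matrix.one_apply] at this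
    rw [← this]
    refine Finset.sum_congr rfl fun k _ => ?_
    rw [h3 i]
  unfold lf
  rw [map_sum]
  have h5 : ∀ k, lsub (fun i j => B i j) (C (a i k) * X k) =
      ∑ l, C (a i k * B k l) * X l := by
    intro k
    unfold lsub
    rw [map_mul, aeval_C, aeval_X, Finset.mul_sum]
    refine Finset.sum_congr rfl fun l _ => ?_
    rw [C_mul, mul_assoc]
    rfl
  rw [Finset.sum_congr rfl fun k _ => h5 k, Finset.sum_comm]
  have h6 : ∀ l, ∑ k, (C (a i k * B k l) * X l : Pn n) =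
      if Fin.castLE hr i = l then X l else 0 := by
    intro l
    rw [← Finset.sum_mul, ← map_sum, h4 l]
    split
    · rw [C_1, one_mul]
    · rw [C_0, zero_mul]
  rw [Finset.sum_congr rfl fun l _ => h6 l, Finset.sum_ite_eq, if_pos (Finset.mem_univ _)]

/-- independent vectors are basis vectors after a linear change of variables -/
theorem exists_basis {r : ℕ} (hr : r ≤ n) (v : Fin r → Fin n → ℂ) (hv : LinearIndependent ℂ v) :
    ∃ g g' : Fin n → Fin n → ℂ, Inv g g' ∧
      ∀ i, lmap g (fun j => if j = Fin.castLE hr i then 1 else 0) = v i := by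
  obtain ⟨A, B, h1, h2, h3⟩ := exists_mat hr v hv
  refine ⟨fun i j => A.transpose i j, fun i j => B.transpose i j, ⟨mm_of ?_, mm_of ?_⟩,
    fun i => ?_⟩
  · rw [← Matrix.transpose_mul, h2, Matrix.transpose_one]
  · rw [← Matrix.transpose_mul, h1, Matrix.transpose_one]
  · funext k
    show ∑ l, A.transpose k l * (if l = Fin.castLE hr i then (1 : ℂ) else 0) = v i k
    simp only [mul_ite, mul_one, mul_zero]
    rw [Finset.sum_ite_eq', if_pos (Finset.mem_univ _), Matrix.transpose_apply, h3 i]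

end Pool.Agent.Helper71.FC
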