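import Pool.Agent.Helper71.FC.Class
import Pool.Agent.Helper50.FC.P0
import Pool.Agent.Helper50.FC.P1

/-! Part (C0) of the classification. -/

set_option autoImplicit false

namespace Pool.Agent.Helper71.FC

theorem iC0 : IC0 := by
  intro n hn θ h hc h01
  by_cases e0 : EE θ 0 = ⊥
  · have e1 : EE θ 1 ≠ ⊥ := by
      rcases h01 with h1 | h1
      · exact absurd e0 h1
      · exact h1
    rcases Pool.Agent.Helper50.FC.P1 h hn hc e0 e1 with h2 | h2 | h2
    · exact OKF_of_Fam23 h2
    · exact OKF_of_Fam113 h2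
    · exact OKF_of_Fam112 h2
  · exact OKF_of_Fam14 (Pool.Agent.Helper50.FC.fam14_of_E0 h e0)

end Pool.Agent.Helper71.FC
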