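import Pool.Agent.Helper71.FC.SatH

/-! FC-10: graded presentations of `E`; the socle of `M = B^sat/B` for forms in three variables.
Let `x_l^K b = c_l ∧ θ` (`l = 0, 1, 2`), `e_lm = x_m^K c_l - x_l^K c_m ∈ E`, lift `e_lm` to `ẽ_lm ∈ F0 = S^p`;
`x_2^K ẽ_01 - x_1^K ẽ_02 + x_0^K ẽ_12` is a relation, so it is `M(f) = Σ f_j R_j`.
(*) If `f = x_2^K f_01 - x_1^K f_02 + x_0^K f_12` then `ẽ_lm - M(f_lm)` has zero Koszul sum, so it is `x_m^K a_l - x_l^K a_m`
(`x_0^K, x_1^K, x_2^K` is a regular sequence), `c_l - Σ a_l ε = x_l^K c`, and `b = c ∧ θ`.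
* `soc_of_pres`: `K = 1`, everything homogeneous: `f_j` is homogeneous of degree `d - a_j ≠ 0` (or zero), so (*) applies.
* `soc_count`: in general `b ↦ (constant terms of f_j)_{a_j = d}` is well defined modulo `B` and injective modulo `B`; equivalently, with more
  elements than relations of degree `d` some combination has all these constants equal to zero, and (*) applies.
* `kill`: for `δ b` one gets `δ f = adj (M f) ∈ (x^K) F1`.
* `mP_one`: with one relation `r = (r_0, r_1, r_2)` of degree `a`: the `r_i` kill `M`; `M[d] = 0` for `d > a` (descending induction from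
  `BS_large` with `soc_of_pres`), `dim M[a] ≤ 1`, and `M[d] → Hom(S_(a-d)/(r), M[a])` is injective. -/

set_option autoImplicit false

namespace Pool.Agent.Helper71.FC

open MvPolynomial
open scoped BigOperators
open Pool.Agent.Helper71.FL (w12 pf ct Dec Closed dd Reg4)
open Pool.Agent.Helper93 (lsub lmap OF pb)

variable {n : ℕ}

/-- graded presentation of the module of 1-forms annihilated by `θ`: generators `ε i` of degree `g i`, relations `R j` of degree `a j`
(relations are not required to be independent) -/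
structure Pres (θ : F2 n) {p q : ℕ} (g : Fin p → ℕ) (a : Fin q → ℕ) (ε : Fin p → F1 n)
    (R : Fin q → Fin p → Pn n) : Prop where
  hε : ∀ i j, (ε i j).IsHomogeneous (g i)
  hR : ∀ j i, (R j i).IsHomogeneous (a j - g i)
  hR0 : ∀ j i, a j < g i → R j i = 0
  gen : ∀ ξ : F1 n, (∀ i j k, w12 ξ θ i j k = 0) ↔ ∃ c : Fin p → Pn n, ∀ j, ξ j = ∑ i, c i * ε i j
  rel : ∀ c : Fin p → Pn n, (∀ j, ∑ i, c i * ε i j = 0) ↔
    ∃ f : Fin q → Pn n, ∀ i, c i = ∑ j, f j * R j i

/-- homogeneous members of `E_k` are combinations with homogeneous coefficients -/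
theorem Pres.mem_EE {θ : F2 n} {p q : ℕ} {g : Fin p → ℕ} {a : Fin q → ℕ} {ε : Fin p → F1 n}
    {R : Fin q → Fin p → Pn n} (h : Pres θ g a ε R) {k : ℕ} {ξ : F1 n} (hξ : ξ ∈ EE θ k) :
    ∃ c : Fin p → Pn n, (∀ i, (c i).IsHomogeneous (k - g i)) ∧ (∀ i, k < g i → c i = 0) ∧
      ∀ j, ξ j = ∑ i, c i * ε i j := by
  obtain ⟨c, hc⟩ := (h.gen ξ).1 hξ.2
  refine ⟨fun i => if g i ≤ k then homogeneousComponent (k - g i) (c i) else 0, ?_, ?_, ?_⟩
  · intro i
    dsimp only
    split_ifs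
    · exact homogeneousComponent_isHomogeneous _ _
    · exact isHomogeneous_zero _ _ _
  · intro i hi
    exact if_neg (by omega)
  · intro j
    have h1 : homogeneousComponent k (ξ j) = ξ j := homogeneousComponent_eq_self (hξ.1 j)
    rw [← h1, hc j, map_sum]
    refine Finset.sum_congr rfl fun i _ => ?_
    dsimp only
    split_ifs with hi
    · have h2 := sat_hc_mul (k - g i) (g i) (c i) (ε i j) (h.hε i j)
      rwa [Nat.sub_add_cancel hi] at h2
    · rw [sat_hc_low k (g i) (by omega) (c i) (ε i j) (h.hε i j), zero_mul]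

/-- homogeneous relations are combinations of the `R j` with homogeneous coefficients -/
theorem Pres.rel_hom {θ : F2 n} {p q : ℕ} {g : Fin p → ℕ} {a : Fin q → ℕ} {ε : Fin p → F1 n}
    {R : Fin q → Fin p → Pn n} (h : Pres θ g a ε R) {k : ℕ} {c : Fin p → Pn n}
    (hc : ∀ i, (c i).IsHomogeneous (k - g i)) (hc0 : ∀ i, k < g i → c i = 0)
    (h0 : ∀ j, ∑ i, c i * ε i j = 0) :
    ∃ f : Fin q → Pn n, (∀ j, (f j).IsHomogeneous (k - a j)) ∧ (∀ j, k < a j → f j = 0) ∧
      ∀ i, c i = ∑ j, f j * R j i := by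
  obtain ⟨f, hf⟩ := (h.rel c).1 h0
  refine ⟨fun j => if a j ≤ k then homogeneousComponent (k - a j) (f j) else 0, ?_, ?_, ?_⟩
  · intro j
    dsimp only
    split_ifs
    · exact homogeneousComponent_isHomogeneous _ _
    · exact isHomogeneous_zero _ _ _
  · intro j hj
    exact if_neg (by omega)
  · intro i
    rcases lt_or_ge k (g i) with hi | hi
    · rw [hc0 i hi]
      symm
      refine Finset.sum_eq_zero fun j _ => ?_
      dsimp only
      split_ifs with hj
      · rw [h.hR0 j i (by omega), mul_zero]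
      · rw [zero_mul]
    · have h1 : homogeneousComponent (k - g i) (c i) = c i := homogeneousComponent_eq_self (hc i)
      rw [← h1, hf i, map_sum]
      refine Finset.sum_congr rfl fun j _ => ?_
      dsimp only
      split_ifs with hj
      · rcases lt_or_ge (a j) (g i) with hji | hji
        · rw [h.hR0 j i hji, mul_zero, mul_zero, map_zero]
        · have h2 := sat_hc_mul (k - a j) (a j - g i) (f j) (R j i) (h.hR j i)
          rwa [show k - a j + (a j - g i) = k - g i by omega] at h2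
      · rw [sat_hc_low (k - g i) (a j - g i) (by omega) (f j) (R j i) (h.hR j i), zero_mul]

private theorem soc_mem_X (s : Set (Fin 3)) (f : Pn 3) :
    f ∈ Ideal.span ((X : Fin 3 → Pn 3) '' s) ↔ ∀ m ∈ f.support, ∃ i ∈ s, m i ≠ 0 :=
  mem_ideal_span_X_image

private theorem soc_span2 (f : Pn 3) :
    f ∈ Ideal.span ((X : Fin 3 → Pn 3) '' {0, 1}) ↔ ∃ u v, f = X 0 * u + X 1 * v := by
  rw [Set.image_pair, Ideal.mem_span_pair]
  constructor
  · rintro ⟨u, v, rfl⟩
    exact ⟨u, v, by ring⟩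
  · rintro ⟨u, v, rfl⟩
    exact ⟨u, v, by ring⟩

private theorem soc_reg : Reg4 (X 0 : Pn 3) (X 1) (X 2) 1 := by
  have hX : ∀ i j : Fin 3, i ≠ j → ∀ a u : Pn 3, X i * a = X j * u → ∃ u', a = X j * u' := by
    intro i j hij a u h
    have h1 : (X j : Pn 3) ∣ X i * a := ⟨u, h⟩
    have hp : Prime (X j : Pn 3) := X_prime
    rcases hp.dvd_or_dvd h1 with h2 | h2
    · rw [X_dvd_X] at h2
      exact absurd h2 (Ne.symm hij)
    · exact h2
  refine ⟨?_, ?_, ?_, ?_⟩
  · intro a ha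
    exact (mul_eq_zero.1 ha).resolve_left (X_ne_zero 0)
  · rintro a ⟨u, hu⟩
    exact hX 1 0 (by decide) a u hu
  · rintro a ⟨u, v, huv⟩
    rw [← soc_span2, soc_mem_X]
    intro m hm
    have h1 : X 2 * a ∈ Ideal.span ((X : Fin 3 → Pn 3) '' {0, 1}) := (soc_span2 _).2 ⟨u, v, huv⟩
    rw [soc_mem_X] at h1
    have h2 : m + Finsupp.single 2 1 ∈ (X 2 * a : Pn 3).support := by
      rw [mem_support_iff, mul_comm, coeff_mul_X]
      exact mem_support_iff.1 hm
    obtain ⟨i, hi, hi2⟩ := h1 _ h2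
    refine ⟨i, hi, ?_⟩
    have h3 : (2 : Fin 3) ≠ i := by
      rcases hi with rfl | hi
      · decide
      · rw [Set.mem_singleton_iff] at hi
        subst hi
        decide
    rw [Finsupp.add_apply, Finsupp.single_apply, if_neg h3, add_zero] at hi2
    exact hi2
  · rintro a ⟨u, v, w, h⟩
    exact ⟨u, v, w, by rw [← h, one_mul]⟩

/-- the Koszul step (*) of the header -/
theorem koszul_step {θ : F2 3} {p q : ℕ} {g : Fin p → ℕ} {a : Fin q → ℕ} {ε : Fin p → F1 3}
    {R : Fin q → Fin p → Pn 3} (h : Pres θ g a ε R) {b : F3 3} {K : ℕ} (hK : 0 < K)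
    {c : Fin 3 → F1 3} (hc : ∀ l i j k, X l ^ K * b i j k = w12 (c l) θ i j k)
    {u : Fin 3 → Fin 3 → Fin p → Pn 3}
    (hu : ∀ l m j, X m ^ K * c l j - X l ^ K * c m j = ∑ i, u l m i * ε i j)
    {f : Fin q → Pn 3}
    (hf : ∀ i, X 2 ^ K * u 0 1 i - X 1 ^ K * u 0 2 i + X 0 ^ K * u 1 2 i = ∑ j, f j * R j i)
    (hf2 : ∀ j, ∃ v : Fin 3 → Pn 3, f j = ∑ l, X l ^ K * v l) : IsB θ b := by
  obtain ⟨r1, r2, r3, -⟩ := soc_reg.pow K hK
  choose v hv using hf2
  have hM : ∀ w : Fin q → Pn 3, ∀ j, ∑ i, (∑ t, w t * R t i) * ε i j = 0 := by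
    intro w
    exact (h.rel _).2 ⟨w, fun i => rfl⟩
  have hfi : ∀ i, ∑ j, f j * R j i = X 0 ^ K * (∑ t, v t 0 * R t i) +
      X 1 ^ K * (∑ t, v t 1 * R t i) + X 2 ^ K * (∑ t, v t 2 * R t i) := by
    intro i
    rw [Finset.mul_sum, Finset.mul_sum, Finset.mul_sum, ← Finset.sum_add_distrib,
      ← Finset.sum_add_distrib]
    refine Finset.sum_congr rfl fun t _ => ?_
    rw [hv t, Fin.sum_univ_three]
    ring
  have ha : ∀ i, ∃ u' v', u 0 1 i - ∑ t, v t 2 * R t i = X 0 ^ K * u' + X 1 ^ K * v' := by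
    intro i
    refine r3 _ ⟨-(u 1 2 i - ∑ t, v t 0 * R t i), u 0 2 i + ∑ t, v t 1 * R t i, ?_⟩
    linear_combination hf i + hfi i
  choose a1 a0 ha using ha
  have hEa : ∀ w : Fin p → Pn 3, ∀ i j k, w12 (fun l => ∑ t, w t * ε t l) θ i j k = 0 := by
    intro w
    exact (h.gen _).2 ⟨w, fun j => rfl⟩
  have hc' : ∀ l, ∃ e, c 0 l - ∑ t, a0 t * ε t l = X 0 ^ K * e := by
    intro l
    refine r2 _ ⟨c 1 l + ∑ t, a1 t * ε t l, ?_⟩
    have h5 := hu 0 1 l
    have h6 : ∑ i, u 0 1 i * ε i l = X 0 ^ K * (∑ t, a1 t * ε t l) +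
        X 1 ^ K * (∑ t, a0 t * ε t l) := by
      have h7 := hM (fun t => v t 2) l
      have h8 : ∑ i, u 0 1 i * ε i l = ∑ i, (∑ t, v t 2 * R t i) * ε i l +
          (X 0 ^ K * (∑ t, a1 t * ε t l) + X 1 ^ K * (∑ t, a0 t * ε t l)) := by
        rw [Finset.mul_sum, Finset.mul_sum, ← Finset.sum_add_distrib, ← Finset.sum_add_distrib]
        refine Finset.sum_congr rfl fun i _ => ?_
        linear_combination ε i l * ha i
      rw [h8, h7, zero_add]
    linear_combination h5 + h6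
  choose e he using hc'
  refine ⟨e, fun i j k => ?_⟩
  refine sub_eq_zero.1 (r1 _ ?_)
  have h5 := hEa a0 i j k
  have h6 : X 0 ^ K * w12 e θ i j k = w12 (c 0) θ i j k -
      w12 (fun l => ∑ t, a0 t * ε t l) θ i j k := by
    rw [← Pool.Agent.Helper71.FL.w12_smul, ← Pool.Agent.Helper71.FL.w12_sub]
    congr 1
    funext l
    exact (he l).symm
  rw [mul_sub, h6, h5, hc]
  ring

/-- data of the Koszul step for `K = 1` -/
private noncomputable def Dat (θ : F2 3) {p q : ℕ} (a : Fin q → ℕ) (ε : Fin p → F1 3)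
    (R : Fin q → Fin p → Pn 3) (e : ℕ) : Submodule ℂ
      (F3 3 × (Fin 3 → F1 3) × (Fin 3 → Fin 3 → Fin p → Pn 3) × (Fin q → Pn 3)) where
  carrier := {x | (∀ l i j k, X l * x.1 i j k = w12 (x.2.1 l) θ i j k) ∧
    (∀ l m j, X m * x.2.1 l j - X l * x.2.1 m j = ∑ i, x.2.2.1 l m i * ε i j) ∧
    (∀ i, X 2 * x.2.2.1 0 1 i - X 1 * x.2.2.1 0 2 i + X 0 * x.2.2.1 1 2 i =
      ∑ j, x.2.2.2 j * R j i) ∧
    (∀ j, (x.2.2.2 j).IsHomogeneous (e + 2 - a j)) ∧ ∀ j, e + 2 < a j → x.2.2.2 j = 0}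
  add_mem' := by
    rintro ⟨b, c, u, f⟩ ⟨b', c', u', f'⟩ ⟨h1, h2, h3, h4, h5⟩ ⟨h1', h2', h3', h4', h5'⟩
    dsimp only at h1 h2 h3 h4 h5 h1' h2' h3' h4' h5'
    refine ⟨fun l i j k => ?_, fun l m j => ?_, fun i => ?_, fun j => ?_, fun j hj => ?_⟩
    · have h6 := Pool.Agent.Helper71.FL.w12_add (c l) (c' l) θ i j k
      show X l * (b i j k + b' i j k) = w12 (fun t => c l t + c' l t) θ i j k
      rw [h6, ← h1, ← h1', mul_add]
    · show X m * (c l j + c' l j) - X l * (c m j + c' m j) = ∑ i, (u l m i + u' l m i) * ε i j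
      simp only [add_mul, Finset.sum_add_distrib, ← h2, ← h2']
      ring
    · show X 2 * (u 0 1 i + u' 0 1 i) - X 1 * (u 0 2 i + u' 0 2 i) + X 0 * (u 1 2 i + u' 1 2 i) =
        ∑ j, (f j + f' j) * R j i
      simp only [add_mul, Finset.sum_add_distrib, ← h3, ← h3']
      ring
    · exact (h4 j).add (h4' j)
    · show f j + f' j = 0
      rw [h5 j hj, h5' j hj, add_zero]
  zero_mem' := by
    refine ⟨fun l i j k => ?_, fun l m j => ?_, fun i => ?_, fun j => ?_, fun j hj => rfl⟩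
    · simp [w12]
    · simp
    · simp
    · exact isHomogeneous_zero _ _ _
  smul_mem' := by
    rintro t ⟨b, c, u, f⟩ ⟨h1, h2, h3, h4, h5⟩
    dsimp only at h1 h2 h3 h4 h5
    refine ⟨fun l i j k => ?_, fun l m j => ?_, fun i => ?_, fun j => ?_, fun j hj => ?_⟩
    · show X l * (t • b i j k) = w12 (fun m => t • c l m) θ i j k
      have h6 := Pool.Agent.Helper71.FL.w12_smul (C t) (c l) θ i j k
      simp only [smul_eq_C_mul]
      rw [h6, ← h1]
      ring
    · show X m * (t • c l j) - X l * (t • c m j) = ∑ i, (t • u l m i) * ε i j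
      simp only [smul_eq_C_mul, mul_assoc, ← Finset.mul_sum, ← h2]
      ring
    · show X 2 * (t • u 0 1 i) - X 1 * (t • u 0 2 i) + X 0 * (t • u 1 2 i) =
        ∑ j, (t • f j) * R j i
      simp only [smul_eq_C_mul, mul_assoc, ← Finset.mul_sum, ← h3]
      ring
    · show (t • f j).IsHomogeneous _
      rw [smul_eq_C_mul]
      have := (isHomogeneous_C (Fin 3) t).mul (h4 j)
      rwa [zero_add] at this
    · show t • f j = 0
      rw [h5 j hj, smul_zero]

private theorem soc_low {θ : F2 3} (hθ : ∀ i j, (θ i j).IsHomogeneous 3) {d : ℕ} (hd : d < 2)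
    {b : F3 3} (hb : ∀ i j k, (b i j k).IsHomogeneous d)
    (hx : ∀ l : Fin 3, IsB θ (fun i j k => X l * b i j k)) : b = 0 := by
  have h1 : (fun i j k => (X 0 : Pn 3) * b i j k) ∈ BB θ (d + 1) := by
    refine ⟨fun i j k => ?_, hx 0⟩
    have := (isHomogeneous_X ℂ (0 : Fin 3)).mul (hb i j k)
    rwa [add_comm] at this
  have h2 := BB_small hθ (by omega) h1
  funext i j k
  have h3 := congrFun (congrFun (congrFun h2 i) j) k
  exact (mul_eq_zero.1 h3).resolve_left (X_ne_zero 0)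

private theorem soc_data {θ : F2 3} (hθ : ∀ i j, (θ i j).IsHomogeneous 3) {p q : ℕ}
    {g : Fin p → ℕ} {a : Fin q → ℕ} {ε : Fin p → F1 3} {R : Fin q → Fin p → Pn 3}
    (h : Pres θ g a ε R) {e : ℕ} {b : F3 3} (hb : ∀ i j k, (b i j k).IsHomogeneous (e + 2))
    (hx : ∀ l : Fin 3, IsB θ (fun i j k => X l * b i j k)) :
    ∃ x ∈ Dat θ a ε R e, x.1 = b := by
  have h1 : ∀ l : Fin 3, ∃ c : F1 3, (∀ i, (c i).IsHomogeneous e) ∧
      ∀ i j k, X l * b i j k = w12 c θ i j k := by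
    intro l
    refine (mem_BB_iff hθ).1 ⟨fun i j k => ?_, hx l⟩
    have := (isHomogeneous_X ℂ l).mul (hb i j k)
    rwa [show 1 + (e + 2) = e + 3 by ring] at this
  choose c hc1 hc2 using h1
  have h2 : ∀ l m : Fin 3, (fun j => X m * c l j - X l * c m j) ∈ EE θ (e + 1) := by
    intro l m
    constructor
    · intro j
      have e1 := (isHomogeneous_X ℂ m).mul (hc1 l j)
      have e2 := (isHomogeneous_X ℂ l).mul (hc1 m j)
      rw [add_comm 1 e] at e1 e2
      exact e1.sub e2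
    · intro i j k
      rw [Pool.Agent.Helper71.FL.w12_sub (fun j => X m * c l j) (fun j => X l * c m j),
        Pool.Agent.Helper71.FL.w12_smul, Pool.Agent.Helper71.FL.w12_smul, ← hc2, ← hc2]
      ring
  choose u hu1 hu2 hu3 using fun l m => h.mem_EE (h2 l m)
  have h3 : ∀ l m i, (X m * u l m i : Pn 3).IsHomogeneous (e + 2 - g i) := by
    intro l m i
    rcases lt_or_ge (e + 1) (g i) with hi | hi
    · rw [hu2 l m i hi, mul_zero]
      exact isHomogeneous_zero _ _ _
    · have := (isHomogeneous_X ℂ m).mul (hu1 l m i)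
      rwa [show 1 + (e + 1 - g i) = e + 2 - g i by omega] at this
  have h3' : ∀ k l m i, (X k * u l m i : Pn 3).IsHomogeneous (e + 2 - g i) := by
    intro k l m i
    rcases lt_or_ge (e + 1) (g i) with hi | hi
    · rw [hu2 l m i hi, mul_zero]
      exact isHomogeneous_zero _ _ _
    · have := (isHomogeneous_X ℂ k).mul (hu1 l m i)
      rwa [show 1 + (e + 1 - g i) = e + 2 - g i by omega] at this
  obtain ⟨f, hf1, hf2, hf3⟩ := h.rel_hom (k := e + 2)
    (c := fun i => X 2 * u 0 1 i - X 1 * u 0 2 i + X 0 * u 1 2 i)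
    (fun i => ((h3' 2 0 1 i).sub (h3' 1 0 2 i)).add (h3' 0 1 2 i))
    (fun i hi => by
      have h4 : e + 1 < g i := by omega
      simp only [hu2 _ _ i h4, mul_zero, sub_zero, add_zero])
    (fun j => by
      have e1 := hu3 0 1 j
      have e2 := hu3 0 2 j
      have e3 := hu3 1 2 j
      have e4 : ∑ i, (X 2 * u 0 1 i - X 1 * u 0 2 i + X 0 * u 1 2 i) * ε i j =
          X 2 * (∑ i, u 0 1 i * ε i j) - X 1 * (∑ i, u 0 2 i * ε i j) +
            X 0 * (∑ i, u 1 2 i * ε i j) := by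
        rw [Finset.mul_sum, Finset.mul_sum, Finset.mul_sum, ← Finset.sum_sub_distrib,
          ← Finset.sum_add_distrib]
        exact Finset.sum_congr rfl fun i _ => by ring
      rw [e4, ← e1, ← e2, ← e3]
      ring)
  exact ⟨(b, c, u, f), ⟨fun l i j k => hc2 l i j k, fun l m j => hu3 l m j, fun i => hf3 i,
    hf1, hf2⟩, rfl⟩

private theorem soc_pos {f : Pn 3} {k : ℕ} (hf : f.IsHomogeneous k) (hk : 0 < k) :
    ∃ v : Fin 3 → Pn 3, f = ∑ l, X l ^ 1 * v l := by
  have h1 : f ∈ Ideal.span (Set.range (X : Fin 3 → Pn 3)) := by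
    rw [← Set.image_univ, soc_mem_X]
    intro m hm
    have h2 := hf (mem_support_iff.1 hm)
    by_contra hcon
    push Not at hcon
    have h3 : m = 0 := by
      ext i
      exact hcon i (Set.mem_univ i)
    rw [h3, map_zero] at h2
    omega
  obtain ⟨c, hc⟩ := (Ideal.mem_span_range_iff_exists_fun).1 h1
  refine ⟨c, ?_⟩
  rw [← hc]
  exact Finset.sum_congr rfl fun i _ => by rw [pow_one, mul_comm]

private theorem soc_core {θ : F2 3} {p q : ℕ}
    {g : Fin p → ℕ} {a : Fin q → ℕ} {ε : Fin p → F1 3} {R : Fin q → Fin p → Pn 3}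
    (h : Pres θ g a ε R) {e : ℕ}
    {x : F3 3 × (Fin 3 → F1 3) × (Fin 3 → Fin 3 → Fin p → Pn 3) × (Fin q → Pn 3)}
    (hx : x ∈ Dat θ a ε R e) (h0 : ∀ j, a j = e + 2 → x.2.2.2 j = 0) : IsB θ x.1 := by
  obtain ⟨h1, h2, h3, h4, h5⟩ := hx
  refine koszul_step h (K := 1) one_pos (c := x.2.1) (fun l i j k => ?_) (u := x.2.2.1)
    (fun l m j => ?_) (f := x.2.2.2) (fun i => ?_) (fun j => ?_)
  · rw [pow_one]
    exact h1 l i j k
  · rw [pow_one, pow_one]
    exact h2 l m j
  · rw [pow_one, pow_one, pow_one]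
    exact h3 i
  · rcases lt_trichotomy (a j) (e + 2) with hj | hj | hj
    · exact soc_pos (h4 j) (by omega)
    · rw [h0 j hj]
      exact ⟨fun _ => 0, by simp⟩
    · rw [h5 j hj]
      exact ⟨fun _ => 0, by simp⟩

/-- no socle in degrees without relations -/
theorem soc_of_pres {θ : F2 3} (hθ : ∀ i j, (θ i j).IsHomogeneous 3) {p q : ℕ} {g : Fin p → ℕ}
    {a : Fin q → ℕ} {ε : Fin p → F1 3} {R : Fin q → Fin p → Pn 3} (h : Pres θ g a ε R) {d : ℕ}
    (hd : ∀ j, a j ≠ d) {b : F3 3} (hb : ∀ i j k, (b i j k).IsHomogeneous d)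
    (hx : ∀ l : Fin 3, IsB θ (fun i j k => X l * b i j k)) : IsB θ b := by
  rcases lt_or_ge d 2 with hd2 | hd2
  · rw [soc_low hθ hd2 hb hx]
    exact IsB.zero' θ
  · obtain ⟨e, rfl⟩ : ∃ e, d = e + 2 := ⟨d - 2, by omega⟩
    obtain ⟨x, hx1, rfl⟩ := soc_data hθ h hb hx
    exact soc_core h hx1 fun j hj => absurd hj (hd j)

/-- 3-forms of degree `d` moved into `B` by all linear forms -/
noncomputable def SB (θ : F2 n) (d : ℕ) : Submodule ℂ (F3 n) where
  carrier := {b | (∀ i j k, (b i j k).IsHomogeneous d) ∧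
    ∀ l : Fin n, IsB θ (fun i j k => X l * b i j k)}
  add_mem' := by
    rintro a b ⟨h1, h2⟩ ⟨h3, h4⟩
    refine ⟨fun i j k => (h1 i j k).add (h3 i j k), fun l => ?_⟩
    obtain ⟨c, hc⟩ := (h2 l).add (h4 l)
    refine ⟨c, fun i j k => ?_⟩
    rw [← hc]
    show X l * (a i j k + b i j k) = _
    ring
  zero_mem' := by
    refine ⟨fun i j k => isHomogeneous_zero _ _ _, fun l => ⟨fun _ => 0, fun i j k => ?_⟩⟩
    simp [w12]
  smul_mem' := by
    rintro c a ⟨h1, h2⟩
    refine ⟨fun i j k => ?_, fun l => ?_⟩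
    · have := (isHomogeneous_C (Fin n) c).mul (h1 i j k)
      rw [zero_add] at this
      rw [Pi.smul_apply, Pi.smul_apply, Pi.smul_apply, smul_eq_C_mul]
      exact this
    · obtain ⟨e, he⟩ := (h2 l).smul (C c)
      refine ⟨e, fun i j k => ?_⟩
      rw [← he]
      show X l * (c • a i j k) = C c * (X l * a i j k)
      rw [smul_eq_C_mul]
      ring

private theorem finite_SB (θ : F2 3) (d : ℕ) : Module.Finite ℂ (SB θ d) := by
  have := finite_BS θ d
  have hle : SB θ d ≤ BS θ d := fun b hb =>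
    ⟨hb.1, IsBsat_of_X fun l => ⟨1, by simpa only [pow_one] using hb.2 l⟩⟩
  exact Module.Finite.of_injective (Submodule.inclusion hle) (Submodule.inclusion_injective _)

private theorem soc_lin {E : Type*} [AddCommGroup E] [Module ℂ E] (V W : Submodule ℂ E)
    [Module.Finite ℂ V] [Module.Finite ℂ W] {ι : Type*} [Fintype ι] (μ : V →ₗ[ℂ] (ι → ℂ))
    (h : ∀ v : V, μ v = 0 → (v : E) ∈ W) :
    Module.finrank ℂ V ≤ Module.finrank ℂ W + Fintype.card ι := by
  have h1 := LinearMap.finrank_range_add_finrank_ker μ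
  have h2 : Module.finrank ℂ (LinearMap.range μ) ≤ Fintype.card ι := by
    have := Submodule.finrank_le (LinearMap.range μ)
    rwa [Module.finrank_fintype_fun_eq_card] at this
  have h3 : Module.finrank ℂ (LinearMap.ker μ) ≤ Module.finrank ℂ W := by
    let i : LinearMap.ker μ →ₗ[ℂ] W :=
      (V.subtype.comp (LinearMap.ker μ).subtype).codRestrict W (fun v => h v.1 v.2)
    refine LinearMap.finrank_le_finrank_of_injective (f := i) fun x y hxy => ?_
    have h4 : ((i x : W) : E) = (i y : W) := by rw [hxy]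
    exact Subtype.ext (Subtype.ext h4)
  omega

/-- the socle in degree `d` has dimension at most the number of relations of degree `d` -/
theorem soc_count {θ : F2 3} (hθ : ∀ i j, (θ i j).IsHomogeneous 3) {p q : ℕ} {g : Fin p → ℕ}
    {a : Fin q → ℕ} {ε : Fin p → F1 3} {R : Fin q → Fin p → Pn 3} (h : Pres θ g a ε R) (d : ℕ) :
    Module.finrank ℂ (SB θ d) ≤
      Module.finrank ℂ (BB θ d) + (Finset.univ.filter (fun j => a j = d)).card := by
  have fin1 := finite_SB θ d
  have fin2 := finite_BB θ d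
  rcases lt_or_ge d 2 with hd2 | hd2
  · have h0 : SB θ d = ⊥ := by
      rw [eq_bot_iff]
      intro b hb
      exact soc_low hθ hd2 hb.1 hb.2
    rw [h0, finrank_bot]
    exact Nat.zero_le _
  · obtain ⟨e, rfl⟩ : ∃ e, d = e + 2 := ⟨d - 2, by omega⟩
    let π : Dat θ a ε R e →ₗ[ℂ] F3 3 := (LinearMap.fst ℂ _ _).comp (Dat θ a ε R e).subtype
    have hπ : ∀ b : SB θ (e + 2), ∃ x : Dat θ a ε R e, π x = b.1 := by
      rintro ⟨b, hb1, hb2⟩
      obtain ⟨x, hx1, hx2⟩ := soc_data hθ h hb1 hb2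
      exact ⟨⟨x, hx1⟩, hx2⟩
    obtain ⟨σ, hσ⟩ : ∃ σ : SB θ (e + 2) →ₗ[ℂ] Dat θ a ε R e, ∀ b, π (σ b) = b.1 := by
      let bs := Module.Free.chooseBasis ℂ (SB θ (e + 2))
      choose s hs using hπ
      refine ⟨bs.constr ℂ (fun t => s (bs t)), fun b => ?_⟩
      have h1 : π ∘ₗ (bs.constr ℂ (fun t => s (bs t))) = (SB θ (e + 2)).subtype := by
        refine bs.ext fun t => ?_
        rw [LinearMap.comp_apply, bs.constr_basis, hs]
        rfl
      exact LinearMap.congr_fun h1 b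
    let κ : Dat θ a ε R e →ₗ[ℂ] ({j : Fin q // a j = e + 2} → ℂ) :=
      { toFun := fun x j => coeff 0 (x.1.2.2.2 j.1)
        map_add' := fun x y => by
          funext j
          show coeff 0 (x.1.2.2.2 j.1 + y.1.2.2.2 j.1) = _
          rw [coeff_add]
          rfl
        map_smul' := fun c x => by
          funext j
          show coeff 0 (c • x.1.2.2.2 j.1) = _
          rw [coeff_smul]
          rfl }
    have h1 := soc_lin (SB θ (e + 2)) (BB θ (e + 2)) (κ ∘ₗ σ) (fun v hv => by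
      have h2 : IsB θ (σ v).1.1 := by
        refine soc_core h (σ v).2 fun j hj => ?_
        have h3 : coeff 0 ((σ v).1.2.2.2 j) = 0 := congrFun hv ⟨j, hj⟩
        have h4 : ((σ v).1.2.2.2 j).IsHomogeneous 0 := by
          have := (σ v).2.2.2.2.1 j
          rwa [hj, Nat.sub_self] at this
        rw [← totalDegree_zero_iff_isHomogeneous, totalDegree_eq_zero_iff_eq_C] at h4
        rw [h4, h3, C_0]
      have h5 : (σ v).1.1 = v.1 := hσ v
      rw [h5] at h2
      exact ⟨v.2.1, h2⟩)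
    rwa [Fintype.card_subtype] at h1

/-- annihilators of `M` -/
theorem kill {θ : F2 3} {p q : ℕ} {g : Fin p → ℕ} {a : Fin q → ℕ} {ε : Fin p → F1 3}
    {R : Fin q → Fin p → Pn 3} (h : Pres θ g a ε R) {δ : Pn 3} (A : Fin p → Fin q → Pn 3)
    (hA : ∀ j j', (∑ i, R j i * A i j') = if j = j' then δ else 0) {b : F3 3} (hb : IsBsat θ b) :
    IsB θ (fun i j k => δ * b i j k) := by
  obtain ⟨K0, hK0⟩ := hb
  obtain ⟨K, hK, hKb⟩ : ∃ K, 0 < K ∧ ∀ f : Pn 3, f.IsHomogeneous K →
      IsB θ (fun i j k => f * b i j k) := ⟨K0 + 1, Nat.succ_pos _, IsB_up (Nat.le_succ K0) hK0⟩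
  have h1 : ∀ l : Fin 3, ∃ c : F1 3, ∀ i j k, X l ^ K * b i j k = w12 c θ i j k := by
    intro l
    have h2 := hKb (X l ^ K) (by
      have := isHomogeneous_X_pow (R := ℂ) l K
      exact this)
    exact h2
  choose c hc using h1
  have h2 : ∀ l m : Fin 3, ∃ u : Fin p → Pn 3, ∀ j, X m ^ K * c l j - X l ^ K * c m j =
      ∑ i, u i * ε i j := by
    intro l m
    refine (h.gen (fun j => X m ^ K * c l j - X l ^ K * c m j)).1 fun i j k => ?_
    rw [Pool.Agent.Helper71.FL.w12_sub (fun j => X m ^ K * c l j) (fun j => X l ^ K * c m j),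
      Pool.Agent.Helper71.FL.w12_smul, Pool.Agent.Helper71.FL.w12_smul, ← hc, ← hc]
    ring
  choose u hu using h2
  obtain ⟨f, hf⟩ := (h.rel (fun i => X 2 ^ K * u 0 1 i - X 1 ^ K * u 0 2 i +
      X 0 ^ K * u 1 2 i)).1 (fun j => by
    have e1 := hu 0 1 j
    have e2 := hu 0 2 j
    have e3 := hu 1 2 j
    have e4 : ∑ i, (X 2 ^ K * u 0 1 i - X 1 ^ K * u 0 2 i + X 0 ^ K * u 1 2 i) * ε i j =
        X 2 ^ K * (∑ i, u 0 1 i * ε i j) - X 1 ^ K * (∑ i, u 0 2 i * ε i j) +
          X 0 ^ K * (∑ i, u 1 2 i * ε i j) := by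
      rw [Finset.mul_sum, Finset.mul_sum, Finset.mul_sum, ← Finset.sum_sub_distrib,
        ← Finset.sum_add_distrib]
      exact Finset.sum_congr rfl fun i _ => by ring
    rw [e4, ← e1, ← e2, ← e3]
    ring)
  refine koszul_step h hK (c := fun l j => δ * c l j) (fun l i j k => ?_)
    (u := fun l m i => δ * u l m i) (fun l m j => ?_) (f := fun j => δ * f j) (fun i => ?_)
    (fun j => ?_)
  · rw [Pool.Agent.Helper71.FL.w12_smul, ← hc]
    ring
  · have h3 := hu l m j
    simp only [mul_assoc, ← Finset.mul_sum, ← h3]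
    ring
  · have h3 := hf i
    simp only [mul_assoc, ← Finset.mul_sum, ← h3]
    ring
  · have h3 : δ * f j = ∑ i, (X 2 ^ K * u 0 1 i - X 1 ^ K * u 0 2 i +
        X 0 ^ K * u 1 2 i) * A i j := by
      have h4 : ∀ i, (X 2 ^ K * u 0 1 i - X 1 ^ K * u 0 2 i + X 0 ^ K * u 1 2 i) * A i j =
          ∑ j', f j' * (R j' i * A i j) := by
        intro i
        rw [hf i, Finset.sum_mul]
        exact Finset.sum_congr rfl fun j' _ => by ring
      simp only [h4]
      rw [Finset.sum_comm]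
      simp only [← Finset.mul_sum, hA]
      rw [Finset.sum_eq_single j (fun j' _ hj' => by rw [if_neg hj', mul_zero])
        (fun hj => absurd (Finset.mem_univ j) hj), if_pos rfl, mul_comm]
    refine ⟨![∑ i, u 1 2 i * A i j, -∑ i, u 0 2 i * A i j, ∑ i, u 0 1 i * A i j], ?_⟩
    rw [h3, Fin.sum_univ_three]
    simp only [Matrix.cons_val_zero, Matrix.cons_val_one, Matrix.cons_val]
    rw [mul_neg, Finset.mul_sum, Finset.mul_sum, Finset.mul_sum, ← Finset.sum_neg_distrib,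
      ← Finset.sum_add_distrib, ← Finset.sum_add_distrib]
    exact Finset.sum_congr rfl fun i _ => by ring

private theorem BS_mul_X {θ : F2 3} {d : ℕ} {b : F3 3} (hb : b ∈ BS θ d) (l : Fin 3) :
    (fun i j k => X l * b i j k) ∈ BS θ (d + 1) := by
  refine ⟨fun i j k => ?_, hb.2.smul _⟩
  have := (isHomogeneous_X ℂ l).mul (hb.1 i j k)
  rwa [add_comm] at this

/-- `M` vanishes above the largest relation degree -/
theorem mM_top {θ : F2 3} (hθ : ∀ i j, (θ i j).IsHomogeneous 3) {p q : ℕ} {g : Fin p → ℕ}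
    {a : Fin q → ℕ} {ε : Fin p → F1 3} {R : Fin q → Fin p → Pn 3} (h : Pres θ g a ε R) {d : ℕ}
    (hd : ∀ j, a j < d) : mM θ d = 0 := by
  obtain ⟨D, hD⟩ := BS_large hθ
  have key : ∀ t d : ℕ, (∀ j, a j < d) → D ≤ d + t → ∀ b ∈ BS θ d, IsB θ b := by
    intro t
    induction t with
    | zero =>
      intro d _ h2 b hb
      exact hD d (by omega) b hb
    | succ t ih =>
      intro d h1 h2 b hb
      refine soc_of_pres hθ h (fun j => (h1 j).ne) hb.1 fun l => ?_
      exact ih (d + 1) (fun j => by have := h1 j; omega) (by omega) _ (BS_mul_X hb l)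
  rw [mM_eq_zero_iff]
  exact key D d hd (by omega)

private theorem kill_one {θ : F2 3} {p : ℕ} {g : Fin p → ℕ} {a : Fin 1 → ℕ} {ε : Fin p → F1 3}
    {R : Fin 1 → Fin p → Pn 3} (h : Pres θ g a ε R) (t : Fin p) {b : F3 3} (hb : IsBsat θ b) :
    IsB θ (fun i j k => R 0 t * b i j k) := by
  refine kill h (fun i _ => if i = t then 1 else 0) (fun j j' => ?_) hb
  rw [Subsingleton.elim j 0, Subsingleton.elim j' 0, if_pos rfl]
  simp

private theorem BS_soc {θ : F2 3} (hθ : ∀ i j, (θ i j).IsHomogeneous 3) {p q : ℕ} {g : Fin p → ℕ}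
    {a : Fin q → ℕ} {ε : Fin p → F1 3} {R : Fin q → Fin p → Pn 3} (h : Pres θ g a ε R) {d : ℕ}
    (hd : mM θ (d + 1) = 0) :
    mM θ d ≤ (Finset.univ.filter (fun j => a j = d)).card := by
  have h1 : BS θ d ≤ SB θ d := fun b hb =>
    ⟨hb.1, fun l => (mM_eq_zero_iff θ (d + 1)).1 hd _ (BS_mul_X hb l)⟩
  have fin1 := finite_SB θ d
  have h2 := Submodule.finrank_mono h1
  have h3 := soc_count hθ h d
  unfold mM
  omega

/-- one relation of degree 3 whose coefficients are three independent linear forms: `M = (0, 1, 0)` in degrees 2, 3, 4 -/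
theorem mP_3a {θ : F2 3} (hθ : ∀ i j, (θ i j).IsHomogeneous 3) {g : Fin 3 → ℕ} {a : Fin 1 → ℕ}
    {ε : Fin 3 → F1 3} {R : Fin 1 → Fin 3 → Pn 3} (h : Pres θ g a ε R) (hg : ∀ i, g i = 2)
    (ha : a 0 = 3) (hr : ∀ l : Fin 3, ∃ c : Fin 3 → ℂ, X l = ∑ i, C (c i) * R 0 i) (d : ℕ) :
    mM θ d ≤ if d = 3 then 1 else 0 := by
  have ha' : ∀ j, a j = 3 := fun j => by rw [Subsingleton.elim j 0, ha]
  split_ifs with hd
  · subst hd
    refine (BS_soc hθ h (mM_top hθ h fun j => by rw [ha' j]; omega)).trans ?_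
    exact (Finset.card_le_univ _).trans (by simp)
  · rw [Nat.le_zero, mM_eq_zero_iff]
    intro b hb
    refine soc_of_pres hθ h (fun j => by rw [ha' j]; exact Ne.symm hd) hb.1 fun l => ?_
    obtain ⟨c, hc⟩ := hr l
    have h1 := IsB.sum' (θ := θ) Finset.univ (fun t i j k => C (c t) * (R 0 t * b i j k))
      (fun t _ => (kill_one h t hb.2).smul (C (c t)))
    have h2 : (fun i j k => X l * b i j k) = fun i j k => ∑ t, C (c t) * (R 0 t * b i j k) := by
      funext i j k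
      rw [hc, Finset.sum_mul]
      exact Finset.sum_congr rfl fun t _ => by ring
    rwa [h2]

private theorem soc_dual {E : Type*} [AddCommGroup E] [Module ℂ E] (V W : Submodule ℂ E)
    [Module.Finite ℂ V] [Module.Finite ℂ W] {U : Type*} [AddCommGroup U] [Module ℂ U]
    [Module.Finite ℂ U] (U0 : Submodule ℂ U) (L : V →ₗ[ℂ] Module.Dual ℂ U)
    (h : ∀ v : V, L v = 0 → (v : E) ∈ W) (h0 : ∀ v, ∀ u ∈ U0, L v u = 0) :
    Module.finrank ℂ V + Module.finrank ℂ U0 ≤ Module.finrank ℂ W + Module.finrank ℂ U := by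
  have h1 := LinearMap.finrank_range_add_finrank_ker L
  have h2 : Module.finrank ℂ (LinearMap.range L) ≤ Module.finrank ℂ U0.dualAnnihilator := by
    refine Submodule.finrank_mono ?_
    rintro _ ⟨v, rfl⟩
    rw [Submodule.mem_dualAnnihilator]
    exact fun u hu => h0 v u hu
  have h3 : Module.finrank ℂ (LinearMap.ker L) ≤ Module.finrank ℂ W := by
    let i : LinearMap.ker L →ₗ[ℂ] W :=
      (V.subtype.comp (LinearMap.ker L).subtype).codRestrict W (fun v => h v.1 v.2)
    refine LinearMap.finrank_le_finrank_of_injective (f := i) fun x y hxy => ?_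
    have h4 : ((i x : W) : E) = (i y : W) := by rw [hxy]
    exact Subtype.ext (Subtype.ext h4)
  have h5 := Subspace.finrank_add_finrank_dualAnnihilator_eq U0
  omega

private theorem soc_functional {E : Type*} [AddCommGroup E] [Module ℂ E] (V W : Submodule ℂ E)
    [Module.Finite ℂ V] (hWV : W ≤ V) (h : Module.finrank ℂ V ≤ Module.finrank ℂ W + 1) :
    ∃ μ : V →ₗ[ℂ] ℂ, ∀ v : V, μ v = 0 ↔ (v : E) ∈ W := by
  let W' : Submodule ℂ V := W.comap V.subtype
  have h1 : Module.finrank ℂ W' = Module.finrank ℂ W :=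
    (Submodule.comapSubtypeEquivOfLe hWV).finrank_eq
  have h2 := Submodule.finrank_quotient_add_finrank W'
  have h3 : Module.finrank ℂ (V ⧸ W') ≤ 1 := by omega
  have h4 : ∃ ν : (V ⧸ W') →ₗ[ℂ] ℂ, Function.Injective ν := by
    rcases Nat.eq_zero_or_pos (Module.finrank ℂ (V ⧸ W')) with h5 | h5
    · have : Subsingleton (V ⧸ W') := Module.finrank_zero_iff.1 h5
      exact ⟨0, fun x y _ => Subsingleton.elim x y⟩
    · have h6 : Module.finrank ℂ (V ⧸ W') = Module.finrank ℂ ℂ := by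
        rw [Module.finrank_self]
        omega
      exact ⟨(LinearEquiv.ofFinrankEq _ _ h6).toLinearMap, (LinearEquiv.ofFinrankEq _ _ h6).injective⟩
  obtain ⟨ν, hν⟩ := h4
  refine ⟨ν ∘ₗ W'.mkQ, fun v => ?_⟩
  rw [LinearMap.comp_apply, map_eq_zero_iff ν hν, Submodule.mkQ_apply,
    Submodule.Quotient.mk_eq_zero]
  rfl

private theorem soc_homog_span (d : ℕ) :
    homogeneousSubmodule (Fin 3) ℂ d =
      Submodule.span ℂ (Set.range fun e : {P : Fin 3 →₀ ℕ // P.sum (fun _ => id) = d} =>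
        (basisMonomials (Fin 3) ℂ) e.1) := by
  have hdeg : ∀ P : Fin 3 →₀ ℕ, P.sum (fun _ => id) = P.degree := fun P => rfl
  apply le_antisymm
  · intro f hf
    rw [mem_homogeneousSubmodule] at hf
    rw [f.as_sum]
    refine Submodule.sum_mem _ fun e he => ?_
    have h1 : (monomial e (coeff e f) : MvPolynomial (Fin 3) ℂ) =
        coeff e f • (basisMonomials (Fin 3) ℂ) e := by
      rw [coe_basisMonomials, smul_monomial, smul_eq_mul, mul_one]
    rw [h1]
    refine Submodule.smul_mem _ _ (Submodule.subset_span ⟨⟨e, ?_⟩, rfl⟩)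
    rw [hdeg]
    by_contra h
    exact (mem_support_iff.1 he) (hf.coeff_eq_zero h)
  · rw [Submodule.span_le]
    rintro _ ⟨⟨e, he⟩, rfl⟩
    rw [SetLike.mem_coe, mem_homogeneousSubmodule, coe_basisMonomials]
    rw [hdeg] at he
    exact isHomogeneous_monomial 1 he

private theorem soc_homog_finrank (d : ℕ) :
    Module.finrank ℂ (homogeneousSubmodule (Fin 3) ℂ d) = Nat.multichoose 3 d := by
  classical
  have : Fintype {P : Fin 3 →₀ ℕ // P.sum (fun _ => id) = d} :=
    Fintype.ofEquiv _ (Sym.equivNatSum (Fin 3) d)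
  rw [soc_homog_span, finrank_span_eq_card, ← Fintype.card_congr (Sym.equivNatSum (Fin 3) d),
    Sym.card_sym_eq_multichoose, Fintype.card_fin]
  exact (basisMonomials (Fin 3) ℂ).linearIndependent.comp Subtype.val Subtype.val_injective

private theorem soc_homog_fin (d : ℕ) : Module.Finite ℂ (homogeneousSubmodule (Fin 3) ℂ d) :=
  Module.Finite.iff_fg.mpr (homogeneousSubmodule_fg (Fin 3) ℂ d)

section koszul3

variable {r0 r1 r2 : Pn 3} (h0 : r0.IsHomogeneous 2) (h1 : r1.IsHomogeneous 2)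
  (h2 : r2.IsHomogeneous 1)

private noncomputable def P2 (h0 : r0.IsHomogeneous 2) (h1 : r1.IsHomogeneous 2)
    (h2 : r2.IsHomogeneous 1) : (homogeneousSubmodule (Fin 3) ℂ 1 × ℂ × ℂ) →ₗ[ℂ]
      homogeneousSubmodule (Fin 3) ℂ 2 where
  toFun x := ⟨x.1.1 * r2 + C x.2.1 * r0 + C x.2.2 * r1, by
    rw [mem_homogeneousSubmodule]
    have e1 := (isHomogeneous_C (Fin 3) x.2.1).mul h0
    have e2 := (isHomogeneous_C (Fin 3) x.2.2).mul h1
    rw [zero_add] at e1 e2
    exact ((((mem_homogeneousSubmodule _ _).1 x.1.2).mul h2).add e1).add e2⟩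
  map_add' x y := by
    apply Subtype.ext
    show (x.1.1 + y.1.1) * r2 + C (x.2.1 + y.2.1) * r0 + C (x.2.2 + y.2.2) * r1 =
      (x.1.1 * r2 + C x.2.1 * r0 + C x.2.2 * r1) + (y.1.1 * r2 + C y.2.1 * r0 + C y.2.2 * r1)
    rw [C_add, C_add]
    ring
  map_smul' c x := by
    apply Subtype.ext
    show (c • x.1.1) * r2 + C (c * x.2.1) * r0 + C (c * x.2.2) * r1 =
      c • (x.1.1 * r2 + C x.2.1 * r0 + C x.2.2 * r1)
    rw [C_mul, C_mul, smul_eq_C_mul, smul_eq_C_mul]
    ring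

private noncomputable def P3 (h0 : r0.IsHomogeneous 2) (h1 : r1.IsHomogeneous 2)
    (h2 : r2.IsHomogeneous 1) : (homogeneousSubmodule (Fin 3) ℂ 2 ×
      homogeneousSubmodule (Fin 3) ℂ 1 × homogeneousSubmodule (Fin 3) ℂ 1) →ₗ[ℂ]
      homogeneousSubmodule (Fin 3) ℂ 3 where
  toFun x := ⟨x.1.1 * r2 + x.2.1.1 * r0 + x.2.2.1 * r1, by
    rw [mem_homogeneousSubmodule]
    have e0 := ((mem_homogeneousSubmodule _ _).1 x.1.2).mul h2
    have e1 := ((mem_homogeneousSubmodule _ _).1 x.2.1.2).mul h0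
    have e2 := ((mem_homogeneousSubmodule _ _).1 x.2.2.2).mul h1
    exact (e0.add e1).add e2⟩
  map_add' x y := by
    apply Subtype.ext
    show (x.1.1 + y.1.1) * r2 + (x.2.1.1 + y.2.1.1) * r0 + (x.2.2.1 + y.2.2.1) * r1 =
      (x.1.1 * r2 + x.2.1.1 * r0 + x.2.2.1 * r1) + (y.1.1 * r2 + y.2.1.1 * r0 + y.2.2.1 * r1)
    ring
  map_smul' c x := by
    apply Subtype.ext
    show (c • x.1.1) * r2 + (c • x.2.1.1) * r0 + (c • x.2.2.1) * r1 =
      c • (x.1.1 * r2 + x.2.1.1 * r0 + x.2.2.1 * r1)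
    simp only [smul_eq_C_mul]
    ring

private theorem P2_val (h0 : r0.IsHomogeneous 2) (h1 : r1.IsHomogeneous 2)
    (h2 : r2.IsHomogeneous 1) (x : homogeneousSubmodule (Fin 3) ℂ 1 × ℂ × ℂ) :
    (P2 h0 h1 h2 x).1 = x.1.1 * r2 + C x.2.1 * r0 + C x.2.2 * r1 := rfl

private theorem P3_val (h0 : r0.IsHomogeneous 2) (h1 : r1.IsHomogeneous 2)
    (h2 : r2.IsHomogeneous 1) (x : homogeneousSubmodule (Fin 3) ℂ 2 ×
      homogeneousSubmodule (Fin 3) ℂ 1 × homogeneousSubmodule (Fin 3) ℂ 1) :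
    (P3 h0 h1 h2 x).1 = x.1.1 * r2 + x.2.1.1 * r0 + x.2.2.1 * r1 := rfl

private theorem r2_ne (h0 : r0.IsHomogeneous 2) (h1 : r1.IsHomogeneous 2)
    (hr : ∀ p0 p1 p2 : Pn 3, p0 * r0 + p1 * r1 + p2 * r2 = 0 →
      ∃ u0 u1 u2 : Pn 3, p0 = r1 * u2 - r2 * u1 ∧ p1 = r2 * u0 - r0 * u2 ∧
        p2 = r0 * u1 - r1 * u0) : r2 ≠ 0 := by
  intro h
  obtain ⟨u0, u1, u2, -, -, h3⟩ := hr 0 0 1 (by rw [h]; ring)
  have h4 := congrArg (homogeneousComponent 0) h3
  rw [map_sub, mul_comm r0, mul_comm r1, sat_hc_low 0 2 (by omega) u1 r0 h0,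
    sat_hc_low 0 2 (by omega) u0 r1 h1, homogeneousComponent_zero, sub_zero, coeff_zero_one,
    C_1] at h4
  exact one_ne_zero h4

private theorem P2_inj (h0 : r0.IsHomogeneous 2) (h1 : r1.IsHomogeneous 2)
    (h2 : r2.IsHomogeneous 1)
    (hr : ∀ p0 p1 p2 : Pn 3, p0 * r0 + p1 * r1 + p2 * r2 = 0 →
      ∃ u0 u1 u2 : Pn 3, p0 = r1 * u2 - r2 * u1 ∧ p1 = r2 * u0 - r0 * u2 ∧
        p2 = r0 * u1 - r1 * u0) : Function.Injective (P2 h0 h1 h2) := by
  rw [← LinearMap.ker_eq_bot, LinearMap.ker_eq_bot']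
  rintro ⟨⟨p, hp⟩, α, β⟩ hx
  have h3 : p * r2 + C α * r0 + C β * r1 = 0 := congrArg Subtype.val hx
  obtain ⟨u0, u1, u2, e0, e1, e2⟩ := hr (C α) (C β) p (by linear_combination h3)
  have f0 := congrArg (homogeneousComponent 0) e0
  have f1 := congrArg (homogeneousComponent 0) e1
  rw [map_sub, mul_comm r1, mul_comm r2, sat_hc_low 0 2 (by omega) u2 r1 h1,
    sat_hc_low 0 1 (by omega) u1 r2 h2, homogeneousComponent_zero, sub_zero, coeff_zero_C,
    C_eq_zero] at f0
  rw [map_sub, mul_comm r2, mul_comm r0, sat_hc_low 0 2 (by omega) u2 r0 h0,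
    sat_hc_low 0 1 (by omega) u0 r2 h2, homogeneousComponent_zero, sub_zero, coeff_zero_C,
    C_eq_zero] at f1
  rw [f0, f1, C_0, zero_mul, zero_mul, add_zero, add_zero] at h3
  have h4 : p = 0 := (mul_eq_zero.1 h3).resolve_right (r2_ne h0 h1 hr)
  subst h4
  rw [f0, f1]
  rfl

private theorem P3_surj (h0 : r0.IsHomogeneous 2) (h1 : r1.IsHomogeneous 2)
    (h2 : r2.IsHomogeneous 1)
    (hr : ∀ p0 p1 p2 : Pn 3, p0 * r0 + p1 * r1 + p2 * r2 = 0 →
      ∃ u0 u1 u2 : Pn 3, p0 = r1 * u2 - r2 * u1 ∧ p1 = r2 * u0 - r0 * u2 ∧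
        p2 = r0 * u1 - r1 * u0) : Function.Surjective (P3 h0 h1 h2) := by
  have fin1 := soc_homog_fin 1
  have fin2 := soc_homog_fin 2
  have fin3 := soc_homog_fin 3
  let T : (ℂ × ℂ) →ₗ[ℂ] (homogeneousSubmodule (Fin 3) ℂ 2 ×
      homogeneousSubmodule (Fin 3) ℂ 1 × homogeneousSubmodule (Fin 3) ℂ 1) :=
    LinearMap.prod ((LinearMap.snd ℂ ℂ ℂ).smulRight
        (⟨r0, (mem_homogeneousSubmodule _ _).2 h0⟩ : homogeneousSubmodule (Fin 3) ℂ 2) -
      (LinearMap.fst ℂ ℂ ℂ).smulRight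
        (⟨r1, (mem_homogeneousSubmodule _ _).2 h1⟩ : homogeneousSubmodule (Fin 3) ℂ 2))
      (LinearMap.prod (-(LinearMap.snd ℂ ℂ ℂ).smulRight
        (⟨r2, (mem_homogeneousSubmodule _ _).2 h2⟩ : homogeneousSubmodule (Fin 3) ℂ 1))
        ((LinearMap.fst ℂ ℂ ℂ).smulRight
        (⟨r2, (mem_homogeneousSubmodule _ _).2 h2⟩ : homogeneousSubmodule (Fin 3) ℂ 1)))
  have hker : LinearMap.ker (P3 h0 h1 h2) ≤ LinearMap.range T := by
    rintro ⟨⟨p2, hp2⟩, ⟨p0, hp0⟩, ⟨p1, hp1⟩⟩ hx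
    have h3 : p2 * r2 + p0 * r0 + p1 * r1 = 0 := congrArg Subtype.val hx
    obtain ⟨u0, u1, u2, e0, e1, e2⟩ := hr p0 p1 p2 (by linear_combination h3)
    have f0 := congrArg (homogeneousComponent 1) e0
    have f1 := congrArg (homogeneousComponent 1) e1
    have f2 := congrArg (homogeneousComponent 2) e2
    have g1 := sat_hc_mul 0 1 u1 r2 h2
    have g2 := sat_hc_mul 0 1 u0 r2 h2
    have g3 := sat_hc_mul 0 2 u1 r0 h0
    have g4 := sat_hc_mul 0 2 u0 r1 h1
    rw [zero_add, homogeneousComponent_zero] at g1 g2 g3 g4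
    rw [homogeneousComponent_eq_self ((mem_homogeneousSubmodule _ _).1 hp0), map_sub,
      mul_comm r1, mul_comm r2, sat_hc_low 1 2 (by omega) u2 r1 h1, g1] at f0
    rw [homogeneousComponent_eq_self ((mem_homogeneousSubmodule _ _).1 hp1), map_sub,
      mul_comm r2, mul_comm r0, sat_hc_low 1 2 (by omega) u2 r0 h0, g2] at f1
    rw [homogeneousComponent_eq_self ((mem_homogeneousSubmodule _ _).1 hp2), map_sub,
      mul_comm r0, mul_comm r1, g3, g4] at f2
    refine ⟨(coeff 0 u0, coeff 0 u1), ?_⟩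
    refine Prod.ext (Subtype.ext ?_) (Prod.ext (Subtype.ext ?_) (Subtype.ext ?_))
    · show coeff 0 u1 • r0 - coeff 0 u0 • r1 = p2
      rw [f2, smul_eq_C_mul, smul_eq_C_mul]
    · show -(coeff 0 u1 • r2) = p0
      rw [f0, smul_eq_C_mul, zero_sub]
    · show coeff 0 u0 • r2 = p1
      rw [f1, smul_eq_C_mul, sub_zero]
  have d1 := Submodule.finrank_mono hker
  have d2 := LinearMap.finrank_range_le T
  have d3 := LinearMap.finrank_range_add_finrank_ker (P3 h0 h1 h2)
  have d4 : Module.finrank ℂ (homogeneousSubmodule (Fin 3) ℂ 2 ×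
      homogeneousSubmodule (Fin 3) ℂ 1 × homogeneousSubmodule (Fin 3) ℂ 1) = 12 := by
    rw [Module.finrank_prod, Module.finrank_prod, soc_homog_finrank, soc_homog_finrank,
      Nat.multichoose_eq, Nat.multichoose_eq]
    rfl
  have d5 : Module.finrank ℂ (ℂ × ℂ) = 2 := by
    rw [Module.finrank_prod, Module.finrank_self]
  have d6 : Module.finrank ℂ (homogeneousSubmodule (Fin 3) ℂ 3) = 10 := by
    rw [soc_homog_finrank, Nat.multichoose_eq]
    rfl
  rw [← LinearMap.range_eq_top]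
  refine Submodule.eq_top_of_finrank_eq ?_
  have d7 := Submodule.finrank_le (LinearMap.range (P3 h0 h1 h2))
  omega

end koszul3

/-- one relation of degree 4 with coefficients `q, q', l` having only Koszul syzygies: `M = (1, 2, 1)` in degrees 2, 3, 4.
(`hr` in low degrees: `(r)_1 = ℂ l`, `dim (r)_2 = 3 + 2 = 5`, `dim (r)_3 = 6 + 3 + 3 - 2 = 10`, so `S/(r)` has dimensions `1, 2, 1, 0`; the `r_i`
kill `M` (`kill`), `M[d] = 0` for `d > 4` (`mM_top`), `dim M[4] ≤ 1` (`soc_count`), and `M[d] → Hom (S_(4-d)/(r)_(4-d), M[4])` is injective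
by `soc_of_pres`.) -/
theorem mP_4 {θ : F2 3} (hθ : ∀ i j, (θ i j).IsHomogeneous 3) {g : Fin 3 → ℕ} {a : Fin 1 → ℕ}
    {ε : Fin 3 → F1 3} {R : Fin 1 → Fin 3 → Pn 3} (h : Pres θ g a ε R) (hg0 : g 0 = 2)
    (hg1 : g 1 = 2) (hg2 : g 2 = 3) (ha : a 0 = 4)
    (hr : ∀ p0 p1 p2 : Pn 3, p0 * R 0 0 + p1 * R 0 1 + p2 * R 0 2 = 0 →
      ∃ u0 u1 u2 : Pn 3, p0 = R 0 1 * u2 - R 0 2 * u1 ∧ p1 = R 0 2 * u0 - R 0 0 * u2 ∧
        p2 = R 0 0 * u1 - R 0 1 * u0) (d : ℕ) :
    mM θ d ≤ if d = 2 then 1 else if d = 3 then 2 else if d = 4 then 1 else 0 := by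
  have ha' : ∀ j, a j = 4 := fun j => by rw [Subsingleton.elim j 0, ha]
  have r0h : (R 0 0).IsHomogeneous 2 := by have := h.hR 0 0; rwa [ha, hg0] at this
  have r1h : (R 0 1).IsHomogeneous 2 := by have := h.hR 0 1; rwa [ha, hg1] at this
  have r2h : (R 0 2).IsHomogeneous 1 := by have := h.hR 0 2; rwa [ha, hg2] at this
  have hsoc : ∀ {e : ℕ} {b : F3 3}, e ≠ 4 → (∀ i j k, (b i j k).IsHomogeneous e) →
      (∀ l : Fin 3, IsB θ (fun i j k => X l * b i j k)) → IsB θ b := by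
    intro e b he hb hx
    exact soc_of_pres hθ h (fun j => by rw [ha' j]; exact Ne.symm he) hb hx
  have m4 : mM θ 4 ≤ 1 := by
    refine (BS_soc hθ h (mM_top hθ h fun j => by rw [ha' j]; omega)).trans ?_
    exact (Finset.card_le_univ _).trans (by simp)
  have finBS := finite_BS θ
  have finBB := finite_BB θ
  have finS := soc_homog_fin
  obtain ⟨μ, hμ⟩ := soc_functional (BS θ 4) (BB θ 4) (BB_le_BS θ 4) (by
    have := m4
    unfold mM at this
    omega)
  have hmem : ∀ {e e' : ℕ} (he : e + e' = 4) (b : BS θ e) (u : homogeneousSubmodule (Fin 3) ℂ e'),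
      (fun i j k => u.1 * b.1 i j k) ∈ BS θ 4 := by
    intro e e' he b u
    refine ⟨fun i j k => ?_, b.2.2.smul _⟩
    have := ((mem_homogeneousSubmodule _ _).1 u.2).mul (b.2.1 i j k)
    rwa [add_comm, he] at this
  have hL : ∀ {e e' : ℕ} (he : e + e' = 4), ∃ L : BS θ e →ₗ[ℂ]
      Module.Dual ℂ (homogeneousSubmodule (Fin 3) ℂ e'),
      ∀ b u, L b u = μ ⟨fun i j k => u.1 * b.1 i j k, hmem he b u⟩ := by
    intro e e' he
    refine ⟨LinearMap.mk₂ ℂ (fun b u => μ ⟨fun i j k => u.1 * b.1 i j k, hmem he b u⟩)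
      (fun b b' u => ?_) (fun c b u => ?_) (fun b u u' => ?_) (fun c b u => ?_),
      fun b u => rfl⟩
    · rw [← map_add]
      congr 1
      apply Subtype.ext
      funext i j k
      show u.1 * (b.1 i j k + b'.1 i j k) = u.1 * b.1 i j k + u.1 * b'.1 i j k
      ring
    · rw [← map_smul]
      congr 1
      apply Subtype.ext
      funext i j k
      show u.1 * (c • b.1 i j k) = c • (u.1 * b.1 i j k)
      rw [smul_eq_C_mul, smul_eq_C_mul]
      ring
    · rw [← map_add]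
      congr 1
      apply Subtype.ext
      funext i j k
      show (u.1 + u'.1) * b.1 i j k = u.1 * b.1 i j k + u'.1 * b.1 i j k
      ring
    · rw [← map_smul]
      congr 1
      apply Subtype.ext
      funext i j k
      show (c • u.1) * b.1 i j k = c • (u.1 * b.1 i j k)
      rw [smul_eq_C_mul, smul_eq_C_mul]
      ring
  have hLB : ∀ {e e' : ℕ} (he : e + e' = 4) (L : BS θ e →ₗ[ℂ]
      Module.Dual ℂ (homogeneousSubmodule (Fin 3) ℂ e'))
      (_ : ∀ b u, L b u = μ ⟨fun i j k => u.1 * b.1 i j k, hmem he b u⟩) (b : BS θ e)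
      (u : homogeneousSubmodule (Fin 3) ℂ e'),
      L b u = 0 ↔ IsB θ (fun i j k => u.1 * b.1 i j k) := by
    intro e e' he L hL b u
    rw [hL, hμ]
    exact ⟨fun h => h.2, fun h => ⟨(hmem he b u).1, h⟩⟩
  have hX2 : ∀ l m : Fin 3, (X l * X m : Pn 3).IsHomogeneous 2 := fun l m =>
    (isHomogeneous_X ℂ l).mul (isHomogeneous_X ℂ m)
  split_ifs with hd2 hd3 hd4
  · -- degree two
    subst hd2
    obtain ⟨L, hL⟩ := hL (e := 2) (e' := 2) rfl
    have h5 := soc_dual (BS θ 2) (BB θ 2) (LinearMap.range (P2 r0h r1h r2h)) L (fun b hb => by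
      refine ⟨b.2.1, hsoc (by omega) b.2.1 fun l => ?_⟩
      refine hsoc (e := 3) (by omega) (BS_mul_X b.2 l).1 fun m => ?_
      have h6 := (hLB rfl L hL b ⟨X m * X l, (mem_homogeneousSubmodule _ _).2 (hX2 m l)⟩).1
        (by rw [hb]; rfl)
      have h7 : (fun i j k => X m * (X l * b.1 i j k)) = fun i j k => X m * X l * b.1 i j k := by
        funext i j k
        ring
      rw [h7]
      exact h6) (fun b u hu => by
      obtain ⟨⟨pp, α, β⟩, rfl⟩ := hu
      refine (hLB rfl L hL b _).2 ?_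
      have e0 := (kill_one h 0 b.2.2).smul (C α)
      have e1 := (kill_one h 1 b.2.2).smul (C β)
      have e2 := (kill_one h 2 b.2.2).smul pp.1
      have e3 := (e2.add e0).add e1
      have e4 : (fun i j k => ((P2 r0h r1h r2h) (pp, α, β)).1 * b.1 i j k) =
          fun i j k => pp.1 * (R 0 2 * b.1 i j k) + C α * (R 0 0 * b.1 i j k) +
            C β * (R 0 1 * b.1 i j k) := by
        funext i j k
        rw [P2_val]
        ring
      rw [e4]
      exact e3)
    have h6 : Module.finrank ℂ (LinearMap.range (P2 r0h r1h r2h)) = 5 := by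
      rw [LinearMap.finrank_range_of_inj (P2_inj r0h r1h r2h hr), Module.finrank_prod,
        Module.finrank_prod, soc_homog_finrank, Nat.multichoose_eq, Module.finrank_self]
      rfl
    have h7 : Module.finrank ℂ (homogeneousSubmodule (Fin 3) ℂ 2) = 6 := by
      rw [soc_homog_finrank, Nat.multichoose_eq]
      rfl
    unfold mM
    omega
  · -- degree three
    subst hd3
    obtain ⟨L, hL⟩ := hL (e := 3) (e' := 1) rfl
    obtain ⟨r, hrv⟩ : ∃ r : homogeneousSubmodule (Fin 3) ℂ 1, r.1 = R 0 2 :=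
      ⟨⟨R 0 2, (mem_homogeneousSubmodule _ _).2 r2h⟩, rfl⟩
    have hr2 : r ≠ 0 := by
      intro h0
      rw [h0] at hrv
      exact r2_ne r0h r1h hr hrv.symm
    have h5 := soc_dual (BS θ 3) (BB θ 3) (Submodule.span ℂ {r}) L (fun b hb => by
      refine ⟨b.2.1, hsoc (by omega) b.2.1 fun l => ?_⟩
      exact (hLB rfl L hL b ⟨X l, (mem_homogeneousSubmodule _ _).2 (isHomogeneous_X ℂ l)⟩).1
        (by rw [hb]; rfl)) (fun b u hu => by
      obtain ⟨c, rfl⟩ := Submodule.mem_span_singleton.1 hu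
      have e0 := kill_one h 2 b.2.2
      rw [← hrv] at e0
      have e1 : L b r = 0 := (hLB rfl L hL b r).2 e0
      rw [map_smul, e1, smul_zero])
    rw [finrank_span_singleton hr2] at h5
    have h7 : Module.finrank ℂ (homogeneousSubmodule (Fin 3) ℂ 1) = 3 := by
      rw [soc_homog_finrank, Nat.multichoose_eq]
      rfl
    unfold mM
    omega
  · rw [hd4]
    exact m4
  · rcases lt_or_ge 4 d with hd5 | hd5
    · exact (mM_top hθ h fun j => by rw [ha' j]; omega).le
    · rw [Nat.le_zero, mM_eq_zero_iff]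
      intro b hb
      have cub : ∀ f : Pn 3, f.IsHomogeneous 3 → IsB θ (fun i j k => f * b i j k) := by
        intro f hf
        obtain ⟨⟨p2, p0, p1⟩, hp⟩ := P3_surj r0h r1h r2h hr
          ⟨f, (mem_homogeneousSubmodule _ _).2 hf⟩
        have e0 := (kill_one h 0 hb.2).smul p0.1
        have e1 := (kill_one h 1 hb.2).smul p1.1
        have e2 := (kill_one h 2 hb.2).smul p2.1
        have e3 := (e2.add e0).add e1
        have hf' : p2.1 * R 0 2 + p0.1 * R 0 0 + p1.1 * R 0 1 = f := by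
          have e5 := P3_val r0h r1h r2h (p2, p0, p1)
          rw [hp] at e5
          exact e5.symm
        have e4 : (fun i j k => f * b i j k) =
            fun i j k => p2.1 * (R 0 2 * b i j k) + p0.1 * (R 0 0 * b i j k) +
              p1.1 * (R 0 1 * b i j k) := by
          funext i j k
          rw [← hf']
          ring
        rw [e4]
        exact e3
      have q1 : ∀ l : Fin 3, (fun i j k => X l * b i j k) ∈ BS θ (d + 1) := fun l => BS_mul_X hb l
      have q2 : ∀ l m : Fin 3, (fun i j k => X m * (X l * b i j k)) ∈ BS θ (d + 1 + 1) :=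
        fun l m => BS_mul_X (q1 l) m
      refine hsoc (by omega) hb.1 fun l => hsoc (e := d + 1) (by omega) (q1 l).1 fun m =>
        hsoc (e := d + 1 + 1) (by omega) (q2 l m).1 fun t => ?_
      have h6 := cub (X t * (X m * X l)) ((isHomogeneous_X ℂ t).mul (hX2 m l))
      have h7 : (fun i j k => X t * (X m * (X l * b i j k))) =
          fun i j k => X t * (X m * X l) * b i j k := by
        funext i j k
        ring
      rw [h7]
      exact h6

end Pool.Agent.Helper71.FC
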